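import Pool.Agent.HypVol.Defs
open MeasureTheory Real ProbabilityTheory
open scoped ENNReal BigOperators

namespace MWidth
open HypVol

/-- `f_n`: the part of the Fourier series of `f` with frequencies in the layer `ΔQ_n` -/
noncomputable def lay (d n : ℕ) (f : (Fin d → ℝ) → ℂ) (x : Fin d → ℝ) : ℂ :=
  ∑ k ∈ layer d n, fc f k * Complex.exp (Complex.I * ((∑ j, (k j : ℝ) * x j : ℝ) : ℂ))

/-- the bound `2^(-an) max(n,1)^((d-1)b)` -/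
noncomputable def lam (d : ℕ) (a b : ℝ) (n : ℕ) : ℝ :=
  (2:ℝ)^(-(a * n)) * (max (n:ℝ) 1)^(((d:ℝ)-1) * b)

/-- the class `W^{a,b}_∞` -/
def Wab (d : ℕ) (a b : ℝ) : Set ((Fin d → ℝ) → ℂ) :=
  {f | MemLp f ⊤ (TP d) ∧ ∀ n : ℕ, eLpNorm (lay d n f) ⊤ (TP d) ≤ ENNReal.ofReal (lam d a b n)}

/-- `k`-th entropy number in `L_p` -/
noncomputable def entP (d : ℕ) (p : ℝ) (k : ℕ) (Θ : Set ((Fin d → ℝ) → ℂ)) : ℝ≥0∞ :=
  ⨅ (ε : ℝ≥0∞) (_ : 0 < ε ∧ ∃ c : Fin (2^k) → ((Fin d → ℝ) → ℂ),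
    (∀ j, MemLp (c j) (ENNReal.ofReal p) (TP d)) ∧
    ∀ f ∈ Θ, ∃ j, eLpNorm (fun x => f x - c j x) (ENNReal.ofReal p) (TP d) ≤ ε), ε

/-- `p`-dependent exponent: `1/2` for `p ≤ 2` and `1` for `p > 2` -/
noncomputable def alp (p : ℝ) : ℝ := if p ≤ 2 then 1/2 else 1

end MWidth
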