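import Pool.Agent.MWidth.Defs
open MeasureTheory Real ProbabilityTheory
open scoped ENNReal BigOperators

namespace MWidth
open HypVol

/-- the step hyperbolic cross `Q_n`: union of the layers `ΔQ_l`, `l ≤ n` -/
noncomputable def crs (d n : ℕ) : Finset (Fin d → ℤ) := (Finset.range (n+1)).biUnion (fun l => layer d l)

noncomputable def crs0 (d n : ℕ) : Finset (Fin d → ℤ) := (crs d n).erase 0

/-- trigonometric polynomial with spectrum in `Λ` and real coordinates `a` of its coefficients -/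
noncomputable def gp {d : ℕ} (Λ : Finset (Fin d → ℤ)) (a : Λ × Fin 2 → ℝ) (x : Fin d → ℝ) : ℂ :=
  ∑ k : Λ, ((a (k, 0) : ℂ) + (a (k, 1) : ℂ) * Complex.I) *
    Complex.exp (Complex.I * ((∑ j, (k.1 j : ℝ) * x j : ℝ) : ℂ))

def gball {d : ℕ} (Λ : Finset (Fin d → ℤ)) : Set (Λ × Fin 2 → ℝ) := {a | ∀ x : Fin d → ℝ, ‖gp Λ a x‖ ≤ 1}

noncomputable def gtb {d : ℕ} (n : ℕ) (Λ : Finset (Fin d → ℤ)) (β : Λ × Fin 2) (x : Gr d n) : ℝ :=
  Real.sqrt 2 * (if β.2 = x.2 then Real.cos (th β.1.1 x.1)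
    else if β.2 = 0 then Real.sin (th β.1.1 x.1) else - Real.sin (th β.1.1 x.1))

/-- trigonometric polynomials with spectrum in the step hyperbolic cross `Q_n` -/
def TQ (d n : ℕ) : Set ((Fin d → ℝ) → ℂ) :=
  {t | ∃ c : (Fin d → ℤ) → ℂ, t = fun x => ∑ k ∈ crs d n,
    c k * Complex.exp (Complex.I * ((∑ j, (k j : ℝ) * x j : ℝ) : ℂ))}

/-- the class `W̄^{a,b}_∞`: sums of `t_n ∈ T(Q_n)`, `n ≥ 1`, with `‖t_n‖_∞ ≤ 2^(-an) n^((d-1)b)` -/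
def Wbar (d : ℕ) (a b : ℝ) : Set ((Fin d → ℝ) → ℂ) :=
  {f | ∃ t : ℕ → (Fin d → ℝ) → ℂ, (∀ n : ℕ, 1 ≤ n → t n ∈ TQ d n ∧
    eLpNorm (t n) ⊤ (TP d) ≤ ENNReal.ofReal (lam d a b n)) ∧ f = fun x => ∑' n : ℕ, t (n + 1) x}

end MWidth
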