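import Pool.Agent.HypVol.Defs
import Pool.Agent.MWidth.Defs
import Pool.Agent.HypVol.L_layer_bound
import Pool.Agent.HypVol.L_pair_count
import Pool.Agent.HypVol.L_kern_sum
import Pool.Agent.HypVol.L_tb_facts
import Pool.Agent.HypVol.L_shp_lower
open MeasureTheory Real ProbabilityTheory
open scoped ENNReal BigOperators

namespace MWidth
open HypVol

theorem E_bound (d : ℕ) (hd : 3 ≤ d) : ∃ a C : ℝ, 0 < a ∧ 0 < C ∧ ∀ n : ℕ, 1 ≤ n →
    (∑ x : Gr d n, ∑ y : Gr d n, (∑ i : (layer d n) × Fin 2, tb i x * tb i y) *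
      (Real.exp ((Real.sqrt (a * n / (2^(n+1) * shp d n)))^2 * ∑ i : (layer d n) × Fin 2, tb i x * tb i y) - 1
        - (Real.sqrt (a * n / (2^(n+1) * shp d n)))^2 * ∑ i : (layer d n) × Fin 2, tb i x * tb i y))
        / (Fintype.card (Gr d n) : ℝ)^2 ≤ C := by
  obtain ⟨a, C0, ha, hC0, hk⟩ := kern_sum d (by omega)
  obtain ⟨c1, hc1, hshp⟩ := shp_lower d (by omega)
  refine ⟨a, a / (2 * c1) * (4 ^ d * C0), ha, by positivity, fun n hn => ?_⟩
  set F : (Fin d → ℕ) → ℝ := fun T => (1 + 2 * Th d n T) ^ 2 *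
    (Real.exp (a * n * Th d n T / (2 ^ n * shp d n)) - 1) with hF
  have hTh : ∀ T : Fin d → ℕ, 0 ≤ Th d n T := by
    intro T
    unfold Th
    positivity
  have hF0 : ∀ T, 0 ≤ F T := by
    intro T
    have h1 := hTh T
    have h2 : 0 ≤ a * n * Th d n T / (2 ^ n * shp d n) := by positivity
    have h3 : 0 ≤ Real.exp (a * n * Th d n T / (2 ^ n * shp d n)) - 1 := by
      have := Real.one_le_exp h2
      linarith
    simp only [hF]
    positivity
  obtain ⟨-, -, -, htb⟩ := tb_facts d n (by omega) hn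
  have hs : (Real.sqrt (a * n / (2 ^ (n + 1) * shp d n))) ^ 2 = a * n / (2 ^ (n + 1) * shp d n) :=
    Real.sq_sqrt (by positivity)
  set q : ℝ := a * n / (2 ^ (n + 1) * shp d n) with hq
  have hc : 0 ≤ q := by positivity
  have hpt : ∀ x y : Gr d n, (∑ i : (layer d n) × Fin 2, tb i x * tb i y) *
      (Real.exp ((Real.sqrt q) ^ 2 * ∑ i : (layer d n) × Fin 2, tb i x * tb i y) - 1
        - (Real.sqrt q) ^ 2 * ∑ i : (layer d n) × Fin 2, tb i x * tb i y) ≤
      q * F (fun j => T1 n (x.1 j) (y.1 j)) := by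
    intro x y
    set D := ∑ i : (layer d n) × Fin 2, tb i x * tb i y with hD
    set θ := Th d n (fun j => T1 n (x.1 j) (y.1 j)) with hθ
    have hDb : |D| ≤ 2 * θ := (htb x y).trans (by
      have := layer_bound d n x.1 y.1
      linarith)
    have hθ0 : 0 ≤ θ := hTh _
    have hF' : F (fun j => T1 n (x.1 j) (y.1 j)) =
        (1 + 2 * θ) ^ 2 * (Real.exp (q * (2 * θ)) - 1) := by
      simp only [hF, ← hθ, hq]
      congr 3
      rw [pow_succ]
      by_cases h0 : (shp d n : ℝ) = 0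
      · rw [h0]; simp
      · field_simp
    rw [hF', hs]
    have hR : 0 ≤ Real.exp (q * (2 * θ)) - 1 := by
      have := Real.one_le_exp (show 0 ≤ q * (2 * θ) by positivity)
      linarith
    rcases le_or_gt 0 D with h | h
    · have hD2 : D ≤ 2 * θ := (le_abs_self D).trans hDb
      have hqD : 0 ≤ q * D := mul_nonneg hc h
      -- e^t - 1 - t ≤ t (e^t - 1)
      have key : Real.exp (q * D) - 1 - q * D ≤ (q * D) * (Real.exp (q * D) - 1) := by
        have h1 : 1 - q * D ≤ Real.exp (-(q * D)) := by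
          have := Real.add_one_le_exp (-(q * D))
          linarith
        have h2 : Real.exp (-(q * D)) * Real.exp (q * D) = 1 := by
          rw [← Real.exp_add]; simp
        have h3 : (1 - q * D) * Real.exp (q * D) ≤ 1 := by
          calc (1 - q * D) * Real.exp (q * D) ≤ Real.exp (-(q * D)) * Real.exp (q * D) :=
                mul_le_mul_of_nonneg_right h1 (Real.exp_pos _).le
            _ = 1 := h2
        nlinarith
      have h3 : 0 ≤ Real.exp (q * D) - 1 := by
        have := Real.one_le_exp hqD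
        linarith
      have h4 : Real.exp (q * D) - 1 ≤ Real.exp (q * (2 * θ)) - 1 := by
        have := Real.exp_le_exp.2 (mul_le_mul_of_nonneg_left hD2 hc)
        linarith
      calc D * (Real.exp (q * D) - 1 - q * D) ≤ D * ((q * D) * (Real.exp (q * D) - 1)) :=
            mul_le_mul_of_nonneg_left key h
        _ = q * (D ^ 2 * (Real.exp (q * D) - 1)) := by ring
        _ ≤ q * ((1 + 2 * θ) ^ 2 * (Real.exp (q * (2 * θ)) - 1)) := by
            apply mul_le_mul_of_nonneg_left _ hc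
            have h5 : D ^ 2 ≤ (1 + 2 * θ) ^ 2 := by
              apply pow_le_pow_left₀ h
              linarith
            exact mul_le_mul h5 h4 h3 (by positivity)
    · have h1 : 0 ≤ Real.exp (q * D) - 1 - q * D := by
        have := Real.add_one_le_exp (q * D)
        linarith
      have h2 : D * (Real.exp (q * D) - 1 - q * D) ≤ 0 :=
        mul_nonpos_of_nonpos_of_nonneg h.le h1
      exact h2.trans (mul_nonneg hc (mul_nonneg (sq_nonneg _) hR))
  have hsum : (∑ x : Gr d n, ∑ y : Gr d n, F (fun j => T1 n (x.1 j) (y.1 j))) =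
      4 * ∑ x : Fin d → Fin (2 ^ (n + 2)), ∑ y : Fin d → Fin (2 ^ (n + 2)),
        F (fun j => T1 n (x j) (y j)) := by
    rw [Fintype.sum_prod_type]
    simp_rw [Fintype.sum_prod_type, Finset.sum_const, Finset.card_univ, Fintype.card_fin,
      nsmul_eq_mul, ← Finset.mul_sum]
    push_cast
    ring
  have hcard : (Fintype.card (Gr d n) : ℝ) ^ 2 = 4 * ((2 : ℝ) ^ (n + 2)) ^ (2 * d) := by
    have : Fintype.card (Gr d n) = (2 ^ (n + 2)) ^ d * 2 := by
      simp [Gr, Fintype.card_prod, Fintype.card_pi]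
    rw [this]
    push_cast
    rw [mul_pow, ← pow_mul, ← pow_mul, ← pow_mul]
    rw [mul_comm d 2]
    norm_num
    ring
  have hmain : (∑ x : Gr d n, ∑ y : Gr d n, (∑ i : (layer d n) × Fin 2, tb i x * tb i y) *
      (Real.exp ((Real.sqrt q) ^ 2 * ∑ i : (layer d n) × Fin 2, tb i x * tb i y) - 1
        - (Real.sqrt q) ^ 2 * ∑ i : (layer d n) × Fin 2, tb i x * tb i y))
        / (Fintype.card (Gr d n) : ℝ)^2 ≤ q * (4 ^ d * C0 * n * 2 ^ n) := by
    rw [hcard, div_le_iff₀ (by positivity)]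
    calc (∑ x : Gr d n, ∑ y : Gr d n, (∑ i : (layer d n) × Fin 2, tb i x * tb i y) *
      (Real.exp ((Real.sqrt q) ^ 2 * ∑ i : (layer d n) × Fin 2, tb i x * tb i y) - 1
        - (Real.sqrt q) ^ 2 * ∑ i : (layer d n) × Fin 2, tb i x * tb i y))
        ≤ ∑ x : Gr d n, ∑ y : Gr d n, q * F (fun j => T1 n (x.1 j) (y.1 j)) :=
          Finset.sum_le_sum fun x _ => Finset.sum_le_sum fun y _ => hpt x y
      _ = q * ∑ x : Gr d n, ∑ y : Gr d n, F (fun j => T1 n (x.1 j) (y.1 j)) := by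
          simp_rw [Finset.mul_sum]
      _ = q * (4 * ∑ x : Fin d → Fin (2 ^ (n + 2)), ∑ y : Fin d → Fin (2 ^ (n + 2)),
          F (fun j => T1 n (x j) (y j))) := by rw [hsum]
      _ ≤ q * (4 * (((2:ℝ)^(n+2))^(2*d) * 4^d *
          ∑ T : Fin d → Fin (n+3), (1/2)^(∑ j, ((T j : Fin (n+3)) : ℕ)) * F (fun j => T j))) := by
          apply mul_le_mul_of_nonneg_left _ hc
          have := pair_count d n F hF0
          linarith
      _ ≤ q * (4 * (((2:ℝ)^(n+2))^(2*d) * 4^d * (C0 * n * 2 ^ n))) := by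
          have := hk n hn
          gcongr
      _ = q * (4 ^ d * C0 * n * 2 ^ n) * (4 * ((2 : ℝ) ^ (n + 2)) ^ (2 * d)) := by ring
  refine hmain.trans ?_
  have hn' : (1:ℝ) ≤ n := by exact_mod_cast hn
  have hsh : c1 * (n:ℝ)^2 ≤ shp d n := by
    refine le_trans ?_ (hshp n hn)
    apply mul_le_mul_of_nonneg_left _ hc1.le
    exact pow_le_pow_right₀ hn' (by omega)
  have hshpos : (0:ℝ) < shp d n := lt_of_lt_of_le (by positivity) hsh
  rw [hq]
  have h2n : (2:ℝ)^(n+1) = 2 * 2^n := by ring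
  rw [h2n]
  have e1 : a * n / (2 * 2 ^ n * shp d n) * (4 ^ d * C0 * n * 2 ^ n) =
      (a / 2 * (4 ^ d * C0)) * ((n:ℝ)^2 / shp d n) := by
    field_simp
  rw [e1]
  have e2 : (n:ℝ)^2 / shp d n ≤ 1 / c1 := by
    rw [div_le_div_iff₀ hshpos hc1]
    linarith
  calc (a / 2 * (4 ^ d * C0)) * ((n:ℝ)^2 / shp d n) ≤ (a / 2 * (4 ^ d * C0)) * (1 / c1) :=
        mul_le_mul_of_nonneg_left e2 (by positivity)
    _ = a / (2 * c1) * (4 ^ d * C0) := by field_simp

end MWidth
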