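import Pool.Agent.HypVol.Defs
import Pool.Agent.MWidth.Defs
import Pool.Agent.HypVol.L_gam_mgf
import Pool.Agent.HypVol.L_gam_prob
import Pool.Agent.HypVol.L_TP_prob
open MeasureTheory Real ProbabilityTheory
open scoped ENNReal BigOperators

namespace MWidth
open HypVol
namespace Sol_Lp_gauss


/-- the coordinates of the real part -/
noncomputable def Lq_vol_R {d n : ℕ} (x : Fin d → ℝ) (i : (layer d n) × Fin 2) : ℝ :=
  if i.2 = 0 then Real.cos (∑ j, (i.1.1 j : ℝ) * x j) else -Real.sin (∑ j, (i.1.1 j : ℝ) * x j)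

/-- the coordinates of the imaginary part -/
noncomputable def Lq_vol_I {d n : ℕ} (x : Fin d → ℝ) (i : (layer d n) × Fin 2) : ℝ :=
  if i.2 = 0 then Real.sin (∑ j, (i.1.1 j : ℝ) * x j) else Real.cos (∑ j, (i.1.1 j : ℝ) * x j)

theorem Lq_vol_term (u v θ : ℝ) : ((u : ℂ) + (v : ℂ) * Complex.I) *
    Complex.exp (Complex.I * ((θ : ℝ) : ℂ)) =
    ((Real.cos θ * u + -Real.sin θ * v : ℝ) : ℂ) +
      ((Real.sin θ * u + Real.cos θ * v : ℝ) : ℂ) * Complex.I := by
  rw [mul_comm Complex.I, Complex.exp_mul_I, ← Complex.ofReal_cos, ← Complex.ofReal_sin]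
  push_cast
  linear_combination ((v:ℂ) * Complex.sin θ) * Complex.I_sq

theorem Lq_vol_poly {d n : ℕ} (a : (layer d n) × Fin 2 → ℝ) (x : Fin d → ℝ) :
    poly a x = ((∑ i, Lq_vol_R x i * a i : ℝ) : ℂ) + ((∑ i, Lq_vol_I x i * a i : ℝ) : ℂ) * Complex.I := by
  unfold poly
  rw [Fintype.sum_prod_type, Fintype.sum_prod_type]
  simp only [Fin.sum_univ_two, Lq_vol_R, Lq_vol_I, if_true, Fin.isValue, one_ne_zero, if_false]
  rw [Complex.ofReal_sum, Complex.ofReal_sum, Finset.sum_mul, ← Finset.sum_add_distrib]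
  refine Finset.sum_congr rfl fun k _ => ?_
  exact Lq_vol_term _ _ _

theorem Lq_vol_sqR {d n : ℕ} (x : Fin d → ℝ) :
    ∑ i : (layer d n) × Fin 2, Lq_vol_R x i ^ 2 = (layer d n).card := by
  rw [Fintype.sum_prod_type]
  simp only [Fin.sum_univ_two, Lq_vol_R, if_true, Fin.isValue, one_ne_zero, if_false, neg_sq,
    Real.cos_sq_add_sin_sq]
  simp

theorem Lq_vol_sqI {d n : ℕ} (x : Fin d → ℝ) :
    ∑ i : (layer d n) × Fin 2, Lq_vol_I x i ^ 2 = (layer d n).card := by
  rw [Fintype.sum_prod_type]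
  simp only [Fin.sum_univ_two, Lq_vol_I, if_true, Fin.isValue, one_ne_zero, if_false,
    Real.sin_sq_add_cos_sq]
  simp

theorem Lq_vol_pw (q : ℝ) (hq : 1 ≤ q) (t : ℝ) (ht : 0 ≤ t) :
    t ^ q ≤ (Nat.factorial ⌈q⌉₊ : ℝ) * Real.exp t := by
  have hf : (1:ℝ) ≤ (Nat.factorial ⌈q⌉₊ : ℝ) := by
    exact_mod_cast Nat.one_le_iff_ne_zero.2 (Nat.factorial_ne_zero _)
  by_cases h1 : t ≤ 1
  · have h2 : t ^ q ≤ 1 := Real.rpow_le_one ht h1 (by linarith)
    have h3 : 1 ≤ Real.exp t := Real.one_le_exp ht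
    nlinarith
  · push Not at h1
    have h2 : t ^ q ≤ t ^ (⌈q⌉₊ : ℝ) := Real.rpow_le_rpow_of_exponent_le h1.le (Nat.le_ceil q)
    rw [Real.rpow_natCast] at h2
    have h3 := Real.pow_div_factorial_le_exp t ht ⌈q⌉₊
    rw [div_le_iff₀ (by linarith)] at h3
    linarith

theorem Lq_vol_point {d n : ℕ} (q : ℝ) (hq : 1 ≤ q) (hM : 0 < (layer d n).card)
    (a : (layer d n) × Fin 2 → ℝ) (x : Fin d → ℝ) :
    ‖poly a x‖ ^ q ≤ Real.sqrt ((layer d n).card) ^ q * (Nat.factorial ⌈q⌉₊ : ℝ) / 2 *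
      (Real.exp (∑ i, (2 / Real.sqrt ((layer d n).card) * Lq_vol_R x i) * a i) +
       Real.exp (∑ i, (-2 / Real.sqrt ((layer d n).card) * Lq_vol_R x i) * a i) +
       Real.exp (∑ i, (2 / Real.sqrt ((layer d n).card) * Lq_vol_I x i) * a i) +
       Real.exp (∑ i, (-2 / Real.sqrt ((layer d n).card) * Lq_vol_I x i) * a i)) := by
  set S := Real.sqrt ((layer d n).card) with hS
  have hSpos : 0 < S := Real.sqrt_pos.2 (by exact_mod_cast hM)
  set u := ∑ i, Lq_vol_R x i * a i with hu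
  set v := ∑ i, Lq_vol_I x i * a i with hv
  have hn : ‖poly a x‖ ≤ |u| + |v| := by
    rw [Lq_vol_poly]
    refine (norm_add_le _ _).trans ?_
    rw [norm_mul, Complex.norm_I, mul_one, Complex.norm_real, Complex.norm_real,
      Real.norm_eq_abs, Real.norm_eq_abs]
  have e1 : ∀ (c : ℝ) (g : (layer d n) × Fin 2 → ℝ), ∑ i, (c * g i) * a i = c * ∑ i, g i * a i := by
    intro c g
    rw [Finset.mul_sum]
    exact Finset.sum_congr rfl fun i _ => by ring
  rw [e1, e1, e1, e1, ← hu, ← hv]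
  have h1 : ‖poly a x‖ ^ q = S ^ q * (‖poly a x‖ / S) ^ q := by
    rw [← Real.mul_rpow hSpos.le (by positivity), mul_div_cancel₀ _ hSpos.ne']
  have h2 := Lq_vol_pw q hq (‖poly a x‖ / S) (by positivity)
  have h3 : Real.exp (‖poly a x‖ / S) ≤ Real.exp (|u| / S + |v| / S) := by
    apply Real.exp_le_exp.2
    rw [← add_div]
    exact div_le_div_of_nonneg_right hn hSpos.le
  have h4 : Real.exp (|u| / S + |v| / S) ≤
      (Real.exp (2 * (|u| / S)) + Real.exp (2 * (|v| / S))) / 2 := by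
    rw [Real.exp_add, two_mul, two_mul, Real.exp_add, Real.exp_add]
    nlinarith [sq_nonneg (Real.exp (|u| / S) - Real.exp (|v| / S))]
  have h5 : ∀ w : ℝ, Real.exp (2 * (|w| / S)) ≤ Real.exp (2 / S * w) + Real.exp (-2 / S * w) := by
    intro w
    rcases abs_cases w with ⟨h, _⟩ | ⟨h, _⟩
    · rw [h]
      have : 2 * (w / S) = 2 / S * w := by ring
      rw [this]
      linarith [Real.exp_pos (-2 / S * w)]
    · rw [h]
      have : 2 * (-w / S) = -2 / S * w := by ring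
      rw [this]
      linarith [Real.exp_pos (2 / S * w)]
  have h6 := h5 u
  have h7 := h5 v
  rw [h1]
  have hSq : 0 ≤ S ^ q := Real.rpow_nonneg hSpos.le _
  have hf : (0:ℝ) ≤ (Nat.factorial ⌈q⌉₊ : ℝ) := Nat.cast_nonneg _
  have h8 : Real.exp (‖poly a x‖ / S) ≤ (Real.exp (2 / S * u) + Real.exp (-2 / S * u) +
      Real.exp (2 / S * v) + Real.exp (-2 / S * v)) / 2 := by linarith
  calc S ^ q * (‖poly a x‖ / S) ^ q
      ≤ S ^ q * ((Nat.factorial ⌈q⌉₊ : ℝ) * Real.exp (‖poly a x‖ / S)) :=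
        mul_le_mul_of_nonneg_left h2 hSq
    _ ≤ S ^ q * ((Nat.factorial ⌈q⌉₊ : ℝ) * ((Real.exp (2 / S * u) + Real.exp (-2 / S * u) +
      Real.exp (2 / S * v) + Real.exp (-2 / S * v)) / 2)) :=
        mul_le_mul_of_nonneg_left (mul_le_mul_of_nonneg_left h8 hf) hSq
    _ = _ := by ring

theorem Lq_vol_lin {α : Type} [MeasurableSpace α] (μ : Measure α) (c : ℝ≥0∞)
    {f1 f2 f3 f4 : α → ℝ≥0∞} (h1 : Measurable f1) (h2 : Measurable f2) (h3 : Measurable f3)
    (h4 : Measurable f4) : ∫⁻ a, c * (f1 a + f2 a + f3 a + f4 a) ∂μ =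
      c * (∫⁻ a, f1 a ∂μ + ∫⁻ a, f2 a ∂μ + ∫⁻ a, f3 a ∂μ + ∫⁻ a, f4 a ∂μ) := by
  have m2 : Measurable fun a => f1 a + f2 a := h1.add h2
  have m3 : Measurable fun a => f1 a + f2 a + f3 a := m2.add h3
  have m4 : Measurable fun a => f1 a + f2 a + f3 a + f4 a := m3.add h4
  rw [lintegral_const_mul c m4, lintegral_add_left m3, lintegral_add_left m2,
    lintegral_add_left h1]

theorem Lq_vol_cont {d n : ℕ} : Continuous (fun p : ((layer d n) × Fin 2 → ℝ) × (Fin d → ℝ) =>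
    poly p.1 p.2) := by
  unfold poly
  fun_prop


theorem Lg_exp {d n : ℕ} (hM : 0 < (layer d n).card) (c : ℝ) (hc : c ^ 2 = 4)
    (g : (layer d n) × Fin 2 → ℝ) (hg : ∑ i, g i ^ 2 = (layer d n).card) :
    ∫⁻ a, ENNReal.ofReal (Real.exp (∑ i, (c / Real.sqrt ((layer d n).card) * g i) * a i))
      ∂(gam ((layer d n) × Fin 2) 1) ≤ ENNReal.ofReal (Real.exp 2) := by
  have hM' : (0:ℝ) < (layer d n).card := by exact_mod_cast hM
  have e1 : ∑ i, (c / Real.sqrt ((layer d n).card) * g i) ^ 2 = 4 := by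
    have : ∀ i, (c / Real.sqrt ((layer d n).card) * g i) ^ 2 = 4 / (layer d n).card * g i ^ 2 := by
      intro i
      rw [mul_pow, div_pow, Real.sq_sqrt hM'.le, hc]
    simp only [this]
    rw [← Finset.mul_sum, hg]
    field_simp
  obtain ⟨h1, h2⟩ := gam_mgf (ι := (layer d n) × Fin 2) 1
    (fun i => c / Real.sqrt ((layer d n).card) * g i)
  have e2 : ∀ a : (layer d n) × Fin 2 → ℝ,
      ∑ i, (c / Real.sqrt ((layer d n).card) * g i) * a i =
      ∑ i, a i * (c / Real.sqrt ((layer d n).card) * g i) := fun a =>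
    Finset.sum_congr rfl fun i _ => mul_comm _ _
  simp only [e2]
  rw [← ofReal_integral_eq_lintegral_ofReal h1
    (Filter.Eventually.of_forall fun a => (Real.exp_pos _).le), h2, e1]
  refine ENNReal.ofReal_le_ofReal (Real.exp_le_exp.2 ?_)
  norm_num

theorem Lg_mom {d n : ℕ} (q : ℝ) (hq : 1 ≤ q) (hM : 0 < (layer d n).card) (x : Fin d → ℝ) :
    ∫⁻ a, ENNReal.ofReal (‖poly a x‖ ^ q) ∂(gam ((layer d n) × Fin 2) 1) ≤
      ENNReal.ofReal (2 * Real.exp 2 * (Nat.factorial ⌈q⌉₊ : ℝ) *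
        Real.sqrt ((layer d n).card) ^ q) := by
  set S := Real.sqrt ((layer d n).card) with hS
  have hSpos : 0 < S := Real.sqrt_pos.2 (by exact_mod_cast hM)
  have hSq : 0 ≤ S ^ q := Real.rpow_nonneg hSpos.le _
  have hK : (0:ℝ) ≤ S ^ q * (Nat.factorial ⌈q⌉₊ : ℝ) / 2 := by positivity
  have hm : ∀ g : (layer d n) × Fin 2 → ℝ, Measurable fun a : (layer d n) × Fin 2 → ℝ =>
      ENNReal.ofReal (Real.exp (∑ i, g i * a i)) := by
    intro g
    fun_prop
  calc ∫⁻ a, ENNReal.ofReal (‖poly a x‖ ^ q) ∂(gam ((layer d n) × Fin 2) 1)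
      ≤ ∫⁻ a, ENNReal.ofReal (S ^ q * (Nat.factorial ⌈q⌉₊ : ℝ) / 2) *
      (ENNReal.ofReal (Real.exp (∑ i, (2 / S * Lq_vol_R x i) * a i)) +
       ENNReal.ofReal (Real.exp (∑ i, (-2 / S * Lq_vol_R x i) * a i)) +
       ENNReal.ofReal (Real.exp (∑ i, (2 / S * Lq_vol_I x i) * a i)) +
       ENNReal.ofReal (Real.exp (∑ i, (-2 / S * Lq_vol_I x i) * a i)))
        ∂(gam ((layer d n) × Fin 2) 1) := by
        refine lintegral_mono fun a => ?_
        rw [← ENNReal.ofReal_add (Real.exp_pos _).le (Real.exp_pos _).le,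
          ← ENNReal.ofReal_add (by positivity) (Real.exp_pos _).le,
          ← ENNReal.ofReal_add (by positivity) (Real.exp_pos _).le,
          ← ENNReal.ofReal_mul hK]
        exact ENNReal.ofReal_le_ofReal (Lq_vol_point q hq hM a x)
    _ = ENNReal.ofReal (S ^ q * (Nat.factorial ⌈q⌉₊ : ℝ) / 2) *
      (∫⁻ a, ENNReal.ofReal (Real.exp (∑ i, (2 / S * Lq_vol_R x i) * a i))
          ∂(gam ((layer d n) × Fin 2) 1) +
       ∫⁻ a, ENNReal.ofReal (Real.exp (∑ i, (-2 / S * Lq_vol_R x i) * a i))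
          ∂(gam ((layer d n) × Fin 2) 1) +
       ∫⁻ a, ENNReal.ofReal (Real.exp (∑ i, (2 / S * Lq_vol_I x i) * a i))
          ∂(gam ((layer d n) × Fin 2) 1) +
       ∫⁻ a, ENNReal.ofReal (Real.exp (∑ i, (-2 / S * Lq_vol_I x i) * a i))
          ∂(gam ((layer d n) × Fin 2) 1)) := by
        exact Lq_vol_lin _ _ (hm _) (hm _) (hm _) (hm _)
    _ ≤ ENNReal.ofReal (S ^ q * (Nat.factorial ⌈q⌉₊ : ℝ) / 2) *
      (ENNReal.ofReal (Real.exp 2) + ENNReal.ofReal (Real.exp 2) +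
       ENNReal.ofReal (Real.exp 2) + ENNReal.ofReal (Real.exp 2)) := by
        gcongr
        · exact Lg_exp hM 2 (by norm_num) _ (Lq_vol_sqR x)
        · exact Lg_exp hM (-2) (by norm_num) _ (Lq_vol_sqR x)
        · exact Lg_exp hM 2 (by norm_num) _ (Lq_vol_sqI x)
        · exact Lg_exp hM (-2) (by norm_num) _ (Lq_vol_sqI x)
    _ = _ := by
        rw [← ENNReal.ofReal_add (by positivity) (by positivity),
          ← ENNReal.ofReal_add (by positivity) (by positivity),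
          ← ENNReal.ofReal_add (by positivity) (by positivity),
          ← ENNReal.ofReal_mul hK]
        congr 1
        ring

theorem Lp_gauss (d : ℕ) (p : ℝ) (hp : 1 ≤ p) : ∃ C : ℝ, 0 < C ∧ ∀ n : ℕ,
    1 / 2 ≤ gam ((layer d n) × Fin 2) 1 {u | eLpNorm (poly u) (ENNReal.ofReal p) (TP d)
      ≤ ENNReal.ofReal (C * Real.sqrt ((layer d n).card))} := by
  have := TP_prob d
  set c : ℝ := 2 * Real.exp 2 * (Nat.factorial ⌈p⌉₊ : ℝ) with hc
  have hf : (1:ℝ) ≤ (Nat.factorial ⌈p⌉₊ : ℝ) := by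
    exact_mod_cast Nat.one_le_iff_ne_zero.2 (Nat.factorial_ne_zero _)
  have he : (1:ℝ) ≤ Real.exp 2 := Real.one_le_exp (by norm_num)
  have hc1 : 1 ≤ c := by
    rw [hc]
    nlinarith
  have hq0 : ENNReal.ofReal p ≠ 0 := by
    simp only [ne_eq, ENNReal.ofReal_eq_zero, not_le]
    linarith
  refine ⟨2 * c, by linarith, fun n => ?_⟩
  have hprob := gam_prob ((layer d n) × Fin 2) 1
  rcases Nat.eq_zero_or_pos (layer d n).card with hM | hM
  · have hempty : IsEmpty ((layer d n) × Fin 2) := by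
      have : layer d n = ∅ := Finset.card_eq_zero.1 hM
      refine ⟨fun i => ?_⟩
      exact Finset.ne_empty_of_mem i.1.2 this
    have hset : {u : (layer d n) × Fin 2 → ℝ |
        eLpNorm (poly u) (ENNReal.ofReal p) (TP d) ≤
          ENNReal.ofReal (2 * c * Real.sqrt ((layer d n).card))} = Set.univ := by
      ext a
      simp only [Set.mem_univ, iff_true, Set.mem_ofPred_eq]
      have hp : poly a = 0 := by
        funext x
        rw [Lq_vol_poly]
        simp
      rw [hp, eLpNorm_zero]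
      exact bot_le
    rw [hset, measure_univ]
    exact ENNReal.half_le_self
  · set S := Real.sqrt ((layer d n).card) with hS
    have hSpos : 0 < S := Real.sqrt_pos.2 (by exact_mod_cast hM)
    have hSq : 0 < S ^ p := Real.rpow_pos_of_pos hSpos _
    have hGm : Measurable (fun a : (layer d n) × Fin 2 → ℝ =>
        ∫⁻ x, ENNReal.ofReal (‖poly a x‖ ^ p) ∂(TP d)) := by
      apply Measurable.lintegral_prod_right'
        (f := fun p' : ((layer d n) × Fin 2 → ℝ) × (Fin d → ℝ) => ENNReal.ofReal (‖poly p'.1 p'.2‖ ^ p))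
      exact ENNReal.measurable_ofReal.comp
        ((Lq_vol_cont.norm.measurable).pow_const p)
    have hfub : ∫⁻ a, ∫⁻ x, ENNReal.ofReal (‖poly a x‖ ^ p) ∂(TP d)
        ∂(gam ((layer d n) × Fin 2) 1) ≤ ENNReal.ofReal (c * S ^ p) := by
      rw [lintegral_lintegral_swap]
      · calc ∫⁻ x, ∫⁻ a, ENNReal.ofReal (‖poly a x‖ ^ p) ∂(gam ((layer d n) × Fin 2) 1) ∂(TP d)
            ≤ ∫⁻ x, ENNReal.ofReal (c * S ^ p) ∂(TP d) :=
              lintegral_mono fun x => Lg_mom p hp hM x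
          _ = _ := by
              rw [lintegral_const, measure_univ, mul_one]
      · exact (ENNReal.measurable_ofReal.comp
          ((Lq_vol_cont.norm.measurable).pow_const p)).aemeasurable
    have hmark := mul_meas_ge_le_lintegral (μ := gam ((layer d n) × Fin 2) 1) hGm
      (ENNReal.ofReal (2 * c * S ^ p))
    have hbad : gam ((layer d n) × Fin 2) 1 {a | ENNReal.ofReal (2 * c * S ^ p) ≤
        ∫⁻ x, ENNReal.ofReal (‖poly a x‖ ^ p) ∂(TP d)} ≤ 1 / 2 := by
      have h1 := hmark.trans hfub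
      have e1 : ENNReal.ofReal (c * S ^ p) =
          ENNReal.ofReal (2 * c * S ^ p) * (1 / 2) := by
        have : (1 / 2 : ℝ≥0∞) = ENNReal.ofReal (1 / 2) := by
          rw [ENNReal.ofReal_div_of_pos (by norm_num)]
          simp
        rw [this, ← ENNReal.ofReal_mul (by positivity)]
        congr 1
        ring
      rw [e1] at h1
      have h2 : ENNReal.ofReal (2 * c * S ^ p) ≠ 0 := by
        simp only [ne_eq, ENNReal.ofReal_eq_zero, not_le]
        positivity
      exact (ENNReal.mul_le_mul_iff_right h2 ENNReal.ofReal_ne_top).1 h1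
    have hsub : (Set.univ : Set ((layer d n) × Fin 2 → ℝ)) ⊆
        {a : (layer d n) × Fin 2 → ℝ |
          eLpNorm (poly a) (ENNReal.ofReal p) (TP d) ≤ ENNReal.ofReal (2 * c * S)} ∪
        {a | ENNReal.ofReal (2 * c * S ^ p) ≤
          ∫⁻ x, ENNReal.ofReal (‖poly a x‖ ^ p) ∂(TP d)} := by
      intro a _
      by_cases hn : eLpNorm (poly a) (ENNReal.ofReal p) (TP d) ≤ ENNReal.ofReal (2 * c * S)
      · exact Or.inl hn
      · refine Or.inr ?_
        push Not at hn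
        show ENNReal.ofReal (2 * c * S ^ p) ≤ ∫⁻ x, ENNReal.ofReal (‖poly a x‖ ^ p) ∂(TP d)
        rw [eLpNorm_eq_lintegral_rpow_enorm_toReal hq0 ENNReal.ofReal_ne_top,
          ENNReal.toReal_ofReal (by linarith)] at hn
        have h1 : ENNReal.ofReal (2 * c * S) ^ p ≤ ∫⁻ x, ‖poly a x‖ₑ ^ p ∂(TP d) := by
          have := ENNReal.rpow_le_rpow hn.le (by linarith : 0 ≤ p)
          rwa [← ENNReal.rpow_mul, one_div, inv_mul_cancel₀ (by linarith), ENNReal.rpow_one] at this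
        have h2 : ∀ x, ‖poly a x‖ₑ ^ p = ENNReal.ofReal (‖poly a x‖ ^ p) := by
          intro x
          rw [← ofReal_norm, ENNReal.ofReal_rpow_of_nonneg (norm_nonneg _) (by linarith)]
        simp only [h2] at h1
        refine le_trans ?_ h1
        rw [ENNReal.ofReal_rpow_of_nonneg (by positivity) (by linarith),
          Real.mul_rpow (by positivity) hSpos.le]
        refine ENNReal.ofReal_le_ofReal (mul_le_mul_of_nonneg_right ?_ hSq.le)
        calc 2 * c = (2 * c) ^ (1:ℝ) := (Real.rpow_one _).symm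
          _ ≤ (2 * c) ^ p := Real.rpow_le_rpow_of_exponent_le (by linarith) hp
    have hle := (measure_mono hsub).trans
      (measure_union_le (μ := gam ((layer d n) × Fin 2) 1) _ _)
    rw [measure_univ] at hle
    have h2 := hle.trans (add_le_add_right hbad _)
    have e2 : (1 / 2 : ℝ≥0∞) + 1 / 2 = 1 := ENNReal.add_halves 1
    have h3 := (e2.trans_le h2)
    exact (ENNReal.add_le_add_iff_right (by simp)).1 h3

end Sol_Lp_gauss

alias Lp_gauss := Sol_Lp_gauss.Lp_gauss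

end MWidth
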