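import Pool.Agent.HypVol.Defs
import Pool.Agent.MWidth.Defs
import Pool.Agent.HypVol.L_TP_prob
open MeasureTheory Real ProbabilityTheory
open scoped ENNReal BigOperators

namespace MWidth
open HypVol
namespace Sol_Lp_interp



theorem Lp_interp {d n : ℕ} (p q θ : ℝ) (hp : 2 < p) (hpq : p < q) (h0 : 0 < θ) (h1 : θ < 1)
    (h : 1 / p = θ / 2 + (1 - θ) / q) (u : (layer d n) × Fin 2 → ℝ) (A B : ℝ) (hA : 0 < A) (hB : 0 < B)
    (h2 : eLpNorm (poly u) 2 (TP d) ≤ ENNReal.ofReal A)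
    (hq : eLpNorm (poly u) (ENNReal.ofReal q) (TP d) ≤ ENNReal.ofReal B) :
    eLpNorm (poly u) (ENNReal.ofReal p) (TP d) ≤ ENNReal.ofReal (A ^ θ * B ^ (1 - θ)) := by
  have hp0 : 0 < p := by linarith
  have hq0 : 0 < q := by linarith
  have hcont : Continuous (poly u : (Fin d → ℝ) → ℂ) := by
    unfold poly
    fun_prop
  have hF : AEMeasurable (fun x => ‖poly u x‖ₑ) (TP d) := hcont.aestronglyMeasurable.enorm
  have e2 : eLpNorm (poly u) 2 (TP d) = (∫⁻ x, ‖poly u x‖ₑ ^ (2:ℝ) ∂(TP d)) ^ (1 / (2:ℝ)) := by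
    rw [eLpNorm_eq_lintegral_rpow_enorm_toReal two_ne_zero ENNReal.ofNat_ne_top]
    simp
  have eq' : eLpNorm (poly u) (ENNReal.ofReal q) (TP d) =
      (∫⁻ x, ‖poly u x‖ₑ ^ q ∂(TP d)) ^ (1 / q) := by
    rw [eLpNorm_eq_lintegral_rpow_enorm_toReal (ENNReal.ofReal_pos.2 hq0).ne' ENNReal.ofReal_ne_top,
      ENNReal.toReal_ofReal hq0.le]
  have ep : eLpNorm (poly u) (ENNReal.ofReal p) (TP d) =
      (∫⁻ x, ‖poly u x‖ₑ ^ p ∂(TP d)) ^ (1 / p) := by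
    rw [eLpNorm_eq_lintegral_rpow_enorm_toReal (ENNReal.ofReal_pos.2 hp0).ne' ENNReal.ofReal_ne_top,
      ENNReal.toReal_ofReal hp0.le]
  have ha : 0 < p * θ / 2 := by positivity
  have h1' : 0 < 1 - θ := by linarith
  have hb : 0 < p * (1 - θ) / q := by positivity
  have hab : p * θ / 2 + p * (1 - θ) / q = 1 := by
    have : p * (1 / p) = 1 := by field_simp
    rw [h] at this
    linear_combination this
  have key := ENNReal.lintegral_mul_norm_pow_le (μ := TP d)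
    (f := fun x => ‖poly u x‖ₑ ^ (2:ℝ)) (g := fun x => ‖poly u x‖ₑ ^ q)
    (hF.pow_const 2) (hF.pow_const q) ha.le hb.le hab
  have hint : (∫⁻ x, ‖poly u x‖ₑ ^ p ∂(TP d)) ≤
      (∫⁻ x, ‖poly u x‖ₑ ^ (2:ℝ) ∂(TP d)) ^ (p * θ / 2) *
        (∫⁻ x, ‖poly u x‖ₑ ^ q ∂(TP d)) ^ (p * (1 - θ) / q) := by
    refine le_trans (le_of_eq ?_) key
    refine lintegral_congr fun x => ?_
    rw [← ENNReal.rpow_mul, ← ENNReal.rpow_mul,
      ← ENNReal.rpow_add_of_nonneg _ _ (by positivity) (by positivity)]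
    congr 1
    field_simp
    ring
  rw [ep]
  calc (∫⁻ x, ‖poly u x‖ₑ ^ p ∂(TP d)) ^ (1 / p)
      ≤ ((∫⁻ x, ‖poly u x‖ₑ ^ (2:ℝ) ∂(TP d)) ^ (p * θ / 2) *
        (∫⁻ x, ‖poly u x‖ₑ ^ q ∂(TP d)) ^ (p * (1 - θ) / q)) ^ (1 / p) :=
        ENNReal.rpow_le_rpow hint (by positivity)
    _ = ((∫⁻ x, ‖poly u x‖ₑ ^ (2:ℝ) ∂(TP d)) ^ (1 / (2:ℝ))) ^ θ *
        ((∫⁻ x, ‖poly u x‖ₑ ^ q ∂(TP d)) ^ (1 / q)) ^ (1 - θ) := by
        rw [ENNReal.mul_rpow_of_nonneg _ _ (by positivity), ← ENNReal.rpow_mul, ← ENNReal.rpow_mul,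
          ← ENNReal.rpow_mul, ← ENNReal.rpow_mul]
        congr 2
        · field_simp
        · field_simp
    _ ≤ (ENNReal.ofReal A) ^ θ * (ENNReal.ofReal B) ^ (1 - θ) := by
        rw [← e2, ← eq']
        exact mul_le_mul' (ENNReal.rpow_le_rpow h2 h0.le) (ENNReal.rpow_le_rpow hq h1'.le)
    _ = ENNReal.ofReal (A ^ θ * B ^ (1 - θ)) := by
        rw [ENNReal.ofReal_rpow_of_pos hA, ENNReal.ofReal_rpow_of_pos hB,
          ENNReal.ofReal_mul (by positivity)]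

end Sol_Lp_interp

alias Lp_interp := Sol_Lp_interp.Lp_interp

end MWidth
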