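import Pool.Agent.HypVol.Defs
import Pool.Agent.MWidth.Defs
import Pool.Agent.MWidth.Defs2
import Pool.Agent.HypVol.L_TP_prob
open MeasureTheory Real ProbabilityTheory
open scoped ENNReal BigOperators

namespace MWidth
open HypVol
namespace Sol_TQ_dec


theorem tqd_pos {d : ℕ} (U : Set (Fin d → ℝ)) (hU : IsOpen U) (x : Fin d → ℝ) (hx : x ∈ U)
    (hx0 : ∀ j, x j ∈ Set.Ico 0 (2 * π)) : 0 < TP d U := by
  obtain ⟨ε, hε, hb⟩ := Metric.isOpen_iff.1 hU x hx
  have hsub : Set.pi Set.univ (fun j => Set.Ico (x j) (min (x j + ε / 2) (2 * π))) ⊆ U := by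
    intro y hy
    apply hb
    rw [Metric.mem_ball]
    refine lt_of_le_of_lt ((dist_pi_le_iff (by positivity : (0:ℝ) ≤ ε / 2)).2 (fun j => ?_))
      (by linarith)
    have h1 := hy j (Set.mem_univ j)
    rw [Real.dist_eq, abs_le]
    have h2 := h1.1
    have h3 := h1.2.trans_le (min_le_left _ _)
    constructor <;> linarith
  refine lt_of_lt_of_le ?_ (measure_mono hsub)
  unfold TP
  have : IsFiniteMeasure (ENNReal.ofReal (2 * π)⁻¹ • (volume : Measure ℝ).restrict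
      (Set.Ico 0 (2 * π))) := Measure.smul_finite _ ENNReal.ofReal_ne_top
  rw [Measure.pi_pi]
  rw [pos_iff_ne_zero, Finset.prod_ne_zero_iff]
  intro j _
  have hxj := hx0 j
  have hin : Set.Ico (x j) (min (x j + ε / 2) (2 * π)) ∩ Set.Ico 0 (2 * π) =
      Set.Ico (x j) (min (x j + ε / 2) (2 * π)) :=
    Set.inter_eq_left.2 (fun t ht => ⟨hxj.1.trans ht.1, ht.2.trans_le (min_le_right _ _)⟩)
  rw [Measure.smul_apply, smul_eq_mul, Measure.restrict_apply measurableSet_Ico, hin,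
    Real.volume_Ico]
  apply mul_ne_zero
  · rw [ENNReal.ofReal_ne_zero_iff]
    positivity
  · rw [ENNReal.ofReal_ne_zero_iff, sub_pos, lt_min_iff]
    exact ⟨by linarith, hxj.2⟩

theorem tqd_one (m : ℤ) :
    ∫ x : ℝ, Complex.exp (Complex.I * ((((m : ℤ) : ℝ) * x : ℝ) : ℂ))
      ∂(ENNReal.ofReal (2 * π)⁻¹ • (volume : Measure ℝ).restrict (Set.Ico 0 (2 * π))) =
      if m = 0 then 1 else 0 := by
  have hpi : (0 : ℝ) < 2 * π := by positivity
  rw [integral_smul_measure, ENNReal.toReal_ofReal (by positivity),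
    integral_Ico_eq_integral_Ioo, ← integral_Ioc_eq_integral_Ioo,
    ← intervalIntegral.integral_of_le hpi.le]
  by_cases hm : m = 0
  · subst hm
    rw [if_pos rfl]
    have h1 : (fun x : ℝ => Complex.exp (Complex.I * (((((0 : ℤ) : ℤ) : ℝ) * x : ℝ) : ℂ))) =
        fun _ => (1 : ℂ) := by
      funext x
      simp
    rw [h1, intervalIntegral.integral_const, sub_zero, smul_smul, inv_mul_cancel₀ hpi.ne',
      one_smul]
  · rw [if_neg hm]
    have h1 : (fun x : ℝ => Complex.exp (Complex.I * ((((m : ℤ) : ℝ) * x : ℝ) : ℂ))) =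
        fun x : ℝ => Complex.exp ((Complex.I * (m : ℂ)) * (x : ℂ)) := by
      funext x
      congr 1
      push_cast
      ring
    have hc : Complex.I * (m : ℂ) ≠ 0 :=
      mul_ne_zero Complex.I_ne_zero (by exact_mod_cast hm)
    have h2 : Complex.exp (Complex.I * (m : ℂ) * ((2 * π : ℝ) : ℂ)) = 1 := by
      have h3 : Complex.I * (m : ℂ) * ((2 * π : ℝ) : ℂ) =
          (m : ℂ) * (2 * (π : ℂ) * Complex.I) := by
        push_cast
        ring
      rw [h3]
      exact Complex.exp_int_mul_two_pi_mul_I m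
    rw [h1, integral_exp_mul_complex hc, h2]
    simp

theorem tqd_orth {d : ℕ} (l : Fin d → ℤ) :
    ∫ x : Fin d → ℝ, Complex.exp (Complex.I * ((∑ j, (l j : ℝ) * x j : ℝ) : ℂ)) ∂(TP d) =
      if l = 0 then 1 else 0 := by
  have h1 : (fun x : Fin d → ℝ => Complex.exp (Complex.I * ((∑ j, (l j : ℝ) * x j : ℝ) : ℂ))) =
      fun x => ∏ j, Complex.exp (Complex.I * ((((l j : ℤ) : ℝ) * x j : ℝ) : ℂ)) := by
    funext x
    rw [← Complex.exp_sum]
    congr 1
    push_cast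
    rw [Finset.mul_sum]
  rw [h1]
  haveI : IsFiniteMeasure (ENNReal.ofReal (2 * π)⁻¹ •
      (volume : Measure ℝ).restrict (Set.Ico 0 (2 * π))) :=
    Measure.smul_finite _ ENNReal.ofReal_ne_top
  have h2 := integral_fintype_prod_eq_prod (𝕜 := ℂ) (ι := Fin d) (E := fun _ => ℝ)
    (μ := fun _ => ENNReal.ofReal (2 * π)⁻¹ •
      (volume : Measure ℝ).restrict (Set.Ico 0 (2 * π)))
    (fun j x => Complex.exp (Complex.I * ((((l j : ℤ) : ℝ) * x : ℝ) : ℂ)))
  rw [TP, h2, Finset.prod_congr rfl fun j _ => tqd_one (l j)]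
  by_cases h : l = 0
  · rw [if_pos h, h]
    simp
  · rw [if_neg h]
    obtain ⟨j, hj⟩ : ∃ j, l j ≠ 0 := by
      by_contra hcon
      push Not at hcon
      exact h (funext hcon)
    exact Finset.prod_eq_zero (Finset.mem_univ j) (if_neg hj)

theorem tqd_zero_mem (d n : ℕ) : (0 : Fin d → ℤ) ∈ crs d n := by
  classical
  unfold crs
  rw [Finset.mem_biUnion]
  refine ⟨0, by simp, ?_⟩
  unfold layer
  rw [Finset.mem_filter, Fintype.mem_piFinset]
  refine ⟨fun j => by simp, fun _ => 0, by simp, fun j => ?_⟩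
  simp [rho]

theorem tqd_per {d : ℕ} (S : Finset (Fin d → ℤ)) (c : (Fin d → ℤ) → ℂ) (x : Fin d → ℝ) (m : Fin d → ℤ) :
    ∑ k ∈ S, c k * Complex.exp (Complex.I * ((∑ j, (k j : ℝ) * (x j - (m j : ℝ) * (2 * π)) : ℝ) : ℂ)) =
    ∑ k ∈ S, c k * Complex.exp (Complex.I * ((∑ j, (k j : ℝ) * x j : ℝ) : ℂ)) := by
  apply Finset.sum_congr rfl
  intro k _
  congr 1
  have e : Complex.I * ((∑ j, (k j : ℝ) * (x j - (m j : ℝ) * (2 * π)) : ℝ) : ℂ) =
      Complex.I * ((∑ j, (k j : ℝ) * x j : ℝ) : ℂ) -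
        ((∑ j, k j * m j : ℤ) : ℂ) * (2 * π * Complex.I) := by
    push_cast
    rw [Finset.sum_mul, Finset.mul_sum, Finset.mul_sum, ← Finset.sum_sub_distrib]
    apply Finset.sum_congr rfl
    intro j _
    ring
  rw [e]
  exact Complex.exp_periodic.sub_int_mul_eq _

theorem tqd_sup {d : ℕ} (S : Finset (Fin d → ℤ)) (c : (Fin d → ℤ) → ℂ) (δ : ℝ) (hδ : 0 ≤ δ)
    (h : eLpNorm (fun x : Fin d → ℝ => ∑ k ∈ S, c k * Complex.exp (Complex.I * ((∑ j, (k j : ℝ) * x j : ℝ) : ℂ)))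
      ⊤ (TP d) ≤ ENNReal.ofReal δ) (x : Fin d → ℝ) :
    ‖∑ k ∈ S, c k * Complex.exp (Complex.I * ((∑ j, (k j : ℝ) * x j : ℝ) : ℂ))‖ ≤ δ := by
  set P : (Fin d → ℝ) → ℂ := fun x => ∑ k ∈ S, c k * Complex.exp (Complex.I * ((∑ j, (k j : ℝ) * x j : ℝ) : ℂ)) with hP
  have hPc : Continuous P := by
    simp only [hP]
    fun_prop
  have hae : ∀ᵐ x ∂(TP d), ‖P x‖ ≤ δ := by
    rw [eLpNorm_exponent_top] at h
    filter_upwards [enorm_ae_le_eLpNormEssSup P (TP d)] with y hy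
    have h2 := hy.trans h
    rw [← ofReal_norm] at h2
    exact (ENNReal.ofReal_le_ofReal_iff hδ).1 h2
  by_contra hcon
  push Not at hcon
  have hU : IsOpen {y : Fin d → ℝ | δ < ‖P y‖} :=
    isOpen_lt continuous_const hPc.norm
  have hpos := tqd_pos _ hU (fun j => x j - (toIcoDiv Real.two_pi_pos 0 (x j) : ℝ) * (2 * π))
    (by
      show δ < ‖P _‖
      simp only [hP]
      rw [tqd_per]
      exact hcon)
    (fun j => by
      have h1 := toIcoMod_mem_Ico Real.two_pi_pos 0 (x j)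
      rw [zero_add] at h1
      have h2 : x j - (toIcoDiv Real.two_pi_pos 0 (x j) : ℝ) * (2 * π) =
          toIcoMod Real.two_pi_pos 0 (x j) := by
        rw [toIcoMod, zsmul_eq_mul]
      show x j - (toIcoDiv Real.two_pi_pos 0 (x j) : ℝ) * (2 * π) ∈ _
      rw [h2]
      exact h1)
  have hz : TP d {y : Fin d → ℝ | δ < ‖P y‖} = 0 := by
    rw [ae_iff] at hae
    simpa only [not_le] using hae
  exact absurd hz hpos.ne'


theorem TQ_dec (d n : ℕ) (hd : 1 ≤ d) (t : (Fin d → ℝ) → ℂ) (ht : t ∈ TQ d n) (l : ℝ) (hl : 0 < l)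
    (h : eLpNorm t ⊤ (TP d) ≤ ENNReal.ofReal l) :
    (∀ x, ‖t x‖ ≤ l) ∧ ∃ (z : ℂ) (a : (crs0 d n) × Fin 2 → ℝ), ‖z‖ ≤ 1 ∧ a ∈ gball (crs0 d n) ∧
      t = fun x => (l : ℂ) * z + ((2 * l : ℝ) : ℂ) * gp (crs0 d n) a x := by
  obtain ⟨c, rfl⟩ := ht
  have hsup := tqd_sup (crs d n) c l hl.le h
  refine ⟨hsup, ?_⟩
  haveI := TP_prob d
  have hlc : (l : ℂ) ≠ 0 := by exact_mod_cast hl.ne'
  have hint : ∫ x : Fin d → ℝ, (∑ k ∈ crs d n, c k * Complex.exp (Complex.I * ((∑ j, (k j : ℝ) * x j : ℝ) : ℂ))) ∂(TP d)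
      = c 0 := by
    rw [integral_finsetSum]
    · have : ∀ k ∈ crs d n, ∫ x : Fin d → ℝ, c k * Complex.exp (Complex.I * ((∑ j, (k j : ℝ) * x j : ℝ) : ℂ)) ∂(TP d)
          = if k = 0 then c k else 0 := by
        intro k _
        rw [integral_const_mul, tqd_orth]
        by_cases hk : k = 0
        · rw [if_pos hk, if_pos hk, mul_one]
        · rw [if_neg hk, if_neg hk, mul_zero]
      rw [Finset.sum_congr rfl this, Finset.sum_ite_eq' (crs d n) 0, if_pos (tqd_zero_mem d n)]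
    · intro k _
      refine Integrable.const_mul ?_ _
      refine Integrable.of_bound ?_ 1 (Filter.Eventually.of_forall fun x => ?_)
      · refine Continuous.aestronglyMeasurable ?_
        fun_prop
      · rw [Complex.norm_exp_I_mul_ofReal]
  have hc0 : ‖c 0‖ ≤ l := by
    rw [← hint]
    refine (norm_integral_le_of_norm_le_const (C := l) (Filter.Eventually.of_forall hsup)).trans ?_
    simp
  have hsplit : ∀ x : Fin d → ℝ, ∑ k ∈ crs0 d n, c k * Complex.exp (Complex.I * ((∑ j, (k j : ℝ) * x j : ℝ) : ℂ)) =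
      ∑ k ∈ crs d n, c k * Complex.exp (Complex.I * ((∑ j, (k j : ℝ) * x j : ℝ) : ℂ)) - c 0 := by
    intro x
    unfold crs0
    rw [← Finset.add_sum_erase (crs d n) _ (tqd_zero_mem d n)]
    simp
  have hgp : ∀ x : Fin d → ℝ, gp (crs0 d n) (fun p => if p.2 = 0 then (c p.1.1 / (2 * l)).re else (c p.1.1 / (2 * l)).im) x =
      (∑ k ∈ crs0 d n, c k * Complex.exp (Complex.I * ((∑ j, (k j : ℝ) * x j : ℝ) : ℂ))) / (2 * l) := by
    intro x
    unfold gp
    rw [Finset.sum_div, ← Finset.sum_coe_sort (crs0 d n)]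
    refine Finset.sum_congr rfl fun k _ => ?_
    have e1 : ((((fun p : (crs0 d n) × Fin 2 => if p.2 = 0 then (c p.1.1 / (2 * l)).re else (c p.1.1 / (2 * l)).im) (k, 0) : ℝ)) : ℂ) +
        ((((fun p : (crs0 d n) × Fin 2 => if p.2 = 0 then (c p.1.1 / (2 * l)).re else (c p.1.1 / (2 * l)).im) (k, 1) : ℝ)) : ℂ) * Complex.I =
        c k.1 / (2 * l) := by
      simp only [if_true, Fin.isValue, one_ne_zero, if_false]
      exact Complex.re_add_im _
    rw [e1]
    ring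
  refine ⟨c 0 / l, (fun p => if p.2 = 0 then (c p.1.1 / (2 * l)).re else (c p.1.1 / (2 * l)).im), ?_, ?_, ?_⟩
  · rw [norm_div, Complex.norm_real, Real.norm_eq_abs, abs_of_pos hl, div_le_one hl]
    exact hc0
  · intro x
    rw [hgp x, hsplit x, norm_div]
    have e2 : ‖(2 * l : ℂ)‖ = 2 * l := by
      rw [norm_mul, Complex.norm_real, Real.norm_eq_abs, abs_of_pos hl]
      simp
    rw [e2, div_le_one (by positivity)]
    refine (norm_sub_le _ _).trans ?_
    have := hsup x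
    linarith
  · funext x
    rw [hgp x, hsplit x]
    push_cast
    field_simp
    ring

end Sol_TQ_dec

alias TQ_dec := Sol_TQ_dec.TQ_dec

end MWidth
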