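import Pool.Agent.HypVol.Defs
import Pool.Agent.MWidth.Defs
import Pool.Agent.HypVol.L_TP_prob
open MeasureTheory Real ProbabilityTheory
open scoped ENNReal BigOperators

namespace MWidth
open HypVol
namespace Sol_fc_unique



theorem fcu_torus {d : ℕ} (g : UnitAddTorus (Fin d) → ℂ)
    (hg : MemLp g 2 (Measure.pi fun _ : Fin d => (AddCircle.haarAddCircle : Measure UnitAddCircle)))
    (h : ∀ n : Fin d → ℤ, ∫ t, UnitAddTorus.mFourier (-n) t * g t
      ∂(Measure.pi fun _ : Fin d => (AddCircle.haarAddCircle : Measure UnitAddCircle)) = 0) :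
    g =ᵐ[Measure.pi fun _ : Fin d => (AddCircle.haarAddCircle : Measure UnitAddCircle)] 0 := by
  have hG : UnitAddTorus.mFourierBasis.repr (hg.toLp g) = 0 := by
    ext n
    have h1 := UnitAddTorus.mFourierBasis_repr (hg.toLp g) n
    rw [h1]
    unfold UnitAddTorus.mFourierCoeff
    refine Eq.trans ?_ (h n)
    apply integral_congr_ae
    filter_upwards [hg.coeFn_toLp] with t ht
    rw [smul_eq_mul, ht]
  have hG0 : hg.toLp g = 0 := (LinearIsometryEquiv.map_eq_zero_iff _).1 hG
  have h2 := hg.coeFn_toLp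
  rw [hG0] at h2
  exact h2.symm.trans (Lp.coeFn_zero _ _ _)

theorem fcu_B : MeasurePreserving (fun y : ℝ => y * (2 * π)⁻¹)
    (ENNReal.ofReal (2 * π)⁻¹ • volume.restrict (Set.Ico 0 (2 * π)))
    (volume.restrict (Set.Ioc (0 : ℝ) (0 + 1))) := by
  have hpi : 0 < 2 * π := by positivity
  refine ⟨by fun_prop, ?_⟩
  have h1 : Set.Ico 0 (2 * π) = (fun y : ℝ => y * (2 * π)⁻¹) ⁻¹' (Set.Ico 0 1) := by
    ext y
    simp only [Set.mem_Ico, Set.mem_preimage]
    constructor
    · rintro ⟨a, b⟩
      refine ⟨by positivity, ?_⟩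
      rw [← div_eq_mul_inv, div_lt_one hpi]
      exact b
    · rintro ⟨a, b⟩
      rw [← div_eq_mul_inv, div_lt_one hpi] at b
      refine ⟨?_, b⟩
      by_contra hy
      push Not at hy
      have : y * (2 * π)⁻¹ < 0 := mul_neg_of_neg_of_pos hy (by positivity)
      linarith
  rw [Measure.map_smul, h1, ← Measure.restrict_map (by fun_prop) measurableSet_Ico,
    Real.map_volume_mul_right (by positivity), Measure.restrict_smul, smul_smul, inv_inv,
    abs_of_pos hpi, ← ENNReal.ofReal_mul (by positivity), inv_mul_cancel₀ hpi.ne',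
    ENNReal.ofReal_one, one_smul, zero_add]
  exact Measure.restrict_congr_set Ico_ae_eq_Ioc

theorem fcu_pi1 : MeasurePreserving (fun y : ℝ => ((y * (2 * π)⁻¹ : ℝ) : UnitAddCircle))
    (ENNReal.ofReal (2 * π)⁻¹ • volume.restrict (Set.Ico 0 (2 * π)))
    (AddCircle.haarAddCircle : Measure UnitAddCircle) := by
  have A : MeasurePreserving ((↑) : ℝ → AddCircle (1:ℝ)) (volume.restrict (Set.Ioc 0 (0+1))) volume :=
    AddCircle.measurePreserving_mk 1 0
  have hv : (volume : Measure (AddCircle (1:ℝ))) = AddCircle.haarAddCircle := by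
    rw [AddCircle.volume_eq_smul_haarAddCircle, ENNReal.ofReal_one, one_smul]
  rw [hv] at A
  exact A.comp fcu_B

theorem fc_unique (d : ℕ) (f : (Fin d → ℝ) → ℂ) (hf : MemLp f ⊤ (TP d)) (h : ∀ k : Fin d → ℤ, fc f k = 0) :
    f =ᵐ[TP d] 0 := by
  haveI := TP_prob d
  have hp1 : IsProbabilityMeasure (ENNReal.ofReal (2 * π)⁻¹ • volume.restrict (Set.Ico 0 (2 * π))) := by
    constructor
    have h1 := fcu_pi1.measure_preimage MeasurableSet.univ.nullMeasurableSet
    rw [Set.preimage_univ] at h1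
    rw [h1]
    exact measure_univ
  let P : (Fin d → ℝ) → UnitAddTorus (Fin d) := fun x j => ((x j * (2 * π)⁻¹ : ℝ) : UnitAddCircle)
  have hP : MeasurePreserving P (TP d)
      (Measure.pi fun _ : Fin d => (AddCircle.haarAddCircle : Measure UnitAddCircle)) :=
    measurePreserving_pi _ _ (fun _ => fcu_pi1)
  let σ : UnitAddTorus (Fin d) → (Fin d → ℝ) := fun t j => 2 * π * (AddCircle.equivIco 1 0 (t j) : ℝ)
  have hσ : Measurable σ := by
    rw [measurable_pi_iff]
    intro j
    have h1 : Measurable fun t : UnitAddTorus (Fin d) => AddCircle.measurableEquivIco 1 0 (t j) :=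
      (AddCircle.measurableEquivIco 1 0).measurable.comp (measurable_pi_apply j)
    exact (measurable_subtype_coe.comp h1).const_mul _
  have hσP : ∀ᵐ x ∂(TP d), σ (P x) = x := by
    have h1 : ∀ᵐ x ∂(TP d), ∀ j, x j ∈ Set.Ico 0 (2 * π) := by
      rw [ae_all_iff]
      intro j
      have h2 : ∀ᵐ y ∂(ENNReal.ofReal (2 * π)⁻¹ • volume.restrict (Set.Ico 0 (2 * π))),
          y ∈ Set.Ico 0 (2 * π) :=
        Measure.ae_smul_measure (ae_restrict_mem measurableSet_Ico) _
      exact (Measure.tendsto_eval_ae_ae (i := j)).eventually h2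
    filter_upwards [h1] with x hx
    funext j
    have hpi : 0 < 2 * π := by positivity
    have h3 : x j * (2 * π)⁻¹ ∈ Set.Ico (0 : ℝ) (0 + 1) := by
      have := hx j
      refine ⟨mul_nonneg this.1 (by positivity), ?_⟩
      rw [zero_add, ← div_eq_mul_inv, div_lt_one hpi]
      exact this.2
    change 2 * π * (AddCircle.equivIco 1 0 ((x j * (2 * π)⁻¹ : ℝ) : AddCircle (1:ℝ)) : ℝ) = x j
    rw [AddCircle.equivIco_coe_of_mem h3]
    field_simp
  obtain ⟨f', hf's, hff'⟩ : ∃ f', StronglyMeasurable f' ∧ f =ᵐ[TP d] f' :=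
    ⟨hf.1.mk f, hf.1.stronglyMeasurable_mk, hf.1.ae_eq_mk⟩
  have hf'p : MemLp f' ⊤ (TP d) := (memLp_congr_ae hff').1 hf
  let g : UnitAddTorus (Fin d) → ℂ := fun t => f' (σ t)
  have hgs : StronglyMeasurable g := hf's.comp_measurable hσ
  have hgP : (fun x => g (P x)) =ᵐ[TP d] f' := by
    filter_upwards [hσP] with x hx
    change f' (σ (P x)) = f' x
    rw [hx]
  have hg2 : MemLp g 2
      (Measure.pi fun _ : Fin d => (AddCircle.haarAddCircle : Measure UnitAddCircle)) := by
    rw [← hP.map_eq]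
    rw [memLp_map_measure_iff hgs.aestronglyMeasurable hP.measurable.aemeasurable]
    have h1 : MemLp f' 2 (TP d) := hf'p.mono_exponent le_top
    exact (memLp_congr_ae hgP).2 h1
  have hg0 := fcu_torus g hg2 (by
    intro n
    rw [← hP.map_eq]
    refine (integral_map (f := fun t => UnitAddTorus.mFourier (-n) t * g t)
      hP.measurable.aemeasurable
      (((UnitAddTorus.mFourier (-n)).continuous.stronglyMeasurable.mul
        hgs).aestronglyMeasurable)).trans ?_
    rw [← h n]
    unfold fc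
    apply integral_congr_ae
    filter_upwards [hgP, hff'] with x hx hx'
    have h1 : g (P x) = f' x := hx
    rw [h1, hx', mul_comm]
    congr 1
    change ∏ i, fourier ((-n) i) (((x i * (2 * π)⁻¹ : ℝ) : AddCircle (1:ℝ))) = _
    simp only [fourier_coe_apply]
    rw [← Complex.exp_sum]
    congr 1
    push_cast
    rw [Finset.mul_sum, ← Finset.sum_neg_distrib]
    refine Finset.sum_congr rfl fun i _ => ?_
    have hpi : (π : ℂ) ≠ 0 := by exact_mod_cast Real.pi_ne_zero
    simp only [Pi.neg_apply]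
    push_cast
    field_simp)
  have h3 : (fun x => g (P x)) =ᵐ[TP d] 0 := hP.quasiMeasurePreserving.ae_eq_comp hg0
  exact hff'.trans (hgP.symm.trans h3)

end Sol_fc_unique

alias fc_unique := Sol_fc_unique.fc_unique

end MWidth
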