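import Pool.Agent.HypVol.Defs
import Pool.Agent.MWidth.Defs
import Pool.Agent.HypVol.L_TP_prob
import Pool.Agent.HypVol.L_ess_sup
import Pool.Agent.HypVol.L_fc_poly
import Pool.Agent.MWidth.L_fc_unique
open MeasureTheory Real ProbabilityTheory
open scoped ENNReal BigOperators

namespace MWidth
open HypVol
namespace Sol_W_tail






theorem wt_fin : IsFiniteMeasure (ENNReal.ofReal (2 * π)⁻¹ •
    (volume : Measure ℝ).restrict (Set.Ico 0 (2 * π))) := by
  constructor
  rw [Measure.smul_apply, Measure.restrict_apply MeasurableSet.univ, Set.univ_inter,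
    Real.volume_Ico, smul_eq_mul]
  exact ENNReal.mul_lt_top ENNReal.ofReal_lt_top ENNReal.ofReal_lt_top

theorem wt_1d (r : ℤ) : ∫ x : ℝ, Complex.exp (Complex.I * (((r : ℝ) * x : ℝ) : ℂ))
    ∂(ENNReal.ofReal (2 * π)⁻¹ • (volume : Measure ℝ).restrict (Set.Ico 0 (2 * π)))
    = if r = 0 then 1 else 0 := by
  rw [integral_smul_measure, integral_Ico_eq_integral_Ioc,
    ← intervalIntegral.integral_of_le (by positivity)]
  have hpi : (0 : ℝ) < 2 * π := by positivity
  by_cases hr : r = 0
  · subst hr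
    simp only [Int.cast_zero, zero_mul, Complex.ofReal_zero, mul_zero, Complex.exp_zero, if_true]
    rw [intervalIntegral.integral_const, ENNReal.toReal_ofReal (by positivity), sub_zero, smul_smul,
      inv_mul_cancel₀ hpi.ne', one_smul]
  · rw [if_neg hr]
    have hc : Complex.I * (r : ℂ) ≠ 0 := mul_ne_zero Complex.I_ne_zero (by exact_mod_cast hr)
    have h1 : ∀ x : ℝ, Complex.exp (Complex.I * (((r : ℝ) * x : ℝ) : ℂ))
        = Complex.exp ((Complex.I * r) * x) := by
      intro x; congr 1; push_cast; ring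
    simp only [h1]
    rw [integral_exp_mul_complex hc]
    have h2 : Complex.exp ((Complex.I * (r : ℂ)) * ((2 * π : ℝ) : ℂ)) = 1 := by
      rw [Complex.exp_eq_one_iff]
      exact ⟨r, by push_cast; ring⟩
    rw [h2]
    simp

theorem wt_orth (d : ℕ) (r : Fin d → ℤ) :
    ∫ x : Fin d → ℝ, Complex.exp (Complex.I * ((∑ j, (r j : ℝ) * x j : ℝ) : ℂ)) ∂(TP d)
      = if r = 0 then 1 else 0 := by
  have h1 : ∀ x : Fin d → ℝ, Complex.exp (Complex.I * ((∑ j, (r j : ℝ) * x j : ℝ) : ℂ))
      = ∏ j, Complex.exp (Complex.I * (((r j : ℝ) * x j : ℝ) : ℂ)) := by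
    intro x
    rw [← Complex.exp_sum]
    congr 1
    push_cast
    rw [Finset.mul_sum]
  simp only [h1]
  unfold TP
  haveI := wt_fin
  rw [integral_fintype_prod_eq_prod
    (fun (j : Fin d) (x : ℝ) => Complex.exp (Complex.I * (((r j : ℝ) * x : ℝ) : ℂ)))]
  simp only [wt_1d]
  by_cases hr : r = 0
  · simp [hr]
  · rw [if_neg hr]
    obtain ⟨j, hj⟩ := Function.ne_iff.mp hr
    exact Finset.prod_eq_zero (Finset.mem_univ j) (if_neg hj)

theorem wt_rho_iff (k : ℤ) (s : ℕ) : k ∈ rho s ↔ s = k.natAbs.size := by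
  have h0 : k ∈ rho s ↔ ((2:ℤ)^s / 2 ≤ |k| ∧ |k| < (2:ℤ)^s) := Iff.rfl
  rw [h0, Int.abs_eq_natAbs]
  obtain ⟨a, ha⟩ : ∃ a, a = k.natAbs := ⟨_, rfl⟩
  rw [← ha]
  cases s with
  | zero =>
    rw [eq_comm, Nat.size_eq_zero]
    constructor
    · rintro ⟨_, h⟩
      rw [pow_zero] at h
      omega
    · rintro rfl
      norm_num
  | succ t =>
    have h1 : (2:ℤ)^(t+1) / 2 = 2^t := by
      rw [pow_succ]; exact Int.mul_ediv_cancel _ (by norm_num)
    rw [h1]
    have h2 : ((2:ℤ)^t ≤ (a : ℤ)) ↔ 2^t ≤ a := by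
      constructor
      · intro h; exact_mod_cast h
      · intro h; exact_mod_cast h
    have h3 : ((a:ℤ) < 2^(t+1)) ↔ a < 2^(t+1) := by
      constructor
      · intro h; exact_mod_cast h
      · intro h; exact_mod_cast h
    rw [h2, h3, ← Nat.lt_size, ← Nat.size_le]
    omega

theorem wt_layer_iff {d : ℕ} (n : ℕ) (k : Fin d → ℤ) :
    k ∈ layer d n ↔ n = ∑ j, (k j).natAbs.size := by
  classical
  unfold layer
  rw [Finset.mem_filter, Fintype.mem_piFinset]
  constructor
  · rintro ⟨_, s, hs, hk⟩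
    rw [← hs]
    apply Finset.sum_congr rfl
    intro j _
    exact (wt_rho_iff _ _).mp (hk j)
  · intro hn
    refine ⟨?_, fun j => (k j).natAbs.size, hn.symm, fun j => (wt_rho_iff _ _).mpr rfl⟩
    intro j
    rw [Finset.mem_Ioo, ← abs_lt]
    have h1 : k j ∈ rho (k j).natAbs.size := (wt_rho_iff _ _).mpr rfl
    refine lt_of_lt_of_le h1.2 ?_
    apply pow_le_pow_right₀ (by norm_num)
    rw [hn]
    exact Finset.single_le_sum (f := fun j => (k j).natAbs.size) (fun _ _ => Nat.zero_le _)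
      (Finset.mem_univ j)

theorem wt_lam_nonneg (d : ℕ) (a b : ℝ) (n : ℕ) : 0 ≤ lam d a b n := by
  unfold lam; positivity

theorem wt_lam_summable (d : ℕ) (a b : ℝ) (ha : 0 < a) : Summable (lam d a b) := by
  obtain ⟨K, hK⟩ := exists_nat_ge (((d:ℝ) - 1) * b)
  obtain ⟨r, hr⟩ : ∃ r : ℝ, r = (2:ℝ)^(-a) := ⟨_, rfl⟩
  have hr0 : 0 < r := by rw [hr]; positivity
  have hr1 : r < 1 := by
    rw [hr]; exact Real.rpow_lt_one_of_one_lt_of_neg (by norm_num) (by linarith)
  have h1 : Summable (fun n : ℕ => (n:ℝ)^K * r^n) :=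
    summable_pow_mul_geometric_of_norm_lt_one K (by rw [Real.norm_of_nonneg hr0.le]; exact hr1)
  have h2 : Summable (fun n : ℕ => r^n) := summable_geometric_of_lt_one hr0.le hr1
  refine Summable.of_nonneg_of_le (fun n => wt_lam_nonneg d a b n) (fun n => ?_) (h1.add h2)
  unfold lam
  have e1 : (2:ℝ)^(-(a * n)) = r^n := by
    rw [hr, ← Real.rpow_natCast, ← Real.rpow_mul (by norm_num)]
    congr 1; ring
  have e2 : (max (n:ℝ) 1)^(((d:ℝ)-1)*b) ≤ (n:ℝ)^K + 1 := by
    calc (max (n:ℝ) 1)^(((d:ℝ)-1)*b) ≤ (max (n:ℝ) 1)^(K:ℝ) :=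
          Real.rpow_le_rpow_of_exponent_le (le_max_right _ _) hK
      _ = (max (n:ℝ) 1)^K := Real.rpow_natCast _ _
      _ ≤ (n:ℝ)^K + 1 := by
        rcases le_total (n:ℝ) 1 with h | h
        · rw [max_eq_right h, one_pow]
          have : 0 ≤ (n:ℝ)^K := by positivity
          linarith
        · rw [max_eq_left h]; linarith
  rw [e1]
  calc r^n * (max (n:ℝ) 1)^(((d:ℝ)-1)*b) ≤ r^n * ((n:ℝ)^K + 1) := by gcongr
    _ = (n:ℝ)^K * r^n + r^n := by ring

theorem wt_lay_bound (d : ℕ) (a b : ℝ) (f : (Fin d → ℝ) → ℂ) (hf : f ∈ Wab d a b) (n : ℕ)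
    (x : Fin d → ℝ) : ‖lay d n f x‖ ≤ lam d a b n := by
  have h1 : lay d n f = poly (fun p : (layer d n) × Fin 2 =>
      if p.2 = 0 then (fc f p.1.1).re else (fc f p.1.1).im) := by
    funext x
    unfold lay poly
    rw [← Finset.sum_coe_sort]
    apply Finset.sum_congr rfl
    intro k _
    congr 1
    simp [Complex.re_add_im]
  have h2 := hf.2 n
  rw [h1] at h2 ⊢
  exact ess_sup_poly _ _ (wt_lam_nonneg d a b n) h2 x

theorem wt_norm_exp (t : ℝ) : ‖Complex.exp (Complex.I * (t : ℂ))‖ = 1 := by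
  rw [mul_comm, Complex.norm_exp_ofReal_mul_I]

theorem wt_norm_exp' (t : ℝ) : ‖Complex.exp (-(Complex.I * (t : ℂ)))‖ = 1 := by
  have : -(Complex.I * (t : ℂ)) = Complex.I * ((-t : ℝ) : ℂ) := by push_cast; ring
  rw [this, wt_norm_exp]

theorem wt_cont_exp (d : ℕ) (r : Fin d → ℤ) : Continuous (fun x : Fin d → ℝ =>
    Complex.exp (Complex.I * ((∑ j, (r j : ℝ) * x j : ℝ) : ℂ))) := by
  apply Complex.continuous_exp.comp
  apply continuous_const.mul
  apply Complex.continuous_ofReal.comp
  fun_prop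

theorem wt_cont_exp' (d : ℕ) (r : Fin d → ℤ) : Continuous (fun x : Fin d → ℝ =>
    Complex.exp (-(Complex.I * ((∑ j, (r j : ℝ) * x j : ℝ) : ℂ)))) := by
  apply Complex.continuous_exp.comp
  apply Continuous.neg
  apply continuous_const.mul
  apply Complex.continuous_ofReal.comp
  fun_prop

theorem wt_fc_lay (d n : ℕ) (f : (Fin d → ℝ) → ℂ) (k : Fin d → ℤ) :
    fc (lay d n f) k = if k ∈ layer d n then fc f k else 0 := by
  haveI := TP_prob d
  have h0 : fc (lay d n f) k = ∫ x, lay d n f x *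
    Complex.exp (-(Complex.I * ((∑ j, (k j : ℝ) * x j : ℝ) : ℂ))) ∂(TP d) := rfl
  have h1 : ∀ x : Fin d → ℝ, lay d n f x *
      Complex.exp (-(Complex.I * ((∑ j, (k j : ℝ) * x j : ℝ) : ℂ)))
      = ∑ l ∈ layer d n, fc f l *
        Complex.exp (Complex.I * ((∑ j, (((l - k) j : ℤ) : ℝ) * x j : ℝ) : ℂ)) := by
    intro x
    unfold lay
    rw [Finset.sum_mul]
    apply Finset.sum_congr rfl
    intro l _
    rw [mul_assoc, ← Complex.exp_add]
    congr 2
    have h2 : (∑ j, (((l - k) j : ℤ) : ℝ) * x j : ℝ)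
        = (∑ j, (l j : ℝ) * x j) - ∑ j, (k j : ℝ) * x j := by
      rw [← Finset.sum_sub_distrib]
      apply Finset.sum_congr rfl
      intro j _
      rw [Pi.sub_apply]; push_cast; ring
    rw [h2]
    push_cast
    ring
  rw [h0]
  simp only [h1]
  rw [integral_finset_sum]
  · simp only [integral_const_mul, wt_orth, sub_eq_zero]
    simp only [mul_ite, mul_one, mul_zero]
    rw [Finset.sum_ite_eq']
  · intro l _
    apply Integrable.const_mul
    exact Integrable.of_bound (wt_cont_exp d (l - k)).aestronglyMeasurable 1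
      (ae_of_all _ (fun x => (wt_norm_exp _).le))


theorem W_tail (d : ℕ) (hd : 1 ≤ d) (a b : ℝ) (ha : 0 < a) (f : (Fin d → ℝ) → ℂ) (hf : f ∈ Wab d a b) (M : ℕ) :
    eLpNorm (fun x => f x - ∑ n ∈ Finset.range M, lay d n f x) ⊤ (TP d)
      ≤ ENNReal.ofReal (∑' n : ℕ, lam d a b (n + M)) := by
  haveI := TP_prob d
  have hsum := wt_lam_summable d a b ha
  have hlb := wt_lay_bound d a b f hf
  have hlc : ∀ n, Continuous (lay d n f) := by
    intro n
    unfold lay
    apply continuous_finset_sum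
    intro l _
    exact continuous_const.mul (wt_cont_exp d l)
  obtain ⟨S, hS⟩ : ∃ S : (Fin d → ℝ) → ℂ, S = fun x => ∑' n, lay d n f x := ⟨_, rfl⟩
  have hSc : Continuous S := by rw [hS]; exact continuous_tsum hlc hsum hlb
  have hSb : ∀ x, ‖S x‖ ≤ ∑' n, lam d a b n := by
    intro x; rw [hS]; exact tsum_of_norm_bounded hsum.hasSum (fun n => hlb n x)
  have hSM : MemLp S ⊤ (TP d) :=
    memLp_top_of_bound hSc.aestronglyMeasurable _ (ae_of_all _ hSb)
  have hfcS : ∀ k, fc S k = fc f k := by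
    intro k
    have h1 : fc S k = ∑' n, fc (lay d n f) k := by
      have h2 : fc S k = ∫ x, ∑' n, (lay d n f x *
          Complex.exp (-(Complex.I * ((∑ j, (k j : ℝ) * x j : ℝ) : ℂ)))) ∂(TP d) := by
        unfold fc
        congr 1
        funext x
        rw [hS, tsum_mul_right]
      rw [h2]
      symm
      apply integral_tsum_of_summable_integral_norm
      · intro n
        refine Integrable.of_bound ((hlc n).mul (wt_cont_exp' d k)).aestronglyMeasurable
          (lam d a b n) (ae_of_all _ (fun x => ?_))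
        rw [norm_mul, wt_norm_exp', mul_one]
        exact hlb n x
      · refine Summable.of_nonneg_of_le (fun n => integral_nonneg (fun x => norm_nonneg _))
          (fun n => ?_) hsum
        have h3 : ∫ x, ‖lay d n f x * Complex.exp (-(Complex.I *
            ((∑ j, (k j : ℝ) * x j : ℝ) : ℂ)))‖ ∂(TP d) ≤ ∫ x, lam d a b n ∂(TP d) := by
          apply integral_mono_of_nonneg (ae_of_all _ (fun x => norm_nonneg _)) (integrable_const _)
          apply ae_of_all
          intro x
          change ‖lay d n f x * Complex.exp (-(Complex.I *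
            ((∑ j, (k j : ℝ) * x j : ℝ) : ℂ)))‖ ≤ lam d a b n
          rw [norm_mul, wt_norm_exp', mul_one]
          exact hlb n x
        refine h3.trans ?_
        simp
    rw [h1]
    simp only [wt_fc_lay, wt_layer_iff]
    rw [tsum_eq_single (∑ j, (k j).natAbs.size)]
    · rw [if_pos rfl]
    · intro n hn
      rw [if_neg hn]
  have hg : MemLp (fun x => f x - S x) ⊤ (TP d) := hf.1.sub hSM
  have hg0 : ∀ k, fc (fun x => f x - S x) k = 0 := by
    intro k
    have h1 : fc (fun x => f x - S x) k = fc f k - fc S k := by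
      unfold fc
      rw [← integral_sub]
      · congr 1
        funext x
        ring
      · have i1 : Integrable f (TP d) := hf.1.integrable le_top
        exact i1.mul_bdd (c := 1) (wt_cont_exp' d k).aestronglyMeasurable
          (ae_of_all _ (fun x => (wt_norm_exp' _).le))
      · have i1 : Integrable S (TP d) := hSM.integrable le_top
        exact i1.mul_bdd (c := 1) (wt_cont_exp' d k).aestronglyMeasurable
          (ae_of_all _ (fun x => (wt_norm_exp' _).le))
    rw [h1, hfcS, sub_self]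
  have hz := fc_unique d (fun x => f x - S x) hg hg0
  rw [eLpNorm_exponent_top]
  apply eLpNormEssSup_le_of_ae_bound
  filter_upwards [hz] with x hx
  have hx1 : f x = S x := by
    have : f x - S x = 0 := hx
    exact sub_eq_zero.mp this
  have hsx : Summable (fun n => lay d n f x) :=
    Summable.of_norm_bounded hsum (fun n => hlb n x)
  have h4 : f x - ∑ n ∈ Finset.range M, lay d n f x = ∑' n, lay d (n + M) f x := by
    rw [hx1, hS]
    have := hsx.sum_add_tsum_nat_add M
    dsimp only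
    rw [← this]
    ring
  rw [h4]
  exact tsum_of_norm_bounded ((summable_nat_add_iff M).mpr hsum).hasSum (fun n => hlb (n + M) x)

end Sol_W_tail

alias W_tail := Sol_W_tail.W_tail

end MWidth
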