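import Pool.Agent.HypVol.Defs
import Pool.Agent.MWidth.Defs
import Pool.Agent.HypVol.L_gam_prob
open MeasureTheory Real ProbabilityTheory
open scoped ENNReal BigOperators

namespace MWidth
open HypVol
namespace Sol_gam_shift


theorem gs_lint {ι : Type} [Fintype ι] (μ : ι → Measure ℝ) [∀ i, IsProbabilityMeasure (μ i)]
    (f : ι → ℝ → ℝ≥0∞) (hf : ∀ i, Measurable (f i)) :
    ∫⁻ u, ∏ i, f i (u i) ∂(Measure.pi μ) = ∏ i, ∫⁻ t, f i t ∂(μ i) := by
  have hind : iIndepFun (fun i (u : ι → ℝ) => f i (u i)) (Measure.pi μ) :=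
    iIndepFun_pi (fun i => (hf i).aemeasurable)
  rw [lintegral_prod_eq_prod_lintegral_of_indepFun Finset.univ _ hind
    (fun i => (hf i).comp (measurable_pi_apply i))]
  refine Finset.prod_congr rfl fun i _ => ?_
  exact (measurePreserving_eval μ i).lintegral_comp (hf i)

/-- density of a shifted Gaussian -/
noncomputable def gs_d (m v u : ℝ) : ℝ≥0∞ := ENNReal.ofReal (Real.exp ((m * u) / v - m^2 / (2 * v)))

theorem gs_d_meas (m v : ℝ) : Measurable (gs_d m v) := by
  unfold gs_d
  fun_prop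

theorem gs_dens (m : ℝ) (v : NNReal) (hv : v ≠ 0) :
    gaussianReal m v = (gaussianReal 0 v).withDensity (gs_d m v) := by
  rw [gaussianReal_of_var_ne_zero m hv, gaussianReal_of_var_ne_zero 0 hv,
    ← withDensity_mul _ (measurable_gaussianPDF 0 v) (gs_d_meas m v)]
  congr 1
  funext u
  have hv' : (v : ℝ) ≠ 0 := by exact_mod_cast hv
  simp only [Pi.mul_apply, gaussianPDF, gaussianPDFReal, gs_d]
  rw [← ENNReal.ofReal_mul (by positivity)]
  congr 1
  have e : Real.exp (-(u - m) ^ 2 / (2 * (v : ℝ))) =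
      Real.exp (-(u - 0) ^ 2 / (2 * (v : ℝ))) *
        Real.exp (m * u / (v : ℝ) - m ^ 2 / (2 * (v : ℝ))) := by
    rw [← Real.exp_add]
    congr 1
    field_simp
    ring
  rw [e]
  ring

theorem gs_pi {ι : Type} [Fintype ι] (m : ι → ℝ) (v : NNReal) (hv : v ≠ 0) :
    Measure.pi (fun i => gaussianReal (m i) v) =
      (Measure.pi (fun _ : ι => gaussianReal 0 v)).withDensity
        (fun u => ∏ i, gs_d (m i) v (u i)) := by
  classical
  refine Measure.pi_eq fun S hS => ?_
  rw [withDensity_apply _ (MeasurableSet.univ_pi hS), ← lintegral_indicator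
    (MeasurableSet.univ_pi hS)]
  have e : (Set.univ.pi S).indicator (fun u : ι → ℝ => ∏ i, gs_d (m i) v (u i)) =
      fun u => ∏ i, (S i).indicator (gs_d (m i) v) (u i) := by
    funext u
    by_cases hu : u ∈ Set.univ.pi S
    · rw [Set.indicator_of_mem hu]
      refine Finset.prod_congr rfl fun i _ => ?_
      rw [Set.indicator_of_mem (hu i (Set.mem_univ i))]
    · rw [Set.indicator_of_notMem hu]
      rw [Set.mem_univ_pi] at hu
      push Not at hu
      obtain ⟨i, hi⟩ := hu
      symm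
      refine Finset.prod_eq_zero (Finset.mem_univ i) ?_
      rw [Set.indicator_of_notMem hi]
  rw [e, gs_lint _ _ (fun i => (gs_d_meas (m i) v).indicator (hS i))]
  refine Finset.prod_congr rfl fun i _ => ?_
  rw [lintegral_indicator (hS i), gs_dens (m i) v hv, withDensity_apply _ (hS i)]

theorem gs_prod {ι : Type} [Fintype ι] (m u : ι → ℝ) (v : ℝ) :
    ∏ i, gs_d (m i) v (u i) =
      ENNReal.ofReal (Real.exp ((∑ i, m i * u i) / v - (∑ i, m i ^ 2) / (2 * v))) := by
  unfold gs_d
  rw [← ENNReal.ofReal_prod_of_nonneg (fun i _ => (Real.exp_pos _).le), ← Real.exp_sum,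
    Finset.sum_sub_distrib, Finset.sum_div, Finset.sum_div]


theorem gam_shift {ι : Type} [Fintype ι] (s : ℝ) (hs : 0 < s) (L : Set (ι → ℝ)) (hL : MeasurableSet L)
    (hsym : ∀ u ∈ L, -u ∈ L) (x : ι → ℝ) :
    ENNReal.ofReal (Real.exp (-(∑ i, x i ^ 2) / (2 * s^2))) * gam ι s L ≤ gam ι s {u | u - x ∈ L} := by
  obtain ⟨v, hv⟩ : ∃ v, v = Real.toNNReal (s ^ 2) := ⟨_, rfl⟩
  have hvs : (v : ℝ) = s ^ 2 := by
    rw [hv, Real.coe_toNNReal _ (sq_nonneg s)]
  have hv0 : v ≠ 0 := by
    intro h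
    rw [h] at hvs
    have : (0 : ℝ) < s ^ 2 := by positivity
    rw [← hvs] at this
    simp at this
  have hvpos : (0 : ℝ) < v := by rw [hvs]; positivity
  unfold gam
  rw [← hv]
  -- the shifted measure
  have hshift : (Measure.pi (fun _ : ι => gaussianReal 0 v)) {u | u - x ∈ L} =
      ∫⁻ u in L, ENNReal.ofReal (Real.exp ((∑ i, (0 - x i) * u i) / v -
        (∑ i, (0 - x i) ^ 2) / (2 * v))) ∂(Measure.pi (fun _ : ι => gaussianReal 0 v)) := by
    have h1 : (Measure.pi (fun _ : ι => gaussianReal 0 v)) {u | u - x ∈ L} =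
        ((Measure.pi (fun _ : ι => gaussianReal 0 v)).map (fun u i => u i - x i)) L := by
      rw [Measure.map_apply (by fun_prop) hL]
      rfl
    have h2 : (Measure.pi (fun _ : ι => gaussianReal 0 v)).map (fun u i => u i - x i) =
        Measure.pi (fun i => gaussianReal (0 - x i) v) := by
      have h3 : ∀ i : ι, IsProbabilityMeasure
          ((gaussianReal 0 v).map (fun t => t - x i)) := fun i =>
        Measure.isProbabilityMeasure_map (by fun_prop)
      rw [Measure.pi_map_pi (f := fun i (t : ℝ) => t - x i) (fun i => by fun_prop)]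
      congr 1
      funext i
      exact gaussianReal_map_sub_const (x i)
    rw [h1, h2, gs_pi _ v hv0, withDensity_apply _ hL]
    refine lintegral_congr fun u => ?_
    rw [gs_prod]
  have hneg : MeasurePreserving (fun u : ι → ℝ => -u)
      (Measure.pi (fun _ : ι => gaussianReal 0 v)) (Measure.pi (fun _ : ι => gaussianReal 0 v)) := by
    refine ⟨by fun_prop, ?_⟩
    have h3 : ∀ i : ι, IsProbabilityMeasure
          ((gaussianReal 0 v).map (fun t => -t)) := fun i =>
        Measure.isProbabilityMeasure_map (by fun_prop)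
    have h4 := Measure.pi_map_pi (μ := fun _ : ι => gaussianReal 0 v)
      (f := fun (_ : ι) (t : ℝ) => -t) (fun i => by fun_prop)
    have h5 : (fun _ : ι => (gaussianReal 0 v).map (fun t : ℝ => -t)) =
        fun _ => gaussianReal 0 v := by
      funext i
      rw [gaussianReal_map_neg, neg_zero]
    rw [h5] at h4
    exact h4
  have hpre : (fun u : ι → ℝ => -u) ⁻¹' L = L := by
    ext u
    constructor
    · intro h
      have := hsym _ h
      rwa [neg_neg] at this
    · exact fun h => hsym u h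
  obtain ⟨a, ha⟩ : ∃ a : ι → ℝ, a = fun i => 0 - x i := ⟨_, rfl⟩
  have hax : ∑ i, a i ^ 2 = ∑ i, x i ^ 2 := by
    rw [ha]
    refine Finset.sum_congr rfl fun i _ => by ring
  let D : (ι → ℝ) → ℝ≥0∞ := fun u =>
    ENNReal.ofReal (Real.exp ((∑ i, a i * u i) / v - (∑ i, a i ^ 2) / (2 * v)))
  have hDm : Measurable D := by
    change Measurable (fun u : ι → ℝ =>
      ENNReal.ofReal (Real.exp ((∑ i, a i * u i) / v - (∑ i, a i ^ 2) / (2 * v))))
    fun_prop
  have hshift' : (Measure.pi (fun _ : ι => gaussianReal 0 v)) {u | u - x ∈ L} =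
      ∫⁻ u in L, D u ∂(Measure.pi (fun _ : ι => gaussianReal 0 v)) := by
    rw [hshift]
    simp only [D, ha]
  have hrefl : ∫⁻ u in L, D (-u) ∂(Measure.pi (fun _ : ι => gaussianReal 0 v)) =
      ∫⁻ u in L, D u ∂(Measure.pi (fun _ : ι => gaussianReal 0 v)) := by
    have h := hneg.setLIntegral_comp_preimage hL hDm
    rw [hpre] at h
    exact h
  have hsum : ∀ u, 2 * ENNReal.ofReal (Real.exp (-(∑ i, x i ^ 2) / (2 * s^2))) ≤ D u + D (-u) := by
    intro u
    simp only [D]
    rw [← ENNReal.ofReal_add (Real.exp_pos _).le (Real.exp_pos _).le, hax, hvs]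
    have e1 : (2 : ℝ≥0∞) = ENNReal.ofReal 2 := by simp
    rw [e1, ← ENNReal.ofReal_mul (by norm_num)]
    refine ENNReal.ofReal_le_ofReal ?_
    have e2 : ∑ i, a i * (-u) i = -∑ i, a i * u i := by
      rw [← Finset.sum_neg_distrib]
      refine Finset.sum_congr rfl fun i _ => ?_
      rw [Pi.neg_apply]
      ring
    rw [e2, sub_eq_add_neg, sub_eq_add_neg, Real.exp_add, Real.exp_add, ← add_mul]
    have e3 : -((∑ i, x i ^ 2) / (2 * s ^ 2)) = -(∑ i, x i ^ 2) / (2 * s ^ 2) := by ring
    rw [e3]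
    refine mul_le_mul_of_nonneg_right ?_ (Real.exp_pos _).le
    have e4 : -(∑ i, a i * u i) / s ^ 2 = -((∑ i, a i * u i) / s ^ 2) := by ring
    rw [e4]
    have h6 := Real.add_one_le_exp ((∑ i, a i * u i) / s ^ 2)
    have h7 := Real.add_one_le_exp (-((∑ i, a i * u i) / s ^ 2))
    linarith
  have hfin : 2 * (ENNReal.ofReal (Real.exp (-(∑ i, x i ^ 2) / (2 * s^2))) *
      (Measure.pi (fun _ : ι => gaussianReal 0 v)) L) ≤
      2 * ∫⁻ u in L, D u ∂(Measure.pi (fun _ : ι => gaussianReal 0 v)) := by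
    calc 2 * (ENNReal.ofReal (Real.exp (-(∑ i, x i ^ 2) / (2 * s^2))) *
        (Measure.pi (fun _ : ι => gaussianReal 0 v)) L)
        = ∫⁻ _u in L, 2 * ENNReal.ofReal (Real.exp (-(∑ i, x i ^ 2) / (2 * s^2)))
            ∂(Measure.pi (fun _ : ι => gaussianReal 0 v)) := by
          rw [setLIntegral_const, mul_assoc]
      _ ≤ ∫⁻ u in L, (D u + D (-u)) ∂(Measure.pi (fun _ : ι => gaussianReal 0 v)) :=
          lintegral_mono fun u => hsum u
      _ = 2 * ∫⁻ u in L, D u ∂(Measure.pi (fun _ : ι => gaussianReal 0 v)) := by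
          rw [lintegral_add_left hDm, hrefl, two_mul]
  rw [hshift']
  exact (ENNReal.mul_le_mul_iff_right (by norm_num) (by norm_num)).1 hfin

end Sol_gam_shift

alias gam_shift := Sol_gam_shift.gam_shift

end MWidth
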