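import Pool.Agent.HypVol.Defs
import Pool.Agent.MWidth.Defs
import Pool.Agent.HypVol.L_gam_prob
import Pool.Agent.MWidth.L_gam_shift
open MeasureTheory Real ProbabilityTheory
open scoped ENNReal BigOperators

namespace MWidth
open HypVol
namespace Sol_gauss_net






theorem net_card {ι : Type} [Fintype ι] (s : ℝ) (hs : 0 < s) (L : Set (ι → ℝ)) (hLm : MeasurableSet L)
    (hsym : ∀ u ∈ L, -u ∈ L) (hconv : Convex ℝ L) (hL : 1 / 2 ≤ gam ι s L)
    (A : Set (ι → ℝ)) (c : ι → ℝ) (ρ l : ℝ) (hl : 0 < l)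
    (hA : ∀ x ∈ A, ∑ i, (x i - c i)^2 ≤ ρ^2) (F : Finset (ι → ℝ)) (hF : ∀ x ∈ F, x ∈ A)
    (hsep : ∀ x ∈ F, ∀ y ∈ F, x ≠ y → (1 / l) • (x - y) ∉ L) :
    (F.card : ℝ) ≤ 2 * Real.exp (2 * ρ^2 / (l^2 * s^2)) := by
  haveI := gam_prob ι s
  set S : (ι → ℝ) → Set (ι → ℝ) := fun x => {u | u - (2 / l) • (x - c) ∈ L} with hS
  have hSm : ∀ x, MeasurableSet (S x) := by
    intro x
    have hc : Continuous (fun u : ι → ℝ => u - (2 / l) • (x - c)) := by fun_prop
    exact hLm.preimage hc.measurable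
  have hdisj : (F : Set (ι → ℝ)).PairwiseDisjoint S := by
    intro x hx y hy hxy
    rw [Function.onFun, Set.disjoint_left]
    intro u hux huy
    have hux' : u - (2 / l) • (x - c) ∈ L := hux
    have huy' : u - (2 / l) • (y - c) ∈ L := huy
    apply hsep x hx y hy hxy
    have h1 := hconv huy' (hsym _ hux') (show (0:ℝ) ≤ 1 / 2 by norm_num) (show (0:ℝ) ≤ 1 / 2 by norm_num)
      (by norm_num)
    have h2 : (1 / 2 : ℝ) • (u - (2 / l) • (y - c)) + (1 / 2 : ℝ) • -(u - (2 / l) • (x - c)) =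
        (1 / l) • (x - y) := by
      funext i
      simp only [Pi.add_apply, Pi.smul_apply, Pi.sub_apply, Pi.neg_apply, smul_eq_mul]
      field_simp
      ring
    rw [h2] at h1
    exact h1
  set q := Real.exp (-(2 * ρ^2 / (l^2 * s^2))) with hq
  have hlow : ∀ x ∈ F, ENNReal.ofReal (q / 2) ≤ gam ι s (S x) := by
    intro x hx
    have h1 := gam_shift s hs L hLm hsym ((2 / l) • (x - c))
    refine le_trans ?_ h1
    have h2 : ENNReal.ofReal (q / 2) = ENNReal.ofReal q * (1 / 2) := by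
      rw [div_eq_mul_one_div, ENNReal.ofReal_mul (Real.exp_pos _).le]
      congr 1
      rw [ENNReal.ofReal_div_of_pos (by norm_num)]
      simp
    rw [h2]
    refine mul_le_mul' ?_ hL
    apply ENNReal.ofReal_le_ofReal
    apply Real.exp_le_exp.2
    have h3 : ∑ i, ((2 / l) • (x - c)) i ^ 2 = (2 / l) ^ 2 * ∑ i, (x i - c i) ^ 2 := by
      rw [Finset.mul_sum]
      apply Finset.sum_congr rfl
      intro i _
      simp only [Pi.smul_apply, Pi.sub_apply, smul_eq_mul]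
      ring
    rw [h3]
    have h4 : (2 / l) ^ 2 * ∑ i, (x i - c i) ^ 2 ≤ (2 / l) ^ 2 * ρ ^ 2 :=
      mul_le_mul_of_nonneg_left (hA x (hF x hx)) (by positivity)
    have h5 : 2 * ρ ^ 2 / (l ^ 2 * s ^ 2) = ((2 / l) ^ 2 * ρ ^ 2) / (2 * s ^ 2) := by
      field_simp
    rw [h5, neg_div]
    apply neg_le_neg
    gcongr
  have hsum : (F.card : ℝ≥0∞) * ENNReal.ofReal (q / 2) ≤ 1 := by
    calc (F.card : ℝ≥0∞) * ENNReal.ofReal (q / 2) = ∑ x ∈ F, ENNReal.ofReal (q / 2) := by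
          rw [Finset.sum_const, nsmul_eq_mul]
      _ ≤ ∑ x ∈ F, gam ι s (S x) := Finset.sum_le_sum hlow
      _ = gam ι s (⋃ x ∈ F, S x) := (measure_biUnion_finset hdisj (fun x _ => hSm x)).symm
      _ ≤ 1 := prob_le_one
  have hqp : 0 < q := Real.exp_pos _
  have h6 : (F.card : ℝ) * (q / 2) ≤ 1 := by
    rw [← ENNReal.ofReal_natCast, ← ENNReal.ofReal_mul (by positivity)] at hsum
    rw [← ENNReal.ofReal_one] at hsum
    exact (ENNReal.ofReal_le_ofReal_iff (by norm_num)).1 hsum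
  have h7 : Real.exp (2 * ρ^2 / (l^2 * s^2)) * q = 1 := by
    rw [hq, ← Real.exp_add, add_neg_cancel, Real.exp_zero]
  set Q := Real.exp (2 * ρ^2 / (l^2 * s^2)) with hQ
  have hQp : 0 < Q := Real.exp_pos _
  have h8 : (F.card : ℝ) = 2 * Q * ((F.card : ℝ) * (q / 2)) := by
    have : 2 * Q * ((F.card : ℝ) * (q / 2)) = (F.card : ℝ) * (Q * q) := by ring
    rw [this, h7, mul_one]
  rw [h8]
  nlinarith


theorem gauss_net {ι : Type} [Fintype ι] (s : ℝ) (hs : 0 < s) (L : Set (ι → ℝ)) (hLm : MeasurableSet L)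
    (hsym : ∀ u ∈ L, -u ∈ L) (hconv : Convex ℝ L) (hL : 1 / 2 ≤ gam ι s L)
    (A : Set (ι → ℝ)) (c : ι → ℝ) (ρ l : ℝ) (hρ : 0 ≤ ρ) (hl : 0 < l)
    (hA : ∀ x ∈ A, ∑ i, (x i - c i)^2 ≤ ρ^2) :
    ∃ F : Finset (ι → ℝ), (∀ x ∈ F, x ∈ A) ∧ (F.card : ℝ) ≤ 2 * Real.exp (2 * ρ^2 / (l^2 * s^2)) ∧
      ∀ x ∈ A, ∃ y ∈ F, (1 / l) • (x - y) ∈ L := by
  classical
  set P : Finset (ι → ℝ) → Prop := fun F => (∀ x ∈ F, x ∈ A) ∧
    ∀ x ∈ F, ∀ y ∈ F, x ≠ y → (1 / l) • (x - y) ∉ L with hP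
  set T : Set ℕ := {n | ∃ F, P F ∧ F.card = n} with hT
  have hTne : T.Nonempty := ⟨0, ∅, ⟨by simp, by simp⟩, rfl⟩
  have hTb : BddAbove T := by
    refine ⟨⌊2 * Real.exp (2 * ρ^2 / (l^2 * s^2))⌋₊, ?_⟩
    rintro n ⟨F, hF, rfl⟩
    apply Nat.le_floor
    exact net_card s hs L hLm hsym hconv hL A c ρ l hl hA F hF.1 hF.2
  obtain ⟨F, hF, hFc⟩ := Nat.sSup_mem hTne hTb
  have h0L : (0 : ι → ℝ) ∈ L := by
    have hne : L.Nonempty := by
      rw [Set.nonempty_iff_ne_empty]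
      rintro rfl
      rw [measure_empty] at hL
      have : (0 : ℝ≥0∞) < 1 / 2 := by simp
      exact absurd hL (not_le.2 this)
    obtain ⟨u, hu⟩ := hne
    have h1 := hconv hu (hsym _ hu) (show (0:ℝ) ≤ 1 / 2 by norm_num) (show (0:ℝ) ≤ 1 / 2 by norm_num)
      (by norm_num)
    have h2 : (1 / 2 : ℝ) • u + (1 / 2 : ℝ) • -u = 0 := by
      rw [smul_neg, add_neg_cancel]
    rwa [h2] at h1
  refine ⟨F, hF.1, net_card s hs L hLm hsym hconv hL A c ρ l hl hA F hF.1 hF.2, ?_⟩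
  intro x hx
  by_cases hxF : x ∈ F
  · refine ⟨x, hxF, ?_⟩
    rw [sub_self, smul_zero]
    exact h0L
  · by_contra hcon
    push Not at hcon
    have hPi : P (insert x F) := by
      refine ⟨?_, ?_⟩
      · intro y hy
        rcases Finset.mem_insert.1 hy with rfl | hy
        · exact hx
        · exact hF.1 y hy
      · intro y hy z hz hyz
        rcases Finset.mem_insert.1 hy with hy' | hy'
        · rcases Finset.mem_insert.1 hz with hz' | hz'
          · exact absurd (hy'.trans hz'.symm) hyz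
          · rw [hy']
            exact hcon z hz'
        · rcases Finset.mem_insert.1 hz with hz' | hz'
          · rw [hz']
            intro h
            apply hcon y hy'
            have h2 := hsym _ h
            rw [← smul_neg, neg_sub] at h2
            exact h2
          · exact hF.2 y hy' z hz' hyz
    have h1 : F.card + 1 ∈ T := ⟨_, hPi, Finset.card_insert_of_notMem hxF⟩
    have h2 := le_csSup hTb h1
    rw [← hFc] at h2
    omega

end Sol_gauss_net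

alias gauss_net := Sol_gauss_net.gauss_net

end MWidth
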