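import Pool.Agent.HypVol.Defs
import Pool.Agent.MWidth.Defs
import Pool.Agent.HypVol.L_gam_prob
import Pool.Agent.MWidth.L_gauss_net
open MeasureTheory Real ProbabilityTheory
open scoped ENNReal BigOperators

namespace MWidth
open HypVol
namespace Sol_ent_l2





theorem Lset_meas {ι : Type} [Fintype ι] (K : Set (ι → ℝ)) (C1 : ℝ) :
    MeasurableSet {u : ι → ℝ | ∀ a ∈ K, |∑ i, a i * u i| ≤ C1} := by
  have hcl : IsClosed {u : ι → ℝ | ∀ a ∈ K, |∑ i, a i * u i| ≤ C1} := by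
    have e : {u : ι → ℝ | ∀ a ∈ K, |∑ i, a i * u i| ≤ C1} =
        ⋂ a ∈ K, {u : ι → ℝ | |∑ i, a i * u i| ≤ C1} := by
      ext u
      simp
    rw [e]
    refine isClosed_biInter fun a _ => ?_
    exact isClosed_le (by fun_prop) continuous_const
  exact hcl.measurableSet

theorem Lset_conv {ι : Type} [Fintype ι] (K : Set (ι → ℝ)) (C1 : ℝ) :
    Convex ℝ {u : ι → ℝ | ∀ a ∈ K, |∑ i, a i * u i| ≤ C1} := by
  intro u hu v hv α β hα hβ hαβ a ha
  have e : ∑ i, a i * (α • u + β • v) i = α * ∑ i, a i * u i + β * ∑ i, a i * v i := by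
    rw [Finset.mul_sum, Finset.mul_sum, ← Finset.sum_add_distrib]
    refine Finset.sum_congr rfl fun i _ => ?_
    simp only [Pi.add_apply, Pi.smul_apply, smul_eq_mul]
    ring
  rw [e]
  calc |α * ∑ i, a i * u i + β * ∑ i, a i * v i| ≤ |α * ∑ i, a i * u i| + |β * ∑ i, a i * v i| := abs_add_le _ _
    _ = α * |∑ i, a i * u i| + β * |∑ i, a i * v i| := by
        rw [abs_mul, abs_mul, abs_of_nonneg hα, abs_of_nonneg hβ]
    _ ≤ α * C1 + β * C1 := add_le_add (mul_le_mul_of_nonneg_left (hu a ha) hα)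
        (mul_le_mul_of_nonneg_left (hv a ha) hβ)
    _ = C1 := by rw [← add_mul, hαβ, one_mul]

theorem ent_aux {ι : Type} [Fintype ι] (s : ℝ) (hs : 0 < s) (K : Set (ι → ℝ)) (hK0 : (0 : ι → ℝ) ∈ K)
    (hK1 : ∀ a ∈ K, ∑ i, a i ^ 2 ≤ 1) (C1 : ℝ) (hC1 : 0 < C1)
    (hL : 1 / 2 ≤ gam ι s {u : ι → ℝ | ∀ a ∈ K, |∑ i, a i * u i| ≤ C1}) (J : ℕ) :
    ∀ r : ℝ, 0 < r → 1 ≤ 2^J * r →
    ∃ F : Finset (ι → ℝ), (∀ x ∈ F, x ∈ K) ∧
      (F.card : ℝ) ≤ 2^J * Real.exp ((128/3 * C1^2 / s^2) / r^2) ∧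
      ∀ x ∈ K, ∃ y ∈ F, ∑ i, (x i - y i)^2 ≤ r^2 := by
  classical
  induction J with
  | zero =>
    intro r hr h1
    rw [pow_zero, one_mul] at h1
    refine ⟨{0}, ?_, ?_, ?_⟩
    · intro x hx
      rw [Finset.mem_singleton] at hx
      rw [hx]
      exact hK0
    · rw [Finset.card_singleton, pow_zero, one_mul]
      have : (1 : ℝ) ≤ Real.exp ((128/3 * C1^2 / s^2) / r^2) := Real.one_le_exp (by positivity)
      simpa using this
    · intro x hx
      refine ⟨0, Finset.mem_singleton_self _, ?_⟩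
      have := hK1 x hx
      simp only [Pi.zero_apply, sub_zero]
      nlinarith
  | succ J ih =>
    intro r hr h1
    obtain ⟨F2, hF2K, hF2c, hF2⟩ := ih (2 * r) (by positivity) (by
      rw [pow_succ] at h1
      linarith)
    have hl : 0 < r^2 / (2 * C1) := by positivity
    have hnet := fun c : ι → ℝ => gauss_net s hs {u : ι → ℝ | ∀ a ∈ K, |∑ i, a i * u i| ≤ C1}
      (Lset_meas K C1) (by
        intro u hu a ha
        have := hu a ha
        simpa [abs_neg] using this) (Lset_conv K C1) hL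
      (K ∩ {x | ∑ i, (x i - c i)^2 ≤ (2 * r)^2}) c (2 * r) (r^2 / (2 * C1)) (by positivity) hl
      (fun x hx => hx.2)
    choose G hGA hGc hG using hnet
    refine ⟨F2.biUnion G, ?_, ?_, ?_⟩
    · intro x hx
      rw [Finset.mem_biUnion] at hx
      obtain ⟨c, _, hx⟩ := hx
      exact (hGA c x hx).1
    · have e1 : ∀ c, ((G c).card : ℝ) ≤ 2 * Real.exp (32 * C1^2 / s^2 / r^2) := by
        intro c
        refine (hGc c).trans (le_of_eq ?_)
        congr 2
        field_simp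
        ring
      calc ((F2.biUnion G).card : ℝ) ≤ ((∑ c ∈ F2, (G c).card : ℕ) : ℝ) := by
            exact_mod_cast Finset.card_biUnion_le
        _ = ∑ c ∈ F2, ((G c).card : ℝ) := by push_cast; rfl
        _ ≤ ∑ c ∈ F2, (2 * Real.exp (32 * C1^2 / s^2 / r^2)) := Finset.sum_le_sum fun c _ => e1 c
        _ = F2.card * (2 * Real.exp (32 * C1^2 / s^2 / r^2)) := by
            rw [Finset.sum_const, nsmul_eq_mul]
        _ ≤ (2^J * Real.exp ((128/3 * C1^2 / s^2) / (2 * r)^2)) * (2 * Real.exp (32 * C1^2 / s^2 / r^2)) :=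
            mul_le_mul_of_nonneg_right hF2c (by positivity)
        _ = 2^(J+1) * (Real.exp ((128/3 * C1^2 / s^2) / (2 * r)^2) * Real.exp (32 * C1^2 / s^2 / r^2)) := by
            ring
        _ = 2^(J+1) * Real.exp ((128/3 * C1^2 / s^2) / r^2) := by
            rw [← Real.exp_add]
            congr 2
            field_simp
            ring
    · intro x hx
      obtain ⟨c, hc, hxc⟩ := hF2 x hx
      obtain ⟨y, hy, hxy⟩ := hG c x ⟨hx, hxc⟩
      refine ⟨y, Finset.mem_biUnion.mpr ⟨c, hc, hy⟩, ?_⟩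
      have hyK := (hGA c y hy).1
      have a1 := abs_le.mp (hxy x hx)
      have a2 := abs_le.mp (hxy y hyK)
      have e2 : (1 / (r^2 / (2 * C1))) * ∑ i, (x i - y i)^2 =
          ∑ i, x i * ((1 / (r^2 / (2 * C1))) • (x - y)) i - ∑ i, y i * ((1 / (r^2 / (2 * C1))) • (x - y)) i := by
        rw [← Finset.sum_sub_distrib, Finset.mul_sum]
        refine Finset.sum_congr rfl fun i _ => ?_
        simp only [Pi.sub_apply, Pi.smul_apply, smul_eq_mul]
        ring
      have e3 : (1 / (r^2 / (2 * C1))) * ∑ i, (x i - y i)^2 ≤ 2 * C1 := by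
        rw [e2]
        linarith [a1.2, a2.1]
      rw [one_div, inv_mul_le_iff₀ hl] at e3
      have e4 : r^2 / (2 * C1) * (2 * C1) = r^2 := by field_simp
      rwa [e4] at e3



theorem ent_l2 {ι : Type} [Fintype ι] (s : ℝ) (hs : 0 < s) (K : Set (ι → ℝ)) (hK0 : (0 : ι → ℝ) ∈ K)
    (hK1 : ∀ a ∈ K, ∑ i, a i ^ 2 ≤ 1) (C1 : ℝ) (hC1 : 0 < C1)
    (hL : 1 / 2 ≤ gam ι s {u : ι → ℝ | ∀ a ∈ K, |∑ i, a i * u i| ≤ C1}) (r : ℝ) (hr : 0 < r) :
    ∃ F : Finset (ι → ℝ), (∀ x ∈ F, x ∈ K) ∧ (F.card : ℝ) ≤ Real.exp ((1 + 43 * C1^2 / s^2) / r^2) ∧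
      ∀ x ∈ K, ∃ y ∈ F, ∑ i, (x i - y i)^2 ≤ r^2 := by
  classical
  have hex : ∃ J : ℕ, 1 ≤ 2^J * r := by
    obtain ⟨J, hJ⟩ := pow_unbounded_of_one_lt (1 / r) (one_lt_two : (1 : ℝ) < 2)
    refine ⟨J, ?_⟩
    rw [div_lt_iff₀ hr] at hJ
    exact hJ.le
  have hJ := Nat.find_spec hex
  have hpow : (2 : ℝ)^(Nat.find hex) ≤ Real.exp (1 / r^2) := by
    rcases h : Nat.find hex with _ | m
    · rw [pow_zero]
      exact Real.one_le_exp (by positivity)
    · have hm : ¬ (1 ≤ (2:ℝ)^m * r) := Nat.find_min hex (by omega)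
      push Not at hm
      have h1 : (2 : ℝ)^m < 1 / r := by
        rw [lt_div_iff₀ hr]
        exact hm
      have h2 : 2 * (1 / r) ≤ 1 / r^2 + 1 := by
        have : 0 ≤ (1 / r - 1)^2 := sq_nonneg _
        have h3 : (1 / r)^2 = 1 / r^2 := by rw [div_pow, one_pow]
        nlinarith
      have h4 := Real.add_one_le_exp (1 / r^2)
      rw [pow_succ]
      linarith
  obtain ⟨F, hF1, hF2, hF3⟩ := ent_aux s hs K hK0 hK1 C1 hC1 hL (Nat.find hex) r hr hJ
  refine ⟨F, hF1, hF2.trans ?_, hF3⟩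
  calc (2 : ℝ)^(Nat.find hex) * Real.exp ((128/3 * C1^2 / s^2) / r^2) ≤
      Real.exp (1 / r^2) * Real.exp ((128/3 * C1^2 / s^2) / r^2) :=
        mul_le_mul_of_nonneg_right hpow (Real.exp_pos _).le
    _ = Real.exp ((1 + 128/3 * C1^2 / s^2) / r^2) := by
        rw [← Real.exp_add]
        congr 1
        ring
    _ ≤ Real.exp ((1 + 43 * C1^2 / s^2) / r^2) := by
        apply Real.exp_le_exp.mpr
        apply div_le_div_of_nonneg_right _ (by positivity)
        have : 128/3 * C1^2 / s^2 ≤ 43 * C1^2 / s^2 := by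
          apply div_le_div_of_nonneg_right _ (by positivity)
          nlinarith [sq_nonneg C1]
        linarith

end Sol_ent_l2

alias ent_l2 := Sol_ent_l2.ent_l2

end MWidth
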