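import Pool.Agent.HypVol.Defs
import Pool.Agent.MWidth.Defs
import Pool.Agent.HypVol.L_gam_mgf
import Pool.Agent.HypVol.L_gam_prob
open MeasureTheory Real ProbabilityTheory
open scoped ENNReal BigOperators

namespace MWidth
open HypVol
namespace Sol_mw_err


theorem g_int (v : NNReal) (n : ℕ) (c : ℝ) :
    Integrable (fun t : ℝ => t ^ n * Real.exp (c * t)) (gaussianReal 0 v) := by
  have h := integrable_pow_mul_exp_of_mem_interior_integrableExpSet
    (X := fun x : ℝ => x) (μ := gaussianReal 0 v) (v := c) (by simp) n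
  exact h

theorem g_m0 (v : NNReal) (c : ℝ) :
    ∫ t : ℝ, Real.exp (c * t) ∂(gaussianReal 0 v) = Real.exp (v * c ^ 2 / 2) := by
  have h := congrFun (mgf_fun_id_gaussianReal (μ := 0) (v := v)) c
  simpa [mgf] using h

theorem g_hasDeriv (v : NNReal) (c : ℝ) :
    HasDerivAt (fun c : ℝ => Real.exp (v * c ^ 2 / 2)) (v * c * Real.exp (v * c ^ 2 / 2)) c := by
  have h1 : HasDerivAt (fun c : ℝ => (v : ℝ) * c ^ 2 / 2) (v * c) c := by
    have := ((hasDerivAt_pow 2 c).const_mul (v : ℝ)).div_const 2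
    exact this.congr_deriv (by push_cast; ring)
  have := h1.exp
  exact this.congr_deriv (by ring)

theorem g_m1 (v : NNReal) (c : ℝ) :
    ∫ t : ℝ, t * Real.exp (c * t) ∂(gaussianReal 0 v) = v * c * Real.exp (v * c ^ 2 / 2) := by
  have h := hasDerivAt_mgf (X := fun x : ℝ => x) (μ := gaussianReal 0 v) (t := c) (by simp)
  have h2 := g_hasDeriv v c
  have e : mgf (fun x : ℝ => x) (gaussianReal 0 v) = fun c : ℝ => Real.exp (v * c ^ 2 / 2) := by
    rw [mgf_fun_id_gaussianReal]
    funext t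
    simp
  rw [e] at h
  exact h.unique h2

theorem g_m2 (v : NNReal) : ∫ t : ℝ, t ^ 2 ∂(gaussianReal 0 v) = v := by
  have h := hasDerivAt_integral_pow_mul_exp_real (X := fun x : ℝ => x) (μ := gaussianReal 0 v)
    (t := 0) (by simp) 1
  have e : (fun t : ℝ => ∫ x : ℝ, x ^ 1 * Real.exp (t * x) ∂(gaussianReal 0 v)) =
      fun c : ℝ => v * c * Real.exp (v * c ^ 2 / 2) := by
    funext c
    rw [← g_m1 v c]
    congr 1
    ext x
    rw [pow_one]
  rw [e] at h
  have h2 : HasDerivAt (fun c : ℝ => (v : ℝ) * c * Real.exp (v * c ^ 2 / 2)) v 0 := by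
    have h3 : HasDerivAt (fun c : ℝ => (v : ℝ) * c) (v * 1) 0 := (hasDerivAt_id (0 : ℝ)).const_mul _
    have h4 := h3.mul (g_hasDeriv v 0)
    exact h4.congr_deriv (by simp)
  have h5 := h.unique h2
  simpa using h5

/-- first moment against an exponential -/
theorem gam_m1 {ι : Type} [Fintype ι] [DecidableEq ι] (s : ℝ) (c : ι → ℝ) (i : ι) :
    Integrable (fun u : ι → ℝ => u i * Real.exp (∑ j, u j * c j)) (gam ι s) ∧
    ∫ u, u i * Real.exp (∑ j, u j * c j) ∂(gam ι s) = s^2 * c i * Real.exp (s^2 * (∑ j, c j ^ 2) / 2) := by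
  set v : NNReal := Real.toNNReal (s^2) with hv
  have hv' : (v : ℝ) = s^2 := Real.coe_toNNReal _ (sq_nonneg s)
  set f : ι → ℝ → ℝ := fun j t => (if j = i then t else 1) * Real.exp (c j * t) with hf
  have e : (fun u : ι → ℝ => u i * Real.exp (∑ j, u j * c j)) = fun u => ∏ j, f j (u j) := by
    funext u
    simp only [hf]
    rw [Finset.prod_mul_distrib, Finset.prod_ite_eq' Finset.univ i (fun j => u j), Real.exp_sum]
    simp only [Finset.mem_univ, if_true]
    congr 1
    apply Finset.prod_congr rfl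
    intro j _
    rw [mul_comm]
  have hi : ∀ j, Integrable (f j) (gaussianReal 0 v) := by
    intro j
    by_cases h : j = i
    · have := g_int v 1 (c j)
      simp only [hf, if_pos h]
      simpa using this
    · have := g_int v 0 (c j)
      simp only [hf, if_neg h]
      simpa using this
  have hval : ∀ j, ∫ t, f j t ∂(gaussianReal 0 v) =
      (if j = i then s^2 * c j else 1) * Real.exp (s^2 * c j ^ 2 / 2) := by
    intro j
    by_cases h : j = i
    · simp only [hf, if_pos h]
      rw [g_m1, hv']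
    · simp only [hf, if_neg h, one_mul]
      rw [g_m0, hv']
  constructor
  · rw [e]
    exact Integrable.fintype_prod hi
  · rw [e]
    unfold gam
    rw [integral_fintype_prod_eq_prod]
    simp only [← hv, hval]
    rw [Finset.prod_mul_distrib, Finset.prod_ite_eq' Finset.univ i (fun j => s^2 * c j), ← Real.exp_sum]
    simp only [Finset.mem_univ, if_true]
    congr 2
    rw [Finset.mul_sum, Finset.sum_div]

theorem gam_m2 {ι : Type} [Fintype ι] [DecidableEq ι] (s : ℝ) (i : ι) :
    Integrable (fun u : ι → ℝ => u i ^ 2) (gam ι s) ∧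
    ∫ u, u i ^ 2 ∂(gam ι s) = s^2 := by
  set v : NNReal := Real.toNNReal (s^2) with hv
  have hv' : (v : ℝ) = s^2 := Real.coe_toNNReal _ (sq_nonneg s)
  set f : ι → ℝ → ℝ := fun j t => (if j = i then t ^ 2 else 1) with hf
  have e : (fun u : ι → ℝ => u i ^ 2) = fun u => ∏ j, f j (u j) := by
    funext u
    simp only [hf]
    rw [Finset.prod_ite_eq' Finset.univ i (fun j => u j ^ 2)]
    simp
  have hi : ∀ j, Integrable (f j) (gaussianReal 0 v) := by
    intro j
    by_cases h : j = i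
    · have := g_int v 2 0
      simp only [hf, if_pos h]
      simpa using this
    · simp only [hf, if_neg h]
      exact integrable_const _
  have hval : ∀ j, ∫ t, f j t ∂(gaussianReal 0 v) = (if j = i then s^2 else 1) := by
    intro j
    by_cases h : j = i
    · simp only [hf, if_pos h]
      rw [g_m2, hv']
    · simp only [hf, if_neg h]
      simp
  constructor
  · rw [e]
    exact Integrable.fintype_prod hi
  · rw [e]
    unfold gam
    rw [integral_fintype_prod_eq_prod]
    simp only [← hv, hval]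
    rw [Finset.prod_ite_eq' Finset.univ i (fun _ => s^2)]
    simp

theorem alg {X ι : Type} [Fintype X] [Fintype ι] (b : ι → X → ℝ) (e : X → ℝ) (u : ι → ℝ) (K M : ℝ) :
    ∑ i, ((∑ x, e x * K * b i x) / M - u i) ^ 2 =
      ∑ x, ∑ y, ((∑ i, b i x * b i y) * (K * K / M ^ 2)) * (e x * e y) -
      ∑ i, ∑ x, (2 * K / M * b i x) * (u i * e x) + ∑ i, u i ^ 2 := by
  have h1 : ∀ i, ((∑ x, e x * K * b i x) / M - u i) ^ 2 =
      (∑ x, ∑ y, (b i x * b i y * (K * K / M ^ 2)) * (e x * e y)) -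
      (∑ x, (2 * K / M * b i x) * (u i * e x)) + u i ^ 2 := by
    intro i
    have a1 : (∑ x, e x * K * b i x) = K * ∑ x, e x * b i x := by
      rw [Finset.mul_sum]
      apply Finset.sum_congr rfl
      intro x _
      ring
    have a2 : (∑ x, ∑ y, (b i x * b i y * (K * K / M ^ 2)) * (e x * e y)) =
        (K * K / M ^ 2) * ((∑ x, e x * b i x) * (∑ x, e x * b i x)) := by
      rw [Finset.sum_mul_sum, Finset.mul_sum]
      apply Finset.sum_congr rfl
      intro x _
      rw [Finset.mul_sum]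
      apply Finset.sum_congr rfl
      intro y _
      ring
    have a3 : (∑ x, (2 * K / M * b i x) * (u i * e x)) = (2 * K / M * u i) * ∑ x, e x * b i x := by
      rw [Finset.mul_sum]
      apply Finset.sum_congr rfl
      intro x _
      ring
    rw [a1, a2, a3]
    ring
  simp only [h1]
  rw [Finset.sum_add_distrib, Finset.sum_sub_distrib]
  congr 2
  rw [Finset.sum_comm]
  apply Finset.sum_congr rfl
  intro x _
  rw [Finset.sum_comm]
  apply Finset.sum_congr rfl
  intro y _
  rw [Finset.sum_mul, Finset.sum_mul]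

theorem sum3 {X ι : Type} [Fintype X] [Fintype ι] (f : X → X → ι → ℝ) :
    ∑ x, ∑ y, ∑ i, f x y i = ∑ i, ∑ x, ∑ y, f x y i := by
  calc ∑ x, ∑ y, ∑ i, f x y i = ∑ x, ∑ i, ∑ y, f x y i := by
        apply Finset.sum_congr rfl
        intro x _
        exact Finset.sum_comm
    _ = ∑ i, ∑ x, ∑ y, f x y i := Finset.sum_comm

theorem sumD {X ι : Type} [Fintype X] [Fintype ι] (b : ι → X → ℝ)
    (h0 : ∀ i, ∑ x, b i x = 0) : ∑ x, ∑ y, (∑ i, b i x * b i y) = 0 := by
  rw [sum3]
  apply Finset.sum_eq_zero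
  intro i _
  rw [← Finset.sum_mul_sum, h0 i, zero_mul]

theorem sumD2 {X ι : Type} [Fintype X] [Fintype ι] [DecidableEq ι] (b : ι → X → ℝ)
    (h1 : ∀ i j, ∑ x, b i x * b j x = if i = j then (Fintype.card X : ℝ) else 0) :
    ∑ x, ∑ y, (∑ i, b i x * b i y) ^ 2 = (Fintype.card ι : ℝ) * (Fintype.card X : ℝ) ^ 2 := by
  have e : ∀ x y : X, (∑ i, b i x * b i y) ^ 2 = ∑ i, ∑ j, (b i x * b j x) * (b i y * b j y) := by
    intro x y
    rw [sq, Finset.sum_mul_sum]
    apply Finset.sum_congr rfl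
    intro i _
    apply Finset.sum_congr rfl
    intro j _
    ring
  simp only [e]
  rw [sum3]
  have e2 : ∀ i : ι, ∑ x, ∑ y, ∑ j, (b i x * b j x) * (b i y * b j y) = (Fintype.card X : ℝ) ^ 2 := by
    intro i
    rw [sum3]
    have e3 : ∀ j : ι, ∑ x, ∑ y, (b i x * b j x) * (b i y * b j y) =
        if i = j then (Fintype.card X : ℝ) ^ 2 else 0 := by
      intro j
      rw [← Finset.sum_mul_sum, h1 i j]
      by_cases h : i = j
      · rw [if_pos h, if_pos h, sq]
      · rw [if_neg h, if_neg h, zero_mul]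
    simp only [e3]
    rw [Finset.sum_ite_eq Finset.univ i]
    simp
  simp only [e2]
  rw [Finset.sum_const, Finset.card_univ, nsmul_eq_mul]


theorem mw_err {X ι : Type} [Fintype X] [Nonempty X] [Fintype ι] [DecidableEq ι] (b : ι → X → ℝ)
    (h0 : ∀ i, ∑ x, b i x = 0)
    (h1 : ∀ i j, ∑ x, b i x * b j x = if i = j then (Fintype.card X : ℝ) else 0)
    (h2 : ∀ x, ∑ i, b i x ^ 2 = Fintype.card ι) (s : ℝ) :
    Integrable (fun u : ι → ℝ => ∑ i, ((∑ x, Real.exp (∑ j, u j * b j x - s^2 * Fintype.card ι / 2) * b i x)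
      / (Fintype.card X : ℝ) - u i)^2) (gam ι s) ∧
    ∫ u, (∑ i, ((∑ x, Real.exp (∑ j, u j * b j x - s^2 * Fintype.card ι / 2) * b i x)
      / (Fintype.card X : ℝ) - u i)^2) ∂(gam ι s)
      = (∑ x, ∑ y, (∑ i, b i x * b i y) * (Real.exp (s^2 * ∑ i, b i x * b i y) - 1
          - s^2 * ∑ i, b i x * b i y)) / (Fintype.card X : ℝ)^2 := by
  set M : ℝ := (Fintype.card X : ℝ) with hM
  have hM0 : M ≠ 0 := by
    rw [hM]
    exact_mod_cast Fintype.card_ne_zero
  set N : ℝ := (Fintype.card ι : ℝ) with hN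
  set K : ℝ := Real.exp (-(s^2 * N / 2)) with hK
  have hKK : K * K = Real.exp (-(s^2 * N)) := by
    rw [hK, ← Real.exp_add]
    congr 1
    ring
  set D : X → X → ℝ := fun x y => ∑ i, b i x * b i y with hD
  -- pointwise form
  have hG : ∀ u : ι → ℝ, (∑ i, ((∑ x, Real.exp (∑ j, u j * b j x - s^2 * N / 2) * b i x) / M - u i)^2) =
      ∑ x, ∑ y, (D x y * (K * K / M ^ 2)) * Real.exp (∑ j, u j * (b j x + b j y)) -
      ∑ i, ∑ x, (2 * K / M * b i x) * (u i * Real.exp (∑ j, u j * b j x)) + ∑ i, u i ^ 2 := by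
    intro u
    have h := alg b (fun x => Real.exp (∑ j, u j * b j x)) u K M
    have e1 : ∀ x, Real.exp (∑ j, u j * b j x - s^2 * N / 2) = Real.exp (∑ j, u j * b j x) * K := by
      intro x
      rw [hK, ← Real.exp_add]
      congr 1
    have e2 : ∀ x y, Real.exp (∑ j, u j * (b j x + b j y)) =
        Real.exp (∑ j, u j * b j x) * Real.exp (∑ j, u j * b j y) := by
      intro x y
      rw [← Real.exp_add]
      congr 1
      rw [← Finset.sum_add_distrib]
      apply Finset.sum_congr rfl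
      intro j _
      ring
    simp only [e1, e2]
    exact h
  -- pieces
  have iA : ∀ x y, Integrable (fun u : ι → ℝ => Real.exp (∑ j, u j * (b j x + b j y))) (gam ι s) :=
    fun x y => (gam_mgf s (fun j => b j x + b j y)).1
  have vA : ∀ x y, ∫ u, Real.exp (∑ j, u j * (b j x + b j y)) ∂(gam ι s) =
      Real.exp (s^2 * N) * Real.exp (s^2 * D x y) := by
    intro x y
    rw [(gam_mgf s (fun j => b j x + b j y)).2, ← Real.exp_add]
    congr 1
    have e : ∑ i, (b i x + b i y) ^ 2 = N + N + 2 * D x y := by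
      have e' : ∀ i, (b i x + b i y) ^ 2 = b i x ^ 2 + b i y ^ 2 + 2 * (b i x * b i y) := by
        intro i; ring
      simp only [e']
      rw [Finset.sum_add_distrib, Finset.sum_add_distrib, h2 x, h2 y, ← Finset.mul_sum]
    rw [e]
    ring
  have iB : ∀ i x, Integrable (fun u : ι → ℝ => u i * Real.exp (∑ j, u j * b j x)) (gam ι s) :=
    fun i x => (gam_m1 s (fun j => b j x) i).1
  have vB : ∀ i x, ∫ u, u i * Real.exp (∑ j, u j * b j x) ∂(gam ι s) =
      s^2 * b i x * Real.exp (s^2 * N / 2) := by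
    intro i x
    rw [(gam_m1 s (fun j => b j x) i).2, h2 x]
  have iC : ∀ i, Integrable (fun u : ι → ℝ => u i ^ 2) (gam ι s) := fun i => (gam_m2 s i).1
  have vC : ∀ i, ∫ u, u i ^ 2 ∂(gam ι s) = s^2 := fun i => (gam_m2 s i).2
  have I1 : Integrable (fun u : ι → ℝ => ∑ x, ∑ y, (D x y * (K * K / M ^ 2)) * Real.exp (∑ j, u j * (b j x + b j y))) (gam ι s) :=
    integrable_finsetSum _ fun x _ => integrable_finsetSum _ fun y _ => (iA x y).const_mul _
  have I2 : Integrable (fun u : ι → ℝ => ∑ i, ∑ x, (2 * K / M * b i x) * (u i * Real.exp (∑ j, u j * b j x))) (gam ι s) :=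
    integrable_finsetSum _ fun i _ => integrable_finsetSum _ fun x _ => (iB i x).const_mul _
  have I3 : Integrable (fun u : ι → ℝ => ∑ i, u i ^ 2) (gam ι s) :=
    integrable_finsetSum _ fun i _ => iC i
  simp only [hG]
  refine ⟨(I1.sub I2).add I3, ?_⟩
  have EE : ∫ u, (∑ x, ∑ y, (D x y * (K * K / M ^ 2)) * Real.exp (∑ j, u j * (b j x + b j y)) -
      ∑ i, ∑ x, (2 * K / M * b i x) * (u i * Real.exp (∑ j, u j * b j x)) + ∑ i, u i ^ 2) ∂(gam ι s) =
      ∫ u, (∑ x, ∑ y, (D x y * (K * K / M ^ 2)) * Real.exp (∑ j, u j * (b j x + b j y))) ∂(gam ι s) -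
      ∫ u, (∑ i, ∑ x, (2 * K / M * b i x) * (u i * Real.exp (∑ j, u j * b j x))) ∂(gam ι s) +
      ∫ u, (∑ i, u i ^ 2) ∂(gam ι s) := by
    rw [← integral_sub I1 I2]
    exact integral_add (I1.sub I2) I3
  rw [EE]
  rw [integral_finsetSum _ (fun x _ => integrable_finsetSum _ fun y _ => (iA x y).const_mul _)]
  rw [integral_finsetSum _ (fun i _ => integrable_finsetSum _ fun x _ => (iB i x).const_mul _)]
  rw [integral_finsetSum _ (fun i _ => iC i)]
  have V1 : ∀ x, ∫ u, ∑ y, (D x y * (K * K / M ^ 2)) * Real.exp (∑ j, u j * (b j x + b j y)) ∂(gam ι s) =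
      ∑ y, D x y * Real.exp (s^2 * D x y) / M ^ 2 := by
    intro x
    rw [integral_finsetSum _ (fun y _ => (iA x y).const_mul _)]
    apply Finset.sum_congr rfl
    intro y _
    rw [integral_const_mul, vA, hKK]
    have : Real.exp (-(s^2 * N)) * Real.exp (s^2 * N) = 1 := by
      rw [← Real.exp_add, neg_add_cancel, Real.exp_zero]
    calc D x y * (Real.exp (-(s^2 * N)) / M ^ 2) * (Real.exp (s^2 * N) * Real.exp (s^2 * D x y)) =
        D x y * Real.exp (s^2 * D x y) / M ^ 2 * (Real.exp (-(s^2 * N)) * Real.exp (s^2 * N)) := by ring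
      _ = _ := by rw [this, mul_one]
  have V2 : ∀ i, ∫ u, ∑ x, (2 * K / M * b i x) * (u i * Real.exp (∑ j, u j * b j x)) ∂(gam ι s) = 2 * s^2 := by
    intro i
    rw [integral_finsetSum _ (fun x _ => (iB i x).const_mul _)]
    have hk : K * Real.exp (s^2 * N / 2) = 1 := by
      rw [hK, ← Real.exp_add, neg_add_cancel, Real.exp_zero]
    have : ∀ x, ∫ u, (2 * K / M * b i x) * (u i * Real.exp (∑ j, u j * b j x)) ∂(gam ι s) =
        (2 * s^2 / M) * (b i x * b i x) := by
      intro x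
      rw [integral_const_mul, vB]
      calc 2 * K / M * b i x * (s^2 * b i x * Real.exp (s^2 * N / 2)) =
          (2 * s^2 / M) * (b i x * b i x) * (K * Real.exp (s^2 * N / 2)) := by ring
        _ = _ := by rw [hk, mul_one]
    simp only [this]
    rw [← Finset.mul_sum, h1 i i, if_pos rfl]
    field_simp
  simp only [V1, V2, vC]
  rw [Finset.sum_const, Finset.sum_const, Finset.card_univ, nsmul_eq_mul, nsmul_eq_mul]
  -- the right-hand side
  have R : (∑ x, ∑ y, D x y * (Real.exp (s^2 * D x y) - 1 - s^2 * D x y)) / M ^ 2 =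
      ∑ x, ∑ y, D x y * Real.exp (s^2 * D x y) / M ^ 2 - N * s^2 := by
    have r1 : ∀ x y, D x y * (Real.exp (s^2 * D x y) - 1 - s^2 * D x y) =
        D x y * Real.exp (s^2 * D x y) - D x y - s^2 * (D x y) ^ 2 := by
      intro x y; ring
    simp only [r1, Finset.sum_sub_distrib, ← Finset.mul_sum]
    have r2 : ∑ x, ∑ y, D x y = 0 := sumD b h0
    have r3 : ∑ x, ∑ y, (D x y) ^ 2 = N * M ^ 2 := sumD2 b h1
    rw [r2, r3, sub_div, sub_div, zero_div, sub_zero]
    have r4 : s ^ 2 * (N * M ^ 2) / M ^ 2 = N * s ^ 2 := by field_simp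
    rw [r4, Finset.sum_div]
    congr 1
    apply Finset.sum_congr rfl
    intro x _
    rw [Finset.sum_div]
  rw [R]
  ring

end Sol_mw_err

alias mw_err := Sol_mw_err.mw_err

end MWidth
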