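import Pool.Agent.HypVol.Defs
import Pool.Agent.MWidth.Defs
import Pool.Agent.HypVol.L_gam_mgf
import Pool.Agent.HypVol.L_gam_prob
import Pool.Agent.MWidth.L_mw_err
open MeasureTheory Real ProbabilityTheory
open scoped ENNReal BigOperators

namespace MWidth
open HypVol
namespace Sol_mw_typical






theorem mw_typical {X ι : Type} [Fintype X] [Nonempty X] [Fintype ι] [DecidableEq ι] (b : ι → X → ℝ)
    (h0 : ∀ i, ∑ x, b i x = 0)
    (h1 : ∀ i j, ∑ x, b i x * b j x = if i = j then (Fintype.card X : ℝ) else 0)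
    (h2 : ∀ x, ∑ i, b i x ^ 2 = Fintype.card ι) (s E0 : ℝ) (hE0 : 0 ≤ E0)
    (hE : (∑ x, ∑ y, (∑ i, b i x * b i y) * (Real.exp (s^2 * ∑ i, b i x * b i y) - 1
          - s^2 * ∑ i, b i x * b i y)) / (Fintype.card X : ℝ)^2 ≤ E0) :
    1 / 2 ≤ gam ι s {u : ι → ℝ | ∀ a : ι → ℝ, (∀ x, |∑ i, a i * b i x| ≤ 1) →
      |∑ i, a i * u i| ≤ 2 * (1 + Real.sqrt E0)} := by
  haveI : IsProbabilityMeasure (gam ι s) := gam_prob ι s
  obtain ⟨hRint, hRval⟩ := mw_err b h0 h1 h2 s
  rw [← hRval] at hE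
  set A : (ι → ℝ) → ℝ := fun u =>
    (∑ x, Real.exp (∑ j, u j * b j x - s^2 * Fintype.card ι / 2)) / (Fintype.card X : ℝ) with hA
  set R : (ι → ℝ) → ℝ := fun u => ∑ i, ((∑ x, Real.exp (∑ j, u j * b j x
    - s^2 * Fintype.card ι / 2) * b i x) / (Fintype.card X : ℝ) - u i)^2 with hR
  have hXpos : (0 : ℝ) < Fintype.card X := by exact_mod_cast Fintype.card_pos
  have hAint0 : ∀ x : X, Integrable (fun u : ι → ℝ =>
      Real.exp (∑ j, u j * b j x - s^2 * Fintype.card ι / 2)) (gam ι s) ∧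
      ∫ u, Real.exp (∑ j, u j * b j x - s^2 * Fintype.card ι / 2) ∂(gam ι s) = 1 := by
    intro x
    obtain ⟨hi, hv⟩ := gam_mgf s (fun j => b j x)
    have he : (fun u : ι → ℝ => Real.exp (∑ j, u j * b j x - s^2 * Fintype.card ι / 2))
        = fun u : ι → ℝ => Real.exp (-(s^2 * Fintype.card ι / 2)) *
            Real.exp (∑ j, u j * b j x) := by
      funext u
      rw [← Real.exp_add]; congr 1; ring
    constructor
    · rw [he]; exact hi.const_mul _
    · rw [he, integral_const_mul, hv, ← Real.exp_add, h2 x]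
      rw [show -(s^2 * (Fintype.card ι : ℝ) / 2) + s^2 * (Fintype.card ι : ℝ) / 2 = 0 by ring,
        Real.exp_zero]
  have hAint : Integrable A (gam ι s) := by
    apply Integrable.div_const
    exact integrable_finset_sum _ fun x _ => (hAint0 x).1
  have hAval : ∫ u, A u ∂(gam ι s) = 1 := by
    rw [hA, integral_div, integral_finset_sum _ (fun x _ => (hAint0 x).1)]
    rw [Finset.sum_congr rfl (fun x _ => (hAint0 x).2)]
    rw [Finset.sum_const, Finset.card_univ, nsmul_eq_mul, mul_one]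
    exact div_self hXpos.ne'
  have hAnn : ∀ u, 0 ≤ A u := fun u => by
    apply div_nonneg _ hXpos.le
    exact Finset.sum_nonneg fun x _ => (Real.exp_pos _).le
  have hRnn : ∀ u, 0 ≤ R u := fun u => Finset.sum_nonneg fun i _ => sq_nonneg _
  have hRc : Continuous R := by
    rw [hR]; fun_prop
  have hAc : Continuous A := by
    rw [hA]; fun_prop
  have hsR : Integrable (fun u => Real.sqrt (R u)) (gam ι s) := by
    refine Integrable.mono' ((integrable_const (1:ℝ)).add hRint)
      (hRc.sqrt.aestronglyMeasurable) (Filter.Eventually.of_forall fun u => ?_)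
    rw [Real.norm_eq_abs, abs_of_nonneg (Real.sqrt_nonneg _)]
    show Real.sqrt (R u) ≤ 1 + R u
    have h3 := Real.sq_sqrt (hRnn u)
    nlinarith [sq_nonneg (Real.sqrt (R u) - 1), Real.sqrt_nonneg (R u)]
  have hsRval : ∫ u, Real.sqrt (R u) ∂(gam ι s) ≤ Real.sqrt E0 := by
    apply le_of_forall_pos_le_add
    intro δ hδ
    set ε : ℝ := Real.sqrt E0 + δ with hε
    have hεpos : 0 < ε := by have := Real.sqrt_nonneg E0; linarith
    have hb : ∀ u, Real.sqrt (R u) ≤ (R u / ε + ε) / 2 := by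
      intro u
      have h3 := Real.sq_sqrt (hRnn u)
      have h4 : R u / ε = Real.sqrt (R u) ^ 2 / ε := by rw [h3]
      rw [h4, le_div_iff₀ (by norm_num : (0:ℝ) < 2), div_add' _ _ _ hεpos.ne',
        le_div_iff₀ hεpos]
      nlinarith [sq_nonneg (Real.sqrt (R u) - ε)]
    have h5 : ∫ u, Real.sqrt (R u) ∂(gam ι s) ≤ ∫ u, (R u / ε + ε) / 2 ∂(gam ι s) :=
      integral_mono hsR (((hRint.div_const ε).add (integrable_const ε)).div_const 2) hb
    have h6 : ∫ u, (R u / ε + ε) / 2 ∂(gam ι s) = ((∫ u, R u ∂(gam ι s)) / ε + ε) / 2 := by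
      rw [integral_div, integral_add (hRint.div_const ε) (integrable_const ε), integral_div]
      simp
    rw [h6] at h5
    have h7 : (∫ u, R u ∂(gam ι s)) / ε ≤ Real.sqrt E0 := by
      rw [div_le_iff₀ hεpos]
      have h8 := Real.sq_sqrt hE0
      have h9 := Real.sqrt_nonneg E0
      have : (∫ u, R u ∂(gam ι s)) ≤ E0 := hE
      nlinarith
    linarith
  set c : ℝ := 2 * (1 + Real.sqrt E0) with hc
  have hcpos : 0 < c := by have := Real.sqrt_nonneg E0; linarith
  set g : (ι → ℝ) → ℝ := fun u => A u + Real.sqrt (R u) with hg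
  have hgint : Integrable g (gam ι s) := hAint.add hsR
  have hgval : ∫ u, g u ∂(gam ι s) ≤ 1 + Real.sqrt E0 := by
    rw [hg, integral_add hAint hsR, hAval]; linarith
  have hgnn : 0 ≤ᵐ[gam ι s] g := Filter.Eventually.of_forall fun u =>
    add_nonneg (hAnn u) (Real.sqrt_nonneg _)
  have hmark := mul_meas_ge_le_integral_of_nonneg hgnn hgint c
  have hreal : (gam ι s).real {u | c ≤ g u} ≤ 1 / 2 := by
    have h3 : c * (gam ι s).real {u | c ≤ g u} ≤ c * (1 / 2) := by
      calc c * (gam ι s).real {u | c ≤ g u} ≤ ∫ u, g u ∂(gam ι s) := hmark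
        _ ≤ 1 + Real.sqrt E0 := hgval
        _ = c * (1 / 2) := by rw [hc]; ring
    exact le_of_mul_le_mul_left h3 hcpos
  have hms : MeasurableSet {u | c ≤ g u} :=
    (isClosed_le continuous_const (hAc.add hRc.sqrt)).measurableSet
  have hcompl : 1 / 2 ≤ gam ι s ({u | c ≤ g u}ᶜ) := by
    rw [prob_compl_eq_one_sub hms]
    have h4 : gam ι s {u | c ≤ g u} ≤ 1 / 2 := by
      rw [← ENNReal.ofReal_toReal (measure_ne_top (gam ι s) {u | c ≤ g u})]
      have h5 : (1 / 2 : ℝ≥0∞) = ENNReal.ofReal (1 / 2) := by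
        rw [ENNReal.ofReal_div_of_pos (by norm_num)]; simp
      rw [h5]
      exact ENNReal.ofReal_le_ofReal hreal
    calc (1 / 2 : ℝ≥0∞) = 1 - 1 / 2 := by
          rw [one_div, ENNReal.one_sub_inv_two]
      _ ≤ 1 - gam ι s {u | c ≤ g u} := tsub_le_tsub_left h4 1
  refine hcompl.trans (measure_mono ?_)
  intro u hu
  simp only [Set.mem_compl_iff, Set.mem_setOf_eq, not_le] at hu
  simp only [Set.mem_setOf_eq]
  intro a ha
  -- Parseval
  have hpar : ∑ x, (∑ i, a i * b i x) ^ 2 = (Fintype.card X : ℝ) * ∑ i, a i ^ 2 := by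
    calc ∑ x, (∑ i, a i * b i x) ^ 2
        = ∑ x, ∑ i, ∑ j, (a i * a j) * (b i x * b j x) := by
          refine Finset.sum_congr rfl fun x _ => ?_
          rw [sq, Finset.sum_mul_sum]
          refine Finset.sum_congr rfl fun i _ => Finset.sum_congr rfl fun j _ => ?_
          ring
      _ = ∑ i, ∑ j, (a i * a j) * ∑ x, b i x * b j x := by
          rw [Finset.sum_comm]
          refine Finset.sum_congr rfl fun i _ => ?_
          rw [Finset.sum_comm]
          refine Finset.sum_congr rfl fun j _ => ?_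
          rw [Finset.mul_sum]
      _ = (Fintype.card X : ℝ) * ∑ i, a i ^ 2 := by
          rw [Finset.mul_sum]
          refine Finset.sum_congr rfl fun i _ => ?_
          rw [Finset.sum_eq_single i]
          · rw [h1 i i, if_pos rfl]; ring
          · intro j _ hj
            rw [h1 i j, if_neg (Ne.symm hj), mul_zero]
          · intro h; exact absurd (Finset.mem_univ i) h
  have hsum1 : ∑ i, a i ^ 2 ≤ 1 := by
    have h3 : ∑ x : X, (∑ i, a i * b i x) ^ 2 ≤ ∑ x : X, (1 : ℝ) := by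
      refine Finset.sum_le_sum fun x _ => ?_
      rw [← sq_abs]
      have := ha x
      have h4 := abs_nonneg (∑ i, a i * b i x)
      nlinarith
    rw [hpar, Finset.sum_const, Finset.card_univ, nsmul_eq_mul, mul_one] at h3
    have : (Fintype.card X : ℝ) * ∑ i, a i ^ 2 ≤ (Fintype.card X : ℝ) * 1 := by linarith
    exact le_of_mul_le_mul_left this hXpos
  set y : ι → ℝ := fun i => (∑ x, Real.exp (∑ j, u j * b j x
    - s^2 * Fintype.card ι / 2) * b i x) / (Fintype.card X : ℝ) with hy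
  have hsplit : ∑ i, a i * u i = ∑ i, a i * y i - ∑ i, a i * (y i - u i) := by
    rw [← Finset.sum_sub_distrib]
    refine Finset.sum_congr rfl fun i _ => ?_
    ring
  have hay : |∑ i, a i * y i| ≤ A u := by
    have h3 : ∑ i, a i * y i = (∑ x, Real.exp (∑ j, u j * b j x
        - s^2 * Fintype.card ι / 2) * ∑ i, a i * b i x) / (Fintype.card X : ℝ) := by
      rw [hy, Finset.sum_div]
      simp only [Finset.mul_sum, Finset.sum_div, mul_div_assoc']
      rw [Finset.sum_comm]
      refine Finset.sum_congr rfl fun i _ => Finset.sum_congr rfl fun x _ => ?_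
      ring
    rw [h3, abs_div, abs_of_pos hXpos, hA]
    refine div_le_div_of_nonneg_right ?_ hXpos.le
    refine (Finset.abs_sum_le_sum_abs _ _).trans (Finset.sum_le_sum fun x _ => ?_)
    rw [abs_mul, abs_of_pos (Real.exp_pos _)]
    exact mul_le_of_le_one_right (Real.exp_pos _).le (ha x)
  have herr : |∑ i, a i * (y i - u i)| ≤ Real.sqrt (R u) := by
    apply Real.abs_le_sqrt
    calc (∑ i, a i * (y i - u i)) ^ 2 ≤ (∑ i, a i ^ 2) * ∑ i, (y i - u i) ^ 2 :=
          Finset.sum_mul_sq_le_sq_mul_sq _ _ _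
      _ ≤ 1 * ∑ i, (y i - u i) ^ 2 :=
          mul_le_mul_of_nonneg_right hsum1 (Finset.sum_nonneg fun i _ => sq_nonneg _)
      _ = R u := by rw [one_mul]
  calc |∑ i, a i * u i| = |∑ i, a i * y i - ∑ i, a i * (y i - u i)| := by rw [hsplit]
    _ ≤ |∑ i, a i * y i| + |∑ i, a i * (y i - u i)| := abs_sub _ _
    _ ≤ A u + Real.sqrt (R u) := add_le_add hay herr
    _ ≤ c := hu.le

end Sol_mw_typical

alias mw_typical := Sol_mw_typical.mw_typical

end MWidth
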