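import Pool.Agent.HypVol.Defs
import Pool.Agent.MWidth.Defs
import Pool.Agent.HypVol.L_tb_facts
import Pool.Agent.HypVol.L_shp_lower
import Pool.Agent.HypVol.L_shp_upper
import Pool.Agent.HypVol.L_card_layer
import Pool.Agent.MWidth.L_mw_typical
import Pool.Agent.MWidth.L_ent_l2
import Pool.Agent.MWidth.L_E_bound
open MeasureTheory Real ProbabilityTheory
open scoped ENNReal BigOperators

namespace MWidth
open HypVol
namespace Sol_layer_ent












theorem sum_tb_re {d n : ℕ} (a : (layer d n) × Fin 2 → ℝ) (x : Fin d → Fin (2^(n+2))) :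
    ∑ i, a i * tb i (x, (0 : Fin 2)) = Real.sqrt 2 * (poly a (fun j => 2 * π * ((x j : ℕ) : ℝ) / 2^(n+2))).re := by
  have hth : ∀ k : Fin d → ℤ, (∑ j, (k j : ℝ) * (2 * π * ((x j : ℕ) : ℝ) / 2^(n+2)) : ℝ) = th k x := by
    intro k
    unfold th
    rw [Finset.mul_sum, Finset.sum_div]
    refine Finset.sum_congr rfl fun j _ => by ring
  unfold poly
  rw [Complex.re_sum, Fintype.sum_prod_type, Finset.mul_sum]
  refine Finset.sum_congr rfl fun k _ => ?_
  rw [hth, Fin.sum_univ_two]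
  have e : Complex.I * ((th k.1 x : ℝ) : ℂ) = ((th k.1 x : ℝ) : ℂ) * Complex.I := mul_comm _ _
  rw [e, Complex.exp_mul_I]
  simp [tb, Complex.cos_ofReal_re, Complex.sin_ofReal_re, Complex.cos_ofReal_im, Complex.sin_ofReal_im]
  ring

theorem sum_tb_im {d n : ℕ} (a : (layer d n) × Fin 2 → ℝ) (x : Fin d → Fin (2^(n+2))) :
    ∑ i, a i * tb i (x, (1 : Fin 2)) = Real.sqrt 2 * (poly a (fun j => 2 * π * ((x j : ℕ) : ℝ) / 2^(n+2))).im := by
  have hth : ∀ k : Fin d → ℤ, (∑ j, (k j : ℝ) * (2 * π * ((x j : ℕ) : ℝ) / 2^(n+2)) : ℝ) = th k x := by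
    intro k
    unfold th
    rw [Finset.mul_sum, Finset.sum_div]
    refine Finset.sum_congr rfl fun j _ => by ring
  unfold poly
  rw [Complex.im_sum, Fintype.sum_prod_type, Finset.mul_sum]
  refine Finset.sum_congr rfl fun k _ => ?_
  rw [hth, Fin.sum_univ_two]
  have e : Complex.I * ((th k.1 x : ℝ) : ℂ) = ((th k.1 x : ℝ) : ℂ) * Complex.I := mul_comm _ _
  rw [e, Complex.exp_mul_I]
  simp [tb, Complex.cos_ofReal_re, Complex.sin_ofReal_re, Complex.cos_ofReal_im, Complex.sin_ofReal_im]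
  ring

theorem abs_sum_tb_le {d n : ℕ} (a : (layer d n) × Fin 2 → ℝ) (ha : a ∈ ball d n) (x : Gr d n) :
    |∑ i, a i * tb i x| ≤ Real.sqrt 2 := by
  obtain ⟨x, e⟩ := x
  have h2 : 0 ≤ Real.sqrt 2 := Real.sqrt_nonneg 2
  have hp := ha (fun j => 2 * π * ((x j : ℕ) : ℝ) / 2^(n+2))
  fin_cases e
  · have := sum_tb_re a x
    simp only [Fin.zero_eta]
    rw [this, abs_mul, abs_of_nonneg h2]
    calc Real.sqrt 2 * |(poly a (fun j => 2 * π * ((x j : ℕ) : ℝ) / 2^(n+2))).re|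
        ≤ Real.sqrt 2 * 1 := mul_le_mul_of_nonneg_left ((Complex.abs_re_le_norm _).trans hp) h2
      _ = Real.sqrt 2 := mul_one _
  · have := sum_tb_im a x
    simp only [Fin.mk_one]
    rw [this, abs_mul, abs_of_nonneg h2]
    calc Real.sqrt 2 * |(poly a (fun j => 2 * π * ((x j : ℕ) : ℝ) / 2^(n+2))).im|
        ≤ Real.sqrt 2 * 1 := mul_le_mul_of_nonneg_left ((Complex.abs_im_le_norm _).trans hp) h2
      _ = Real.sqrt 2 := mul_one _

theorem sum_sq_le_one {d n : ℕ} (hd : 1 ≤ d) (hn : 1 ≤ n) (a : (layer d n) × Fin 2 → ℝ)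
    (ha : a ∈ ball d n) : ∑ i, a i ^ 2 ≤ 1 := by
  obtain ⟨-, h1, -, -⟩ := tb_facts d n hd hn
  have hcard : (0:ℝ) < Fintype.card (Gr d n) := by
    have : 0 < Fintype.card (Gr d n) := Fintype.card_pos_iff.mpr
      ⟨(fun _ => ⟨0, by positivity⟩, 0)⟩
    exact_mod_cast this
  have key : ∑ x : Gr d n, (∑ i, a i * tb i x) ^ 2 = (∑ i, a i ^ 2) * Fintype.card (Gr d n) := by
    calc ∑ x : Gr d n, (∑ i, a i * tb i x) ^ 2
        = ∑ x : Gr d n, ∑ i, ∑ j, a i * a j * (tb i x * tb j x) := by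
          refine Finset.sum_congr rfl fun x _ => ?_
          rw [sq, Finset.sum_mul_sum]
          refine Finset.sum_congr rfl fun i _ => Finset.sum_congr rfl fun j _ => by ring
      _ = ∑ i, ∑ j, a i * a j * ∑ x : Gr d n, tb i x * tb j x := by
          rw [Finset.sum_comm]
          refine Finset.sum_congr rfl fun i _ => ?_
          rw [Finset.sum_comm]
          refine Finset.sum_congr rfl fun j _ => ?_
          rw [Finset.mul_sum]
      _ = ∑ i, ∑ j, a i * a j * (if i = j then (Fintype.card (Gr d n) : ℝ) else 0) := by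
          refine Finset.sum_congr rfl fun i _ => Finset.sum_congr rfl fun j _ => by rw [h1]
      _ = (∑ i, a i ^ 2) * Fintype.card (Gr d n) := by
          rw [Finset.sum_mul]
          refine Finset.sum_congr rfl fun i _ => ?_
          simp only [mul_ite, mul_zero, Finset.sum_ite_eq, Finset.mem_univ, if_true]
          ring
  have hle : ∑ x : Gr d n, (∑ i, a i * tb i x) ^ 2 ≤ Fintype.card (Gr d n) := by
    have hx : ∀ x : Fin d → Fin (2^(n+2)), ∑ e : Fin 2, (∑ i, a i * tb i ((x, e) : Gr d n)) ^ 2 ≤ 2 := by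
      intro x
      rw [Fin.sum_univ_two, sum_tb_re, sum_tb_im, mul_pow, mul_pow, Real.sq_sqrt (by norm_num)]
      have hp := ha (fun j => 2 * π * ((x j : ℕ) : ℝ) / 2^(n+2))
      have hn2 : ‖poly a (fun j => 2 * π * ((x j : ℕ) : ℝ) / 2^(n+2))‖ ^ 2 ≤ 1 := by
        have := norm_nonneg (poly a (fun j => 2 * π * ((x j : ℕ) : ℝ) / 2^(n+2)))
        nlinarith
      rw [Complex.sq_norm, Complex.normSq_apply] at hn2
      nlinarith
    calc ∑ x : Gr d n, (∑ i, a i * tb i x) ^ 2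
        = ∑ x : Fin d → Fin (2^(n+2)), ∑ e : Fin 2, (∑ i, a i * tb i ((x, e) : Gr d n)) ^ 2 :=
          Fintype.sum_prod_type _
      _ ≤ ∑ x : Fin d → Fin (2^(n+2)), (2:ℝ) := Finset.sum_le_sum fun x _ => hx x
      _ = Fintype.card (Gr d n) := by
          simp [Gr]
  rw [key] at hle
  by_contra hcon
  push Not at hcon
  nlinarith


theorem layer_ent (d : ℕ) (hd : 3 ≤ d) : ∃ C : ℝ, 0 < C ∧ ∀ n : ℕ, 1 ≤ n → ∀ r : ℝ, 0 < r →
    ∃ F : Finset ((layer d n) × Fin 2 → ℝ), (∀ x ∈ F, x ∈ ball d n) ∧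
      (F.card : ℝ) ≤ Real.exp (C * 2^n * (n:ℝ)^(d-2) / r^2) ∧
      ∀ x ∈ ball d n, ∃ y ∈ F, ∑ i, (x i - y i)^2 ≤ r^2 := by
  classical
  obtain ⟨a, E0, ha, hE0, hE⟩ := E_bound d hd
  obtain ⟨c, hc, hlow⟩ := shp_lower d (by omega)
  obtain ⟨C', hC', hup⟩ := shp_upper d (by omega)
  set C1 : ℝ := Real.sqrt 2 * (2 * (1 + Real.sqrt E0)) with hC1def
  have hs2 : 0 < Real.sqrt 2 := Real.sqrt_pos.mpr (by norm_num)
  have hC1 : 0 < C1 := by positivity
  refine ⟨1 + 43 * C1^2 * (2 * C' / a), by positivity, fun n hn r hr => ?_⟩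
  have hnR : (1:ℝ) ≤ n := by exact_mod_cast hn
  have hn0 : (0:ℝ) < n := by linarith
  have hshp : (0:ℝ) < shp d n := lt_of_lt_of_le (by positivity) (hlow n hn)
  set s : ℝ := Real.sqrt (a * n / (2^(n+1) * shp d n)) with hsdef
  have hspos : 0 < s := Real.sqrt_pos.mpr (by positivity)
  have hssq : s^2 = a * n / (2^(n+1) * shp d n) := Real.sq_sqrt (by positivity)
  haveI : Nonempty (Gr d n) := ⟨(fun _ => ⟨0, by positivity⟩, 0)⟩
  obtain ⟨h0, h1, h2, -⟩ := tb_facts d n (by omega) hn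
  have hmw := mw_typical (X := Gr d n) (ι := (layer d n) × Fin 2) tb h0 h1 h2 s E0 hE0.le (hE n hn)
  have hL : 1 / 2 ≤ gam ((layer d n) × Fin 2) s
      {u : (layer d n) × Fin 2 → ℝ | ∀ a ∈ ball d n, |∑ i, a i * u i| ≤ C1} := by
    refine hmw.trans (measure_mono ?_)
    intro u hu a' ha'
    have hu' := hu (fun i => a' i / Real.sqrt 2) (by
      intro x
      have h := abs_sum_tb_le a' ha' x
      have e : ∑ i, a' i / Real.sqrt 2 * tb i x = (∑ i, a' i * tb i x) / Real.sqrt 2 := by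
        rw [Finset.sum_div]
        exact Finset.sum_congr rfl fun i _ => by ring
      rw [e, abs_div, abs_of_pos hs2, div_le_one hs2]
      exact h)
    have e : ∑ i, a' i / Real.sqrt 2 * u i = (∑ i, a' i * u i) / Real.sqrt 2 := by
      rw [Finset.sum_div]
      exact Finset.sum_congr rfl fun i _ => by ring
    rw [e, abs_div, abs_of_pos hs2, div_le_iff₀ hs2] at hu'
    rw [hC1def]
    linarith
  have hK0 : (0 : (layer d n) × Fin 2 → ℝ) ∈ ball d n := by
    intro x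
    simp [poly]
  obtain ⟨F, hF1, hF2, hF3⟩ := ent_l2 s hspos (ball d n) hK0
    (fun a' ha' => sum_sq_le_one (by omega) hn a' ha') C1 hC1 hL r hr
  refine ⟨F, hF1, hF2.trans (Real.exp_le_exp.mpr ?_), hF3⟩
  refine div_le_div_of_nonneg_right ?_ (by positivity)
  rw [hssq]
  have hinv : 43 * C1^2 / (a * n / (2^(n+1) * shp d n)) = 43 * C1^2 * (2 * 2^n * shp d n / (a * n)) := by
    field_simp
    ring
  rw [hinv]
  have hpow : (n:ℝ)^(d-1) = (n:ℝ)^(d-2) * n := by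
    have : d - 1 = (d - 2) + 1 := by omega
    rw [this, pow_succ]
  have h3 : 2 * 2^n * (shp d n : ℝ) / (a * n) ≤ (2 * C' / a) * (2^n * (n:ℝ)^(d-2)) := by
    rw [div_le_iff₀ (by positivity)]
    have hu := hup n hn
    rw [hpow] at hu
    have : (2 * C' / a) * (2^n * (n:ℝ)^(d-2)) * (a * n) = 2 * 2^n * (C' * ((n:ℝ)^(d-2) * n)) := by
      field_simp
    rw [this]
    exact mul_le_mul_of_nonneg_left hu (by positivity)
  have h4 : (1:ℝ) ≤ 2^n * (n:ℝ)^(d-2) := by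
    have e1 : (1:ℝ) ≤ 2^n := one_le_pow₀ (by norm_num)
    have e2 : (1:ℝ) ≤ (n:ℝ)^(d-2) := one_le_pow₀ hnR
    nlinarith
  have h5 : 43 * C1^2 * (2 * 2^n * (shp d n : ℝ) / (a * n)) ≤ 43 * C1^2 * ((2 * C' / a) * (2^n * (n:ℝ)^(d-2))) :=
    mul_le_mul_of_nonneg_left h3 (by positivity)
  calc 1 + 43 * C1^2 * (2 * 2^n * (shp d n : ℝ) / (a * n))
      ≤ 2^n * (n:ℝ)^(d-2) + 43 * C1^2 * ((2 * C' / a) * (2^n * (n:ℝ)^(d-2))) := add_le_add h4 h5
    _ = (1 + 43 * C1^2 * (2 * C' / a)) * 2^n * (n:ℝ)^(d-2) := by ring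

end Sol_layer_ent

alias layer_ent := Sol_layer_ent.layer_ent

end MWidth
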