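import Pool.Agent.HypVol.Defs
import Pool.Agent.MWidth.Defs
import Pool.Agent.HypVol.L_TP_prob
import Pool.Agent.HypVol.L_fc_poly
import Pool.Agent.HypVol.L_ess_sup
open MeasureTheory Real ProbabilityTheory
open scoped ENNReal BigOperators

namespace MWidth
open HypVol
namespace Sol_poly_norm



namespace PN

theorem poly_add {d n : ℕ} (a b : (layer d n) × Fin 2 → ℝ) : poly (a + b) = poly a + poly b := by
  funext x
  simp only [poly, Pi.add_apply, Complex.ofReal_add, ← Finset.sum_add_distrib]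
  refine Finset.sum_congr rfl fun k _ => ?_
  ring

theorem poly_smul {d n : ℕ} (t : ℝ) (a : (layer d n) × Fin 2 → ℝ) : poly (t • a) = t • poly a := by
  funext x
  simp only [poly, Pi.smul_apply, smul_eq_mul, Complex.ofReal_mul, Complex.real_smul,
    Finset.mul_sum]
  refine Finset.sum_congr rfl fun k _ => ?_
  ring

theorem poly_cont {d n : ℕ} (a : (layer d n) × Fin 2 → ℝ) : Continuous (poly a) := by
  unfold poly
  fun_prop

/-- the coefficient bound -/
noncomputable def CB {d n : ℕ} (a : (layer d n) × Fin 2 → ℝ) : ℝ :=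
  ∑ k : layer d n, (|a (k, 0)| + |a (k, 1)|)

theorem CB_nonneg {d n : ℕ} (a : (layer d n) × Fin 2 → ℝ) : 0 ≤ CB a :=
  Finset.sum_nonneg fun _ _ => by positivity

theorem CB_cont {d n : ℕ} : Continuous (fun a : (layer d n) × Fin 2 → ℝ => CB a) := by
  unfold CB
  fun_prop

theorem poly_bound {d n : ℕ} (a : (layer d n) × Fin 2 → ℝ) (x : Fin d → ℝ) :
    ‖poly a x‖ ≤ CB a := by
  unfold poly CB
  refine (norm_sum_le _ _).trans (Finset.sum_le_sum fun k _ => ?_)
  rw [norm_mul]
  have h1 : ‖Complex.exp (Complex.I * ((∑ j, (k.1 j : ℝ) * x j : ℝ) : ℂ))‖ = 1 := by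
    rw [mul_comm]
    exact Complex.norm_exp_ofReal_mul_I _
  rw [h1, mul_one]
  refine (norm_add_le _ _).trans ?_
  rw [norm_mul, Complex.norm_I, mul_one, Complex.norm_real, Complex.norm_real,
    Real.norm_eq_abs, Real.norm_eq_abs]

end PN

open PN in
theorem poly_norm {d n : ℕ} (p : ℝ) (hp : 1 ≤ p) :
    (∀ a : (layer d n) × Fin 2 → ℝ, eLpNorm (poly a) (ENNReal.ofReal p) (TP d) ≠ ⊤) ∧
    (∀ a b : (layer d n) × Fin 2 → ℝ, (eLpNorm (poly (a + b)) (ENNReal.ofReal p) (TP d)).toReal
      ≤ (eLpNorm (poly a) (ENNReal.ofReal p) (TP d)).toReal + (eLpNorm (poly b) (ENNReal.ofReal p) (TP d)).toReal) ∧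
    (∀ (t : ℝ) (a : (layer d n) × Fin 2 → ℝ), (eLpNorm (poly (t • a)) (ENNReal.ofReal p) (TP d)).toReal
      = |t| * (eLpNorm (poly a) (ENNReal.ofReal p) (TP d)).toReal) ∧
    Continuous (fun a : (layer d n) × Fin 2 → ℝ => (eLpNorm (poly a) (ENNReal.ofReal p) (TP d)).toReal) ∧
    (∀ (a : (layer d n) × Fin 2 → ℝ) (i : (layer d n) × Fin 2),
      |a i| ≤ (eLpNorm (poly a) (ENNReal.ofReal p) (TP d)).toReal) ∧
    (∀ a ∈ ball d n, (eLpNorm (poly a) (ENNReal.ofReal p) (TP d)).toReal ≤ 1) ∧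
    volume {a : (layer d n) × Fin 2 → ℝ | (eLpNorm (poly a) (ENNReal.ofReal p) (TP d)).toReal ≤ 1} ≠ 0 ∧
    volume {a : (layer d n) × Fin 2 → ℝ | (eLpNorm (poly a) (ENNReal.ofReal p) (TP d)).toReal ≤ 1} ≠ ⊤ := by
  haveI : IsProbabilityMeasure (TP d) := TP_prob d
  have hP1 : (1 : ℝ≥0∞) ≤ ENNReal.ofReal p := by
    rw [← ENNReal.ofReal_one]
    exact ENNReal.ofReal_le_ofReal hp
  have hsm : ∀ a : (layer d n) × Fin 2 → ℝ, AEStronglyMeasurable (poly a) (TP d) :=
    fun a => (poly_cont a).aestronglyMeasurable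
  have hmem : ∀ a : (layer d n) × Fin 2 → ℝ, MemLp (poly a) (ENNReal.ofReal p) (TP d) :=
    fun a => MemLp.of_bound (hsm a) (CB a) (Filter.Eventually.of_forall (poly_bound a))
  have hbd : ∀ (a : (layer d n) × Fin 2 → ℝ) (C : ℝ), 0 ≤ C → (∀ x, ‖poly a x‖ ≤ C) →
      (eLpNorm (poly a) (ENNReal.ofReal p) (TP d)).toReal ≤ C := by
    intro a C hC h
    have h1 := eLpNorm_le_of_ae_bound (p := ENNReal.ofReal p) (μ := TP d) (f := poly a)
      (C := C) (Filter.Eventually.of_forall h)
    rw [measure_univ, ENNReal.one_rpow, one_mul] at h1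
    exact ENNReal.toReal_le_of_le_ofReal hC h1
  have h2 : ∀ a b : (layer d n) × Fin 2 → ℝ,
      (eLpNorm (poly (a + b)) (ENNReal.ofReal p) (TP d)).toReal
      ≤ (eLpNorm (poly a) (ENNReal.ofReal p) (TP d)).toReal +
        (eLpNorm (poly b) (ENNReal.ofReal p) (TP d)).toReal := by
    intro a b
    rw [poly_add]
    have h := eLpNorm_add_le (hsm a) (hsm b) hP1
    rw [← ENNReal.toReal_add (hmem a).eLpNorm_ne_top (hmem b).eLpNorm_ne_top]
    exact ENNReal.toReal_mono
      (ENNReal.add_ne_top.mpr ⟨(hmem a).eLpNorm_ne_top, (hmem b).eLpNorm_ne_top⟩) h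
  have h3 : ∀ (t : ℝ) (a : (layer d n) × Fin 2 → ℝ),
      (eLpNorm (poly (t • a)) (ENNReal.ofReal p) (TP d)).toReal
      = |t| * (eLpNorm (poly a) (ENNReal.ofReal p) (TP d)).toReal := by
    intro t a
    rw [poly_smul, eLpNorm_const_smul, ENNReal.toReal_mul]
    rw [toReal_enorm, Real.norm_eq_abs]
  have hcont : Continuous (fun a : (layer d n) × Fin 2 → ℝ =>
      (eLpNorm (poly a) (ENNReal.ofReal p) (TP d)).toReal) := by
    rw [continuous_iff_continuousAt]
    intro a
    rw [ContinuousAt, tendsto_iff_dist_tendsto_zero]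
    have hC : Filter.Tendsto (fun b : (layer d n) × Fin 2 → ℝ => CB (b - a)) (nhds a) (nhds 0) := by
      have h : Continuous (fun b : (layer d n) × Fin 2 → ℝ => CB (b - a)) :=
        CB_cont.comp (continuous_id.sub continuous_const)
      apply h.tendsto' a 0
      simp [CB]
    refine squeeze_zero (fun _ => dist_nonneg) (fun b => ?_) hC
    rw [Real.dist_eq, abs_le]
    constructor
    · have h := h2 b (a - b)
      rw [add_sub_cancel] at h
      have h' := hbd (a - b) (CB (a - b)) (CB_nonneg _) (poly_bound _)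
      have h'' : CB (a - b) = CB (b - a) := by
        unfold CB
        refine Finset.sum_congr rfl fun k _ => ?_
        simp only [Pi.sub_apply]
        rw [abs_sub_comm, abs_sub_comm (a (k, 1))]
      linarith
    · have h := h2 a (b - a)
      rw [add_sub_cancel] at h
      have h' := hbd (b - a) (CB (b - a)) (CB_nonneg _) (poly_bound _)
      linarith
  have h5 : ∀ (a : (layer d n) × Fin 2 → ℝ) (i : (layer d n) × Fin 2),
      |a i| ≤ (eLpNorm (poly a) (ENNReal.ofReal p) (TP d)).toReal := by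
    intro a i
    have hz : |a i| ≤ ‖fc (poly a) i.1.1‖ := by
      rw [fc_poly]
      obtain ⟨k, j⟩ := i
      fin_cases j
      · have := Complex.abs_re_le_norm ((a (k, 0) : ℂ) + (a (k, 1) : ℂ) * Complex.I)
        simpa using this
      · have := Complex.abs_im_le_norm ((a (k, 0) : ℂ) + (a (k, 1) : ℂ) * Complex.I)
        simpa using this
    refine hz.trans ?_
    have hfc : ‖fc (poly a) i.1.1‖ ≤ ∫ x, ‖poly a x‖ ∂(TP d) := by
      unfold fc
      refine (norm_integral_le_integral_norm _).trans (le_of_eq ?_)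
      congr 1
      funext x
      rw [norm_mul]
      have h1 : ‖Complex.exp (-(Complex.I * ((∑ j, (i.1.1 j : ℝ) * x j : ℝ) : ℂ)))‖ = 1 := by
        have : (-(Complex.I * ((∑ j, (i.1.1 j : ℝ) * x j : ℝ) : ℂ))) =
            ((-(∑ j, (i.1.1 j : ℝ) * x j) : ℝ) : ℂ) * Complex.I := by
          push_cast
          ring
        rw [this]
        exact Complex.norm_exp_ofReal_mul_I _
      rw [h1, mul_one]
    refine hfc.trans ?_
    rw [integral_norm_eq_lintegral_enorm (hsm a), ← eLpNorm_one_eq_lintegral_enorm]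
    exact ENNReal.toReal_mono (hmem a).eLpNorm_ne_top
      (eLpNorm_le_eLpNorm_of_exponent_le hP1 (hsm a))
  have h0 : (eLpNorm (poly (0 : (layer d n) × Fin 2 → ℝ)) (ENNReal.ofReal p) (TP d)).toReal = 0 := by
    have h := h3 0 (0 : (layer d n) × Fin 2 → ℝ)
    rw [smul_zero, abs_zero, zero_mul] at h
    exact h
  refine ⟨fun a => (hmem a).eLpNorm_ne_top, h2, h3, hcont, h5,
    fun a ha => hbd a 1 zero_le_one ha, ?_, ?_⟩
  · have hopen : IsOpen {a : (layer d n) × Fin 2 → ℝ |
        (eLpNorm (poly a) (ENNReal.ofReal p) (TP d)).toReal < 1} :=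
      isOpen_lt hcont continuous_const
    have hpos := hopen.measure_pos volume ⟨0, by
      show (eLpNorm (poly (0 : (layer d n) × Fin 2 → ℝ)) (ENNReal.ofReal p) (TP d)).toReal < 1
      rw [h0]; exact zero_lt_one⟩
    refine (hpos.trans_le (measure_mono ?_)).ne'
    intro a ha
    simp only [Set.mem_setOf_eq] at ha ⊢
    exact ha.le
  · have hsub : {a : (layer d n) × Fin 2 → ℝ |
        (eLpNorm (poly a) (ENNReal.ofReal p) (TP d)).toReal ≤ 1} ⊆
        Metric.closedBall (0 : (layer d n) × Fin 2 → ℝ) 1 := by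
      intro a ha
      rw [mem_closedBall_zero_iff, pi_norm_le_iff_of_nonneg zero_le_one]
      intro i
      rw [Real.norm_eq_abs]
      exact (h5 a i).trans ha
    exact ((measure_mono hsub).trans_lt
      (isCompact_closedBall (0 : (layer d n) × Fin 2 → ℝ) 1).measure_lt_top).ne

end Sol_poly_norm

alias poly_norm := Sol_poly_norm.poly_norm

end MWidth
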