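import Pool.Agent.HypVol.Defs
import Pool.Agent.MWidth.Defs
import Pool.Agent.HypVol.L_TP_prob
import Pool.Agent.MWidth.L_layer_ent_p
import Pool.Agent.MWidth.L_Lp_interp
import Pool.Agent.MWidth.L_poly_norm
open MeasureTheory Real ProbabilityTheory
open scoped ENNReal BigOperators

namespace MWidth
open HypVol
namespace Sol_layer_ent_al











theorem layer_ent_al_tri {d n : ℕ} (p : ℝ) (hp : 1 ≤ p) (x y c : (layer d n) × Fin 2 → ℝ) (r : ℝ)
    (hr : 0 ≤ r)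
    (h1 : eLpNorm (poly (x - c)) (ENNReal.ofReal p) (TP d) ≤ ENNReal.ofReal r)
    (h2 : eLpNorm (poly (y - c)) (ENNReal.ofReal p) (TP d) ≤ ENNReal.ofReal r) :
    eLpNorm (poly (x - y)) (ENNReal.ofReal p) (TP d) ≤ ENNReal.ofReal (2 * r) := by
  obtain ⟨hfin, hadd, hsm, -⟩ := poly_norm (d := d) (n := n) p hp
  have e : x - y = (x - c) + (-1 : ℝ) • (y - c) := by
    rw [neg_one_smul]; abel
  have h3 := hadd (x - c) ((-1 : ℝ) • (y - c))
  rw [← e, hsm] at h3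
  have h4 : (eLpNorm (poly (x - c)) (ENNReal.ofReal p) (TP d)).toReal ≤ r :=
    ENNReal.toReal_le_of_le_ofReal hr h1
  have h5 : (eLpNorm (poly (y - c)) (ENNReal.ofReal p) (TP d)).toReal ≤ r :=
    ENNReal.toReal_le_of_le_ofReal hr h2
  rw [← ENNReal.ofReal_toReal (hfin (x - y))]
  apply ENNReal.ofReal_le_ofReal
  rw [abs_neg, abs_one, one_mul] at h3
  linarith

theorem layer_ent_al_pow (K τ θ : ℝ) (hK : 0 < K) (hτ : 0 < τ) :
    (K * τ ^ (1 / 2 : ℝ)) ^ θ * (K * τ) ^ (1 - θ) = K * τ ^ (1 - θ / 2) := by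
  rw [Real.mul_rpow hK.le (by positivity), Real.mul_rpow hK.le hτ.le, ← Real.rpow_mul hτ.le]
  have h1 : K ^ θ * K ^ (1 - θ) = K := by
    rw [← Real.rpow_add hK]; simp
  have h2 : τ ^ (1 / 2 * θ) * τ ^ (1 - θ) = τ ^ (1 - θ / 2) := by
    rw [← Real.rpow_add hτ]; congr 1; ring
  calc K ^ θ * τ ^ (1 / 2 * θ) * (K ^ (1 - θ) * τ ^ (1 - θ))
      = (K ^ θ * K ^ (1 - θ)) * (τ ^ (1 / 2 * θ) * τ ^ (1 - θ)) := by ring
    _ = _ := by rw [h1, h2]


theorem layer_ent_al (d : ℕ) (hd : 3 ≤ d) (p al : ℝ) (hp : 1 ≤ p) (hal : 1 / 2 ≤ al) (hal2 : 2 < p → 1 - 1 / p < al) :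
    ∃ C : ℝ, 0 < C ∧ ∀ n : ℕ, 1 ≤ n →
    ∀ τ : ℝ, 1 ≤ τ → ∃ F : Finset ((layer d n) × Fin 2 → ℝ), (∀ x ∈ F, x ∈ ball d n) ∧
      (F.card : ℝ) ≤ Real.exp (C * 2^n * (n:ℝ)^(d-1) / τ + 2) ∧
      ∀ x ∈ ball d n, ∃ y ∈ F, eLpNorm (poly (x - y)) (ENNReal.ofReal p) (TP d)
        ≤ ENNReal.ofReal (C * τ ^ al / Real.sqrt n) := by
  rcases le_or_gt p 2 with hp2 | hp2
  · obtain ⟨C, hC, H⟩ := layer_ent_p d hd p hp
    refine ⟨C, hC, fun n hn τ hτ => ?_⟩
    obtain ⟨F, hF, hcard, hcov⟩ := H n hn τ hτ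
    refine ⟨F, hF, hcard.trans (Real.exp_le_exp.mpr (by linarith)), fun x hx => ?_⟩
    obtain ⟨y, hy, hxy⟩ := hcov x hx
    refine ⟨y, hy, hxy.trans (ENNReal.ofReal_le_ofReal ?_)⟩
    have ha : alp p = 1 / 2 := if_pos hp2
    rw [ha]
    have h1 : τ ^ (1 / 2 : ℝ) ≤ τ ^ al := Real.rpow_le_rpow_of_exponent_le hτ hal
    gcongr
  · have hal3 := hal2 hp2
    have hp0 : 0 < p := by linarith
    obtain ⟨θ, hθ0, hθp, hθal⟩ : ∃ θ : ℝ, 0 < θ ∧ θ < 2 / p ∧ 1 - θ / 2 ≤ al := by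
      have h2p : 0 < 2 / p := by positivity
      have e2 : 2 / p = 2 * (1 / p) := by ring
      have hm1 : max 0 (2 * (1 - al)) < 2 / p := by
        apply max_lt h2p
        rw [e2]; linarith
      have hm0 : 0 ≤ max 0 (2 * (1 - al)) := le_max_left _ _
      have hm2 : 2 * (1 - al) ≤ max 0 (2 * (1 - al)) := le_max_right _ _
      refine ⟨(max 0 (2 * (1 - al)) + 2 / p) / 2, by linarith, by linarith, by linarith⟩
    have h2p1 : 2 / p < 1 := by rw [div_lt_one hp0]; exact hp2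
    have hθ1 : θ < 1 := by linarith
    have hden : 0 < 1 / p - θ / 2 := by
      have e2 : 2 / p = 2 * (1 / p) := by ring
      linarith
    obtain ⟨q, hpq, hrel⟩ : ∃ q : ℝ, p < q ∧ 1 / p = θ / 2 + (1 - θ) / q := by
      refine ⟨(1 - θ) / (1 / p - θ / 2), ?_, ?_⟩
      · rw [lt_div_iff₀ hden]
        have e3 : p * (1 / p - θ / 2) = 1 - p * θ / 2 := by field_simp
        rw [e3]
        nlinarith
      · rw [div_div_cancel₀ (by linarith : (1 - θ) ≠ 0)]
        ring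
    have hq2 : 2 < q := by linarith
    obtain ⟨C2, hC2, H2⟩ := layer_ent_p d hd 2 (by norm_num)
    obtain ⟨Cq, hCq, Hq⟩ := layer_ent_p d hd q (by linarith)
    refine ⟨2 * (C2 + Cq), by positivity, fun n hn τ hτ => ?_⟩
    obtain ⟨F2, hF2, hc2, hv2⟩ := H2 n hn τ hτ
    obtain ⟨Fq, hFq, hcq, hvq⟩ := Hq n hn τ hτ
    have ha2 : alp 2 = 1 / 2 := if_pos le_rfl
    have haq : alp q = 1 := if_neg (not_le.mpr hq2)
    rw [ha2] at hv2
    rw [haq] at hvq
    have hτ0 : 0 < τ := by linarith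
    have hn0 : (0:ℝ) < n := by exact_mod_cast hn
    have hsn : 0 < Real.sqrt n := Real.sqrt_pos.mpr hn0
    classical
    let P : (((layer d n) × Fin 2 → ℝ) × ((layer d n) × Fin 2 → ℝ)) →
        ((layer d n) × Fin 2 → ℝ) → Prop := fun c x => x ∈ ball d n ∧
      eLpNorm (poly (x - c.1)) (ENNReal.ofReal 2) (TP d) ≤
        ENNReal.ofReal (C2 * τ ^ (1 / 2 : ℝ) / Real.sqrt n) ∧
      eLpNorm (poly (x - c.2)) (ENNReal.ofReal q) (TP d) ≤
        ENNReal.ofReal (Cq * τ ^ (1 : ℝ) / Real.sqrt n)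
    let ch : (((layer d n) × Fin 2 → ℝ) × ((layer d n) × Fin 2 → ℝ)) →
        ((layer d n) × Fin 2 → ℝ) := fun c => if h : ∃ x, P c x then h.choose else 0
    have h0 : (0 : (layer d n) × Fin 2 → ℝ) ∈ ball d n := by
      intro x
      simp [poly]
    have hch : ∀ c, ch c ∈ ball d n := by
      intro c
      by_cases h : ∃ x, P c x
      · have : ch c = h.choose := dif_pos h
        rw [this]
        exact h.choose_spec.1
      · have : ch c = 0 := dif_neg h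
        rw [this]
        exact h0
    refine ⟨(F2 ×ˢ Fq).image ch, ?_, ?_, ?_⟩
    · intro x hx
      obtain ⟨c, -, rfl⟩ := Finset.mem_image.mp hx
      exact hch c
    · have h1 : (((F2 ×ˢ Fq).image ch).card : ℝ) ≤ (F2.card : ℝ) * (Fq.card : ℝ) := by
        have h2 := Finset.card_image_le (s := F2 ×ˢ Fq) (f := ch)
        rw [Finset.card_product] at h2
        exact_mod_cast h2
      have hX : 0 ≤ 2 ^ n * (n:ℝ) ^ (d - 1) / τ := by positivity
      calc (((F2 ×ˢ Fq).image ch).card : ℝ) ≤ (F2.card : ℝ) * (Fq.card : ℝ) := h1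
        _ ≤ Real.exp (C2 * 2 ^ n * (n:ℝ) ^ (d - 1) / τ + 1) *
            Real.exp (Cq * 2 ^ n * (n:ℝ) ^ (d - 1) / τ + 1) :=
            mul_le_mul hc2 hcq (by positivity) (Real.exp_nonneg _)
        _ = Real.exp ((C2 * 2 ^ n * (n:ℝ) ^ (d - 1) / τ + 1) +
            (Cq * 2 ^ n * (n:ℝ) ^ (d - 1) / τ + 1)) := (Real.exp_add _ _).symm
        _ ≤ Real.exp (2 * (C2 + Cq) * 2 ^ n * (n:ℝ) ^ (d - 1) / τ + 2) := by
            apply Real.exp_le_exp.mpr
            have e1 : C2 * 2 ^ n * (n:ℝ) ^ (d - 1) / τ = C2 * (2 ^ n * (n:ℝ) ^ (d - 1) / τ) := by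
              ring
            have e2 : Cq * 2 ^ n * (n:ℝ) ^ (d - 1) / τ = Cq * (2 ^ n * (n:ℝ) ^ (d - 1) / τ) := by
              ring
            have e3 : 2 * (C2 + Cq) * 2 ^ n * (n:ℝ) ^ (d - 1) / τ =
              2 * (C2 + Cq) * (2 ^ n * (n:ℝ) ^ (d - 1) / τ) := by ring
            rw [e1, e2, e3]
            have h3 : 0 ≤ (C2 + Cq) * (2 ^ n * (n:ℝ) ^ (d - 1) / τ) := by positivity
            nlinarith
    · intro x hx
      obtain ⟨c2, hc2m, h2⟩ := hv2 x hx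
      obtain ⟨cq, hcqm, hq'⟩ := hvq x hx
      have hex : ∃ x, P (c2, cq) x := ⟨x, hx, h2, hq'⟩
      have hspec := hex.choose_spec
      have hcheq : ch (c2, cq) = hex.choose := dif_pos hex
      refine ⟨ch (c2, cq), Finset.mem_image_of_mem _ (Finset.mk_mem_product hc2m hcqm), ?_⟩
      rw [hcheq]
      generalize hex.choose = y at hspec
      have t2 := layer_ent_al_tri 2 (by norm_num) x y c2 _ (by positivity) h2 hspec.2.1
      have tq := layer_ent_al_tri q (by linarith) x y cq _ (by positivity) hq' hspec.2.2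
      have hK : 0 < 2 * (C2 + Cq) / Real.sqrt n := by positivity
      have t2' : eLpNorm (poly (x - y)) 2 (TP d) ≤
          ENNReal.ofReal (2 * (C2 + Cq) / Real.sqrt n * τ ^ (1 / 2 : ℝ)) := by
        rw [ENNReal.ofReal_ofNat] at t2
        refine t2.trans (ENNReal.ofReal_le_ofReal ?_)
        have e1 : 2 * (C2 * τ ^ (1 / 2 : ℝ) / Real.sqrt n) =
          (2 * C2) / Real.sqrt n * τ ^ (1 / 2 : ℝ) := by ring
        rw [e1]
        gcongr
        linarith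
      have tq' : eLpNorm (poly (x - y)) (ENNReal.ofReal q) (TP d) ≤
          ENNReal.ofReal (2 * (C2 + Cq) / Real.sqrt n * τ) := by
        refine tq.trans (ENNReal.ofReal_le_ofReal ?_)
        rw [Real.rpow_one]
        have e1 : 2 * (Cq * τ / Real.sqrt n) = (2 * Cq) / Real.sqrt n * τ := by ring
        rw [e1]
        gcongr
        linarith
      have hmain := Lp_interp p q θ hp2 hpq hθ0 hθ1 hrel (x - y) _ _
        (mul_pos hK (Real.rpow_pos_of_pos hτ0 _)) (mul_pos hK hτ0) t2' tq'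
      refine hmain.trans (ENNReal.ofReal_le_ofReal ?_)
      rw [layer_ent_al_pow _ τ θ hK hτ0]
      have h3 : τ ^ (1 - θ / 2) ≤ τ ^ al := Real.rpow_le_rpow_of_exponent_le hτ hθal
      calc 2 * (C2 + Cq) / Real.sqrt n * τ ^ (1 - θ / 2)
          ≤ 2 * (C2 + Cq) / Real.sqrt n * τ ^ al := by gcongr
        _ = 2 * (C2 + Cq) * τ ^ al / Real.sqrt n := by ring

end Sol_layer_ent_al

alias layer_ent_al := Sol_layer_ent_al.layer_ent_al

end MWidth
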