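import Pool.Agent.HypVol.Defs
import Pool.Agent.MWidth.Defs
open MeasureTheory Real ProbabilityTheory
open scoped ENNReal BigOperators

namespace MWidth
open HypVol
namespace Sol_vol_net



open scoped Pointwise in
theorem vn_ball_vol {ι : Type} [Fintype ι] (ν : (ι → ℝ) → ℝ)
    (hsmul : ∀ (t : ℝ) (x : ι → ℝ), ν (t • x) = |t| * ν x) (x : ι → ℝ) (r : ℝ) (hr : 0 < r) :
    volume {z | ν (z - x) ≤ r} = ENNReal.ofReal (r ^ Fintype.card ι) * volume {z | ν z ≤ 1} := by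
  have h1 : {z | ν (z - x) ≤ r} = (fun z => z + (-x)) ⁻¹' (r • {z | ν z ≤ 1}) := by
    ext z
    simp only [Set.mem_setOf_eq, Set.mem_preimage]
    rw [Set.mem_smul_set_iff_inv_smul_mem₀ hr.ne', Set.mem_setOf_eq, hsmul, abs_of_pos (inv_pos.2 hr),
      ← sub_eq_add_neg, inv_mul_le_iff₀ hr, mul_one]
  rw [h1, measure_preimage_add_right, Measure.addHaar_smul, Module.finrank_fintype_fun_eq_card,
    abs_of_pos (by positivity)]

theorem vn_card {ι : Type} [Fintype ι] (ν : (ι → ℝ) → ℝ) (hadd : ∀ x y, ν (x + y) ≤ ν x + ν y)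
    (hsmul : ∀ (t : ℝ) (x : ι → ℝ), ν (t • x) = |t| * ν x) (hm : Measurable ν)
    (hpos : volume {x | ν x ≤ 1} ≠ 0) (hfin : volume {x | ν x ≤ 1} ≠ ⊤)
    (A : Set (ι → ℝ)) (c : ι → ℝ) (ρ δ : ℝ) (hρ : 0 < ρ) (hδ : 0 < δ) (hδ1 : δ ≤ 1)
    (hA : ∀ x ∈ A, ν (x - c) ≤ ρ) (F : Finset (ι → ℝ)) (hF : ∀ x ∈ F, x ∈ A)
    (hsep : ∀ x ∈ F, ∀ y ∈ F, x ≠ y → δ * ρ < ν (x - y)) :
    (F.card : ℝ) ≤ (3 / δ)^(Fintype.card ι) := by
  have hneg : ∀ x, ν (-x) = ν x := by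
    intro x
    have := hsmul (-1) x
    simpa using this
  have hr : 0 < δ * ρ / 2 := by positivity
  have hR : 0 < 3 / 2 * ρ := by positivity
  have hdisj : (F : Set (ι → ℝ)).PairwiseDisjoint (fun x => {z | ν (z - x) ≤ δ * ρ / 2}) := by
    intro x hx y hy hxy
    rw [Function.onFun, Set.disjoint_left]
    intro z hz1 hz2
    simp only [Set.mem_setOf_eq] at hz1 hz2
    have h1 := hsep x hx y hy hxy
    have h2 : ν (x - y) ≤ ν (x - z) + ν (z - y) := by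
      have := hadd (x - z) (z - y)
      simpa using this
    have h3 : ν (x - z) = ν (z - x) := by
      rw [← hneg (x - z)]; congr 1; abel
    linarith
  have hmeas : ∀ x : ι → ℝ, MeasurableSet {z | ν (z - x) ≤ δ * ρ / 2} := by
    intro x
    exact measurableSet_le (hm.comp (measurable_id.sub_const x)) measurable_const
  have hsub : (⋃ x ∈ F, {z | ν (z - x) ≤ δ * ρ / 2}) ⊆ {z | ν (z - c) ≤ 3 / 2 * ρ} := by
    intro z hz
    simp only [Set.mem_iUnion, Set.mem_setOf_eq, exists_prop] at hz ⊢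
    obtain ⟨x, hx, hz⟩ := hz
    have h1 := hA x (hF x hx)
    have h2 : ν (z - c) ≤ ν (z - x) + ν (x - c) := by
      have := hadd (z - x) (x - c)
      simpa using this
    nlinarith
  have hle : volume (⋃ x ∈ F, {z | ν (z - x) ≤ δ * ρ / 2}) ≤ volume {z | ν (z - c) ≤ 3 / 2 * ρ} :=
    measure_mono hsub
  rw [measure_biUnion_finset hdisj (fun x _ => hmeas x), vn_ball_vol ν hsmul c _ hR,
    Finset.sum_congr rfl (fun x _ => vn_ball_vol ν hsmul x _ hr), Finset.sum_const, nsmul_eq_mul,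
    ← mul_assoc] at hle
  have hle2 := (ENNReal.mul_le_mul_iff_left hpos hfin).1 hle
  rw [← ENNReal.ofReal_natCast, ← ENNReal.ofReal_mul (by positivity),
    ENNReal.ofReal_le_ofReal_iff (by positivity)] at hle2
  have h4 : (3 / 2 * ρ) ^ Fintype.card ι = (3 / δ) ^ Fintype.card ι * (δ * ρ / 2) ^ Fintype.card ι := by
    rw [← mul_pow]; congr 1; field_simp
  rw [h4] at hle2
  exact le_of_mul_le_mul_right hle2 (by positivity)


theorem vol_net {ι : Type} [Fintype ι] (ν : (ι → ℝ) → ℝ) (hadd : ∀ x y, ν (x + y) ≤ ν x + ν y)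
    (hsmul : ∀ (t : ℝ) (x : ι → ℝ), ν (t • x) = |t| * ν x) (hm : Measurable ν)
    (hpos : volume {x | ν x ≤ 1} ≠ 0) (hfin : volume {x | ν x ≤ 1} ≠ ⊤)
    (A : Set (ι → ℝ)) (c : ι → ℝ) (ρ δ : ℝ) (hρ : 0 < ρ) (hδ : 0 < δ) (hδ1 : δ ≤ 1)
    (hA : ∀ x ∈ A, ν (x - c) ≤ ρ) :
    ∃ F : Finset (ι → ℝ), (∀ x ∈ F, x ∈ A) ∧ (F.card : ℝ) ≤ (3 / δ)^(Fintype.card ι) ∧
      ∀ x ∈ A, ∃ y ∈ F, ν (x - y) ≤ δ * ρ := by
  classical
  have hν0 : ν 0 = 0 := by
    have := hsmul 0 0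
    simpa using this
  let T : Set ℕ := {k | ∃ F : Finset (ι → ℝ), (∀ x ∈ F, x ∈ A) ∧
    (∀ x ∈ F, ∀ y ∈ F, x ≠ y → δ * ρ < ν (x - y)) ∧ F.card = k}
  have hT0 : T.Nonempty := ⟨0, ∅, by simp, by simp, by simp⟩
  have hTb : BddAbove T := by
    refine ⟨⌊(3 / δ)^(Fintype.card ι)⌋₊, ?_⟩
    rintro k ⟨F, h1, h2, rfl⟩
    exact Nat.le_floor (vn_card ν hadd hsmul hm hpos hfin A c ρ δ hρ hδ hδ1 hA F h1 h2)
  obtain ⟨F, h1, h2, h3⟩ := Nat.sSup_mem hT0 hTb
  refine ⟨F, h1, vn_card ν hadd hsmul hm hpos hfin A c ρ δ hρ hδ hδ1 hA F h1 h2, ?_⟩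
  intro x hx
  by_contra hcon
  push Not at hcon
  have hxF : x ∉ F := by
    intro hxF
    have := hcon x hxF
    rw [sub_self, hν0] at this
    nlinarith [mul_pos hδ hρ]
  have hneg : ∀ x, ν (-x) = ν x := by
    intro x
    have := hsmul (-1) x
    simpa using this
  have hmem : (insert x F).card ∈ T := by
    refine ⟨insert x F, ?_, ?_, rfl⟩
    · intro y hy
      rcases Finset.mem_insert.1 hy with rfl | hy
      · exact hx
      · exact h1 y hy
    · intro y hy z hz hyz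
      rcases Finset.mem_insert.1 hy with hy1 | hy1 <;> rcases Finset.mem_insert.1 hz with hz1 | hz1
      · exact absurd (hy1.trans hz1.symm) hyz
      · rw [hy1]; exact hcon z hz1
      · rw [← hneg (y - z), hz1, neg_sub]
        exact hcon y hy1
      · exact h2 y hy1 z hz1 hyz
  have h5 := le_csSup hTb hmem
  rw [Finset.card_insert_of_notMem hxF, ← h3] at h5
  omega

end Sol_vol_net

alias vol_net := Sol_vol_net.vol_net

end MWidth
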