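import Pool.Agent.HypVol.Defs
import Pool.Agent.MWidth.Defs
import Pool.Agent.HypVol.L_shp_upper
import Pool.Agent.HypVol.L_card_layer
import Pool.Agent.MWidth.L_layer_ent_p
import Pool.Agent.MWidth.L_vol_net
import Pool.Agent.MWidth.L_poly_norm
open MeasureTheory Real ProbabilityTheory
open scoped ENNReal BigOperators

namespace MWidth
open HypVol
namespace Sol_layer_fine











lemma refine_net {d n : ℕ} (p : ℝ) (hp : 1 ≤ p) (F1 : Finset ((layer d n) × Fin 2 → ℝ))
    (ρ : ℝ) (hρ : 0 < ρ)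
    (hcov : ∀ x ∈ ball d n, ∃ y ∈ F1,
      (eLpNorm (poly (x - y)) (ENNReal.ofReal p) (TP d)).toReal ≤ ρ)
    (δ : ℝ) (hδ : 0 < δ) (hδ1 : δ ≤ 1) :
    ∃ F : Finset ((layer d n) × Fin 2 → ℝ), (∀ x ∈ F, x ∈ ball d n) ∧
      (F.card : ℝ) ≤ F1.card * (3 / δ) ^ ((layer d n).card * 2) ∧
      ∀ x ∈ ball d n, ∃ y ∈ F,
        (eLpNorm (poly (x - y)) (ENNReal.ofReal p) (TP d)).toReal ≤ δ * ρ := by
  classical
  obtain ⟨h1, h2, h3, h4, h5, h6, h7, h8⟩ := poly_norm (d := d) (n := n) p hp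
  have hv := fun c : (layer d n) × Fin 2 → ℝ =>
    vol_net (fun a : (layer d n) × Fin 2 → ℝ =>
      (eLpNorm (poly a) (ENNReal.ofReal p) (TP d)).toReal) h2 h3 h4.measurable h7 h8
      {x | x ∈ ball d n ∧ (eLpNorm (poly (x - c)) (ENNReal.ofReal p) (TP d)).toReal ≤ ρ}
      c ρ δ hρ hδ hδ1 (fun x hx => hx.2)
  choose G hG1 hG2 hG3 using hv
  refine ⟨F1.biUnion G, ?_, ?_, ?_⟩
  · intro x hx
    rw [Finset.mem_biUnion] at hx
    obtain ⟨c, hc, hx⟩ := hx
    exact (hG1 c x hx).1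
  · have e1 : Fintype.card ((layer d n) × Fin 2) = (layer d n).card * 2 := by
      simp [Fintype.card_prod]
    calc ((F1.biUnion G).card : ℝ) ≤ ((∑ c ∈ F1, (G c).card : ℕ) : ℝ) := by
          exact_mod_cast Finset.card_biUnion_le
      _ = ∑ c ∈ F1, ((G c).card : ℝ) := by push_cast; rfl
      _ ≤ ∑ c ∈ F1, (3 / δ) ^ ((layer d n).card * 2) := by
          apply Finset.sum_le_sum
          intro c hc
          rw [← e1]
          exact hG2 c
      _ = _ := by rw [Finset.sum_const, nsmul_eq_mul]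
  · intro x hx
    obtain ⟨c, hc, hxc⟩ := hcov x hx
    obtain ⟨y, hy, hxy⟩ := hG3 c x ⟨hx, hxc⟩
    exact ⟨y, Finset.mem_biUnion.2 ⟨c, hc, hy⟩, hxy⟩

lemma log3d (κ : ℝ) (hκ : 0 < κ) (j : ℕ) (L : ℕ) :
    (3 / (2:ℝ)^(-(κ * j))) ^ (L * 2) ≤ Real.exp (2 * L * (2 + κ) * (j + 1)) := by
  have e1 : (3 / (2:ℝ)^(-(κ * j))) = Real.exp (Real.log 3 + κ * j * Real.log 2) := by
    rw [Real.exp_add, Real.exp_log (by norm_num), Real.rpow_def_of_pos (by norm_num),
      div_eq_mul_inv, ← Real.exp_neg]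
    congr 2
    ring
  have l3 : Real.log 3 ≤ 2 := by
    have := Real.log_le_sub_one_of_pos (show (0:ℝ) < 3 by norm_num)
    linarith
  have l2 : Real.log 2 ≤ 1 := by
    have := Real.log_le_sub_one_of_pos (show (0:ℝ) < 2 by norm_num)
    linarith
  rw [e1, ← Real.exp_nat_mul]
  apply Real.exp_le_exp.2
  have hj : (0:ℝ) ≤ j := Nat.cast_nonneg j
  have hL : (0:ℝ) ≤ L := Nat.cast_nonneg L
  have h5 : Real.log 3 + κ * j * Real.log 2 ≤ (2 + κ) * (j + 1) := by
    have : κ * j * Real.log 2 ≤ κ * j * 1 := mul_le_mul_of_nonneg_left l2 (by positivity)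
    nlinarith [mul_nonneg hκ.le hj]
  push_cast
  calc (L:ℝ) * 2 * (Real.log 3 + κ * j * Real.log 2) ≤ (L:ℝ) * 2 * ((2 + κ) * (j + 1)) :=
        mul_le_mul_of_nonneg_left h5 (by positivity)
    _ = _ := by ring


theorem layer_fine (d : ℕ) (hd : 3 ≤ d) (p : ℝ) (hp : 1 ≤ p) (κ : ℝ) (hκ : 0 < κ) : ∃ C : ℝ, 0 < C ∧
    ∀ n j : ℕ, ∃ F : Finset ((layer d n) × Fin 2 → ℝ), (∀ x ∈ F, x ∈ ball d n) ∧
      (F.card : ℝ) ≤ Real.exp (C * 2^n * (max (n:ℝ) 1)^(d-1) * (j + 1)) ∧
      ∀ x ∈ ball d n, ∃ y ∈ F, eLpNorm (poly (x - y)) (ENNReal.ofReal p) (TP d)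
        ≤ ENNReal.ofReal (C * (2:ℝ)^(-(κ * j)) / Real.sqrt (max (n:ℝ) 1)) := by
  obtain ⟨C1, hC1, H1⟩ := layer_ent_p d hd p hp
  obtain ⟨C2, hC2, H2⟩ := shp_upper d (by omega)
  set L0 : ℝ := ((layer d 0).card : ℝ) with hL0
  have hL0' : 0 ≤ L0 := by positivity
  refine ⟨C1 + 1 + 2 * (C2 + L0) * (2 + κ), by positivity, ?_⟩
  intro n j
  have hj : (0:ℝ) ≤ j := Nat.cast_nonneg j
  have hδ : (0:ℝ) < (2:ℝ)^(-(κ * j)) := by positivity
  have hδ1 : (2:ℝ)^(-(κ * j)) ≤ 1 := by
    apply Real.rpow_le_one_of_one_le_of_nonpos (by norm_num)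
    have : 0 ≤ κ * j := by positivity
    linarith
  have hpn := poly_norm (d := d) (n := n) p hp
  obtain ⟨h1, -, -, -, -, h6, -, -⟩ := hpn
  rcases Nat.eq_zero_or_pos n with rfl | hn
  · have hz : (0 : (layer d 0) × Fin 2 → ℝ) ∈ ball d 0 := by
      intro x
      simp [poly]
    obtain ⟨F, hF1, hF2, hF3⟩ := refine_net (d := d) (n := 0) p hp {0} 1 one_pos
      (fun x hx => ⟨0, by simp, by simpa using h6 x hx⟩) _ hδ hδ1
    refine ⟨F, hF1, ?_, ?_⟩
    · refine hF2.trans ?_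
      have := log3d κ hκ j (layer d 0).card
      simp only [Finset.card_singleton, Nat.cast_one, one_mul]
      refine this.trans ?_
      apply Real.exp_le_exp.2
      have e : (max ((0:ℕ):ℝ) 1) = 1 := by norm_num
      rw [e]
      simp only [pow_zero, one_pow, mul_one]
      rw [← hL0]
      apply mul_le_mul_of_nonneg_right _ (by positivity)
      nlinarith [mul_pos hC2 (show (0:ℝ) < 2 + κ by positivity), hC1]
    · intro x hx
      obtain ⟨y, hy, hxy⟩ := hF3 x hx
      refine ⟨y, hy, ?_⟩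
      rw [ENNReal.le_ofReal_iff_toReal_le (h1 _) (by positivity)]
      refine hxy.trans ?_
      have e : (max ((0:ℕ):ℝ) 1) = 1 := by norm_num
      rw [e, Real.sqrt_one, div_one, mul_one]
      have : (1:ℝ) ≤ C1 + 1 + 2 * (C2 + L0) * (2 + κ) := by
        have : 0 ≤ 2 * (C2 + L0) * (2 + κ) := by positivity
        linarith
      calc (2:ℝ)^(-(κ * j)) = 1 * (2:ℝ)^(-(κ * j)) := by ring
        _ ≤ _ := mul_le_mul_of_nonneg_right this hδ.le
  · have hn1 : (1:ℝ) ≤ n := by exact_mod_cast hn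
    obtain ⟨F1, hF11, hF12, hF13⟩ := H1 n hn 1 le_rfl
    have hρ : 0 < C1 / Real.sqrt n := by positivity
    obtain ⟨F, hF1, hF2, hF3⟩ := refine_net (d := d) (n := n) p hp F1 (C1 / Real.sqrt n) hρ
      (by
        intro x hx
        obtain ⟨y, hy, hxy⟩ := hF13 x hx
        refine ⟨y, hy, ?_⟩
        apply ENNReal.toReal_le_of_le_ofReal hρ.le
        simpa using hxy) _ hδ hδ1
    have e : (max (n:ℝ) 1) = n := max_eq_left hn1
    refine ⟨F, hF1, ?_, ?_⟩
    · refine hF2.trans ?_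
      have h7 := log3d κ hκ j (layer d n).card
      have h8 : ((layer d n).card : ℝ) ≤ 2^n * (C2 * (n:ℝ)^(d-1)) := by
        rw [card_layer]
        push_cast
        exact mul_le_mul_of_nonneg_left (H2 n hn) (by positivity)
      calc (F1.card : ℝ) * (3 / (2:ℝ)^(-(κ * j))) ^ ((layer d n).card * 2)
          ≤ Real.exp (C1 * 2^n * (n:ℝ)^(d-1) / 1 + 1) *
            Real.exp (2 * (layer d n).card * (2 + κ) * (j + 1)) := by
            apply mul_le_mul hF12 h7 (by positivity) (by positivity)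
        _ = Real.exp (C1 * 2^n * (n:ℝ)^(d-1) / 1 + 1 + 2 * (layer d n).card * (2 + κ) * (j + 1)) := by
            rw [← Real.exp_add]
        _ ≤ _ := by
            apply Real.exp_le_exp.2
            rw [e]
            set X : ℝ := 2^n * (n:ℝ)^(d-1) with hX
            have hX1 : 1 ≤ X := by
              have a1 : (1:ℝ) ≤ 2^n := one_le_pow₀ (by norm_num)
              have a2 : (1:ℝ) ≤ (n:ℝ)^(d-1) := one_le_pow₀ hn1
              calc (1:ℝ) = 1 * 1 := by norm_num
                _ ≤ X := mul_le_mul a1 a2 (by norm_num) (by positivity)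
            have hXj : X ≤ X * (j + 1) := by nlinarith
            have h9 : 2 * ((layer d n).card : ℝ) * (2 + κ) * (j + 1) ≤
                2 * (C2 * X) * (2 + κ) * (j + 1) := by
              apply mul_le_mul_of_nonneg_right _ (by positivity)
              apply mul_le_mul_of_nonneg_right _ (by positivity)
              apply mul_le_mul_of_nonneg_left _ (by norm_num)
              calc ((layer d n).card : ℝ) ≤ 2^n * (C2 * (n:ℝ)^(d-1)) := h8
                _ = C2 * X := by rw [hX]; ring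
            have h10 : 0 ≤ 2 * L0 * (2 + κ) * X * (j + 1) := by
              have : 0 ≤ X := by linarith
              positivity
            calc C1 * 2^n * (n:ℝ)^(d-1) / 1 + 1 + 2 * ((layer d n).card : ℝ) * (2 + κ) * (j + 1)
                = C1 * X + 1 + 2 * ((layer d n).card : ℝ) * (2 + κ) * (j + 1) := by
                  rw [hX]; ring
              _ ≤ C1 * (X * (j + 1)) + X * (j + 1) + 2 * (C2 * X) * (2 + κ) * (j + 1) := by
                  have := mul_le_mul_of_nonneg_left hXj hC1.le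
                  linarith
              _ ≤ C1 * (X * (j + 1)) + X * (j + 1) + 2 * (C2 * X) * (2 + κ) * (j + 1)
                  + 2 * L0 * (2 + κ) * X * (j + 1) := by linarith
              _ = (C1 + 1 + 2 * (C2 + L0) * (2 + κ)) * 2^n * (n:ℝ)^(d-1) * (j + 1) := by
                  rw [hX]; ring
    · intro x hx
      obtain ⟨y, hy, hxy⟩ := hF3 x hx
      refine ⟨y, hy, ?_⟩
      rw [ENNReal.le_ofReal_iff_toReal_le (h1 _) (by positivity)]
      refine hxy.trans ?_
      rw [e]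
      have : C1 ≤ C1 + 1 + 2 * (C2 + L0) * (2 + κ) := by
        have : 0 ≤ 2 * (C2 + L0) * (2 + κ) := by positivity
        linarith
      calc (2:ℝ)^(-(κ * j)) * (C1 / Real.sqrt n) = C1 * (2:ℝ)^(-(κ * j)) / Real.sqrt n := by ring
        _ ≤ _ := by
          apply div_le_div_of_nonneg_right _ (Real.sqrt_nonneg _)
          exact mul_le_mul_of_nonneg_right this hδ.le

end Sol_layer_fine

alias layer_fine := Sol_layer_fine.layer_fine

end MWidth
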