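import Pool.Agent.HypVol.Defs
import Pool.Agent.MWidth.Defs
open MeasureTheory Real ProbabilityTheory
open scoped ENNReal BigOperators

namespace MWidth
open HypVol
namespace Sol_num_sums



noncomputable def nsG (y ε : ℝ) (j : ℕ) : ℝ := (1 + (j:ℝ))^y * (2:ℝ)^(-(ε * j))

theorem nsG_nonneg (y ε : ℝ) (j : ℕ) : 0 ≤ nsG y ε j := by
  unfold nsG; positivity

theorem nsG_summable (y ε : ℝ) (hε : 0 < ε) : Summable (nsG y ε) := by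
  set r : ℝ := (2:ℝ)^(-ε) with hr
  have hr0 : 0 < r := by positivity
  have hr1 : r < 1 := Real.rpow_lt_one_of_one_lt_of_neg (by norm_num) (by linarith)
  have h1 : Summable (fun n : ℕ => (n:ℝ)^(⌈|y|⌉₊) * r^n) :=
    summable_pow_mul_geometric_of_norm_lt_one _ (by rw [Real.norm_of_nonneg hr0.le]; exact hr1)
  have h2 := ((summable_nat_add_iff 1).2 h1).mul_left r⁻¹
  refine Summable.of_nonneg_of_le (nsG_nonneg y ε) (fun j => ?_) h2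
  unfold nsG
  have e1 : (2:ℝ)^(-(ε * j)) = r^j := by
    rw [hr, ← Real.rpow_natCast, ← Real.rpow_mul (by norm_num)]
    congr 1; ring
  have hj : (1:ℝ) ≤ 1 + j := by linarith [Nat.cast_nonneg (α := ℝ) j]
  have e2 : (1 + (j:ℝ))^y ≤ (1 + (j:ℝ))^(⌈|y|⌉₊) := by
    rw [← Real.rpow_natCast]
    exact Real.rpow_le_rpow_of_exponent_le hj ((le_abs_self y).trans (Nat.le_ceil _))
  rw [e1]
  have e3 : r⁻¹ * (((j + 1 : ℕ) : ℝ)^(⌈|y|⌉₊) * r^(j+1)) = (1 + (j:ℝ))^(⌈|y|⌉₊) * r^j := by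
    push_cast
    rw [pow_succ r j, add_comm (1:ℝ) j]
    field_simp
  rw [e3]
  exact mul_le_mul_of_nonneg_right e2 (by positivity)

theorem ns_fin {g : ℕ → ℝ} (hg : Summable g) (h0 : ∀ j, 0 ≤ g j) (s : Finset ℕ) (φ : ℕ → ℕ)
    (hφ : Set.InjOn φ s) : ∑ n ∈ s, g (φ n) ≤ ∑' j, g j := by
  rw [← Finset.sum_image (f := g) (g := φ) hφ]
  exact hg.sum_le_tsum _ (fun j _ => h0 j)

theorem ns_ratio (x : ℝ) {p q j : ℝ} (hp : 0 < p) (hq : 0 < q) (hj : 0 ≤ j)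
    (h1 : p ≤ q * (1 + j)) (h2 : q ≤ p * (1 + j)) : p^x ≤ q^x * (1 + j)^|x| := by
  have hj1 : (0:ℝ) < 1 + j := by linarith
  rcases le_total 0 x with hx | hx
  · rw [abs_of_nonneg hx, ← Real.mul_rpow hq.le hj1.le]
    exact Real.rpow_le_rpow hp.le h1 hx
  · rw [abs_of_nonpos hx]
    have h3 : q / (1 + j) ≤ p := by rw [div_le_iff₀ hj1]; exact h2
    have h4 : p^x ≤ (q / (1 + j))^x := Real.rpow_le_rpow_of_nonpos (by positivity) h3 hx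
    rw [Real.div_rpow hq.le hj1.le, div_eq_mul_inv, ← Real.rpow_neg hj1.le] at h4
    exact h4

theorem ns_sqrt (x : ℝ) {p : ℝ} (hp : 0 < p) : p^x / Real.sqrt p = p^(x - 1/2) := by
  rw [Real.rpow_sub hp, Real.sqrt_eq_rpow]

theorem ns_p1 (a β : ℝ) : ∃ C : ℝ, 0 ≤ C ∧ ∀ m : ℕ, 1 ≤ m →
    (∑ n ∈ Finset.range (m+1), (2:ℝ)^(-(a * n)) * (max (n:ℝ) 1)^β *
        ((2:ℝ)^(-((a + 1) * ((m - n : ℕ) : ℝ))) / Real.sqrt (max (n:ℝ) 1)) ≤ C * (2:ℝ)^(-(a * m)) * (m:ℝ)^(β - 1/2)) := by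
  refine ⟨∑' j, nsG |β - 1/2| 1 j, tsum_nonneg (nsG_nonneg _ _), fun m hm => ?_⟩
  have hm1 : (1:ℝ) ≤ m := by exact_mod_cast hm
  have hb : ∀ n ∈ Finset.range (m+1), (2:ℝ)^(-(a * n)) * (max (n:ℝ) 1)^β *
        ((2:ℝ)^(-((a + 1) * ((m - n : ℕ) : ℝ))) / Real.sqrt (max (n:ℝ) 1)) ≤
        ((2:ℝ)^(-(a * m)) * (m:ℝ)^(β - 1/2)) * nsG |β - 1/2| 1 (m - n) := by
    intro n hn
    have hnm : n ≤ m := Nat.lt_succ_iff.1 (Finset.mem_range.1 hn)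
    have hp : 0 < max (n:ℝ) 1 := lt_of_lt_of_le one_pos (le_max_right _ _)
    have hc : ((m - n : ℕ) : ℝ) = m - n := by rw [Nat.cast_sub hnm]
    have hnm' : (n:ℝ) ≤ m := by exact_mod_cast hnm
    have e1 : (2:ℝ)^(-(a * n)) * (max (n:ℝ) 1)^β *
        ((2:ℝ)^(-((a + 1) * ((m - n : ℕ) : ℝ))) / Real.sqrt (max (n:ℝ) 1)) =
        ((2:ℝ)^(-(a * m)) * (2:ℝ)^(-(1 * ((m - n : ℕ) : ℝ)))) * (max (n:ℝ) 1)^(β - 1/2) := by
      rw [← ns_sqrt β hp, ← Real.rpow_add (by norm_num)]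
      have : -(a * m) + -(1 * ((m - n : ℕ) : ℝ)) = -(a * n) + -((a + 1) * ((m - n : ℕ) : ℝ)) := by
        rw [hc]; ring
      rw [this, Real.rpow_add (by norm_num)]
      ring
    have e2 : (max (n:ℝ) 1)^(β - 1/2) ≤ (m:ℝ)^(β - 1/2) * (1 + ((m - n : ℕ) : ℝ))^|β - 1/2| := by
      refine ns_ratio _ hp (by linarith) (by positivity) ?_ ?_
      · have : max (n:ℝ) 1 ≤ m := max_le hnm' hm1
        nlinarith [Nat.cast_nonneg (α := ℝ) (m - n)]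
      · rw [hc]
        rcases Nat.eq_zero_or_pos n with h | h
        · subst h; simp
        · have hn1 : (1:ℝ) ≤ n := by exact_mod_cast h
          rw [max_eq_left hn1]
          nlinarith
    rw [e1]
    unfold nsG
    calc _ ≤ ((2:ℝ)^(-(a * m)) * (2:ℝ)^(-(1 * ((m - n : ℕ) : ℝ)))) *
          ((m:ℝ)^(β - 1/2) * (1 + ((m - n : ℕ) : ℝ))^|β - 1/2|) :=
        mul_le_mul_of_nonneg_left e2 (by positivity)
      _ = _ := by ring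
  calc _ ≤ ∑ n ∈ Finset.range (m+1), ((2:ℝ)^(-(a * m)) * (m:ℝ)^(β - 1/2)) * nsG |β - 1/2| 1 (m - n) :=
        Finset.sum_le_sum hb
    _ = ((2:ℝ)^(-(a * m)) * (m:ℝ)^(β - 1/2)) * ∑ n ∈ Finset.range (m+1), nsG |β - 1/2| 1 (m - n) := by
        rw [Finset.mul_sum]
    _ ≤ ((2:ℝ)^(-(a * m)) * (m:ℝ)^(β - 1/2)) * ∑' j, nsG |β - 1/2| 1 j := by
        refine mul_le_mul_of_nonneg_left ?_ (by positivity)
        refine ns_fin (nsG_summable _ _ one_pos) (nsG_nonneg _ _) _ (fun n => m - n) ?_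
        intro x hx y hy h
        simp only [Finset.coe_range, Set.mem_Iio] at hx hy
        simp only at h
        omega
    _ = _ := by ring

theorem ns_p2 (D : ℕ) (a β al μ : ℝ) (h : (1 + μ) * al < a) : ∃ C : ℝ, 0 ≤ C ∧ ∀ m : ℕ, 1 ≤ m →
    (∑ n ∈ Finset.Ioc m (2*m), (2:ℝ)^(-(a * n)) * (max (n:ℝ) 1)^β *
        (((2:ℝ)^((1 + μ) * ((n:ℝ) - m)) * ((n:ℝ) / m)^D)^al / Real.sqrt n) ≤ C * (2:ℝ)^(-(a * m)) * (m:ℝ)^(β - 1/2)) := by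
  set y : ℝ := β - 1/2 + D * al with hy
  refine ⟨∑' j, nsG |y| (a - (1 + μ) * al) j, tsum_nonneg (nsG_nonneg _ _), fun m hm => ?_⟩
  have hm1 : (1:ℝ) ≤ m := by exact_mod_cast hm
  have hm0 : (0:ℝ) < m := by linarith
  have hb : ∀ n ∈ Finset.Ioc m (2*m), (2:ℝ)^(-(a * n)) * (max (n:ℝ) 1)^β *
        (((2:ℝ)^((1 + μ) * ((n:ℝ) - m)) * ((n:ℝ) / m)^D)^al / Real.sqrt n) ≤
        ((2:ℝ)^(-(a * m)) * (m:ℝ)^(β - 1/2)) * nsG |y| (a - (1 + μ) * al) (n - m) := by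
    intro n hn
    rw [Finset.mem_Ioc] at hn
    have hnm : m ≤ n := hn.1.le
    have hc : ((n - m : ℕ) : ℝ) = n - m := by rw [Nat.cast_sub hnm]
    have hnm' : (m:ℝ) ≤ n := by exact_mod_cast hnm
    have hn1 : (1:ℝ) ≤ n := by linarith
    have hn0 : (0:ℝ) < n := by linarith
    rw [max_eq_left hn1]
    have e1 : (((2:ℝ)^((1 + μ) * ((n:ℝ) - m)) * ((n:ℝ) / m)^D)^al) =
        (2:ℝ)^((1 + μ) * al * ((n:ℝ) - m)) * ((n:ℝ) / m)^((D:ℝ) * al) := by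
      rw [Real.mul_rpow (by positivity) (by positivity), ← Real.rpow_mul (by norm_num),
        ← Real.rpow_natCast ((n:ℝ)/m) D, ← Real.rpow_mul (by positivity)]
      congr 2
      ring
    have e2 : (2:ℝ)^(-(a * n)) * (n:ℝ)^β *
        (((2:ℝ)^((1 + μ) * ((n:ℝ) - m)) * ((n:ℝ) / m)^D)^al / Real.sqrt n) =
        ((2:ℝ)^(-(a * m)) * (m:ℝ)^(β - 1/2)) * (((n:ℝ)/m)^y * (2:ℝ)^(-((a - (1 + μ) * al) * ((n - m : ℕ) : ℝ)))) := by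
      rw [e1, hy, Real.rpow_add (by positivity)]
      have e3 : (m:ℝ)^(β - 1/2) * ((n:ℝ)/m)^(β - 1/2) = (n:ℝ)^β / Real.sqrt n := by
        rw [ns_sqrt β hn0, ← Real.mul_rpow (by positivity) (by positivity)]
        congr 1
        field_simp
      have e4 : (2:ℝ)^(-(a * n)) * (2:ℝ)^((1 + μ) * al * ((n:ℝ) - m)) =
          (2:ℝ)^(-(a * m)) * (2:ℝ)^(-((a - (1 + μ) * al) * ((n - m : ℕ) : ℝ))) := by
        rw [← Real.rpow_add (by norm_num), ← Real.rpow_add (by norm_num), hc]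
        congr 1
        ring
      calc _ = ((2:ℝ)^(-(a * n)) * (2:ℝ)^((1 + μ) * al * ((n:ℝ) - m))) * ((n:ℝ)^β / Real.sqrt n) *
            ((n:ℝ) / m)^((D:ℝ) * al) := by ring
        _ = ((2:ℝ)^(-(a * m)) * (2:ℝ)^(-((a - (1 + μ) * al) * ((n - m : ℕ) : ℝ)))) *
            ((m:ℝ)^(β - 1/2) * ((n:ℝ)/m)^(β - 1/2)) * ((n:ℝ) / m)^((D:ℝ) * al) := by rw [e4, e3]
        _ = _ := by ring
    rw [e2]
    refine mul_le_mul_of_nonneg_left ?_ (by positivity)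
    unfold nsG
    refine mul_le_mul_of_nonneg_right ?_ (by positivity)
    have h1 : (n:ℝ)/m ≤ 1 + ((n - m : ℕ) : ℝ) := by
      rw [hc, div_le_iff₀ hm0]; nlinarith
    have h2 : 1 ≤ (n:ℝ)/m := by rw [le_div_iff₀ hm0]; linarith
    calc ((n:ℝ)/m)^y ≤ ((n:ℝ)/m)^|y| := Real.rpow_le_rpow_of_exponent_le h2 (le_abs_self y)
      _ ≤ _ := Real.rpow_le_rpow (by positivity) h1 (abs_nonneg y)
  calc _ ≤ ∑ n ∈ Finset.Ioc m (2*m), ((2:ℝ)^(-(a * m)) * (m:ℝ)^(β - 1/2)) * nsG |y| (a - (1 + μ) * al) (n - m) :=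
        Finset.sum_le_sum hb
    _ = ((2:ℝ)^(-(a * m)) * (m:ℝ)^(β - 1/2)) * ∑ n ∈ Finset.Ioc m (2*m), nsG |y| (a - (1 + μ) * al) (n - m) := by
        rw [Finset.mul_sum]
    _ ≤ ((2:ℝ)^(-(a * m)) * (m:ℝ)^(β - 1/2)) * ∑' j, nsG |y| (a - (1 + μ) * al) j := by
        refine mul_le_mul_of_nonneg_left ?_ (by positivity)
        refine ns_fin (nsG_summable _ _ (by linarith)) (nsG_nonneg _ _) _ (fun n => n - m) ?_
        intro x hx y hy h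
        simp only [Finset.coe_Ioc, Set.mem_Ioc] at hx hy
        simp only at h
        omega
    _ = _ := by ring

theorem ns_p3 (a β : ℝ) (ha : 0 < a) : ∃ C : ℝ, 0 ≤ C ∧ ∀ m : ℕ, 1 ≤ m →
    (∑' n : ℕ, (2:ℝ)^(-(a * ((n + (2*m+1) : ℕ) : ℝ))) * (max ((n + (2*m+1) : ℕ) : ℝ) 1)^β ≤ C * (2:ℝ)^(-(a * m)) * (m:ℝ)^(β - 1/2)) := by
  refine ⟨∑' j, nsG (|β| + 1/2) a j, tsum_nonneg (nsG_nonneg _ _), fun m hm => ?_⟩
  have hm1 : (1:ℝ) ≤ m := by exact_mod_cast hm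
  have hm0 : (0:ℝ) < m := by linarith
  have hb : ∀ n : ℕ, (2:ℝ)^(-(a * ((n + (2*m+1) : ℕ) : ℝ))) * (max ((n + (2*m+1) : ℕ) : ℝ) 1)^β ≤
        ((2:ℝ)^(-(a * m)) * (m:ℝ)^(β - 1/2)) * nsG (|β| + 1/2) a (n + (m + 1)) := by
    intro n
    have hn0 : (0:ℝ) ≤ n := Nat.cast_nonneg n
    have hN : ((n + (2*m+1) : ℕ) : ℝ) = m + ((n + (m+1) : ℕ) : ℝ) := by push_cast; ring
    set j : ℝ := ((n + (m+1) : ℕ) : ℝ) with hj
    have hj' : j = n + (m + 1) := by rw [hj]; push_cast; ring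
    have hj0 : 0 ≤ j := by linarith
    rw [hN, max_eq_left (by linarith)]
    have e1 : (2:ℝ)^(-(a * (m + j))) = (2:ℝ)^(-(a * m)) * (2:ℝ)^(-(a * j)) := by
      rw [← Real.rpow_add (by norm_num)]; congr 1; ring
    have e2 : ((m:ℝ) + j)^β ≤ (m:ℝ)^β * (1 + j)^|β| := by
      refine ns_ratio _ (by linarith) hm0 hj0 ?_ ?_
      · nlinarith
      · nlinarith
    have e3 : (m:ℝ)^β ≤ (m:ℝ)^(β - 1/2) * (1 + j)^(1/2:ℝ) := by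
      have : (m:ℝ)^β = (m:ℝ)^(β - 1/2) * (m:ℝ)^(1/2:ℝ) := by
        rw [← Real.rpow_add hm0]; congr 1; ring
      rw [this]
      refine mul_le_mul_of_nonneg_left ?_ (by positivity)
      exact Real.rpow_le_rpow hm0.le (by linarith) (by norm_num)
    rw [e1]
    unfold nsG
    rw [← hj, Real.rpow_add (by linarith)]
    calc (2:ℝ)^(-(a * m)) * (2:ℝ)^(-(a * j)) * ((m:ℝ) + j)^β
        ≤ (2:ℝ)^(-(a * m)) * (2:ℝ)^(-(a * j)) * ((m:ℝ)^(β - 1/2) * (1 + j)^(1/2:ℝ) * (1 + j)^|β|) := by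
          refine mul_le_mul_of_nonneg_left ?_ (by positivity)
          exact e2.trans (mul_le_mul_of_nonneg_right e3 (by positivity))
      _ = _ := by ring
  have hs : Summable (fun n : ℕ => nsG (|β| + 1/2) a (n + (m + 1))) :=
    (summable_nat_add_iff (m+1)).2 (nsG_summable _ _ ha)
  have hs2 := hs.mul_left ((2:ℝ)^(-(a * m)) * (m:ℝ)^(β - 1/2))
  calc _ ≤ ∑' n : ℕ, ((2:ℝ)^(-(a * m)) * (m:ℝ)^(β - 1/2)) * nsG (|β| + 1/2) a (n + (m + 1)) := by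
        refine Summable.tsum_le_tsum hb (Summable.of_nonneg_of_le (fun n => by positivity) hb hs2) hs2
    _ = ((2:ℝ)^(-(a * m)) * (m:ℝ)^(β - 1/2)) * ∑' n : ℕ, nsG (|β| + 1/2) a (n + (m + 1)) := tsum_mul_left
    _ ≤ ((2:ℝ)^(-(a * m)) * (m:ℝ)^(β - 1/2)) * ∑' j, nsG (|β| + 1/2) a j := by
        refine mul_le_mul_of_nonneg_left ?_ (by positivity)
        exact tsum_comp_le_tsum_of_inj (nsG_summable _ _ ha) (nsG_nonneg _ _)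
          (add_left_injective (m+1))
    _ = _ := by ring

theorem ns_p4 (D : ℕ) : ∃ C : ℝ, 0 ≤ C ∧ ∀ m : ℕ, 1 ≤ m →
    (∑ n ∈ Finset.range (m+1), (2:ℝ)^n * (max (n:ℝ) 1)^D * ((m - n : ℕ) + 1 : ℝ) ≤ C * 2^m * (m:ℝ)^D) := by
  refine ⟨∑' j, nsG 1 1 j, tsum_nonneg (nsG_nonneg _ _), fun m hm => ?_⟩
  have hm1 : (1:ℝ) ≤ m := by exact_mod_cast hm
  have hb : ∀ n ∈ Finset.range (m+1), (2:ℝ)^n * (max (n:ℝ) 1)^D * ((m - n : ℕ) + 1 : ℝ) ≤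
        ((2:ℝ)^m * (m:ℝ)^D) * nsG 1 1 (m - n) := by
    intro n hn
    have hnm : n ≤ m := Nat.lt_succ_iff.1 (Finset.mem_range.1 hn)
    have hnm' : (n:ℝ) ≤ m := by exact_mod_cast hnm
    have h1 : (max (n:ℝ) 1)^D ≤ (m:ℝ)^D :=
      pow_le_pow_left₀ (le_trans zero_le_one (le_max_right _ _)) (max_le hnm' hm1) D
    have h2 : (2:ℝ)^m * (2:ℝ)^(-(1 * ((m - n : ℕ) : ℝ))) = (2:ℝ)^n := by
      rw [one_mul, Real.rpow_neg (by norm_num), Real.rpow_natCast]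
      have : (2:ℝ)^m = 2^n * 2^(m-n) := by rw [← pow_add]; congr 1; omega
      rw [this]
      field_simp
    unfold nsG
    rw [Real.rpow_one]
    calc (2:ℝ)^n * (max (n:ℝ) 1)^D * ((m - n : ℕ) + 1 : ℝ)
        ≤ (2:ℝ)^n * (m:ℝ)^D * ((m - n : ℕ) + 1 : ℝ) := by
          refine mul_le_mul_of_nonneg_right ?_ (by positivity)
          exact mul_le_mul_of_nonneg_left h1 (by positivity)
      _ = ((2:ℝ)^m * (2:ℝ)^(-(1 * ((m - n : ℕ) : ℝ)))) * (m:ℝ)^D * ((m - n : ℕ) + 1 : ℝ) := by rw [h2]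
      _ = _ := by ring
  calc _ ≤ ∑ n ∈ Finset.range (m+1), ((2:ℝ)^m * (m:ℝ)^D) * nsG 1 1 (m - n) :=
        Finset.sum_le_sum hb
    _ = ((2:ℝ)^m * (m:ℝ)^D) * ∑ n ∈ Finset.range (m+1), nsG 1 1 (m - n) := by
        rw [Finset.mul_sum]
    _ ≤ ((2:ℝ)^m * (m:ℝ)^D) * ∑' j, nsG 1 1 j := by
        refine mul_le_mul_of_nonneg_left ?_ (by positivity)
        refine ns_fin (nsG_summable _ _ one_pos) (nsG_nonneg _ _) _ (fun n => m - n) ?_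
        intro x hx y hy h
        simp only [Finset.coe_range, Set.mem_Iio] at hx hy
        simp only at h
        omega
    _ = _ := by ring

theorem ns_p5 (D : ℕ) (μ : ℝ) (hμ : 0 < μ) : ∃ C : ℝ, 0 ≤ C ∧ ∀ m : ℕ, 1 ≤ m →
    (∑ n ∈ Finset.Ioc m (2*m), ((2:ℝ)^n * (n:ℝ)^D / ((2:ℝ)^((1 + μ) * ((n:ℝ) - m)) * ((n:ℝ) / m)^D) + 1) ≤ C * 2^m * (m:ℝ)^D) := by
  refine ⟨∑' j, nsG 0 μ j + 1, add_nonneg (tsum_nonneg (nsG_nonneg _ _)) zero_le_one, fun m hm => ?_⟩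
  have hm1 : (1:ℝ) ≤ m := by exact_mod_cast hm
  have hm0 : (0:ℝ) < m := by linarith
  have hb : ∀ n ∈ Finset.Ioc m (2*m), ((2:ℝ)^n * (n:ℝ)^D / ((2:ℝ)^((1 + μ) * ((n:ℝ) - m)) * ((n:ℝ) / m)^D) + 1) ≤
        ((2:ℝ)^m * (m:ℝ)^D) * nsG 0 μ (n - m) + 1 := by
    intro n hn
    rw [Finset.mem_Ioc] at hn
    have hnm : m ≤ n := hn.1.le
    have hc : ((n - m : ℕ) : ℝ) = n - m := by rw [Nat.cast_sub hnm]
    have hnm' : (m:ℝ) ≤ n := by exact_mod_cast hnm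
    have hn0 : (0:ℝ) < n := by linarith
    unfold nsG
    rw [Real.rpow_zero, one_mul]
    have h2 : (2:ℝ)^n = (2:ℝ)^m * (2:ℝ)^(-(μ * ((n - m : ℕ) : ℝ))) * (2:ℝ)^((1 + μ) * ((n:ℝ) - m)) := by
      rw [← Real.rpow_natCast, ← Real.rpow_natCast, ← Real.rpow_add (by norm_num), ← Real.rpow_add (by norm_num), hc]
      congr 1
      ring
    have h3 : (2:ℝ)^n * (n:ℝ)^D / ((2:ℝ)^((1 + μ) * ((n:ℝ) - m)) * ((n:ℝ) / m)^D) =
        ((2:ℝ)^m * (m:ℝ)^D) * (2:ℝ)^(-(μ * ((n - m : ℕ) : ℝ))) := by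
      rw [h2, div_pow]
      have p1 : (0:ℝ) < (2:ℝ)^((1 + μ) * ((n:ℝ) - m)) := by positivity
      field_simp
    rw [h3]
  have hcard : ((Finset.Ioc m (2*m)).card : ℝ) = m := by
    rw [Nat.card_Ioc]; congr 1; omega
  have hm2 : (m:ℝ) ≤ 2^m * (m:ℝ)^D := by
    have h1 : (m:ℝ) ≤ 2^m := by exact_mod_cast (Nat.lt_two_pow_self (n := m)).le
    have h2 : (1:ℝ) ≤ (m:ℝ)^D := one_le_pow₀ hm1
    nlinarith [pow_pos (show (0:ℝ) < 2 by norm_num) m]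
  calc _ ≤ ∑ n ∈ Finset.Ioc m (2*m), (((2:ℝ)^m * (m:ℝ)^D) * nsG 0 μ (n - m) + 1) :=
        Finset.sum_le_sum hb
    _ = ((2:ℝ)^m * (m:ℝ)^D) * ∑ n ∈ Finset.Ioc m (2*m), nsG 0 μ (n - m) + m := by
        rw [Finset.sum_add_distrib, Finset.mul_sum, Finset.sum_const, nsmul_eq_mul, mul_one, hcard]
    _ ≤ ((2:ℝ)^m * (m:ℝ)^D) * ∑' j, nsG 0 μ j + 2^m * (m:ℝ)^D := by
        refine add_le_add ?_ hm2
        refine mul_le_mul_of_nonneg_left ?_ (by positivity)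
        refine ns_fin (nsG_summable _ _ hμ) (nsG_nonneg _ _) _ (fun n => n - m) ?_
        intro x hx y hy h
        simp only [Finset.coe_Ioc, Set.mem_Ioc] at hx hy
        simp only at h
        omega
    _ = _ := by ring


theorem num_sums (D : ℕ) (a β al : ℝ) (ha : al < a) (hal : 0 < al) : ∃ μ C : ℝ, 0 < μ ∧ 0 < C ∧ ∀ m : ℕ, 1 ≤ m →
    (∑ n ∈ Finset.range (m+1), (2:ℝ)^(-(a * n)) * (max (n:ℝ) 1)^β *
        ((2:ℝ)^(-((a + 1) * ((m - n : ℕ) : ℝ))) / Real.sqrt (max (n:ℝ) 1)) ≤ C * (2:ℝ)^(-(a * m)) * (m:ℝ)^(β - 1/2)) ∧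
    (∑ n ∈ Finset.Ioc m (2*m), (2:ℝ)^(-(a * n)) * (max (n:ℝ) 1)^β *
        (((2:ℝ)^((1 + μ) * ((n:ℝ) - m)) * ((n:ℝ) / m)^D)^al / Real.sqrt n) ≤ C * (2:ℝ)^(-(a * m)) * (m:ℝ)^(β - 1/2)) ∧
    (∑' n : ℕ, (2:ℝ)^(-(a * ((n + (2*m+1) : ℕ) : ℝ))) * (max ((n + (2*m+1) : ℕ) : ℝ) 1)^β ≤ C * (2:ℝ)^(-(a * m)) * (m:ℝ)^(β - 1/2)) ∧
    (∑ n ∈ Finset.range (m+1), (2:ℝ)^n * (max (n:ℝ) 1)^D * ((m - n : ℕ) + 1 : ℝ) ≤ C * 2^m * (m:ℝ)^D) ∧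
    (∑ n ∈ Finset.Ioc m (2*m), ((2:ℝ)^n * (n:ℝ)^D / ((2:ℝ)^((1 + μ) * ((n:ℝ) - m)) * ((n:ℝ) / m)^D) + 1) ≤ C * 2^m * (m:ℝ)^D) := by
  have hμ : 0 < (a / al - 1) / 2 := by
    have : 1 < a / al := by rw [lt_div_iff₀ hal]; linarith
    linarith
  have hlt : (1 + (a / al - 1) / 2) * al < a := by
    have : (1 + (a / al - 1) / 2) * al = (al + a) / 2 := by field_simp; ring
    rw [this]; linarith
  obtain ⟨C1, h1, H1⟩ := ns_p1 a β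
  obtain ⟨C2, h2, H2⟩ := ns_p2 D a β al _ hlt
  obtain ⟨C3, h3, H3⟩ := ns_p3 a β (by linarith)
  obtain ⟨C4, h4, H4⟩ := ns_p4 D
  obtain ⟨C5, h5, H5⟩ := ns_p5 D _ hμ
  refine ⟨(a / al - 1) / 2, C1 + C2 + C3 + C4 + C5 + 1, hμ, by linarith, fun m hm => ?_⟩
  have hm1 : (1:ℝ) ≤ m := by exact_mod_cast hm
  have hm0 : (0:ℝ) < m := by linarith
  have p1 : (0:ℝ) ≤ (2:ℝ)^(-(a * m)) := by positivity
  have p2 : (0:ℝ) ≤ (m:ℝ)^(β - 1/2) := by positivity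
  have p3 : (0:ℝ) ≤ (2:ℝ)^m := by positivity
  have p4 : (0:ℝ) ≤ (m:ℝ)^D := by positivity
  have q1 : ∀ {c : ℝ}, c ≤ C1 + C2 + C3 + C4 + C5 + 1 →
      c * (2:ℝ)^(-(a * m)) * (m:ℝ)^(β - 1/2) ≤
      (C1 + C2 + C3 + C4 + C5 + 1) * (2:ℝ)^(-(a * m)) * (m:ℝ)^(β - 1/2) := fun hc =>
    mul_le_mul_of_nonneg_right (mul_le_mul_of_nonneg_right hc p1) p2
  have q2 : ∀ {c : ℝ}, c ≤ C1 + C2 + C3 + C4 + C5 + 1 →
      c * (2:ℝ)^m * (m:ℝ)^D ≤ (C1 + C2 + C3 + C4 + C5 + 1) * (2:ℝ)^m * (m:ℝ)^D := fun hc =>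
    mul_le_mul_of_nonneg_right (mul_le_mul_of_nonneg_right hc p3) p4
  exact ⟨(H1 m hm).trans (q1 (by linarith)), (H2 m hm).trans (q1 (by linarith)),
    (H3 m hm).trans (q1 (by linarith)), (H4 m hm).trans (q2 (by linarith)),
    (H5 m hm).trans (q2 (by linarith))⟩

end Sol_num_sums

alias num_sums := Sol_num_sums.num_sums

end MWidth
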