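import Pool.Agent.HypVol.Defs
import Pool.Agent.MWidth.Defs
import Pool.Agent.HypVol.L_TP_prob
import Pool.Agent.HypVol.L_ess_sup
import Pool.Agent.HypVol.L_fc_poly
import Pool.Agent.MWidth.L_layer_ent_al
import Pool.Agent.MWidth.L_layer_fine
import Pool.Agent.MWidth.L_W_tail
import Pool.Agent.MWidth.L_num_sums
import Pool.Agent.MWidth.L_poly_norm
open MeasureTheory Real ProbabilityTheory
open scoped ENNReal BigOperators

namespace MWidth
open HypVol
namespace Sol_cover_W2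

















theorem mw_poly_cont {d n : ℕ} (a : (layer d n) × Fin 2 → ℝ) :
    Continuous (poly a : (Fin d → ℝ) → ℂ) := by
  unfold poly
  fun_prop

theorem mw_poly_sub {d n : ℕ} (a b : (layer d n) × Fin 2 → ℝ) (x : Fin d → ℝ) :
    poly (a - b) x = poly a x - poly b x := by
  simp only [poly, ← Finset.sum_sub_distrib]
  refine Finset.sum_congr rfl fun k _ => ?_
  simp only [Pi.sub_apply]
  push_cast
  ring

theorem mw_poly_smul {d n : ℕ} (t : ℝ) (a : (layer d n) × Fin 2 → ℝ) (x : Fin d → ℝ) :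
    poly (t • a) x = (t : ℂ) * poly a x := by
  simp only [poly, Finset.mul_sum]
  refine Finset.sum_congr rfl fun k _ => ?_
  simp only [Pi.smul_apply, smul_eq_mul]
  push_cast
  ring

/-- real coordinates of the Fourier coefficients -/
noncomputable def mw_coef (d n : ℕ) (f : (Fin d → ℝ) → ℂ) (q : (layer d n) × Fin 2) : ℝ :=
  if q.2 = 0 then (fc f q.1.1).re else (fc f q.1.1).im

theorem mw_lay {d n : ℕ} (f : (Fin d → ℝ) → ℂ) : lay d n f = poly (mw_coef d n f) := by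
  funext x
  unfold lay poly
  rw [← Finset.sum_coe_sort]
  refine Finset.sum_congr rfl fun k _ => ?_
  congr 1
  have h0 : mw_coef d n f (k, 0) = (fc f k.1).re := by simp [mw_coef]
  have h1 : mw_coef d n f (k, 1) = (fc f k.1).im := by simp [mw_coef]
  rw [h0, h1]
  exact (Complex.re_add_im _).symm

theorem mw_lam_pos (d : ℕ) (a b : ℝ) (n : ℕ) : 0 < lam d a b n := by
  unfold lam
  have : (0:ℝ) < max (n:ℝ) 1 := lt_of_lt_of_le one_pos (le_max_right _ _)
  positivity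

theorem mw_memLp {d n : ℕ} (p : ℝ) (hp : 1 ≤ p) (a : (layer d n) × Fin 2 → ℝ) :
    MemLp (poly a) (ENNReal.ofReal p) (TP d) :=
  ⟨(mw_poly_cont a).aestronglyMeasurable, lt_top_iff_ne_top.2 ((poly_norm p hp).1 a)⟩

/-- approximation of the combination -/
theorem mw_err (d : ℕ) (hd : 1 ≤ d) (p : ℝ) (hp : 1 ≤ p) (a b : ℝ) (ha : 0 < a) (M : ℕ)
    (f : (Fin d → ℝ) → ℂ) (hf : f ∈ Wab d a b) (eps : ℕ → ℝ) (he : ∀ n, 0 ≤ eps n)
    (F : (n : ℕ) → Finset ((layer d n) × Fin 2 → ℝ))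
    (hF : ∀ n, ∀ x ∈ ball d n, ∃ y ∈ F n, eLpNorm (poly (x - y)) (ENNReal.ofReal p) (TP d)
      ≤ ENNReal.ofReal (eps n)) :
    ∃ y : (n : Fin M) → ((layer d n) × Fin 2 → ℝ), (∀ n : Fin M, y n ∈ F n) ∧
      eLpNorm (fun x => f x - ∑ n : Fin M, (lam d a b n : ℂ) * poly (y n) x) (ENNReal.ofReal p) (TP d)
        ≤ ENNReal.ofReal (∑' n : ℕ, lam d a b (n + M))
          + ENNReal.ofReal (∑ n ∈ Finset.range M, lam d a b n * eps n) := by
  have hP := TP_prob d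
  have hp1 : (1 : ℝ≥0∞) ≤ ENNReal.ofReal p := by
    rw [← ENNReal.ofReal_one]; exact ENNReal.ofReal_le_ofReal hp
  -- normalised layers
  have hx : ∀ n, ∃ x ∈ ball d n, lay d n f = fun z => (lam d a b n : ℂ) * poly x z := by
    intro n
    have hl := mw_lam_pos d a b n
    refine ⟨(lam d a b n)⁻¹ • mw_coef d n f, ?_, ?_⟩
    · intro z
      have h1 : eLpNorm (poly (mw_coef d n f)) ⊤ (TP d) ≤ ENNReal.ofReal (lam d a b n) := by
        rw [← mw_lay]; exact hf.2 n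
      have h2 := ess_sup_poly (mw_coef d n f) (lam d a b n) hl.le h1 z
      rw [mw_poly_smul, norm_mul, Complex.norm_real, Real.norm_eq_abs, abs_of_pos (inv_pos.2 hl)]
      calc (lam d a b n)⁻¹ * ‖poly (mw_coef d n f) z‖ ≤ (lam d a b n)⁻¹ * lam d a b n :=
            mul_le_mul_of_nonneg_left h2 (inv_pos.2 hl).le
        _ = 1 := inv_mul_cancel₀ hl.ne'
    · rw [mw_lay]
      funext z
      rw [mw_poly_smul, ← mul_assoc, ← Complex.ofReal_mul, mul_inv_cancel₀ hl.ne',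
        Complex.ofReal_one, one_mul]
  choose x hxb hxl using hx
  have hy : ∀ n, ∃ y ∈ F n, eLpNorm (poly (x n - y)) (ENNReal.ofReal p) (TP d)
      ≤ ENNReal.ofReal (eps n) := fun n => hF n (x n) (hxb n)
  choose y hyF hyE using hy
  refine ⟨fun n => y n, fun n => hyF n, ?_⟩
  have hmeasf : AEStronglyMeasurable f (TP d) := hf.1.1
  have hmeas1 : AEStronglyMeasurable (fun z => f z - ∑ n ∈ Finset.range M, lay d n f z) (TP d) := by
    refine hmeasf.sub ?_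
    have hc : Continuous (fun z => ∑ n ∈ Finset.range M, lay d n f z) := by
      refine continuous_finsetSum _ fun n _ => ?_
      rw [mw_lay]
      exact mw_poly_cont _
    exact hc.aestronglyMeasurable
  have hmeas2 : ∀ n : ℕ, AEStronglyMeasurable
      ((lam d a b n : ℂ) • (poly (x n - y n) : (Fin d → ℝ) → ℂ)) (TP d) := fun n =>
    ((mw_poly_cont (x n - y n)).const_smul _).aestronglyMeasurable
  have hdec : (fun z => f z - ∑ n : Fin M, (lam d a b n : ℂ) * poly (y n) z)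
      = (fun z => f z - ∑ n ∈ Finset.range M, lay d n f z)
        + ∑ n ∈ Finset.range M, (lam d a b n : ℂ) • (poly (x n - y n) : (Fin d → ℝ) → ℂ) := by
    funext z
    simp only [Pi.add_apply, Finset.sum_apply, Pi.smul_apply, smul_eq_mul, mw_poly_sub]
    rw [Fin.sum_univ_eq_sum_range (fun n => (lam d a b n : ℂ) * poly (y n) z) M]
    have : ∀ n, lay d n f z = (lam d a b n : ℂ) * poly (x n) z := fun n => by rw [hxl n]
    simp only [this, mul_sub, Finset.sum_sub_distrib]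
    ring
  rw [hdec]
  refine (eLpNorm_add_le hmeas1 (Finset.aestronglyMeasurable_sum _ fun n _ => hmeas2 n) hp1).trans ?_
  refine add_le_add ?_ ?_
  · exact (eLpNorm_le_eLpNorm_of_exponent_le le_top hmeas1).trans (W_tail d hd a b ha f hf M)
  · refine (eLpNorm_sum_le (fun n _ => hmeas2 n) hp1).trans ?_
    rw [ENNReal.ofReal_sum_of_nonneg (fun n _ => mul_nonneg (mw_lam_pos d a b n).le (he n))]
    refine Finset.sum_le_sum fun n _ => ?_
    rw [eLpNorm_const_smul, ENNReal.ofReal_mul (mw_lam_pos d a b n).le]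
    refine mul_le_mul' ?_ (hyE n)
    rw [← ofReal_norm, Complex.norm_real, Real.norm_eq_abs,
      abs_of_pos (mw_lam_pos d a b n)]

theorem mw_card (d : ℕ) (M : ℕ) (a b : ℝ) (cN : ℕ → ℝ)
    (F : (n : ℕ) → Finset ((layer d n) × Fin 2 → ℝ)) (hc : ∀ n, ((F n).card : ℝ) ≤ Real.exp (cN n)) :
    ∃ G : Finset ((Fin d → ℝ) → ℂ),
      (∀ y : (n : Fin M) → ((layer d n) × Fin 2 → ℝ), (∀ n : Fin M, y n ∈ F n) →
        (fun x => ∑ n : Fin M, (lam d a b n : ℂ) * poly (y n) x) ∈ G) ∧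
      (∀ g ∈ G, ∃ y : (n : Fin M) → ((layer d n) × Fin 2 → ℝ),
        g = fun x => ∑ n : Fin M, (lam d a b n : ℂ) * poly (y n) x) ∧
      (G.card : ℝ) ≤ Real.exp (∑ n ∈ Finset.range M, cN n) := by
  classical
  refine ⟨(Fintype.piFinset (fun n : Fin M => F n)).image
    (fun y => fun x => ∑ n : Fin M, (lam d a b n : ℂ) * poly (y n) x), ?_, ?_, ?_⟩
  · intro y hy
    exact Finset.mem_image_of_mem _ (Fintype.mem_piFinset.2 hy)
  · intro g hg
    obtain ⟨y, _, rfl⟩ := Finset.mem_image.1 hg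
    exact ⟨y, rfl⟩
  · refine (Nat.cast_le.2 Finset.card_image_le).trans ?_
    rw [Fintype.card_piFinset, Nat.cast_prod, ← Fin.sum_univ_eq_sum_range cN M, Real.exp_sum]
    exact Finset.prod_le_prod (fun n _ => Nat.cast_nonneg _) (fun n _ => hc n)


theorem cover_W2 (d : ℕ) (hd : 3 ≤ d) (p : ℝ) (hp : 1 ≤ p) (a b : ℝ) (ha : 1 / 2 < a) (ha2 : 1 - 1 / p < a) : ∃ C : ℝ, 0 < C ∧
    ∀ m : ℕ, 1 ≤ m → ∃ G : Finset ((Fin d → ℝ) → ℂ),
      (∀ g ∈ G, MemLp g (ENNReal.ofReal p) (TP d)) ∧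
      (G.card : ℝ) ≤ Real.exp (C * 2^m * (m:ℝ)^(d-1)) ∧
      ∀ f ∈ Wab d a b, ∃ g ∈ G, eLpNorm (fun x => f x - g x) (ENNReal.ofReal p) (TP d)
        ≤ ENNReal.ofReal (C * (2:ℝ)^(-(a * m)) * (m:ℝ)^(((d:ℝ)-1) * b - 1/2)) := by
  obtain ⟨al, hal1, haa⟩ : ∃ al : ℝ, max (1/2) (1 - 1/p) < al ∧ al < a := exists_between (max_lt ha ha2)
  have hal12 : 1 / 2 ≤ al := (le_max_left _ _).trans hal1.le
  have halp : 2 < p → 1 - 1 / p < al := fun _ => lt_of_le_of_lt (le_max_right _ _) hal1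
  have hal : 0 < al := by linarith
  have ha0 : 0 < a := hal.trans haa
  obtain ⟨μ, C0, hμ, hC0, hnum⟩ := num_sums (d - 1) a (((d:ℝ)-1) * b) al haa hal
  obtain ⟨C1, hC1, hfine⟩ := layer_fine d hd p hp (a + 1) (by linarith)
  obtain ⟨C2, hC2, hent⟩ := layer_ent_al d hd p al hp hal12 halp
  refine ⟨C0 * (2 + C1 + C2), by positivity, ?_⟩
  intro m hm
  have hm0 : (0:ℝ) < m := by exact_mod_cast hm
  obtain ⟨i1, i2, i3, i4, i5⟩ := hnum m hm
  set τ : ℕ → ℝ := fun n => (2:ℝ)^((1 + μ) * ((n:ℝ) - m)) * ((n:ℝ) / m)^(d-1) with hτ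
  set cN : ℕ → ℝ := fun n => if n ≤ m then C1 * 2^n * (max (n:ℝ) 1)^(d-1) * (((m - n : ℕ) : ℝ) + 1)
    else C2 * 2^n * (n:ℝ)^(d-1) / τ n + 2 with hcN
  set eps : ℕ → ℝ := fun n => if n ≤ m then C1 * (2:ℝ)^(-((a+1) * ((m - n : ℕ) : ℝ))) / Real.sqrt (max (n:ℝ) 1)
    else C2 * (τ n) ^ al / Real.sqrt n with heps
  have hτ1 : ∀ n, m < n → 1 ≤ τ n := by
    intro n hn
    have h1 : (1:ℝ) ≤ (2:ℝ)^((1 + μ) * ((n:ℝ) - m)) := by
      apply Real.one_le_rpow (by norm_num)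
      have : (0:ℝ) ≤ (n:ℝ) - m := by
        have : (m:ℝ) ≤ n := by exact_mod_cast hn.le
        linarith
      positivity
    have h2 : (1:ℝ) ≤ ((n:ℝ) / m)^(d-1) := by
      apply one_le_pow₀
      rw [le_div_iff₀ hm0, one_mul]
      exact_mod_cast hn.le
    calc (1:ℝ) = 1 * 1 := by ring
      _ ≤ _ := mul_le_mul h1 h2 (by norm_num) (by positivity)
  have hex : ∀ n : ℕ, ∃ F : Finset ((layer d n) × Fin 2 → ℝ), (F.card : ℝ) ≤ Real.exp (cN n) ∧
      ∀ x ∈ ball d n, ∃ y ∈ F, eLpNorm (poly (x - y)) (ENNReal.ofReal p) (TP d)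
        ≤ ENNReal.ofReal (eps n) := by
    intro n
    by_cases hn : n ≤ m
    · obtain ⟨F, _, h2, h3⟩ := hfine n (m - n)
      refine ⟨F, ?_, ?_⟩
      · simp only [hcN, if_pos hn]; exact h2
      · simp only [heps, if_pos hn]; exact h3
    · have hn' : m < n := not_le.1 hn
      obtain ⟨F, _, h2, h3⟩ := hent n (by omega) (τ n) (hτ1 n hn')
      refine ⟨F, ?_, ?_⟩
      · simp only [hcN, if_neg hn]; exact h2
      · simp only [heps, if_neg hn]; exact h3
  choose F hFc hFe using hex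
  have heps0 : ∀ n, 0 ≤ eps n := by
    intro n
    simp only [heps]
    by_cases hn : n ≤ m
    · rw [if_pos hn]; positivity
    · rw [if_neg hn]
      have := hτ1 n (not_le.1 hn)
      have : 0 ≤ τ n := by linarith
      positivity
  obtain ⟨G, hG1, hG2, hG3⟩ := mw_card d (2 * m + 1) a b cN F hFc
  have hsplit : ∀ h : ℕ → ℝ, ∑ n ∈ Finset.range (2 * m + 1), h n
      = ∑ n ∈ Finset.range (m + 1), h n + ∑ n ∈ Finset.Ioc m (2 * m), h n := by
    intro h
    rw [← Finset.sum_union]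
    · congr 1
      ext n
      simp only [Finset.mem_range, Finset.mem_union, Finset.mem_Ioc]
      omega
    · rw [Finset.disjoint_left]
      intro n h1 h2
      simp only [Finset.mem_range, Finset.mem_Ioc] at h1 h2
      omega
  refine ⟨G, ?_, ?_, ?_⟩
  · intro g hg
    obtain ⟨y, rfl⟩ := hG2 g hg
    refine memLp_finsetSum _ fun n _ => ?_
    exact (mw_memLp p hp (y n)).const_mul _
  · refine hG3.trans (Real.exp_le_exp.2 ?_)
    rw [hsplit]
    have e1 : ∑ n ∈ Finset.range (m + 1), cN n ≤ C1 * (C0 * 2^m * (m:ℝ)^(d-1)) := by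
      refine le_trans (le_of_eq ?_) (mul_le_mul_of_nonneg_left i4 hC1.le)
      rw [Finset.mul_sum]
      refine Finset.sum_congr rfl fun n hn => ?_
      have hn' : n ≤ m := by simp only [Finset.mem_range] at hn; omega
      simp only [hcN, if_pos hn']
      ring
    have e2 : ∑ n ∈ Finset.Ioc m (2 * m), cN n ≤ (C2 + 2) * (C0 * 2^m * (m:ℝ)^(d-1)) := by
      refine le_trans ?_ (mul_le_mul_of_nonneg_left i5 (by positivity))
      rw [Finset.mul_sum]
      refine Finset.sum_le_sum fun n hn => ?_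
      have hn' : m < n := (Finset.mem_Ioc.1 hn).1
      have ht := hτ1 n hn'
      simp only [hcN, if_neg (not_le.2 hn')]
      have hpos : 0 ≤ (2:ℝ)^n * (n:ℝ)^(d-1) / τ n := by positivity
      have : C2 * 2^n * (n:ℝ)^(d-1) / τ n = C2 * ((2:ℝ)^n * (n:ℝ)^(d-1) / τ n) := by ring
      rw [this]
      nlinarith
    have e3 : C1 * (C0 * 2^m * (m:ℝ)^(d-1)) + (C2 + 2) * (C0 * 2^m * (m:ℝ)^(d-1))
        = C0 * (2 + C1 + C2) * 2^m * (m:ℝ)^(d-1) := by ring
    linarith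
  · intro f hf
    obtain ⟨y, hyF, hyE⟩ := mw_err d (by omega) p hp a b ha0 (2 * m + 1) f hf eps heps0 F hFe
    refine ⟨_, hG1 y hyF, hyE.trans ?_⟩
    have hB : 0 ≤ (2:ℝ)^(-(a * m)) * (m:ℝ)^(((d:ℝ)-1) * b - 1/2) := by positivity
    have e0 : ∑' n : ℕ, lam d a b (n + (2 * m + 1)) ≤ C0 * (2:ℝ)^(-(a * m)) * (m:ℝ)^(((d:ℝ)-1) * b - 1/2) := i3
    have e1 : ∑ n ∈ Finset.range (m + 1), lam d a b n * eps n
        ≤ C1 * (C0 * (2:ℝ)^(-(a * m)) * (m:ℝ)^(((d:ℝ)-1) * b - 1/2)) := by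
      refine le_trans (le_of_eq ?_) (mul_le_mul_of_nonneg_left i1 hC1.le)
      rw [Finset.mul_sum]
      refine Finset.sum_congr rfl fun n hn => ?_
      have hn' : n ≤ m := by simp only [Finset.mem_range] at hn; omega
      simp only [heps, lam, if_pos hn']
      ring
    have e2 : ∑ n ∈ Finset.Ioc m (2 * m), lam d a b n * eps n
        ≤ C2 * (C0 * (2:ℝ)^(-(a * m)) * (m:ℝ)^(((d:ℝ)-1) * b - 1/2)) := by
      refine le_trans (le_of_eq ?_) (mul_le_mul_of_nonneg_left i2 hC2.le)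
      rw [Finset.mul_sum]
      refine Finset.sum_congr rfl fun n hn => ?_
      have hn' : m < n := (Finset.mem_Ioc.1 hn).1
      simp only [heps, lam, if_neg (not_le.2 hn'), hτ]
      ring
    have hs0 : 0 ≤ ∑' n : ℕ, lam d a b (n + (2 * m + 1)) :=
      tsum_nonneg fun n => (mw_lam_pos d a b _).le
    have hs1 : 0 ≤ ∑ n ∈ Finset.range (2 * m + 1), lam d a b n * eps n :=
      Finset.sum_nonneg fun n _ => mul_nonneg (mw_lam_pos d a b n).le (heps0 n)
    rw [← ENNReal.ofReal_add hs0 hs1]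
    apply ENNReal.ofReal_le_ofReal
    rw [hsplit]
    have e3 : C0 * (2:ℝ)^(-(a * m)) * (m:ℝ)^(((d:ℝ)-1) * b - 1/2)
        + (C1 * (C0 * (2:ℝ)^(-(a * m)) * (m:ℝ)^(((d:ℝ)-1) * b - 1/2))
        + C2 * (C0 * (2:ℝ)^(-(a * m)) * (m:ℝ)^(((d:ℝ)-1) * b - 1/2)))
        = C0 * (1 + C1 + C2) * (2:ℝ)^(-(a * m)) * (m:ℝ)^(((d:ℝ)-1) * b - 1/2) := by ring
    have e4 : C0 * (1 + C1 + C2) * (2:ℝ)^(-(a * m)) * (m:ℝ)^(((d:ℝ)-1) * b - 1/2)
        ≤ C0 * (2 + C1 + C2) * (2:ℝ)^(-(a * m)) * (m:ℝ)^(((d:ℝ)-1) * b - 1/2) := by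
      have : 0 ≤ C0 * ((2:ℝ)^(-(a * m)) * (m:ℝ)^(((d:ℝ)-1) * b - 1/2)) := by positivity
      nlinarith
    linarith

end Sol_cover_W2

alias cover_W2 := Sol_cover_W2.cover_W2

end MWidth
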