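import Pool.Agent.HypVol.Defs
import Pool.Agent.MWidth.Defs
import Pool.Agent.MWidth.Defs2
import Pool.Agent.HypVol.L_card_layer
import Pool.Agent.HypVol.L_shp_upper
open MeasureTheory Real ProbabilityTheory
open scoped ENNReal BigOperators

namespace MWidth
open HypVol
namespace Sol_crs_card



theorem crs_card (d : ℕ) (hd : 1 ≤ d) : ∃ C : ℝ, 0 < C ∧ ∀ n : ℕ, 
    ((crs0 d n).card : ℝ) ≤ C * 2^n * (max (n:ℝ) 1)^(d-1) := by
  classical
  obtain ⟨C, hC, hC'⟩ := shp_upper d hd
  have hshp : ∀ l : ℕ, (shp d l : ℝ) ≤ (C + shp d 0) * (max (l:ℝ) 1)^(d-1) := by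
    intro l
    rcases Nat.eq_zero_or_pos l with rfl | hl
    · simp only [Nat.cast_zero]
      rw [max_eq_right (by norm_num : (0:ℝ) ≤ 1), one_pow, mul_one]
      linarith
    · have h1 := hC' l hl
      have h2 : (1:ℝ) ≤ (l:ℝ) := by exact_mod_cast hl
      rw [max_eq_left h2]
      calc (shp d l : ℝ) ≤ C * (l:ℝ)^(d-1) := h1
        _ ≤ (C + shp d 0) * (l:ℝ)^(d-1) := by
            apply mul_le_mul_of_nonneg_right _ (by positivity)
            have : (0:ℝ) ≤ (shp d 0 : ℝ) := Nat.cast_nonneg _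
            linarith
  have hC1 : 0 < C + (shp d 0 : ℝ) := by
    have : (0:ℝ) ≤ (shp d 0 : ℝ) := Nat.cast_nonneg _
    linarith
  refine ⟨2 * (C + shp d 0), by linarith, fun n => ?_⟩
  have h1 : (crs0 d n).card ≤ ∑ l ∈ Finset.range (n+1), (layer d l).card := by
    unfold crs0
    refine (Finset.card_erase_le).trans ?_
    unfold crs
    exact Finset.card_biUnion_le
  have h2 : ((crs0 d n).card : ℝ) ≤ ∑ l ∈ Finset.range (n+1), ((layer d l).card : ℝ) := by
    exact_mod_cast h1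
  have h3 : ∀ l ∈ Finset.range (n+1), ((layer d l).card : ℝ) ≤
      2^l * ((C + shp d 0) * (max (n:ℝ) 1)^(d-1)) := by
    intro l hl
    have hln : (l:ℝ) ≤ (n:ℝ) := by
      have := Finset.mem_range.mp hl
      exact_mod_cast (by omega : l ≤ n)
    rw [card_layer]
    push_cast
    apply mul_le_mul_of_nonneg_left _ (by positivity)
    refine (hshp l).trans ?_
    apply mul_le_mul_of_nonneg_left _ hC1.le
    apply pow_le_pow_left₀ (by positivity)
    exact max_le_max hln le_rfl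
  have h4 : ∑ l ∈ Finset.range (n+1), (2:ℝ)^l ≤ 2 * 2^n := by
    have h5 : ∀ m : ℕ, ∑ l ∈ Finset.range m, (2:ℝ)^l = 2^m - 1 := by
      intro m
      induction m with
      | zero => simp
      | succ m ih => rw [Finset.sum_range_succ, ih, pow_succ]; ring
    rw [h5, pow_succ]
    linarith
  calc ((crs0 d n).card : ℝ) ≤ ∑ l ∈ Finset.range (n+1), ((layer d l).card : ℝ) := h2
    _ ≤ ∑ l ∈ Finset.range (n+1), 2^l * ((C + shp d 0) * (max (n:ℝ) 1)^(d-1)) :=
        Finset.sum_le_sum h3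
    _ = (∑ l ∈ Finset.range (n+1), (2:ℝ)^l) * ((C + shp d 0) * (max (n:ℝ) 1)^(d-1)) := by
        rw [Finset.sum_mul]
    _ ≤ (2 * 2^n) * ((C + shp d 0) * (max (n:ℝ) 1)^(d-1)) := by
        apply mul_le_mul_of_nonneg_right h4
        exact mul_nonneg hC1.le (by positivity)
    _ = 2 * (C + shp d 0) * 2^n * (max (n:ℝ) 1)^(d-1) := by ring

end Sol_crs_card

alias crs_card := Sol_crs_card.crs_card

end MWidth
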