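import Pool.Agent.HypVol.Defs
import Pool.Agent.MWidth.Defs
import Pool.Agent.MWidth.Defs2
open MeasureTheory Real ProbabilityTheory
open scoped ENNReal BigOperators

namespace MWidth
open HypVol
namespace Sol_crs_kernel


theorem ck_mem_rho_iff (k : ℤ) (s : ℕ) : k ∈ rho s ↔ Nat.size k.natAbs = s := by
  have hk : |k| = (k.natAbs : ℤ) := Int.abs_eq_natAbs k
  show ((2:ℤ)^s / 2 ≤ |k| ∧ |k| < (2:ℤ)^s) ↔ _
  rw [hk]
  have h1 : ((k.natAbs : ℤ) < (2:ℤ)^s) ↔ Nat.size k.natAbs ≤ s := by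
    rw [Nat.size_le]
    constructor
    · intro h; exact_mod_cast h
    · intro h; exact_mod_cast h
  rw [h1]
  rcases s with _ | t
  · constructor
    · rintro ⟨-, h⟩; exact Nat.le_zero.1 h
    · intro h
      exact ⟨by simp, h.le⟩
  · have h2 : ((2:ℤ)^(t+1) / 2 ≤ (k.natAbs : ℤ)) ↔ t < Nat.size k.natAbs := by
      rw [Nat.lt_size, pow_succ, Int.mul_ediv_cancel _ (by norm_num)]
      constructor
      · intro h; exact_mod_cast h
      · intro h; exact_mod_cast h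
    rw [h2]
    omega


theorem ck_mem_layer_iff (d n : ℕ) (k : Fin d → ℤ) :
    k ∈ layer d n ↔ ∑ j, Nat.size (k j).natAbs = n := by
  classical
  unfold layer
  rw [Finset.mem_filter, Fintype.mem_piFinset]
  constructor
  · rintro ⟨_, s, hs, h⟩
    rw [← hs]
    exact Finset.sum_congr rfl (fun j _ => (ck_mem_rho_iff (k j) (s j)).1 (h j))
  · intro h
    refine ⟨fun j => ?_, fun j => Nat.size (k j).natAbs, h, fun j => (ck_mem_rho_iff _ _).2 rfl⟩
    have h1 : Nat.size (k j).natAbs ≤ n := by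
      rw [← h]
      exact Finset.single_le_sum (f := fun j => Nat.size (k j).natAbs)
        (fun i _ => Nat.zero_le _) (Finset.mem_univ j)
    have h2 : (k j).natAbs < 2 ^ n :=
      lt_of_lt_of_le (Nat.lt_size_self _) (Nat.pow_le_pow_right (by norm_num) h1)
    have h3 : |k j| < (2 : ℤ) ^ n := by
      rw [Int.abs_eq_natAbs]
      exact_mod_cast h2
    rw [Finset.mem_Ioo]
    exact abs_lt.mp h3


theorem ck_block_bound_geom (w : ℂ) (hw : ‖w‖ = 1) (hw1 : w ≠ 1) (a b : ℕ) (hab : a ≤ b) :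
    ‖∑ j ∈ Finset.Ico a b, w ^ j‖ ≤ 2 / ‖w - 1‖ := by
  rw [geom_sum_Ico hw1 hab, norm_div]
  apply div_le_div_of_nonneg_right _ (norm_nonneg _)
  calc ‖w ^ b - w ^ a‖ ≤ ‖w ^ b‖ + ‖w ^ a‖ := norm_sub_le _ _
    _ = 2 := by rw [norm_pow, norm_pow, hw, one_pow, one_pow]; norm_num

theorem ck_block_bound_sin (N : ℕ) (hN : 0 < N) (D r : ℕ) (hr : r = min D (N - D)) (hD : D ≤ N)
    (d : ℝ) (hd : |d| = D) : 2 * (r : ℝ) / N ≤ |Real.sin (π * d / N)| := by
  have hN' : (0 : ℝ) < N := by exact_mod_cast hN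
  have hpi := Real.pi_pos
  have h1 : |Real.sin (π * d / N)| = |Real.sin (π * D / N)| := by
    rw [← hd]
    rcases abs_cases d with ⟨h, _⟩ | ⟨h, _⟩
    · rw [h]
    · rw [h]
      have : π * -d / N = -(π * d / N) := by ring
      rw [this, Real.sin_neg, abs_neg]
  rw [h1]
  refine le_trans ?_ (le_abs_self _)
  rcases le_total (2 * D) N with h | h
  · have hrD : (r : ℝ) ≤ D := by
      have : r ≤ D := by omega
      exact_mod_cast this
    have h' : (2 : ℝ) * D ≤ N := by exact_mod_cast h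
    have h2 := Real.mul_le_sin (x := π * D / N) (by positivity) (by
      rw [div_le_div_iff₀ hN' (by norm_num)]
      nlinarith)
    refine le_trans ?_ h2
    have h3 : 2 / π * (π * D / N) = 2 * (D : ℝ) / N := by
      field_simp
    rw [h3]
    gcongr
  · have hrD : (r : ℝ) ≤ (N : ℝ) - D := by
      have h4 : r ≤ N - D := by omega
      have h5 : (r : ℝ) ≤ ((N - D : ℕ) : ℝ) := by exact_mod_cast h4
      rwa [Nat.cast_sub hD] at h5
    have h' : (N : ℝ) ≤ 2 * D := by exact_mod_cast h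
    have hDN : (D : ℝ) ≤ N := by exact_mod_cast hD
    have h6 : Real.sin (π * D / N) = Real.sin (π * ((N : ℝ) - D) / N) := by
      have h7 : π * ((N : ℝ) - D) / N = π - π * D / N := by
        field_simp
      rw [h7, Real.sin_pi_sub]
    rw [h6]
    have h2 := Real.mul_le_sin (x := π * ((N : ℝ) - D) / N)
      (div_nonneg (mul_nonneg hpi.le (by linarith)) hN'.le) (by
      rw [div_le_div_iff₀ hN' (by norm_num)]
      nlinarith)
    refine le_trans ?_ h2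
    have h3 : 2 / π * (π * ((N : ℝ) - D) / N) = 2 * ((N : ℝ) - D) / N := by
      field_simp
    rw [h3]
    gcongr

theorem ck_block_bound_mem (n s : ℕ) (hs : s + 1 ≤ n) :
    (Finset.Ioo (-(2:ℤ)^n) ((2:ℤ)^n)).filter (fun k => Nat.size k.natAbs = s + 1) =
      (Finset.Ico (2 ^ s) (2 ^ (s + 1))).image (fun j : ℕ => (j : ℤ)) ∪
      (Finset.Ico (2 ^ s) (2 ^ (s + 1))).image (fun j : ℕ => -(j : ℤ)) := by
  have hsz : ∀ m : ℕ, Nat.size m = s + 1 ↔ 2 ^ s ≤ m ∧ m < 2 ^ (s + 1) := by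
    intro m
    rw [← Nat.lt_size, ← Nat.size_le]
    omega
  have hpn : (2 : ℕ) ^ (s + 1) ≤ 2 ^ n := Nat.pow_le_pow_right (by norm_num) hs
  have hcast : ((2 ^ n : ℕ) : ℤ) = (2 : ℤ) ^ n := by push_cast; rfl
  ext k
  simp only [Finset.mem_filter, Finset.mem_Ioo, Finset.mem_union, Finset.mem_image,
    Finset.mem_Ico, hsz]
  rw [← hcast]
  generalize (2 : ℕ) ^ n = P at *
  generalize (2 : ℕ) ^ (s + 1) = Q at *
  generalize (2 : ℕ) ^ s = R at *
  constructor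
  · rintro ⟨_, h3⟩
    rcases le_total 0 k with h | h
    · exact Or.inl ⟨k.natAbs, h3, by omega⟩
    · exact Or.inr ⟨k.natAbs, h3, by omega⟩
  · rintro (⟨j, hj, rfl⟩ | ⟨j, hj, rfl⟩)
    · refine ⟨⟨by omega, by omega⟩, by omega, by omega⟩
    · refine ⟨⟨by omega, by omega⟩, by omega, by omega⟩

theorem ck_block_bound_card (n s : ℕ) (hs : s ≤ n) :
    ((Finset.Ioo (-(2:ℤ)^n) ((2:ℤ)^n)).filter (fun k => Nat.size k.natAbs = s)).card ≤ 2 ^ s := by
  cases s with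
  | zero =>
    have : (Finset.Ioo (-(2:ℤ)^n) ((2:ℤ)^n)).filter (fun k => Nat.size k.natAbs = 0) ⊆ {0} := by
      intro k hk
      rw [Finset.mem_filter, Nat.size_eq_zero] at hk
      rw [Finset.mem_singleton]
      exact Int.natAbs_eq_zero.1 hk.2
    refine (Finset.card_le_card this).trans ?_
    simp
  | succ s =>
    rw [ck_block_bound_mem n s hs]
    refine (Finset.card_union_le _ _).trans ?_
    have h1 := Finset.card_image_le (s := Finset.Ico (2 ^ s) (2 ^ (s + 1)))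
      (f := fun j : ℕ => (j : ℤ))
    have h2 := Finset.card_image_le (s := Finset.Ico (2 ^ s) (2 ^ (s + 1)))
      (f := fun j : ℕ => -(j : ℤ))
    rw [Nat.card_Ico] at h1 h2
    have h3 : (2 : ℕ) ^ (s + 1) = 2 * 2 ^ s := by ring
    omega

theorem ck_block_bound (n s : ℕ) (hs : s ≤ n) (x y : Fin (2^(n+2))) :
    ‖∑ k ∈ (Finset.Ioo (-(2:ℤ)^n) ((2:ℤ)^n)).filter (fun k => Nat.size k.natAbs = s),
      Complex.exp (Complex.I * ((2 * π * (k:ℝ) * (((x:ℕ):ℝ) - ((y:ℕ):ℝ)) / 2^(n+2) : ℝ) : ℂ))‖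
      ≤ (2:ℝ)^(min s (T1 n x y)) := by
  have hA : ‖∑ k ∈ (Finset.Ioo (-(2:ℤ)^n) ((2:ℤ)^n)).filter (fun k => Nat.size k.natAbs = s),
      Complex.exp (Complex.I * ((2 * π * (k:ℝ) * (((x:ℕ):ℝ) - ((y:ℕ):ℝ)) / 2^(n+2) : ℝ) : ℂ))‖
      ≤ (2:ℝ)^s := by
    refine (norm_sum_le _ _).trans ?_
    have h1 : ∀ k ∈ (Finset.Ioo (-(2:ℤ)^n) ((2:ℤ)^n)).filter (fun k => Nat.size k.natAbs = s),
        ‖Complex.exp (Complex.I *
          ((2 * π * (k:ℝ) * (((x:ℕ):ℝ) - ((y:ℕ):ℝ)) / 2^(n+2) : ℝ) : ℂ))‖ = 1 := by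
      intro k _
      rw [mul_comm, Complex.norm_exp_ofReal_mul_I]
    rw [Finset.sum_congr rfl h1, Finset.sum_const, nsmul_eq_mul, mul_one]
    exact_mod_cast ck_block_bound_card n s hs
  suffices hB : ‖∑ k ∈ (Finset.Ioo (-(2:ℤ)^n) ((2:ℤ)^n)).filter (fun k => Nat.size k.natAbs = s),
      Complex.exp (Complex.I * ((2 * π * (k:ℝ) * (((x:ℕ):ℝ) - ((y:ℕ):ℝ)) / 2^(n+2) : ℝ) : ℂ))‖
      ≤ (2:ℝ)^(T1 n x y) by
    rcases min_choice s (T1 n x y) with h | h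
    · rw [h]; exact hA
    · rw [h]; exact hB
  have hmono : ∀ t : ℕ, s ≤ t → (2 : ℝ) ^ s ≤ 2 ^ t := fun t ht =>
    pow_le_pow_right₀ (by norm_num) ht
  obtain ⟨D, hD⟩ : ∃ D : ℕ, D = max (x:ℕ) y - min (x:ℕ) y := ⟨_, rfl⟩
  obtain ⟨r, hr⟩ : ∃ r : ℕ, r = min D (2^(n+2) - D) := ⟨_, rfl⟩
  have hT : T1 n x y = if r = 0 then n + 2 else n + 2 - Nat.log 2 r := by
    rw [hr, hD]; rfl
  have hx := x.2
  have hy := y.2
  have hDN : D < 2 ^ (n + 2) := by omega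
  by_cases hr0 : r = 0
  · rw [hT, if_pos hr0]
    exact hA.trans (hmono _ (by omega))
  rcases Nat.eq_zero_or_pos s with hs0 | hs0
  · subst hs0
    refine hA.trans (hmono _ (Nat.zero_le _))
  obtain ⟨s', rfl⟩ : ∃ s', s = s' + 1 := ⟨s - 1, by omega⟩
  rw [hT, if_neg hr0]
  obtain ⟨d, hd⟩ : ∃ d : ℝ, d = ((x:ℕ):ℝ) - ((y:ℕ):ℝ) := ⟨_, rfl⟩
  have hdD : |d| = D := by
    rcases le_total (x : ℕ) (y : ℕ) with h | h
    · have h1 : D = (y : ℕ) - (x : ℕ) := by omega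
      rw [h1, Nat.cast_sub h, hd, abs_sub_comm, abs_of_nonneg]
      rw [sub_nonneg]; exact_mod_cast h
    · have h1 : D = (x : ℕ) - (y : ℕ) := by omega
      rw [h1, Nat.cast_sub h, hd, abs_of_nonneg]
      rw [sub_nonneg]; exact_mod_cast h
  have hsin := ck_block_bound_sin (2 ^ (n + 2)) (by positivity) D r hr hDN.le d hdD
  rw [← hd]
  obtain ⟨z, hz⟩ : ∃ z : ℝ, z = 2 * π * d / 2 ^ (n + 2) := ⟨_, rfl⟩
  obtain ⟨w, hw⟩ : ∃ w : ℂ, w = Complex.exp (Complex.I * (z : ℂ)) := ⟨_, rfl⟩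
  have hwn : ‖w‖ = 1 := by rw [hw, mul_comm, Complex.norm_exp_ofReal_mul_I]
  have hw0 : w ≠ 0 := by rw [hw]; exact Complex.exp_ne_zero _
  have hrpos : (0 : ℝ) < r := by
    have : 0 < r := Nat.pos_of_ne_zero hr0
    exact_mod_cast this
  have hw1n : 4 * (r : ℝ) / 2 ^ (n + 2) ≤ ‖w - 1‖ := by
    rw [hw, Complex.norm_exp_I_mul_ofReal_sub_one, norm_mul, Real.norm_eq_abs, Real.norm_eq_abs]
    have h1 : z / 2 = π * d / ((2 ^ (n + 2) : ℕ) : ℝ) := by
      rw [hz]; push_cast; ring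
    rw [h1, abs_of_pos (show (0 : ℝ) < 2 by norm_num)]
    have h2 : 4 * (r : ℝ) / 2 ^ (n + 2) = 2 * (2 * (r : ℝ) / ((2 ^ (n + 2) : ℕ) : ℝ)) := by
      push_cast; ring
    rw [h2]
    linarith
  have hpos : (0 : ℝ) < 4 * (r : ℝ) / 2 ^ (n + 2) := by positivity
  have hw1 : w ≠ 1 := by
    intro h
    rw [h, sub_self, norm_zero] at hw1n
    linarith
  have hwi : ‖w⁻¹‖ = 1 := by rw [norm_inv, hwn, inv_one]
  have hwi1 : w⁻¹ ≠ 1 := by
    intro h
    exact hw1 (by rw [← inv_inv w, h, inv_one])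
  have hwi1n : ‖w⁻¹ - 1‖ = ‖w - 1‖ := by
    have : w⁻¹ - 1 = -(w⁻¹ * (w - 1)) := by
      rw [mul_sub, inv_mul_cancel₀ hw0]; ring
    rw [this, norm_neg, norm_mul, hwi, one_mul]
  have hab : (2 : ℕ) ^ s' ≤ 2 ^ (s' + 1) := Nat.pow_le_pow_right (by norm_num) (by omega)
  have g1 := ck_block_bound_geom w hwn hw1 _ _ hab
  have g2 := ck_block_bound_geom w⁻¹ hwi hwi1 _ _ hab
  rw [hwi1n] at g2
  have hsum : ∑ k ∈ (Finset.Ioo (-(2:ℤ)^n) ((2:ℤ)^n)).filter (fun k => Nat.size k.natAbs = s' + 1),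
      Complex.exp (Complex.I * ((2 * π * (k:ℝ) * d / 2^(n+2) : ℝ) : ℂ)) =
      ∑ j ∈ Finset.Ico (2 ^ s') (2 ^ (s' + 1)), w ^ j +
        ∑ j ∈ Finset.Ico (2 ^ s') (2 ^ (s' + 1)), (w⁻¹) ^ j := by
    rw [ck_block_bound_mem n s' hs, Finset.sum_union]
    · rw [Finset.sum_image (fun a _ b _ h => by exact_mod_cast h),
        Finset.sum_image (fun a _ b _ h => by
          have h' : -(a : ℤ) = -(b : ℤ) := h
          omega)]
      congr 1
      · refine Finset.sum_congr rfl fun j _ => ?_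
        rw [hw, ← Complex.exp_nat_mul]
        congr 1
        rw [hz]
        push_cast
        ring
      · refine Finset.sum_congr rfl fun j _ => ?_
        rw [hw, ← Complex.exp_neg, ← Complex.exp_nat_mul]
        congr 1
        rw [hz]
        push_cast
        ring
    · rw [Finset.disjoint_left]
      intro k h1 h2
      rw [Finset.mem_image] at h1 h2
      obtain ⟨a, ha, rfl⟩ := h1
      obtain ⟨b, hb, hab'⟩ := h2
      rw [Finset.mem_Ico] at ha hb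
      have h3 : 0 < 2 ^ s' := by positivity
      omega
  rw [hsum]
  refine (norm_add_le _ _).trans ?_
  have hw1pos : 0 < ‖w - 1‖ := lt_of_lt_of_le hpos hw1n
  have h4 : 2 / ‖w - 1‖ ≤ 2 ^ (n + 2) / (2 * (r : ℝ)) := by
    rw [div_le_div_iff₀ hw1pos (by positivity)]
    rw [div_le_iff₀ (by positivity)] at hw1n
    nlinarith
  have h5 : (2 : ℝ) ^ (n + 2) / (2 * (r : ℝ)) + 2 ^ (n + 2) / (2 * (r : ℝ)) =
      2 ^ (n + 2) / r := by
    field_simp
    ring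
  have hl : 2 ^ Nat.log 2 r ≤ r := Nat.pow_log_le_self 2 hr0
  have hln : Nat.log 2 r ≤ n + 2 := by
    have h6 : 2 ^ Nat.log 2 r ≤ 2 ^ (n + 2) := by omega
    exact (Nat.pow_le_pow_iff_right (by norm_num)).1 h6
  have h7 : (2 : ℝ) ^ (n + 2) / r ≤ 2 ^ (n + 2 - Nat.log 2 r) := by
    rw [div_le_iff₀ hrpos]
    have h8 : (2 : ℝ) ^ (n + 2) = 2 ^ (n + 2 - Nat.log 2 r) * 2 ^ (Nat.log 2 r) := by
      rw [← pow_add, Nat.sub_add_cancel hln]
    rw [h8]
    have h9 : (2 : ℝ) ^ (Nat.log 2 r) ≤ r := by exact_mod_cast hl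
    exact mul_le_mul_of_nonneg_left h9 (by positivity)
  linarith


theorem ck_lb_exp (d n : ℕ) (x y : Fin d → Fin (2^(n+2))) (k : Fin d → ℤ) :
    Complex.exp (Complex.I * ((th k x - th k y : ℝ) : ℂ)) =
      ∏ j, Complex.exp (Complex.I *
        ((2 * π * ((k j : ℤ) : ℝ) * (((x j : ℕ) : ℝ) - ((y j : ℕ) : ℝ)) / 2^(n+2) : ℝ) : ℂ)) := by
  have h : th k x - th k y =
      ∑ j, 2 * π * ((k j : ℤ) : ℝ) * (((x j : ℕ) : ℝ) - ((y j : ℕ) : ℝ)) / 2^(n+2) := by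
    unfold th
    rw [← sub_div, ← mul_sub, ← Finset.sum_sub_distrib, Finset.mul_sum, Finset.sum_div]
    refine Finset.sum_congr rfl fun j _ => ?_
    ring
  rw [h, Complex.ofReal_sum, Finset.mul_sum, Complex.exp_sum]

theorem ck_lb_size (n : ℕ) (z : ℤ) (h : Nat.size z.natAbs ≤ n) :
    z ∈ Finset.Ioo (-(2:ℤ)^n) ((2:ℤ)^n) := by
  rw [Nat.size_le] at h
  have h1 : ((z.natAbs : ℕ) : ℤ) < (2:ℤ)^n := by exact_mod_cast h
  rw [Int.natCast_natAbs] at h1
  rw [Finset.mem_Ioo]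
  exact abs_lt.1 h1


theorem ck_dir (n s : ℕ) (hs : s ≤ n) (x y : Fin (2^(n+2))) :
    ‖∑ k ∈ (Finset.Ioo (-(2:ℤ)^n) ((2:ℤ)^n)).filter (fun k => Nat.size k.natAbs ≤ s),
      Complex.exp (Complex.I * ((2 * π * (k:ℝ) * (((x:ℕ):ℝ) - ((y:ℕ):ℝ)) / 2^(n+2) : ℝ) : ℂ))‖
      ≤ 2 * (2:ℝ)^(min s (T1 n x y)) := by
  have hset : (Finset.Ioo (-(2:ℤ)^n) ((2:ℤ)^n)).filter (fun k => Nat.size k.natAbs ≤ s) =
      (Finset.Ico 0 (2 ^ s)).image (fun j : ℕ => (j : ℤ)) ∪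
      (Finset.Ico 1 (2 ^ s)).image (fun j : ℕ => -(j : ℤ)) := by
    have hpn : (2 : ℕ) ^ s ≤ 2 ^ n := Nat.pow_le_pow_right (by norm_num) hs
    have hcast : ((2 ^ n : ℕ) : ℤ) = (2 : ℤ) ^ n := by push_cast; rfl
    ext k
    simp only [Finset.mem_filter, Finset.mem_Ioo, Finset.mem_union, Finset.mem_image,
      Finset.mem_Ico, Nat.size_le]
    rw [← hcast]
    generalize (2 : ℕ) ^ n = P at *
    generalize (2 : ℕ) ^ s = R at *
    constructor
    · rintro ⟨_, h3⟩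
      rcases le_or_gt 0 k with h | h
      · exact Or.inl ⟨k.natAbs, by omega, by omega⟩
      · exact Or.inr ⟨k.natAbs, by omega, by omega⟩
    · rintro (⟨j, hj, rfl⟩ | ⟨j, hj, rfl⟩)
      · refine ⟨⟨by omega, by omega⟩, by omega⟩
      · refine ⟨⟨by omega, by omega⟩, by omega⟩
  have hp1 : 1 ≤ 2 ^ s := Nat.one_le_two_pow
  have hA : ‖∑ k ∈ (Finset.Ioo (-(2:ℤ)^n) ((2:ℤ)^n)).filter (fun k => Nat.size k.natAbs ≤ s),
      Complex.exp (Complex.I * ((2 * π * (k:ℝ) * (((x:ℕ):ℝ) - ((y:ℕ):ℝ)) / 2^(n+2) : ℝ) : ℂ))‖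
      ≤ 2 * (2:ℝ)^s := by
    refine (norm_sum_le _ _).trans ?_
    have h1 : ∀ k ∈ (Finset.Ioo (-(2:ℤ)^n) ((2:ℤ)^n)).filter (fun k => Nat.size k.natAbs ≤ s),
        ‖Complex.exp (Complex.I *
          ((2 * π * (k:ℝ) * (((x:ℕ):ℝ) - ((y:ℕ):ℝ)) / 2^(n+2) : ℝ) : ℂ))‖ = 1 := by
      intro k _
      rw [mul_comm, Complex.norm_exp_ofReal_mul_I]
    rw [Finset.sum_congr rfl h1, Finset.sum_const, nsmul_eq_mul, mul_one]
    have hc : ((Finset.Ioo (-(2:ℤ)^n) ((2:ℤ)^n)).filter (fun k => Nat.size k.natAbs ≤ s)).card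
        ≤ 2 * 2 ^ s := by
      rw [hset]
      refine (Finset.card_union_le _ _).trans ?_
      have h1 := Finset.card_image_le (s := Finset.Ico 0 (2 ^ s)) (f := fun j : ℕ => (j : ℤ))
      have h2 := Finset.card_image_le (s := Finset.Ico 1 (2 ^ s)) (f := fun j : ℕ => -(j : ℤ))
      rw [Nat.card_Ico] at h1 h2
      omega
    exact_mod_cast hc
  suffices hB : ‖∑ k ∈ (Finset.Ioo (-(2:ℤ)^n) ((2:ℤ)^n)).filter (fun k => Nat.size k.natAbs ≤ s),
      Complex.exp (Complex.I * ((2 * π * (k:ℝ) * (((x:ℕ):ℝ) - ((y:ℕ):ℝ)) / 2^(n+2) : ℝ) : ℂ))‖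
      ≤ 2 * (2:ℝ)^(T1 n x y) by
    rcases min_choice s (T1 n x y) with h | h
    · rw [h]; exact hA
    · rw [h]; exact hB
  have hmono : ∀ t : ℕ, s ≤ t → 2 * (2 : ℝ) ^ s ≤ 2 * 2 ^ t := fun t ht =>
    mul_le_mul_of_nonneg_left (pow_le_pow_right₀ (by norm_num) ht) (by norm_num)
  obtain ⟨D, hD⟩ : ∃ D : ℕ, D = max (x:ℕ) y - min (x:ℕ) y := ⟨_, rfl⟩
  obtain ⟨r, hr⟩ : ∃ r : ℕ, r = min D (2^(n+2) - D) := ⟨_, rfl⟩
  have hT : T1 n x y = if r = 0 then n + 2 else n + 2 - Nat.log 2 r := by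
    rw [hr, hD]; rfl
  have hx := x.2
  have hy := y.2
  have hDN : D < 2 ^ (n + 2) := by omega
  by_cases hr0 : r = 0
  · rw [hT, if_pos hr0]
    exact hA.trans (hmono _ (by omega))
  rw [hT, if_neg hr0]
  obtain ⟨d, hd⟩ : ∃ d : ℝ, d = ((x:ℕ):ℝ) - ((y:ℕ):ℝ) := ⟨_, rfl⟩
  have hdD : |d| = D := by
    rcases le_total (x : ℕ) (y : ℕ) with h | h
    · have h1 : D = (y : ℕ) - (x : ℕ) := by omega
      rw [h1, Nat.cast_sub h, hd, abs_sub_comm, abs_of_nonneg]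
      rw [sub_nonneg]; exact_mod_cast h
    · have h1 : D = (x : ℕ) - (y : ℕ) := by omega
      rw [h1, Nat.cast_sub h, hd, abs_of_nonneg]
      rw [sub_nonneg]; exact_mod_cast h
  have hsin := ck_block_bound_sin (2 ^ (n + 2)) (by positivity) D r hr hDN.le d hdD
  rw [← hd]
  obtain ⟨z, hz⟩ : ∃ z : ℝ, z = 2 * π * d / 2 ^ (n + 2) := ⟨_, rfl⟩
  obtain ⟨w, hw⟩ : ∃ w : ℂ, w = Complex.exp (Complex.I * (z : ℂ)) := ⟨_, rfl⟩
  have hwn : ‖w‖ = 1 := by rw [hw, mul_comm, Complex.norm_exp_ofReal_mul_I]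
  have hw0 : w ≠ 0 := by rw [hw]; exact Complex.exp_ne_zero _
  have hrpos : (0 : ℝ) < r := by
    have : 0 < r := Nat.pos_of_ne_zero hr0
    exact_mod_cast this
  have hw1n : 4 * (r : ℝ) / 2 ^ (n + 2) ≤ ‖w - 1‖ := by
    rw [hw, Complex.norm_exp_I_mul_ofReal_sub_one, norm_mul, Real.norm_eq_abs, Real.norm_eq_abs]
    have h1 : z / 2 = π * d / ((2 ^ (n + 2) : ℕ) : ℝ) := by
      rw [hz]; push_cast; ring
    rw [h1, abs_of_pos (show (0 : ℝ) < 2 by norm_num)]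
    have h2 : 4 * (r : ℝ) / 2 ^ (n + 2) = 2 * (2 * (r : ℝ) / ((2 ^ (n + 2) : ℕ) : ℝ)) := by
      push_cast; ring
    rw [h2]
    linarith
  have hpos : (0 : ℝ) < 4 * (r : ℝ) / 2 ^ (n + 2) := by positivity
  have hw1 : w ≠ 1 := by
    intro h
    rw [h, sub_self, norm_zero] at hw1n
    linarith
  have hwi : ‖w⁻¹‖ = 1 := by rw [norm_inv, hwn, inv_one]
  have hwi1 : w⁻¹ ≠ 1 := by
    intro h
    exact hw1 (by rw [← inv_inv w, h, inv_one])
  have hwi1n : ‖w⁻¹ - 1‖ = ‖w - 1‖ := by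
    have : w⁻¹ - 1 = -(w⁻¹ * (w - 1)) := by
      rw [mul_sub, inv_mul_cancel₀ hw0]; ring
    rw [this, norm_neg, norm_mul, hwi, one_mul]
  have g1 := ck_block_bound_geom w hwn hw1 0 (2 ^ s) (Nat.zero_le _)
  have g2 := ck_block_bound_geom w⁻¹ hwi hwi1 1 (2 ^ s) hp1
  rw [hwi1n] at g2
  have hsum : ∑ k ∈ (Finset.Ioo (-(2:ℤ)^n) ((2:ℤ)^n)).filter (fun k => Nat.size k.natAbs ≤ s),
      Complex.exp (Complex.I * ((2 * π * (k:ℝ) * d / 2^(n+2) : ℝ) : ℂ)) =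
      ∑ j ∈ Finset.Ico 0 (2 ^ s), w ^ j +
        ∑ j ∈ Finset.Ico 1 (2 ^ s), (w⁻¹) ^ j := by
    rw [hset, Finset.sum_union]
    · rw [Finset.sum_image (fun a _ b _ h => by exact_mod_cast h),
        Finset.sum_image (fun a _ b _ h => by
          have h' : -(a : ℤ) = -(b : ℤ) := h
          omega)]
      congr 1
      · refine Finset.sum_congr rfl fun j _ => ?_
        rw [hw, ← Complex.exp_nat_mul]
        congr 1
        rw [hz]
        push_cast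
        ring
      · refine Finset.sum_congr rfl fun j _ => ?_
        rw [hw, ← Complex.exp_neg, ← Complex.exp_nat_mul]
        congr 1
        rw [hz]
        push_cast
        ring
    · rw [Finset.disjoint_left]
      intro k h1 h2
      rw [Finset.mem_image] at h1 h2
      obtain ⟨a, ha, rfl⟩ := h1
      obtain ⟨b, hb, hab'⟩ := h2
      rw [Finset.mem_Ico] at ha hb
      omega
  rw [hsum]
  refine (norm_add_le _ _).trans ?_
  have hw1pos : 0 < ‖w - 1‖ := lt_of_lt_of_le hpos hw1n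
  have h4 : 2 / ‖w - 1‖ ≤ 2 ^ (n + 2) / (2 * (r : ℝ)) := by
    rw [div_le_div_iff₀ hw1pos (by positivity)]
    rw [div_le_iff₀ (by positivity)] at hw1n
    nlinarith
  have h5 : (2 : ℝ) ^ (n + 2) / (2 * (r : ℝ)) + 2 ^ (n + 2) / (2 * (r : ℝ)) =
      2 ^ (n + 2) / r := by
    field_simp
    ring
  have hl : 2 ^ Nat.log 2 r ≤ r := Nat.pow_log_le_self 2 hr0
  have hln : Nat.log 2 r ≤ n + 2 := by
    have h6 : 2 ^ Nat.log 2 r ≤ 2 ^ (n + 2) := by omega
    exact (Nat.pow_le_pow_iff_right (by norm_num)).1 h6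
  have h7 : (2 : ℝ) ^ (n + 2) / r ≤ 2 ^ (n + 2 - Nat.log 2 r) := by
    rw [div_le_iff₀ hrpos]
    have h8 : (2 : ℝ) ^ (n + 2) = 2 ^ (n + 2 - Nat.log 2 r) * 2 ^ (Nat.log 2 r) := by
      rw [← pow_add, Nat.sub_add_cancel hln]
    rw [h8]
    have h9 : (2 : ℝ) ^ (Nat.log 2 r) ≤ r := by exact_mod_cast hl
    exact mul_le_mul_of_nonneg_left h9 (by positivity)
  have h10 : (0:ℝ) ≤ 2 ^ (n + 2 - Nat.log 2 r) := by positivity
  linarith

theorem ck_mem_crs (d n : ℕ) (k : Fin d → ℤ) :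
    k ∈ crs d n ↔ ∑ j, Nat.size (k j).natAbs ≤ n := by
  unfold crs
  rw [Finset.mem_biUnion]
  constructor
  · rintro ⟨l, hl, h⟩
    rw [ck_mem_layer_iff] at h
    rw [Finset.mem_range] at hl
    omega
  · intro h
    exact ⟨_, Finset.mem_range.2 (Nat.lt_succ_of_le h), (ck_mem_layer_iff d _ k).2 rfl⟩

theorem ck_main (d n : ℕ) (i0 : Fin d) (x y : Fin d → Fin (2^(n+2))) :
    ‖∑ k ∈ crs d n, Complex.exp (Complex.I * ((th k x - th k y : ℝ) : ℂ))‖
      ≤ 2 * Th d n (fun j => T1 n (x j) (y j)) := by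
  classical
  have hsplit : ∀ u : Fin d → ℕ, ∑ j, u j = u i0 + ∑ j ∈ Finset.univ.erase i0, u j := fun u =>
    (Finset.add_sum_erase Finset.univ u (Finset.mem_univ i0)).symm
  let φ : (Fin d → ℤ) → (Fin d → Fin (n+1)) := fun k j =>
    if j = i0 then ⟨n - ∑ i ∈ Finset.univ.erase i0, Nat.size (k i).natAbs, by omega⟩
    else ⟨min (Nat.size (k j).natAbs) n, by omega⟩
  have hle : ∀ k ∈ crs d n, ∀ j, Nat.size (k j).natAbs ≤ n := by
    intro k hk j
    rw [ck_mem_crs] at hk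
    exact (Finset.single_le_sum (f := fun j => Nat.size (k j).natAbs) (fun _ _ => Nat.zero_le _)
        (Finset.mem_univ j)).trans hk
  have hφ0 : ∀ k, ((φ k i0 : Fin (n+1)) : ℕ) = n - ∑ i ∈ Finset.univ.erase i0, Nat.size (k i).natAbs := by
    intro k
    simp [φ]
  have hφ1 : ∀ k ∈ crs d n, ∀ j ∈ Finset.univ.erase i0, ((φ k j : Fin (n+1)) : ℕ) =
      Nat.size (k j).natAbs := by
    intro k hk j hj
    have h1 : j ≠ i0 := (Finset.mem_erase.1 hj).1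
    simp only [φ, if_neg h1]
    exact min_eq_left (hle k hk j)
  have hmaps : ∀ k ∈ crs d n, φ k ∈ Sh d n := by
    intro k hk
    refine Finset.mem_filter.2 ⟨Finset.mem_univ _, ?_⟩
    rw [hsplit (fun j => ((φ k j : Fin (n+1)) : ℕ)), hφ0, Finset.sum_congr rfl (hφ1 k hk)]
    rw [ck_mem_crs, hsplit (fun j => Nat.size (k j).natAbs)] at hk
    omega
  rw [← Finset.sum_fiberwise_of_maps_to hmaps]
  unfold Th
  rw [Finset.mul_sum]
  refine (norm_sum_le _ _).trans (Finset.sum_le_sum fun s hs => ?_)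
  have hs2 : ∑ j, ((s j : Fin (n+1)) : ℕ) = n := (Finset.mem_filter.1 hs).2
  have hfib : (crs d n).filter (fun k => φ k = s) = Fintype.piFinset (fun j =>
      if j = i0 then (Finset.Ioo (-(2:ℤ)^n) ((2:ℤ)^n)).filter (fun k => Nat.size k.natAbs ≤ (s j : ℕ))
      else (Finset.Ioo (-(2:ℤ)^n) ((2:ℤ)^n)).filter (fun k => Nat.size k.natAbs = (s j : ℕ))) := by
    ext k
    rw [Finset.mem_filter, Fintype.mem_piFinset]
    constructor
    · rintro ⟨h1, h2⟩ j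
      by_cases hj : j = i0
      · subst hj
        rw [if_pos rfl, Finset.mem_filter]
        refine ⟨ck_lb_size n _ (hle k h1 j), ?_⟩
        rw [← h2, hφ0]
        rw [ck_mem_crs, hsplit (fun j => Nat.size (k j).natAbs)] at h1
        omega
      · rw [if_neg hj, Finset.mem_filter]
        refine ⟨ck_lb_size n _ (hle k h1 j), ?_⟩
        rw [← h2, hφ1 k h1 j (Finset.mem_erase.2 ⟨hj, Finset.mem_univ _⟩)]
    · intro h
      have h0 : Nat.size (k i0).natAbs ≤ (s i0 : ℕ) := by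
        have := h i0
        rw [if_pos rfl, Finset.mem_filter] at this
        exact this.2
      have h1 : ∀ j ∈ Finset.univ.erase i0, Nat.size (k j).natAbs = (s j : ℕ) := by
        intro j hj
        have := h j
        rw [if_neg (Finset.mem_erase.1 hj).1, Finset.mem_filter] at this
        exact this.2
      have h2 : k ∈ crs d n := by
        rw [ck_mem_crs, hsplit (fun j => Nat.size (k j).natAbs), Finset.sum_congr rfl h1]
        rw [hsplit (fun j => ((s j : Fin (n+1)) : ℕ))] at hs2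
        omega
      refine ⟨h2, ?_⟩
      funext j
      apply Fin.ext
      by_cases hj : j = i0
      · subst hj
        rw [hφ0, Finset.sum_congr rfl h1]
        rw [hsplit (fun j => ((s j : Fin (n+1)) : ℕ))] at hs2
        omega
      · have hj' := Finset.mem_erase.2 ⟨hj, Finset.mem_univ j⟩
        rw [hφ1 k h2 j hj', h1 j hj']
  rw [hfib]
  simp_rw [ck_lb_exp]
  rw [← Finset.prod_univ_sum (fun j => if j = i0 then
          (Finset.Ioo (-(2:ℤ)^n) ((2:ℤ)^n)).filter (fun k => Nat.size k.natAbs ≤ (s j : ℕ))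
      else (Finset.Ioo (-(2:ℤ)^n) ((2:ℤ)^n)).filter (fun k => Nat.size k.natAbs = (s j : ℕ)))
      (fun j (k : ℤ) => Complex.exp (Complex.I *
        ((2 * π * ((k : ℤ) : ℝ) * (((x j : ℕ) : ℝ) - ((y j : ℕ) : ℝ)) / 2^(n+2) : ℝ) : ℂ)))]
  rw [norm_prod, ← Finset.prod_pow_eq_pow_sum,
    ← Finset.mul_prod_erase Finset.univ _ (Finset.mem_univ i0),
    ← Finset.mul_prod_erase Finset.univ (fun j => (2:ℝ) ^ min (s j : ℕ) (T1 n (x j) (y j)))
      (Finset.mem_univ i0), ← mul_assoc]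
  refine mul_le_mul ?_ ?_ (Finset.prod_nonneg fun _ _ => norm_nonneg _) (by positivity)
  · rw [if_pos rfl]
    exact ck_dir n (s i0) (by have := (s i0).2; omega) (x i0) (y i0)
  · refine Finset.prod_le_prod (fun _ _ => norm_nonneg _) fun j hj => ?_
    rw [if_neg (Finset.mem_erase.1 hj).1]
    exact ck_block_bound n (s j) (by have := (s j).2; omega) (x j) (y j)

theorem ck_Th_ge (d n : ℕ) (i0 : Fin d) (T : Fin d → ℕ) : 1 ≤ Th d n T := by
  classical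
  have hmem : (fun j : Fin d => if j = i0 then (⟨n, by omega⟩ : Fin (n+1)) else 0) ∈ Sh d n := by
    refine Finset.mem_filter.2 ⟨Finset.mem_univ _, ?_⟩
    rw [Finset.sum_eq_single i0]
    · simp
    · intro j _ hj
      simp [hj]
    · intro h
      exact absurd (Finset.mem_univ _) h
  unfold Th
  refine le_trans ?_ (Finset.single_le_sum (f := fun s : Fin d → Fin (n+1) =>
    (2:ℝ)^(∑ j, min (s j : ℕ) (T j))) (fun s _ => by positivity) hmem)
  exact one_le_pow₀ (by norm_num)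


theorem crs_kernel (d : ℕ) (hd : 1 ≤ d) : ∃ C : ℝ, 1 ≤ C ∧ ∀ n : ℕ, 1 ≤ n →
    ∀ x y : Fin d → Fin (2^(n+2)),
    ‖∑ k ∈ crs0 d n, Complex.exp (Complex.I * ((th k x - th k y : ℝ) : ℂ))‖
      ≤ C * Th d n (fun j => T1 n (x j) (y j)) := by
  classical
  refine ⟨3, by norm_num, fun n _ x y => ?_⟩
  have h1 := ck_main d n ⟨0, hd⟩ x y
  have h2 := ck_Th_ge d n ⟨0, hd⟩ (fun j => T1 n (x j) (y j))
  have h0 : (0 : Fin d → ℤ) ∈ crs d n := by
    rw [ck_mem_crs]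
    simp
  have h3 := Finset.add_sum_erase (crs d n)
    (fun k => Complex.exp (Complex.I * ((th k x - th k y : ℝ) : ℂ))) h0
  have h4 : Complex.exp (Complex.I * ((th (0 : Fin d → ℤ) x - th (0 : Fin d → ℤ) y : ℝ) : ℂ)) = 1 := by
    unfold th
    simp
  rw [h4] at h3
  have h5 : ∑ k ∈ crs0 d n, Complex.exp (Complex.I * ((th k x - th k y : ℝ) : ℂ)) =
      (∑ k ∈ crs d n, Complex.exp (Complex.I * ((th k x - th k y : ℝ) : ℂ))) - 1 := by
    unfold crs0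
    rw [← h3]
    ring
  rw [h5]
  refine (norm_sub_le _ _).trans ?_
  rw [norm_one]
  linarith

end Sol_crs_kernel

alias crs_kernel := Sol_crs_kernel.crs_kernel

end MWidth
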