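import Pool.Agent.HypVol.Defs
import Pool.Agent.MWidth.Defs
import Pool.Agent.MWidth.Defs2
import Pool.Agent.MWidth.L_gtb_facts
import Pool.Agent.MWidth.L_crs_kernel
import Pool.Agent.HypVol.L_pair_count
import Pool.Agent.HypVol.L_kern_sum
import Pool.Agent.HypVol.L_shp_lower
open MeasureTheory Real ProbabilityTheory
open scoped ENNReal BigOperators

namespace MWidth
open HypVol

open Classical in
theorem crs0_mem (d n : ℕ) : ∀ k ∈ crs0 d n, k ≠ 0 ∧ ∀ j, |k j| < (2:ℤ)^n := by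
  intro k hk
  unfold crs0 at hk
  rw [Finset.mem_erase] at hk
  refine ⟨hk.1, fun j => ?_⟩
  have h2 := hk.2
  unfold crs at h2
  rw [Finset.mem_biUnion] at h2
  obtain ⟨l, hl, hkl⟩ := h2
  rw [Finset.mem_range] at hl
  unfold layer at hkl
  rw [Finset.mem_filter] at hkl
  have h3 := hkl.1
  rw [Fintype.mem_piFinset] at h3
  have h4 := h3 j
  rw [Finset.mem_Ioo] at h4
  have h5 : |k j| < (2:ℤ)^l := abs_lt.2 h4
  exact h5.trans_le (pow_le_pow_right₀ (by norm_num) (by omega))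

theorem crs_E (d : ℕ) (hd : 3 ≤ d) : ∃ a C : ℝ, 0 < a ∧ 0 < C ∧ ∀ n : ℕ, 1 ≤ n →
    (∑ x : Gr d n, ∑ y : Gr d n, (∑ i : (crs0 d n) × Fin 2, gtb n (crs0 d n) i x * gtb n (crs0 d n) i y) *
      (Real.exp ((Real.sqrt (a * n / (2^(n+1) * shp d n)))^2 *
          ∑ i : (crs0 d n) × Fin 2, gtb n (crs0 d n) i x * gtb n (crs0 d n) i y) - 1
        - (Real.sqrt (a * n / (2^(n+1) * shp d n)))^2 *
          ∑ i : (crs0 d n) × Fin 2, gtb n (crs0 d n) i x * gtb n (crs0 d n) i y))
        / (Fintype.card (Gr d n) : ℝ)^2 ≤ C := by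
  obtain ⟨a, C0, ha, hC0, hk⟩ := kern_sum d (by omega)
  obtain ⟨c1, hc1, hshp⟩ := shp_lower d (by omega)
  obtain ⟨K, hK, hker⟩ := crs_kernel d (by omega)
  have hK0 : 0 < K := by linarith
  refine ⟨a / K, K * (a / (2 * c1) * (4 ^ d * C0)), by positivity, by positivity, fun n hn => ?_⟩
  set F : (Fin d → ℕ) → ℝ := fun T => (1 + 2 * Th d n T) ^ 2 *
    (Real.exp (a * n * Th d n T / (2 ^ n * shp d n)) - 1) with hF
  have hTh : ∀ T : Fin d → ℕ, 0 ≤ Th d n T := by
    intro T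
    unfold Th
    positivity
  have hF0 : ∀ T, 0 ≤ F T := by
    intro T
    have h1 := hTh T
    have h2 : 0 ≤ a * n * Th d n T / (2 ^ n * shp d n) := by positivity
    have h3 : 0 ≤ Real.exp (a * n * Th d n T / (2 ^ n * shp d n)) - 1 := by
      have := Real.one_le_exp h2
      linarith
    simp only [hF]
    positivity
  obtain ⟨-, -, -, htb⟩ := gtb_facts d n (by omega) hn (crs0 d n) (crs0_mem d n)
  have hs : (Real.sqrt (a / K * n / (2 ^ (n + 1) * shp d n))) ^ 2 = a / K * n / (2 ^ (n + 1) * shp d n) :=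
    Real.sq_sqrt (by positivity)
  set q : ℝ := a * n / (2 ^ (n + 1) * shp d n) with hq
  set q' : ℝ := a / K * n / (2 ^ (n + 1) * shp d n) with hq'
  have hqq : q' * K = q := by
    rw [hq', hq]
    by_cases h0 : (shp d n : ℝ) = 0
    · rw [h0]; simp
    · field_simp
  have hc : 0 ≤ q := by positivity
  have hc' : 0 ≤ q' := by positivity
  have hpt : ∀ x y : Gr d n, (∑ i : (crs0 d n) × Fin 2, gtb n (crs0 d n) i x * gtb n (crs0 d n) i y) *
      (Real.exp ((Real.sqrt q') ^ 2 * ∑ i : (crs0 d n) × Fin 2, gtb n (crs0 d n) i x * gtb n (crs0 d n) i y) - 1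
        - (Real.sqrt q') ^ 2 * ∑ i : (crs0 d n) × Fin 2, gtb n (crs0 d n) i x * gtb n (crs0 d n) i y) ≤
      K * q * F (fun j => T1 n (x.1 j) (y.1 j)) := by
    intro x y
    set D := ∑ i : (crs0 d n) × Fin 2, gtb n (crs0 d n) i x * gtb n (crs0 d n) i y with hD
    set θ := Th d n (fun j => T1 n (x.1 j) (y.1 j)) with hθ
    have hDb : |D| ≤ K * (2 * θ) := (htb x y).trans (by
      have := hker n hn x.1 y.1
      linarith)
    have hθ0 : 0 ≤ θ := hTh _
    have hF' : F (fun j => T1 n (x.1 j) (y.1 j)) =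
        (1 + 2 * θ) ^ 2 * (Real.exp (q * (2 * θ)) - 1) := by
      simp only [hF, ← hθ, hq]
      congr 3
      rw [pow_succ]
      by_cases h0 : (shp d n : ℝ) = 0
      · rw [h0]; simp
      · field_simp
    rw [hF', hs]
    have hR : 0 ≤ Real.exp (q * (2 * θ)) - 1 := by
      have := Real.one_le_exp (show 0 ≤ q * (2 * θ) by positivity)
      linarith
    rcases le_or_gt 0 D with h | h
    · have hD2 : D ≤ K * (2 * θ) := (le_abs_self D).trans hDb
      have hqD : 0 ≤ q' * D := mul_nonneg hc' h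
      -- e^t - 1 - t ≤ t (e^t - 1)
      have key : Real.exp (q' * D) - 1 - q' * D ≤ (q' * D) * (Real.exp (q' * D) - 1) := by
        have h1 : 1 - q' * D ≤ Real.exp (-(q' * D)) := by
          have := Real.add_one_le_exp (-(q' * D))
          linarith
        have h2 : Real.exp (-(q' * D)) * Real.exp (q' * D) = 1 := by
          rw [← Real.exp_add]; simp
        have h3 : (1 - q' * D) * Real.exp (q' * D) ≤ 1 := by
          calc (1 - q' * D) * Real.exp (q' * D) ≤ Real.exp (-(q' * D)) * Real.exp (q' * D) :=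
                mul_le_mul_of_nonneg_right h1 (Real.exp_pos _).le
            _ = 1 := h2
        nlinarith
      have h3 : 0 ≤ Real.exp (q' * D) - 1 := by
        have := Real.one_le_exp hqD
        linarith
      have h4 : Real.exp (q' * D) - 1 ≤ Real.exp (q * (2 * θ)) - 1 := by
        have h6 : q' * D ≤ q * (2 * θ) := by
          calc q' * D ≤ q' * (K * (2 * θ)) := mul_le_mul_of_nonneg_left hD2 hc'
            _ = q * (2 * θ) := by rw [← hqq]; ring
        have := Real.exp_le_exp.2 h6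
        linarith
      calc D * (Real.exp (q' * D) - 1 - q' * D) ≤ D * ((q' * D) * (Real.exp (q' * D) - 1)) :=
            mul_le_mul_of_nonneg_left key h
        _ = q' * (D ^ 2 * (Real.exp (q' * D) - 1)) := by ring
        _ ≤ q' * ((K * (1 + 2 * θ)) ^ 2 * (Real.exp (q * (2 * θ)) - 1)) := by
            apply mul_le_mul_of_nonneg_left _ hc'
            have h5 : D ^ 2 ≤ (K * (1 + 2 * θ)) ^ 2 := by
              apply pow_le_pow_left₀ h
              nlinarith
            exact mul_le_mul h5 h4 h3 (by positivity)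
        _ = K * (q' * K) * ((1 + 2 * θ) ^ 2 * (Real.exp (q * (2 * θ)) - 1)) := by ring
        _ = K * q * ((1 + 2 * θ) ^ 2 * (Real.exp (q * (2 * θ)) - 1)) := by rw [hqq]
    · have h1 : 0 ≤ Real.exp (q' * D) - 1 - q' * D := by
        have := Real.add_one_le_exp (q' * D)
        linarith
      have h2 : D * (Real.exp (q' * D) - 1 - q' * D) ≤ 0 :=
        mul_nonpos_of_nonpos_of_nonneg h.le h1
      exact h2.trans (mul_nonneg (by positivity) (mul_nonneg (sq_nonneg _) hR))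
  have hsum : (∑ x : Gr d n, ∑ y : Gr d n, F (fun j => T1 n (x.1 j) (y.1 j))) =
      4 * ∑ x : Fin d → Fin (2 ^ (n + 2)), ∑ y : Fin d → Fin (2 ^ (n + 2)),
        F (fun j => T1 n (x j) (y j)) := by
    rw [Fintype.sum_prod_type]
    simp_rw [Fintype.sum_prod_type, Finset.sum_const, Finset.card_univ, Fintype.card_fin,
      nsmul_eq_mul, ← Finset.mul_sum]
    push_cast
    ring
  have hcard : (Fintype.card (Gr d n) : ℝ) ^ 2 = 4 * ((2 : ℝ) ^ (n + 2)) ^ (2 * d) := by
    have : Fintype.card (Gr d n) = (2 ^ (n + 2)) ^ d * 2 := by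
      simp [Gr, Fintype.card_prod, Fintype.card_pi]
    rw [this]
    push_cast
    rw [mul_pow, ← pow_mul, ← pow_mul, ← pow_mul]
    rw [mul_comm d 2]
    norm_num
    ring
  have hmain : (∑ x : Gr d n, ∑ y : Gr d n, (∑ i : (crs0 d n) × Fin 2, gtb n (crs0 d n) i x * gtb n (crs0 d n) i y) *
      (Real.exp ((Real.sqrt q') ^ 2 * ∑ i : (crs0 d n) × Fin 2, gtb n (crs0 d n) i x * gtb n (crs0 d n) i y) - 1
        - (Real.sqrt q') ^ 2 * ∑ i : (crs0 d n) × Fin 2, gtb n (crs0 d n) i x * gtb n (crs0 d n) i y))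
        / (Fintype.card (Gr d n) : ℝ)^2 ≤ K * q * (4 ^ d * C0 * n * 2 ^ n) := by
    rw [hcard, div_le_iff₀ (by positivity)]
    calc (∑ x : Gr d n, ∑ y : Gr d n, (∑ i : (crs0 d n) × Fin 2, gtb n (crs0 d n) i x * gtb n (crs0 d n) i y) *
      (Real.exp ((Real.sqrt q') ^ 2 * ∑ i : (crs0 d n) × Fin 2, gtb n (crs0 d n) i x * gtb n (crs0 d n) i y) - 1
        - (Real.sqrt q') ^ 2 * ∑ i : (crs0 d n) × Fin 2, gtb n (crs0 d n) i x * gtb n (crs0 d n) i y))
        ≤ ∑ x : Gr d n, ∑ y : Gr d n, K * q * F (fun j => T1 n (x.1 j) (y.1 j)) :=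
          Finset.sum_le_sum fun x _ => Finset.sum_le_sum fun y _ => hpt x y
      _ = K * q * ∑ x : Gr d n, ∑ y : Gr d n, F (fun j => T1 n (x.1 j) (y.1 j)) := by
          simp_rw [Finset.mul_sum]
      _ = K * q * (4 * ∑ x : Fin d → Fin (2 ^ (n + 2)), ∑ y : Fin d → Fin (2 ^ (n + 2)),
          F (fun j => T1 n (x j) (y j))) := by rw [hsum]
      _ ≤ K * q * (4 * (((2:ℝ)^(n+2))^(2*d) * 4^d *
          ∑ T : Fin d → Fin (n+3), (1/2)^(∑ j, ((T j : Fin (n+3)) : ℕ)) * F (fun j => T j))) := by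
          apply mul_le_mul_of_nonneg_left _ (by positivity)
          have := pair_count d n F hF0
          linarith
      _ ≤ K * q * (4 * (((2:ℝ)^(n+2))^(2*d) * 4^d * (C0 * n * 2 ^ n))) := by
          have := hk n hn
          gcongr
      _ = K * q * (4 ^ d * C0 * n * 2 ^ n) * (4 * ((2 : ℝ) ^ (n + 2)) ^ (2 * d)) := by ring
  refine hmain.trans ?_
  have hn' : (1:ℝ) ≤ n := by exact_mod_cast hn
  have hsh : c1 * (n:ℝ)^2 ≤ shp d n := by
    refine le_trans ?_ (hshp n hn)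
    apply mul_le_mul_of_nonneg_left _ hc1.le
    exact pow_le_pow_right₀ hn' (by omega)
  have hshpos : (0:ℝ) < shp d n := lt_of_lt_of_le (by positivity) hsh
  rw [hq]
  have h2n : (2:ℝ)^(n+1) = 2 * 2^n := by ring
  rw [h2n]
  have e1 : K * (a * n / (2 * 2 ^ n * shp d n)) * (4 ^ d * C0 * n * 2 ^ n) =
      K * ((a / 2 * (4 ^ d * C0)) * ((n:ℝ)^2 / shp d n)) := by
    field_simp
  rw [e1]
  have e2 : (n:ℝ)^2 / shp d n ≤ 1 / c1 := by
    rw [div_le_div_iff₀ hshpos hc1]
    linarith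
  apply mul_le_mul_of_nonneg_left _ hK0.le
  calc (a / 2 * (4 ^ d * C0)) * ((n:ℝ)^2 / shp d n) ≤ (a / 2 * (4 ^ d * C0)) * (1 / c1) :=
        mul_le_mul_of_nonneg_left e2 (by positivity)
    _ = a / (2 * c1) * (4 ^ d * C0) := by field_simp

end MWidth
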