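import Pool.Agent.HypVol.Defs
import Pool.Agent.MWidth.Defs
import Pool.Agent.MWidth.Defs2
import Pool.Agent.HypVol.L_TP_prob
open MeasureTheory Real ProbabilityTheory
open scoped ENNReal BigOperators

namespace MWidth
open HypVol
namespace Sol_gp_norm


theorem hv_one (m : ℤ) :
    ∫ x : ℝ, Complex.exp (Complex.I * ((((m : ℤ) : ℝ) * x : ℝ) : ℂ))
      ∂(ENNReal.ofReal (2 * π)⁻¹ • (volume : Measure ℝ).restrict (Set.Ico 0 (2 * π))) =
      if m = 0 then 1 else 0 := by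
  have hpi : (0 : ℝ) < 2 * π := by positivity
  rw [integral_smul_measure, ENNReal.toReal_ofReal (by positivity),
    integral_Ico_eq_integral_Ioo, ← integral_Ioc_eq_integral_Ioo,
    ← intervalIntegral.integral_of_le hpi.le]
  by_cases hm : m = 0
  · subst hm
    rw [if_pos rfl]
    have h1 : (fun x : ℝ => Complex.exp (Complex.I * (((((0 : ℤ) : ℤ) : ℝ) * x : ℝ) : ℂ))) =
        fun _ => (1 : ℂ) := by
      funext x
      simp
    rw [h1, intervalIntegral.integral_const, sub_zero, smul_smul, inv_mul_cancel₀ hpi.ne',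
      one_smul]
  · rw [if_neg hm]
    have h1 : (fun x : ℝ => Complex.exp (Complex.I * ((((m : ℤ) : ℝ) * x : ℝ) : ℂ))) =
        fun x : ℝ => Complex.exp ((Complex.I * (m : ℂ)) * (x : ℂ)) := by
      funext x
      congr 1
      push_cast
      ring
    have hc : Complex.I * (m : ℂ) ≠ 0 :=
      mul_ne_zero Complex.I_ne_zero (by exact_mod_cast hm)
    have h2 : Complex.exp (Complex.I * (m : ℂ) * ((2 * π : ℝ) : ℂ)) = 1 := by
      have h3 : Complex.I * (m : ℂ) * ((2 * π : ℝ) : ℂ) =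
          (m : ℂ) * (2 * (π : ℂ) * Complex.I) := by
        push_cast
        ring
      rw [h3]
      exact Complex.exp_int_mul_two_pi_mul_I m
    rw [h1, integral_exp_mul_complex hc, h2]
    simp

theorem hv_orth {d : ℕ} (l k : Fin d → ℤ) :
    ∫ x : Fin d → ℝ, Complex.exp (Complex.I * ((∑ j, (l j : ℝ) * x j : ℝ) : ℂ)) *
      Complex.exp (-(Complex.I * ((∑ j, (k j : ℝ) * x j : ℝ) : ℂ))) ∂(TP d) =
      if l = k then 1 else 0 := by
  have h1 : (fun x : Fin d → ℝ => Complex.exp (Complex.I * ((∑ j, (l j : ℝ) * x j : ℝ) : ℂ)) *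
      Complex.exp (-(Complex.I * ((∑ j, (k j : ℝ) * x j : ℝ) : ℂ)))) =
      fun x => ∏ j, Complex.exp (Complex.I * (((((l j - k j : ℤ)) : ℝ) * x j : ℝ) : ℂ)) := by
    funext x
    rw [← Complex.exp_add, ← Complex.exp_sum]
    congr 1
    push_cast
    rw [Finset.mul_sum, Finset.mul_sum, ← Finset.sum_neg_distrib, ← Finset.sum_add_distrib]
    refine Finset.sum_congr rfl fun j _ => ?_
    ring
  rw [h1]
  haveI : IsFiniteMeasure (ENNReal.ofReal (2 * π)⁻¹ •
      (volume : Measure ℝ).restrict (Set.Ico 0 (2 * π))) := by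
    refine ⟨?_⟩
    rw [Measure.smul_apply, smul_eq_mul]
    exact ENNReal.mul_lt_top ENNReal.ofReal_lt_top (by
      rw [Measure.restrict_apply_univ, Real.volume_Ico]
      exact ENNReal.ofReal_lt_top)
  have h2 := integral_fintype_prod_eq_prod (𝕜 := ℂ) (ι := Fin d) (E := fun _ => ℝ)
    (μ := fun _ => ENNReal.ofReal (2 * π)⁻¹ •
      (volume : Measure ℝ).restrict (Set.Ico 0 (2 * π)))
    (fun j x => Complex.exp (Complex.I * (((((l j - k j : ℤ)) : ℝ) * x : ℝ) : ℂ)))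
  rw [TP, h2, Finset.prod_congr rfl fun j _ => hv_one (l j - k j)]
  by_cases h : l = k
  · rw [if_pos h, h]
    simp
  · rw [if_neg h]
    obtain ⟨j, hj⟩ : ∃ j, l j ≠ k j := by
      by_contra hcon
      push Not at hcon
      exact h (funext hcon)
    exact Finset.prod_eq_zero (Finset.mem_univ j) (if_neg (sub_ne_zero.2 hj))

theorem fc_poly {d : ℕ} {Λ : Finset (Fin d → ℤ)} (a : Λ × Fin 2 → ℝ) (k : Λ) :
    fc (gp Λ a) k.1 = (a (k, 0) : ℂ) + (a (k, 1) : ℂ) * Complex.I := by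
  haveI := TP_prob d
  unfold fc gp
  have h1 : ∀ x : Fin d → ℝ,
      (∑ l : Λ, ((a (l, 0) : ℂ) + (a (l, 1) : ℂ) * Complex.I) *
        Complex.exp (Complex.I * ((∑ j, (l.1 j : ℝ) * x j : ℝ) : ℂ))) *
        Complex.exp (-(Complex.I * ((∑ j, (k.1 j : ℝ) * x j : ℝ) : ℂ))) =
      ∑ l : Λ, ((a (l, 0) : ℂ) + (a (l, 1) : ℂ) * Complex.I) *
        (Complex.exp (Complex.I * ((∑ j, (l.1 j : ℝ) * x j : ℝ) : ℂ)) *
        Complex.exp (-(Complex.I * ((∑ j, (k.1 j : ℝ) * x j : ℝ) : ℂ)))) := by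
    intro x
    rw [Finset.sum_mul]
    exact Finset.sum_congr rfl fun l _ => mul_assoc _ _ _
  rw [integral_congr_ae (Filter.Eventually.of_forall h1)]
  have hI : ∀ l : Λ, Integrable (fun x : Fin d → ℝ =>
      ((a (l, 0) : ℂ) + (a (l, 1) : ℂ) * Complex.I) *
        (Complex.exp (Complex.I * ((∑ j, (l.1 j : ℝ) * x j : ℝ) : ℂ)) *
        Complex.exp (-(Complex.I * ((∑ j, (k.1 j : ℝ) * x j : ℝ) : ℂ))))) (TP d) := by
    intro l
    refine Integrable.const_mul ?_ _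
    refine Integrable.of_bound ?_ 1 (Filter.Eventually.of_forall fun x => ?_)
    · refine Continuous.aestronglyMeasurable ?_
      fun_prop
    · rw [norm_mul, Complex.norm_exp_I_mul_ofReal, ← mul_neg, ← Complex.ofReal_neg,
        Complex.norm_exp_I_mul_ofReal, one_mul]
  rw [integral_finsetSum _ fun l _ => hI l]
  have h2 : ∀ l : Λ, ∫ x : Fin d → ℝ, ((a (l, 0) : ℂ) + (a (l, 1) : ℂ) * Complex.I) *
        (Complex.exp (Complex.I * ((∑ j, (l.1 j : ℝ) * x j : ℝ) : ℂ)) *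
        Complex.exp (-(Complex.I * ((∑ j, (k.1 j : ℝ) * x j : ℝ) : ℂ)))) ∂(TP d) =
      if l = k then (a (l, 0) : ℂ) + (a (l, 1) : ℂ) * Complex.I else 0 := by
    intro l
    rw [integral_const_mul, hv_orth]
    by_cases h : l = k
    · rw [if_pos h, if_pos (by rw [h]), mul_one]
    · rw [if_neg h, if_neg (fun h' => h (Subtype.ext h')), mul_zero]
  rw [Finset.sum_congr rfl fun l _ => h2 l, Finset.sum_ite_eq' Finset.univ k,
    if_pos (Finset.mem_univ k)]


theorem lp_cont {d : ℕ} {Λ : Finset (Fin d → ℤ)} (a : Λ × Fin 2 → ℝ) : Continuous (gp Λ a) := by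
  unfold gp
  fun_prop

theorem lp_add {d : ℕ} {Λ : Finset (Fin d → ℤ)} (a b : Λ × Fin 2 → ℝ) :
    gp Λ (a + b) = gp Λ a + gp Λ b := by
  funext x
  simp only [Pi.add_apply]
  unfold gp
  rw [← Finset.sum_add_distrib]
  refine Finset.sum_congr rfl fun k _ => ?_
  simp only [Pi.add_apply]
  push_cast
  ring

theorem lp_smul {d : ℕ} {Λ : Finset (Fin d → ℤ)} (c : ℝ) (a : Λ × Fin 2 → ℝ) :
    gp Λ (c • a) = (c : ℂ) • gp Λ a := by
  funext x
  simp only [Pi.smul_apply, smul_eq_mul]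
  unfold gp
  rw [Finset.mul_sum]
  refine Finset.sum_congr rfl fun k _ => ?_
  simp only [Pi.smul_apply, smul_eq_mul]
  push_cast
  ring

theorem lp_bound {d : ℕ} {Λ : Finset (Fin d → ℤ)} (a : Λ × Fin 2 → ℝ) (x : Fin d → ℝ) :
    ‖gp Λ a x‖ ≤ ∑ k : Λ, ‖((a (k, 0) : ℂ) + (a (k, 1) : ℂ) * Complex.I)‖ := by
  unfold gp
  refine (norm_sum_le _ _).trans ?_
  apply Finset.sum_le_sum
  intro k _
  rw [norm_mul]
  have h4 : ‖Complex.exp (Complex.I * ((∑ j, (k.1 j : ℝ) * x j : ℝ) : ℂ))‖ = 1 := by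
    rw [mul_comm, Complex.norm_exp_ofReal_mul_I]
  rw [h4, mul_one]

theorem lp_parseval {d : ℕ} {Λ : Finset (Fin d → ℤ)} (a : Λ × Fin 2 → ℝ) :
    ∫ x, ‖gp Λ a x‖ ^ 2 ∂(TP d) = ∑ i, a i ^ 2 := by
  haveI := TP_prob d
  obtain ⟨z, hz⟩ : ∃ z : Λ → ℂ,
      z = fun k => (a (k, 0) : ℂ) + (a (k, 1) : ℂ) * Complex.I := ⟨_, rfl⟩
  have hconj : ∀ x, (starRingEnd ℂ) (gp Λ a x) = ∑ k : Λ, (starRingEnd ℂ) (z k) *
      Complex.exp (-(Complex.I * ((∑ j, (k.1 j : ℝ) * x j : ℝ) : ℂ))) := by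
    intro x
    unfold gp
    rw [map_sum]
    refine Finset.sum_congr rfl fun k _ => ?_
    rw [map_mul, ← Complex.exp_conj, map_mul, Complex.conj_I, Complex.conj_ofReal, hz, neg_mul]
  have hC : ∫ x, gp Λ a x * (starRingEnd ℂ) (gp Λ a x) ∂(TP d) =
      ∑ k : Λ, (starRingEnd ℂ) (z k) * z k := by
    have h1 : (fun x => gp Λ a x * (starRingEnd ℂ) (gp Λ a x)) = fun x =>
        ∑ k : Λ, (starRingEnd ℂ) (z k) * (gp Λ a x *
          Complex.exp (-(Complex.I * ((∑ j, (k.1 j : ℝ) * x j : ℝ) : ℂ)))) := by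
      funext x
      rw [hconj, Finset.mul_sum]
      refine Finset.sum_congr rfl fun k _ => ?_
      ring
    rw [h1, integral_finset_sum]
    · refine Finset.sum_congr rfl fun k _ => ?_
      rw [integral_const_mul]
      congr 1
      have := fc_poly a k
      unfold fc at this
      rw [this, hz]
    · intro k _
      apply Integrable.const_mul
      refine Integrable.of_bound (C := ∑ k : Λ,
        ‖((a (k, 0) : ℂ) + (a (k, 1) : ℂ) * Complex.I)‖) ?_ ?_
      · apply Continuous.aestronglyMeasurable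
        exact (lp_cont a).mul (by fun_prop)
      · refine Filter.Eventually.of_forall fun x => ?_
        rw [norm_mul]
        have h4 : ‖Complex.exp (-(Complex.I * ((∑ j, (k.1 j : ℝ) * x j : ℝ) : ℂ)))‖ = 1 := by
          have h2 : -(Complex.I * ((∑ j, (k.1 j : ℝ) * x j : ℝ) : ℂ)) =
              (((-(∑ j, (k.1 j : ℝ) * x j) : ℝ)) : ℂ) * Complex.I := by
            push_cast; ring
          rw [h2, Complex.norm_exp_ofReal_mul_I]
        rw [h4, mul_one]
        exact lp_bound a x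
  have hR : ((∫ x, ‖gp Λ a x‖ ^ 2 ∂(TP d) : ℝ) : ℂ) = ((∑ i, a i ^ 2 : ℝ) : ℂ) := by
    rw [← integral_complex_ofReal]
    have h1 : (fun x => (((‖gp Λ a x‖ ^ 2 : ℝ)) : ℂ)) = fun x =>
        gp Λ a x * (starRingEnd ℂ) (gp Λ a x) := by
      funext x
      rw [Complex.mul_conj, Complex.normSq_eq_norm_sq]
    rw [h1, hC, Fintype.sum_prod_type]
    push_cast
    refine Finset.sum_congr rfl fun k _ => ?_
    rw [Fin.sum_univ_two, hz]
    simp only [map_add, map_mul, Complex.conj_ofReal, Complex.conj_I]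
    ring_nf
    rw [Complex.I_sq]
    ring
  exact_mod_cast hR

theorem lp_two {d : ℕ} {Λ : Finset (Fin d → ℤ)} (a : Λ × Fin 2 → ℝ) :
    eLpNorm (gp Λ a) 2 (TP d) = ENNReal.ofReal (√(∑ i, a i ^ 2)) := by
  haveI := TP_prob d
  rw [eLpNorm_eq_lintegral_rpow_enorm_toReal (by norm_num) (by norm_num)]
  have h1 : ∫⁻ x, ‖gp Λ a x‖ₑ ^ (2 : ℝ≥0∞).toReal ∂(TP d) =
      ENNReal.ofReal (∑ i, a i ^ 2) := by
    rw [← lp_parseval a, ofReal_integral_eq_lintegral_ofReal]
    · congr 1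
      funext x
      rw [← ofReal_norm_eq_enorm, ENNReal.toReal_ofNat, ENNReal.ofReal_rpow_of_nonneg
        (norm_nonneg _) (by norm_num)]
      norm_num
    · refine Integrable.of_bound (C := (∑ k : Λ,
        ‖((a (k, 0) : ℂ) + (a (k, 1) : ℂ) * Complex.I)‖) ^ 2) ?_ ?_
      · apply Continuous.aestronglyMeasurable
        exact ((lp_cont a).norm).pow 2
      · refine Filter.Eventually.of_forall fun x => ?_
        rw [Real.norm_eq_abs, abs_of_nonneg (by positivity)]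
        exact pow_le_pow_left₀ (norm_nonneg _) (lp_bound a x) 2
    · exact Filter.Eventually.of_forall fun x => by positivity
  rw [h1, ENNReal.toReal_ofNat, ENNReal.ofReal_rpow_of_nonneg (by positivity) (by norm_num),
    Real.sqrt_eq_rpow]

namespace PN

theorem poly_add {d : ℕ} {Λ : Finset (Fin d → ℤ)} (a b : Λ × Fin 2 → ℝ) : gp Λ (a + b) = gp Λ a + gp Λ b := by
  funext x
  simp only [gp, Pi.add_apply, Complex.ofReal_add, ← Finset.sum_add_distrib]
  refine Finset.sum_congr rfl fun k _ => ?_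
  ring

theorem poly_smul {d : ℕ} {Λ : Finset (Fin d → ℤ)} (t : ℝ) (a : Λ × Fin 2 → ℝ) : gp Λ (t • a) = t • gp Λ a := by
  funext x
  simp only [gp, Pi.smul_apply, smul_eq_mul, Complex.ofReal_mul, Complex.real_smul,
    Finset.mul_sum]
  refine Finset.sum_congr rfl fun k _ => ?_
  ring

theorem poly_cont {d : ℕ} {Λ : Finset (Fin d → ℤ)} (a : Λ × Fin 2 → ℝ) : Continuous (gp Λ a) := by
  unfold gp
  fun_prop

/-- the coefficient bound -/
noncomputable def CB {d : ℕ} {Λ : Finset (Fin d → ℤ)} (a : Λ × Fin 2 → ℝ) : ℝ :=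
  ∑ k : Λ, (|a (k, 0)| + |a (k, 1)|)

theorem CB_nonneg {d : ℕ} {Λ : Finset (Fin d → ℤ)} (a : Λ × Fin 2 → ℝ) : 0 ≤ CB a :=
  Finset.sum_nonneg fun _ _ => by positivity

theorem CB_cont {d : ℕ} {Λ : Finset (Fin d → ℤ)} : Continuous (fun a : Λ × Fin 2 → ℝ => CB a) := by
  unfold CB
  fun_prop

theorem poly_bound {d : ℕ} {Λ : Finset (Fin d → ℤ)} (a : Λ × Fin 2 → ℝ) (x : Fin d → ℝ) :
    ‖gp Λ a x‖ ≤ CB a := by
  unfold gp CB
  refine (norm_sum_le _ _).trans (Finset.sum_le_sum fun k _ => ?_)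
  rw [norm_mul]
  have h1 : ‖Complex.exp (Complex.I * ((∑ j, (k.1 j : ℝ) * x j : ℝ) : ℂ))‖ = 1 := by
    rw [mul_comm]
    exact Complex.norm_exp_ofReal_mul_I _
  rw [h1, mul_one]
  refine (norm_add_le _ _).trans ?_
  rw [norm_mul, Complex.norm_I, mul_one, Complex.norm_real, Complex.norm_real,
    Real.norm_eq_abs, Real.norm_eq_abs]

end PN

open PN in
theorem gp_norm {d : ℕ} (Λ : Finset (Fin d → ℤ)) (p : ℝ) (hp : 1 ≤ p) :
    (∀ a : Λ × Fin 2 → ℝ, eLpNorm (gp Λ a) (ENNReal.ofReal p) (TP d) ≠ ⊤) ∧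
    (∀ a b : Λ × Fin 2 → ℝ, (eLpNorm (gp Λ (a + b)) (ENNReal.ofReal p) (TP d)).toReal
      ≤ (eLpNorm (gp Λ a) (ENNReal.ofReal p) (TP d)).toReal + (eLpNorm (gp Λ b) (ENNReal.ofReal p) (TP d)).toReal) ∧
    (∀ (t : ℝ) (a : Λ × Fin 2 → ℝ), (eLpNorm (gp Λ (t • a)) (ENNReal.ofReal p) (TP d)).toReal
      = |t| * (eLpNorm (gp Λ a) (ENNReal.ofReal p) (TP d)).toReal) ∧
    Continuous (fun a : Λ × Fin 2 → ℝ => (eLpNorm (gp Λ a) (ENNReal.ofReal p) (TP d)).toReal) ∧
    (∀ (a : Λ × Fin 2 → ℝ) (i : Λ × Fin 2),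
      |a i| ≤ (eLpNorm (gp Λ a) (ENNReal.ofReal p) (TP d)).toReal) ∧
    (∀ a ∈ gball Λ, (eLpNorm (gp Λ a) (ENNReal.ofReal p) (TP d)).toReal ≤ 1) ∧
    volume {a : Λ × Fin 2 → ℝ | (eLpNorm (gp Λ a) (ENNReal.ofReal p) (TP d)).toReal ≤ 1} ≠ 0 ∧
    volume {a : Λ × Fin 2 → ℝ | (eLpNorm (gp Λ a) (ENNReal.ofReal p) (TP d)).toReal ≤ 1} ≠ ⊤ ∧
    (∀ a : Λ × Fin 2 → ℝ, eLpNorm (gp Λ a) 2 (TP d) = ENNReal.ofReal (Real.sqrt (∑ i, a i ^ 2))) := by
  haveI : IsProbabilityMeasure (TP d) := TP_prob d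
  have hP1 : (1 : ℝ≥0∞) ≤ ENNReal.ofReal p := by
    rw [← ENNReal.ofReal_one]
    exact ENNReal.ofReal_le_ofReal hp
  have hsm : ∀ a : Λ × Fin 2 → ℝ, AEStronglyMeasurable (gp Λ a) (TP d) :=
    fun a => (poly_cont a).aestronglyMeasurable
  have hmem : ∀ a : Λ × Fin 2 → ℝ, MemLp (gp Λ a) (ENNReal.ofReal p) (TP d) :=
    fun a => MemLp.of_bound (hsm a) (CB a) (Filter.Eventually.of_forall (poly_bound a))
  have hbd : ∀ (a : Λ × Fin 2 → ℝ) (C : ℝ), 0 ≤ C → (∀ x, ‖gp Λ a x‖ ≤ C) →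
      (eLpNorm (gp Λ a) (ENNReal.ofReal p) (TP d)).toReal ≤ C := by
    intro a C hC h
    have h1 := eLpNorm_le_of_ae_bound (p := ENNReal.ofReal p) (μ := TP d) (f := gp Λ a)
      (C := C) (Filter.Eventually.of_forall h)
    rw [measure_univ, ENNReal.one_rpow, one_mul] at h1
    exact ENNReal.toReal_le_of_le_ofReal hC h1
  have h2 : ∀ a b : Λ × Fin 2 → ℝ,
      (eLpNorm (gp Λ (a + b)) (ENNReal.ofReal p) (TP d)).toReal
      ≤ (eLpNorm (gp Λ a) (ENNReal.ofReal p) (TP d)).toReal +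
        (eLpNorm (gp Λ b) (ENNReal.ofReal p) (TP d)).toReal := by
    intro a b
    rw [poly_add]
    have h := eLpNorm_add_le (hsm a) (hsm b) hP1
    rw [← ENNReal.toReal_add (hmem a).eLpNorm_ne_top (hmem b).eLpNorm_ne_top]
    exact ENNReal.toReal_mono
      (ENNReal.add_ne_top.mpr ⟨(hmem a).eLpNorm_ne_top, (hmem b).eLpNorm_ne_top⟩) h
  have h3 : ∀ (t : ℝ) (a : Λ × Fin 2 → ℝ),
      (eLpNorm (gp Λ (t • a)) (ENNReal.ofReal p) (TP d)).toReal
      = |t| * (eLpNorm (gp Λ a) (ENNReal.ofReal p) (TP d)).toReal := by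
    intro t a
    rw [poly_smul, eLpNorm_const_smul, ENNReal.toReal_mul]
    rw [toReal_enorm, Real.norm_eq_abs]
  have hcont : Continuous (fun a : Λ × Fin 2 → ℝ =>
      (eLpNorm (gp Λ a) (ENNReal.ofReal p) (TP d)).toReal) := by
    rw [continuous_iff_continuousAt]
    intro a
    rw [ContinuousAt, tendsto_iff_dist_tendsto_zero]
    have hC : Filter.Tendsto (fun b : Λ × Fin 2 → ℝ => CB (b - a)) (nhds a) (nhds 0) := by
      have h : Continuous (fun b : Λ × Fin 2 → ℝ => CB (b - a)) :=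
        CB_cont.comp (continuous_id.sub continuous_const)
      apply h.tendsto' a 0
      simp [CB]
    refine squeeze_zero (fun _ => dist_nonneg) (fun b => ?_) hC
    rw [Real.dist_eq, abs_le]
    constructor
    · have h := h2 b (a - b)
      rw [add_sub_cancel] at h
      have h' := hbd (a - b) (CB (a - b)) (CB_nonneg _) (poly_bound _)
      have h'' : CB (a - b) = CB (b - a) := by
        unfold CB
        refine Finset.sum_congr rfl fun k _ => ?_
        simp only [Pi.sub_apply]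
        rw [abs_sub_comm, abs_sub_comm (a (k, 1))]
      linarith
    · have h := h2 a (b - a)
      rw [add_sub_cancel] at h
      have h' := hbd (b - a) (CB (b - a)) (CB_nonneg _) (poly_bound _)
      linarith
  have h5 : ∀ (a : Λ × Fin 2 → ℝ) (i : Λ × Fin 2),
      |a i| ≤ (eLpNorm (gp Λ a) (ENNReal.ofReal p) (TP d)).toReal := by
    intro a i
    have hz : |a i| ≤ ‖fc (gp Λ a) i.1.1‖ := by
      rw [fc_poly]
      obtain ⟨k, j⟩ := i
      fin_cases j
      · have := Complex.abs_re_le_norm ((a (k, 0) : ℂ) + (a (k, 1) : ℂ) * Complex.I)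
        simpa using this
      · have := Complex.abs_im_le_norm ((a (k, 0) : ℂ) + (a (k, 1) : ℂ) * Complex.I)
        simpa using this
    refine hz.trans ?_
    have hfc : ‖fc (gp Λ a) i.1.1‖ ≤ ∫ x, ‖gp Λ a x‖ ∂(TP d) := by
      unfold fc
      refine (norm_integral_le_integral_norm _).trans (le_of_eq ?_)
      congr 1
      funext x
      rw [norm_mul]
      have h1 : ‖Complex.exp (-(Complex.I * ((∑ j, (i.1.1 j : ℝ) * x j : ℝ) : ℂ)))‖ = 1 := by
        have : (-(Complex.I * ((∑ j, (i.1.1 j : ℝ) * x j : ℝ) : ℂ))) =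
            ((-(∑ j, (i.1.1 j : ℝ) * x j) : ℝ) : ℂ) * Complex.I := by
          push_cast
          ring
        rw [this]
        exact Complex.norm_exp_ofReal_mul_I _
      rw [h1, mul_one]
    refine hfc.trans ?_
    rw [integral_norm_eq_lintegral_enorm (hsm a), ← eLpNorm_one_eq_lintegral_enorm]
    exact ENNReal.toReal_mono (hmem a).eLpNorm_ne_top
      (eLpNorm_le_eLpNorm_of_exponent_le hP1 (hsm a))
  have h0 : (eLpNorm (gp Λ (0 : Λ × Fin 2 → ℝ)) (ENNReal.ofReal p) (TP d)).toReal = 0 := by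
    have h := h3 0 (0 : Λ × Fin 2 → ℝ)
    rw [smul_zero, abs_zero, zero_mul] at h
    exact h
  refine ⟨fun a => (hmem a).eLpNorm_ne_top, h2, h3, hcont, h5,
    fun a ha => hbd a 1 zero_le_one ha, ?_, ?_, lp_two⟩
  · have hopen : IsOpen {a : Λ × Fin 2 → ℝ |
        (eLpNorm (gp Λ a) (ENNReal.ofReal p) (TP d)).toReal < 1} :=
      isOpen_lt hcont continuous_const
    have hpos := hopen.measure_pos volume ⟨0, by
      show (eLpNorm (gp Λ (0 : Λ × Fin 2 → ℝ)) (ENNReal.ofReal p) (TP d)).toReal < 1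
      rw [h0]; exact zero_lt_one⟩
    refine (hpos.trans_le (measure_mono ?_)).ne'
    intro a ha
    simp only [Set.mem_setOf_eq] at ha ⊢
    exact ha.le
  · have hsub : {a : Λ × Fin 2 → ℝ |
        (eLpNorm (gp Λ a) (ENNReal.ofReal p) (TP d)).toReal ≤ 1} ⊆
        Metric.closedBall (0 : Λ × Fin 2 → ℝ) 1 := by
      intro a ha
      rw [mem_closedBall_zero_iff, pi_norm_le_iff_of_nonneg zero_le_one]
      intro i
      rw [Real.norm_eq_abs]
      exact (h5 a i).trans ha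
    exact ((measure_mono hsub).trans_lt
      (isCompact_closedBall (0 : Λ × Fin 2 → ℝ) 1).measure_lt_top).ne

end Sol_gp_norm

alias gp_norm := Sol_gp_norm.gp_norm

end MWidth
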