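import Pool.Agent.HypVol.Defs
import Pool.Agent.MWidth.Defs
import Pool.Agent.MWidth.Defs2
import Pool.Agent.HypVol.L_TP_prob
import Pool.Agent.MWidth.L_crs_ent
import Pool.Agent.MWidth.L_gauss_net
import Pool.Agent.MWidth.L_gLp_gauss
import Pool.Agent.MWidth.L_crs_card
import Pool.Agent.MWidth.L_gp_norm
open MeasureTheory Real ProbabilityTheory
open scoped ENNReal BigOperators

namespace MWidth
open HypVol
namespace Sol_crs_ent_p

















theorem lp_cont {d : ℕ} (Λ : Finset (Fin d → ℤ)) (a : Λ × Fin 2 → ℝ) : Continuous (gp Λ a) := by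
  unfold gp
  fun_prop

theorem lp_add {d : ℕ} (Λ : Finset (Fin d → ℤ)) (a b : Λ × Fin 2 → ℝ) :
    gp Λ (a + b) = gp Λ a + gp Λ b := by
  funext x
  simp only [Pi.add_apply]
  unfold gp
  rw [← Finset.sum_add_distrib]
  refine Finset.sum_congr rfl fun k _ => ?_
  simp only [Pi.add_apply]
  push_cast
  ring

theorem lp_smul {d : ℕ} (Λ : Finset (Fin d → ℤ)) (c : ℝ) (a : Λ × Fin 2 → ℝ) :
    gp Λ (c • a) = (c : ℂ) • gp Λ a := by
  funext x
  simp only [Pi.smul_apply, smul_eq_mul]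
  unfold gp
  rw [Finset.mul_sum]
  refine Finset.sum_congr rfl fun k _ => ?_
  simp only [Pi.smul_apply, smul_eq_mul]
  push_cast
  ring

theorem lp_scale {d : ℕ} (Λ : Finset (Fin d → ℤ)) (c : ℝ) (a : Λ × Fin 2 → ℝ) (q : ℝ≥0∞) :
    eLpNorm (gp Λ (c • a)) q (TP d) = ENNReal.ofReal |c| * eLpNorm (gp Λ a) q (TP d) := by
  rw [lp_smul Λ, eLpNorm_const_smul]
  congr 1
  rw [← ofReal_norm_eq_enorm, Complex.norm_real, Real.norm_eq_abs]

theorem lp_meas (d : ℕ) (Λ : Finset (Fin d → ℤ)) (p : ℝ) (hp : 1 ≤ p) (K : ℝ≥0∞) :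
    MeasurableSet {u : Λ × Fin 2 → ℝ | eLpNorm (gp Λ u) (ENNReal.ofReal p) (TP d) ≤ K} := by
  haveI := TP_prob d
  have h0 : ENNReal.ofReal p ≠ 0 := by
    rw [Ne, ENNReal.ofReal_eq_zero]; linarith
  have h1 : ∀ u : Λ × Fin 2 → ℝ, eLpNorm (gp Λ u) (ENNReal.ofReal p) (TP d) =
      (∫⁻ x, ‖gp Λ u x‖ₑ ^ (ENNReal.ofReal p).toReal ∂(TP d)) ^ (1 / (ENNReal.ofReal p).toReal) :=
    fun u => eLpNorm_eq_lintegral_rpow_enorm_toReal h0 ENNReal.ofReal_ne_top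
  have hjc : Continuous fun z : (Λ × Fin 2 → ℝ) × (Fin d → ℝ) => gp Λ z.1 z.2 := by
    unfold gp
    fun_prop
  have hm : Measurable fun u : Λ × Fin 2 → ℝ =>
      ∫⁻ x, ‖gp Λ u x‖ₑ ^ (ENNReal.ofReal p).toReal ∂(TP d) :=
    ((hjc.measurable.enorm).pow_const _).lintegral_prod_right'
  have hm2 : Measurable fun u : Λ × Fin 2 → ℝ =>
      eLpNorm (gp Λ u) (ENNReal.ofReal p) (TP d) := by
    simp only [h1]
    exact hm.pow_const _
  exact measurableSet_le hm2 measurable_const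

theorem lp_convex (d : ℕ) (Λ : Finset (Fin d → ℤ)) (p : ℝ) (hp : 1 ≤ p) (K : ℝ≥0∞) :
    Convex ℝ {u : Λ × Fin 2 → ℝ | eLpNorm (gp Λ u) (ENNReal.ofReal p) (TP d) ≤ K} := by
  intro u hu v hv s t hs ht hst
  change eLpNorm (gp Λ (s • u + t • v)) (ENNReal.ofReal p) (TP d) ≤ K
  rw [lp_add Λ]
  refine (eLpNorm_add_le (lp_cont Λ _).aestronglyMeasurable (lp_cont Λ _).aestronglyMeasurable ?_).trans ?_
  · rw [← ENNReal.ofReal_one]
    exact ENNReal.ofReal_le_ofReal hp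
  · rw [lp_scale Λ, lp_scale Λ, abs_of_nonneg hs, abs_of_nonneg ht]
    calc ENNReal.ofReal s * eLpNorm (gp Λ u) (ENNReal.ofReal p) (TP d) +
          ENNReal.ofReal t * eLpNorm (gp Λ v) (ENNReal.ofReal p) (TP d)
        ≤ ENNReal.ofReal s * K + ENNReal.ofReal t * K :=
          add_le_add (mul_le_mul_right hu _) (mul_le_mul_right hv _)
      _ = K := by
          rw [← add_mul, ← ENNReal.ofReal_add hs ht, hst, ENNReal.ofReal_one, one_mul]


theorem crs_ent_p (d : ℕ) (hd : 3 ≤ d) (p : ℝ) (hp : 1 ≤ p) : ∃ C : ℝ, 0 < C ∧ ∀ n : ℕ, 1 ≤ n →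
    ∀ τ : ℝ, 1 ≤ τ → ∃ F : Finset ((crs0 d n) × Fin 2 → ℝ), (∀ x ∈ F, x ∈ gball (crs0 d n)) ∧
      (F.card : ℝ) ≤ Real.exp (C * 2^n * (n:ℝ)^(d-1) / τ + 1) ∧
      ∀ x ∈ gball (crs0 d n), ∃ y ∈ F, eLpNorm (gp (crs0 d n) (x - y)) (ENNReal.ofReal p) (TP d)
        ≤ ENNReal.ofReal (C * τ ^ (alp p) / Real.sqrt n) := by
  classical
  obtain ⟨C₁, hC₁, h1⟩ := crs_ent d hd
  obtain ⟨C₀, hC₀, h0⟩ := gLp_gauss d p hp
  obtain ⟨C₂, hC₂, h2⟩ := crs_card d (by omega)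
  haveI := TP_prob d
  have key : ∀ n : ℕ, 1 ≤ n → ∀ τ : ℝ, 1 ≤ τ → ∃ F : Finset ((crs0 d n) × Fin 2 → ℝ),
      (∀ x ∈ F, x ∈ gball (crs0 d n)) ∧
      (F.card : ℝ) ≤ Real.exp (C₁ * 2^n * (n:ℝ)^(d-1) / τ) ∧
      ∀ x ∈ gball (crs0 d n), ∃ y ∈ F, ∑ i, (x i - y i)^2 ≤ (√(τ/n))^2 := by
    intro n hn τ hτ
    have hn0 : (0:ℝ) < n := by exact_mod_cast hn
    have hτ0 : 0 < τ := by linarith
    obtain ⟨F, hF1, hF2, hF3⟩ := h1 n hn (√(τ/n)) (by positivity)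
    refine ⟨F, hF1, hF2.trans (le_of_eq ?_), hF3⟩
    congr 1
    rw [Real.sq_sqrt (by positivity)]
    have e2 : d - 1 = (d - 2) + 1 := by omega
    rw [e2, pow_succ]
    field_simp
  by_cases hp2 : p ≤ 2
  · refine ⟨max C₁ 1, by positivity, fun n hn τ hτ => ?_⟩
    have hn0 : (0:ℝ) < n := by exact_mod_cast hn
    have hτ0 : 0 < τ := by linarith
    obtain ⟨F, hF1, hF2, hF3⟩ := key n hn τ hτ
    refine ⟨F, hF1, hF2.trans (Real.exp_le_exp.mpr ?_), fun x hx => ?_⟩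
    · have : C₁ * 2^n * (n:ℝ)^(d-1) / τ ≤ max C₁ 1 * 2^n * (n:ℝ)^(d-1) / τ := by
        gcongr
        exact le_max_left _ _
      linarith
    · obtain ⟨y, hy, hxy⟩ := hF3 x hx
      refine ⟨y, hy, ?_⟩
      have e1 : eLpNorm (gp (crs0 d n) (x - y)) (ENNReal.ofReal p) (TP d) ≤ eLpNorm (gp (crs0 d n) (x - y)) 2 (TP d) := by
        apply eLpNorm_le_eLpNorm_of_exponent_le
        · rw [show (2:ℝ≥0∞) = ENNReal.ofReal 2 by norm_num]
          exact ENNReal.ofReal_le_ofReal hp2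
        · exact (lp_cont (crs0 d n) _).aestronglyMeasurable
      refine e1.trans ?_
      rw [((gp_norm (crs0 d n) p hp).2.2.2.2.2.2.2.2)]
      apply ENNReal.ofReal_le_ofReal
      have e2 : √(∑ i, ((x - y) i)^2) ≤ √(τ/n) := by
        apply Real.sqrt_le_sqrt
        rw [Real.sq_sqrt (by positivity)] at hxy
        simpa using hxy
      refine e2.trans ?_
      rw [Real.sqrt_div (by linarith), Real.sqrt_eq_rpow τ]
      have h5 : alp p = 1/2 := by unfold alp; rw [if_pos hp2]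
      rw [h5]
      have h6 : 0 ≤ τ^(1/2:ℝ) := by positivity
      have h7 : τ^(1/2:ℝ) ≤ max C₁ 1 * τ^(1/2:ℝ) := by
        nlinarith [le_max_right C₁ 1]
      exact div_le_div_of_nonneg_right h7 (Real.sqrt_nonneg _)
  · refine ⟨C₁ + 2 * C₀^2 * (C₂+1) + 1, by positivity, fun n hn τ hτ => ?_⟩
    have hn0 : (0:ℝ) < n := by exact_mod_cast hn
    have hn1 : (1:ℝ) ≤ n := by exact_mod_cast hn
    have hτ0 : 0 < τ := by linarith
    obtain ⟨F₁, hF1, hF2, hF3⟩ := key n hn τ hτ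
    obtain ⟨cd, hcd⟩ : ∃ cd : ℝ, cd = max ((crs0 d n).card : ℝ) 1 := ⟨_, rfl⟩
    have hcd0 : 0 < cd := by rw [hcd]; positivity
    have hcd1 : ((crs0 d n).card:ℝ) ≤ cd := by rw [hcd]; exact le_max_left _ _
    have hnp : (1:ℝ) ≤ (n:ℝ)^(d-1) := one_le_pow₀ hn1
    have h2p : (1:ℝ) ≤ (2:ℝ)^n := one_le_pow₀ (by norm_num)
    have hcd2 : cd ≤ (C₂+1) * 2^n * (n:ℝ)^(d-1) := by
      rw [hcd]
      apply max_le
      · have h3 := h2 n
        rw [max_eq_left hn1] at h3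
        refine h3.trans ?_
        have : 0 ≤ (2:ℝ)^n * (n:ℝ)^(d-1) := by positivity
        nlinarith
      · have h4 : 1 ≤ (2:ℝ)^n * (n:ℝ)^(d-1) := by nlinarith
        have h5 : 0 ≤ C₂ * ((2:ℝ)^n * (n:ℝ)^(d-1)) := by positivity
        nlinarith
    obtain ⟨l, hl⟩ : ∃ l : ℝ, l = τ / (√n * C₀ * √cd) := ⟨_, rfl⟩
    have hl0 : 0 < l := by rw [hl]; positivity
    have hnet : ∀ c ∈ F₁, ∃ F : Finset ((crs0 d n) × Fin 2 → ℝ), (∀ x ∈ F, x ∈ gball (crs0 d n)) ∧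
       (F.card : ℝ) ≤ 2 * Real.exp (2 * C₀^2 * cd / τ) ∧
       ∀ x ∈ gball (crs0 d n), ∑ i, (x i - c i)^2 ≤ (√(τ/n))^2 → ∃ y ∈ F,
        eLpNorm (gp (crs0 d n) (x - y)) (ENNReal.ofReal p) (TP d) ≤ ENNReal.ofReal (τ / √n) := by
      intro c _
      obtain ⟨F, hFa, hFb, hFc⟩ := gauss_net 1 one_pos
        {u : (crs0 d n) × Fin 2 → ℝ | eLpNorm (gp (crs0 d n) u) (ENNReal.ofReal p) (TP d)
          ≤ ENNReal.ofReal (C₀ * Real.sqrt ((crs0 d n).card))}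
        (lp_meas d (crs0 d n) p hp _)
        (by
          intro u hu
          have h3 : (-u) = (-1 : ℝ) • u := by simp
          change eLpNorm (gp (crs0 d n) (-u)) (ENNReal.ofReal p) (TP d) ≤ _
          rw [h3, lp_scale (crs0 d n)]
          simpa using hu)
        (lp_convex d (crs0 d n) p hp _) (h0 (crs0 d n))
        {x | x ∈ gball (crs0 d n) ∧ ∑ i, (x i - c i)^2 ≤ (√(τ/n))^2} c (√(τ/n)) l (by positivity) hl0
        (fun x hx => hx.2)
      refine ⟨F, fun x hx => (hFa x hx).1, hFb.trans (le_of_eq ?_), fun x hx hxc => ?_⟩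
      · congr 2
        rw [Real.sq_sqrt (by positivity), hl, div_pow, mul_pow, mul_pow, Real.sq_sqrt hn0.le,
          Real.sq_sqrt hcd0.le]
        field_simp
      · obtain ⟨y, hy, hxy⟩ := hFc x ⟨hx, hxc⟩
        refine ⟨y, hy, ?_⟩
        have h4 : x - y = l • ((1 / l) • (x - y)) := by
          rw [smul_smul, mul_one_div_cancel hl0.ne', one_smul]
        rw [h4, lp_scale (crs0 d n), abs_of_pos hl0]
        have hxy' : eLpNorm (gp (crs0 d n) ((1 / l) • (x - y))) (ENNReal.ofReal p) (TP d)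
          ≤ ENNReal.ofReal (C₀ * Real.sqrt ((crs0 d n).card)) := hxy
        refine (mul_le_mul_right hxy' _).trans ?_
        rw [← ENNReal.ofReal_mul hl0.le]
        apply ENNReal.ofReal_le_ofReal
        have h5 : √((crs0 d n).card : ℝ) ≤ √cd := Real.sqrt_le_sqrt hcd1
        calc l * (C₀ * √((crs0 d n).card : ℝ)) ≤ l * (C₀ * √cd) := by gcongr
          _ = τ / √n := by
            rw [hl]
            field_simp
    choose! G hG1 hG2 hG3 using hnet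
    refine ⟨F₁.biUnion G, ?_, ?_, ?_⟩
    · intro x hx
      rw [Finset.mem_biUnion] at hx
      obtain ⟨c, hc, hxc⟩ := hx
      exact hG1 c hc x hxc
    · have h3 : ((F₁.biUnion G).card : ℝ) ≤ ∑ c ∈ F₁, ((G c).card : ℝ) := by
        exact_mod_cast Finset.card_biUnion_le
      have h4 : ∑ c ∈ F₁, ((G c).card : ℝ) ≤ F₁.card * (2 * Real.exp (2 * C₀^2 * cd / τ)) := by
        rw [← nsmul_eq_mul]
        exact Finset.sum_le_card_nsmul _ _ _ hG2
      have h5 : (2:ℝ) ≤ Real.exp 1 := by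
        have := Real.add_one_le_exp (1:ℝ)
        linarith
      have h6 : Real.exp (2 * C₀^2 * cd / τ) ≤
          Real.exp (2 * C₀^2 * ((C₂+1) * 2^n * (n:ℝ)^(d-1)) / τ) := by
        apply Real.exp_le_exp.mpr
        gcongr
      calc ((F₁.biUnion G).card : ℝ) ≤ F₁.card * (2 * Real.exp (2 * C₀^2 * cd / τ)) := h3.trans h4
        _ ≤ Real.exp (C₁ * 2^n * (n:ℝ)^(d-1) / τ) * (Real.exp 1 *
            Real.exp (2 * C₀^2 * ((C₂+1) * 2^n * (n:ℝ)^(d-1)) / τ)) := by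
            apply mul_le_mul hF2 (mul_le_mul h5 h6 (Real.exp_pos _).le (Real.exp_pos _).le)
              (by positivity) (Real.exp_pos _).le
        _ = Real.exp (C₁ * 2^n * (n:ℝ)^(d-1) / τ + (1 +
            2 * C₀^2 * ((C₂+1) * 2^n * (n:ℝ)^(d-1)) / τ)) := by
            rw [Real.exp_add, Real.exp_add]
        _ ≤ _ := by
            apply Real.exp_le_exp.mpr
            have h7 : 0 ≤ 1 * 2^n * (n:ℝ)^(d-1) / τ := by positivity
            have h8 : (C₁ + 2 * C₀^2 * (C₂+1) + 1) * 2^n * (n:ℝ)^(d-1) / τ =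
              C₁ * 2^n * (n:ℝ)^(d-1) / τ + 2 * C₀^2 * ((C₂+1) * 2^n * (n:ℝ)^(d-1)) / τ +
                1 * 2^n * (n:ℝ)^(d-1) / τ := by ring
            linarith
    · intro x hx
      obtain ⟨c, hc, hxc⟩ := hF3 x hx
      obtain ⟨y, hy, hxy⟩ := hG3 c hc x hx hxc
      refine ⟨y, Finset.mem_biUnion.mpr ⟨c, hc, hy⟩, hxy.trans ?_⟩
      apply ENNReal.ofReal_le_ofReal
      have h5 : alp p = 1 := by unfold alp; rw [if_neg hp2]
      rw [h5, Real.rpow_one]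
      have h6 : 0 ≤ 2 * C₀^2 * (C₂+1) := by positivity
      have h7 : τ ≤ (C₁ + 2 * C₀^2 * (C₂+1) + 1) * τ := by nlinarith
      exact div_le_div_of_nonneg_right h7 (Real.sqrt_nonneg _)

end Sol_crs_ent_p

alias crs_ent_p := Sol_crs_ent_p.crs_ent_p

end MWidth
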