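import Pool.Agent.HypVol.Defs
import Pool.Agent.MWidth.Defs
import Pool.Agent.MWidth.Defs2
import Pool.Agent.HypVol.L_TP_prob
import Pool.Agent.MWidth.L_crs_ent_al
import Pool.Agent.MWidth.L_crs_fine
import Pool.Agent.MWidth.L_TQ_dec
import Pool.Agent.MWidth.L_gp_norm
open MeasureTheory Real ProbabilityTheory
open scoped ENNReal BigOperators

namespace MWidth
open HypVol
namespace Sol_crs_cov














theorem crs_cov_net (m : ℕ) (hm : 1 ≤ m) : ∃ Z : Finset ℂ, (Z.card : ℝ) ≤ 9 * (m:ℝ)^2 ∧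
    ∀ z : ℂ, ‖z‖ ≤ 1 → ∃ w ∈ Z, ‖z - w‖ ≤ 2 / m := by
  classical
  have hm0 : (0:ℝ) < m := by exact_mod_cast hm
  refine ⟨((Finset.Icc (-(m:ℤ)) m) ×ˢ (Finset.Icc (-(m:ℤ)) m)).image
    (fun q : ℤ × ℤ => (⟨(q.1 : ℝ) / m, (q.2 : ℝ) / m⟩ : ℂ)), ?_, ?_⟩
  · have h1 : ((((Finset.Icc (-(m:ℤ)) m) ×ˢ (Finset.Icc (-(m:ℤ)) m)).image
      (fun q : ℤ × ℤ => (⟨(q.1 : ℝ) / m, (q.2 : ℝ) / m⟩ : ℂ))).card : ℝ) ≤
        (2 * (m:ℝ) + 1) * (2 * (m:ℝ) + 1) := by
      have h2 := Finset.card_image_le (s := (Finset.Icc (-(m:ℤ)) m) ×ˢ (Finset.Icc (-(m:ℤ)) m))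
        (f := fun q : ℤ × ℤ => (⟨(q.1 : ℝ) / m, (q.2 : ℝ) / m⟩ : ℂ))
      rw [Finset.card_product, Int.card_Icc] at h2
      have h3 : ((m:ℤ) + 1 - -(m:ℤ)).toNat = 2 * m + 1 := by omega
      rw [h3] at h2
      calc _ ≤ (((2 * m + 1) * (2 * m + 1) : ℕ) : ℝ) := by exact_mod_cast h2
        _ = _ := by push_cast; ring
    have hm1 : (1:ℝ) ≤ m := by exact_mod_cast hm
    refine h1.trans ?_
    nlinarith
  · intro z hz
    have hre := (abs_le.1 ((Complex.abs_re_le_norm z).trans hz))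
    have him := (abs_le.1 ((Complex.abs_im_le_norm z).trans hz))
    have key : ∀ x : ℝ, -1 ≤ x → x ≤ 1 → ⌊(m:ℝ) * x⌋ ∈ Finset.Icc (-(m:ℤ)) m ∧
        |x - (⌊(m:ℝ) * x⌋ : ℝ) / m| ≤ 1 / m := by
      intro x h1 h2
      refine ⟨?_, ?_⟩
      · rw [Finset.mem_Icc]
        constructor
        · apply Int.le_floor.2
          push_cast
          nlinarith
        · have : ⌊(m:ℝ) * x⌋ ≤ ⌊((m:ℤ):ℝ)⌋ := by
            apply Int.floor_le_floor
            push_cast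
            nlinarith
          rwa [Int.floor_intCast] at this
      · have h3 := Int.floor_le ((m:ℝ) * x)
        have h4 := Int.lt_floor_add_one ((m:ℝ) * x)
        have h5 : x - (⌊(m:ℝ) * x⌋ : ℝ) / m = ((m:ℝ) * x - ⌊(m:ℝ) * x⌋) / m := by
          field_simp
        rw [h5, abs_div, abs_of_pos hm0]
        apply div_le_div_of_nonneg_right _ hm0.le
        rw [abs_le]
        constructor <;> linarith
    obtain ⟨k1, k2⟩ := key z.re hre.1 hre.2
    obtain ⟨k3, k4⟩ := key z.im him.1 him.2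
    refine ⟨⟨(⌊(m:ℝ) * z.re⌋ : ℝ) / m, (⌊(m:ℝ) * z.im⌋ : ℝ) / m⟩, ?_, ?_⟩
    · rw [Finset.mem_image]
      exact ⟨(⌊(m:ℝ) * z.re⌋, ⌊(m:ℝ) * z.im⌋), Finset.mem_product.2 ⟨k1, k3⟩, rfl⟩
    · refine (Complex.norm_le_abs_re_add_abs_im _).trans ?_
      simp only [Complex.sub_re, Complex.sub_im]
      calc _ ≤ 1 / (m:ℝ) + 1 / m := add_le_add k2 k4
        _ = 2 / m := by ring

theorem crs_cov_cont {d : ℕ} (Λ : Finset (Fin d → ℤ)) (a : Λ × Fin 2 → ℝ) :
    Continuous (gp Λ a) := by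
  unfold gp
  fun_prop

theorem crs_cov_sub {d : ℕ} (Λ : Finset (Fin d → ℤ)) (a b : Λ × Fin 2 → ℝ) (x : Fin d → ℝ) :
    gp Λ (a - b) x = gp Λ a x - gp Λ b x := by
  unfold gp
  rw [← Finset.sum_sub_distrib]
  apply Finset.sum_congr rfl
  intro k _
  simp only [Pi.sub_apply]
  push_cast
  ring

theorem crs_cov_one (d n : ℕ) (hd : 1 ≤ d) (p : ℝ) (hp : 1 ≤ p)
    (F : Finset ((crs0 d n) × Fin 2 → ℝ)) (B : ℝ) (hB : 0 ≤ B)
    (hF : ∀ x ∈ gball (crs0 d n), ∃ y ∈ F,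
      eLpNorm (gp (crs0 d n) (x - y)) (ENNReal.ofReal p) (TP d) ≤ ENNReal.ofReal B)
    (m : ℕ) (hm : 1 ≤ m) : ∃ G : Finset ((Fin d → ℝ) → ℂ),
    (∀ g ∈ G, MemLp g (ENNReal.ofReal p) (TP d)) ∧ (G.card : ℝ) ≤ 9 * (m:ℝ)^2 * F.card ∧
      ∀ l : ℝ, 0 < l → ∀ t ∈ TQ d n, eLpNorm t ⊤ (TP d) ≤ ENNReal.ofReal l → ∃ g ∈ G,
        eLpNorm (fun x => t x - (l : ℂ) * g x) (ENNReal.ofReal p) (TP d)
          ≤ ENNReal.ofReal (l * (2 / m + 2 * B)) := by
  classical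
  haveI := TP_prob d
  obtain ⟨Z, hZ, hZ'⟩ := crs_cov_net m hm
  have hgp : ∀ a, MemLp (gp (crs0 d n) a) (ENNReal.ofReal p) (TP d) := fun a =>
    ⟨(crs_cov_cont _ a).aestronglyMeasurable, lt_top_iff_ne_top.2 ((gp_norm (crs0 d n) p hp).1 a)⟩
  refine ⟨(Z ×ˢ F).image (fun q => fun x => q.1 + 2 * gp (crs0 d n) q.2 x), ?_, ?_, ?_⟩
  · intro g hg
    rw [Finset.mem_image] at hg
    obtain ⟨q, _, rfl⟩ := hg
    exact (memLp_const q.1).add ((hgp q.2).const_mul 2)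
  · have h2 := Finset.card_image_le (s := Z ×ˢ F)
      (f := fun q => fun x => q.1 + 2 * gp (crs0 d n) q.2 x)
    rw [Finset.card_product] at h2
    calc _ ≤ ((Z.card * F.card : ℕ) : ℝ) := by exact_mod_cast h2
      _ = (Z.card : ℝ) * F.card := by push_cast; ring
      _ ≤ _ := mul_le_mul_of_nonneg_right hZ (Nat.cast_nonneg _)
  · intro l hl t ht htl
    obtain ⟨_, z, a, hz, ha, hta⟩ := TQ_dec d n hd t ht l hl htl
    obtain ⟨w, hw, hzw⟩ := hZ' z hz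
    obtain ⟨y, hy, hay⟩ := hF a ha
    refine ⟨fun x => w + 2 * gp (crs0 d n) y x, ?_, ?_⟩
    · rw [Finset.mem_image]
      exact ⟨(w, y), Finset.mem_product.2 ⟨hw, hy⟩, rfl⟩
    · have h1 : (fun x => t x - (l : ℂ) * (w + 2 * gp (crs0 d n) y x)) =
          (fun _ => (l : ℂ) * (z - w)) + (((2 * l : ℝ) : ℂ) • gp (crs0 d n) (a - y)) := by
        funext x
        rw [hta]
        simp only [Pi.add_apply, Pi.smul_apply, smul_eq_mul, crs_cov_sub]
        push_cast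
        ring
      have hm0 : (0:ℝ) < m := by exact_mod_cast hm
      have hp1 : (1 : ℝ≥0∞) ≤ ENNReal.ofReal p := by
        rw [← ENNReal.ofReal_one]
        exact ENNReal.ofReal_le_ofReal hp
      rw [h1]
      refine (eLpNorm_add_le aestronglyMeasurable_const
        ((hgp (a - y)).const_smul ((2 * l : ℝ) : ℂ)).1 hp1).trans ?_
      rw [eLpNorm_const_smul]
      have e1 : eLpNorm (fun _ : Fin d → ℝ => (l : ℂ) * (z - w)) (ENNReal.ofReal p) (TP d) ≤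
          ENNReal.ofReal (l * (2 / m)) := by
        refine (eLpNorm_le_of_ae_bound (C := l * (2 / m)) (Filter.Eventually.of_forall
          (fun x => ?_))).trans ?_
        · rw [norm_mul, Complex.norm_real, Real.norm_eq_abs, abs_of_pos hl]
          exact mul_le_mul_of_nonneg_left hzw hl.le
        · rw [measure_univ, ENNReal.one_rpow, one_mul]
      have e2 : ‖((2 * l : ℝ) : ℂ)‖ₑ = ENNReal.ofReal (2 * l) := by
        rw [← ofReal_norm_eq_enorm, Complex.norm_real, Real.norm_eq_abs, abs_of_pos (by positivity)]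
      calc _ ≤ ENNReal.ofReal (l * (2 / m)) + ENNReal.ofReal (2 * l) * ENNReal.ofReal B := by
            rw [e2]
            exact add_le_add e1 (mul_le_mul_right hay _)
        _ = ENNReal.ofReal (l * (2 / m) + 2 * l * B) := by
            rw [← ENNReal.ofReal_mul (by positivity), ENNReal.ofReal_add (by positivity) (by positivity)]
        _ = _ := by congr 1; ring

theorem crs_cov_exp (n : ℕ) : (n:ℝ) ≤ Real.exp n := by
  have := Real.add_one_le_exp (n:ℝ)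
  linarith

theorem crs_cov_e (a b : ℝ) : Real.exp 3 * (Real.exp a)^2 * Real.exp b = Real.exp (3 + 2*a + b) := by
  rw [Real.exp_add (3+2*a) b, Real.exp_add 3 (2*a), two_mul, Real.exp_add a a, pow_two]

theorem crs_cov_e' (a b c : ℝ) : Real.exp 3 * (Real.exp a * (2 * Real.exp b))^2 * Real.exp c =
    4 * Real.exp (3 + 2*a + 2 * b + c) := by
  have h := crs_cov_e (a + b) c
  rw [show 3 + 2*a + 2 * b + c = 3 + 2*(a+b) + c from by ring, ← h, Real.exp_add a b]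
  ring

theorem crs_cov_nine : (9:ℝ) ≤ Real.exp 3 := by
  have h1 := Real.exp_one_gt_d9
  have h2 : Real.exp 3 = Real.exp 1 ^ 3 := by
    rw [← Real.exp_nat_mul]; norm_num
  rw [h2]
  nlinarith [mul_pos (Real.exp_pos 1) (Real.exp_pos 1)]


theorem crs_cov (d : ℕ) (hd : 3 ≤ d) (p al κ : ℝ) (hp : 1 ≤ p) (hal : 1 / 2 ≤ al) (hal2 : 2 < p → 1 - 1 / p < al)
    (hκ : 0 < κ) : ∃ C : ℝ, 0 < C ∧ ∀ n : ℕ, 1 ≤ n →
    (∀ τ : ℝ, 1 ≤ τ → ∃ G : Finset ((Fin d → ℝ) → ℂ), (∀ g ∈ G, MemLp g (ENNReal.ofReal p) (TP d)) ∧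
      (G.card : ℝ) ≤ Real.exp (C * 2^n * (n:ℝ)^(d-1) / τ + C * n) ∧
      ∀ l : ℝ, 0 < l → ∀ t ∈ TQ d n, eLpNorm t ⊤ (TP d) ≤ ENNReal.ofReal l → ∃ g ∈ G,
        eLpNorm (fun x => t x - (l : ℂ) * g x) (ENNReal.ofReal p) (TP d)
          ≤ ENNReal.ofReal (l * (C * τ ^ al / Real.sqrt n))) ∧
    (∀ j : ℕ, ∃ G : Finset ((Fin d → ℝ) → ℂ), (∀ g ∈ G, MemLp g (ENNReal.ofReal p) (TP d)) ∧
      (G.card : ℝ) ≤ Real.exp (C * 2^n * (n:ℝ)^(d-1) * (j + 1)) ∧
      ∀ l : ℝ, 0 < l → ∀ t ∈ TQ d n, eLpNorm t ⊤ (TP d) ≤ ENNReal.ofReal l → ∃ g ∈ G,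
        eLpNorm (fun x => t x - (l : ℂ) * g x) (ENNReal.ofReal p) (TP d)
          ≤ ENNReal.ofReal (l * (C * (2:ℝ)^(-(κ * j)) / Real.sqrt n))) := by
  obtain ⟨C1, hC1, H1⟩ := crs_ent_al d hd p al hp hal hal2
  obtain ⟨C2, hC2, H2⟩ := crs_fine d hd p hp κ hκ
  refine ⟨2 * C1 + 2 * C2 + 2 * κ + 10, by positivity, fun n hn => ⟨?_, ?_⟩⟩
  · intro τ hτ
    obtain ⟨F, _, hFc, hF⟩ := H1 n hn τ hτ
    have hn1 : (1:ℝ) ≤ n := by exact_mod_cast hn
    have hn0 : (0:ℝ) < n := by linarith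
    have hτal : 1 ≤ τ ^ al := Real.one_le_rpow hτ (by linarith)
    have hsq0 : 0 < Real.sqrt n := Real.sqrt_pos.2 hn0
    obtain ⟨G, hG1, hG2, hG3⟩ := crs_cov_one d n (by omega) p hp F (C1 * τ ^ al / Real.sqrt n)
      (by positivity) hF n hn
    refine ⟨G, hG1, ?_, ?_⟩
    · have hX : 0 ≤ 2^n * (n:ℝ)^(d-1) / τ := by positivity
      calc (G.card : ℝ) ≤ 9 * (n:ℝ)^2 * F.card := hG2
        _ ≤ (Real.exp 3 * (Real.exp n) ^ 2) * Real.exp (C1 * 2^n * (n:ℝ)^(d-1) / τ + 2) := by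
            have := crs_cov_exp n
            have := crs_cov_nine
            gcongr
        _ = Real.exp (3 + 2 * n + (C1 * 2^n * (n:ℝ)^(d-1) / τ + 2)) := crs_cov_e _ _
        _ ≤ _ := by
            apply Real.exp_le_exp.2
            have e1 : C1 * 2^n * (n:ℝ)^(d-1) / τ = C1 * (2^n * (n:ℝ)^(d-1) / τ) := by ring
            have e2 : (2 * C1 + 2 * C2 + 2 * κ + 10) * 2^n * (n:ℝ)^(d-1) / τ =
              (2 * C1 + 2 * C2 + 2 * κ + 10) * (2^n * (n:ℝ)^(d-1) / τ) := by ring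
            rw [e1, e2]
            generalize 2^n * (n:ℝ)^(d-1) / τ = X at hX
            have e3 : 0 ≤ (C1 + 2 * C2 + 2 * κ + 10) * X := by positivity
            have e4 : 0 ≤ (2 * C1 + 2 * C2 + 2 * κ) * (n:ℝ) := by positivity
            nlinarith
    · intro l hl t ht htl
      obtain ⟨g, hg, hg'⟩ := hG3 l hl t ht htl
      refine ⟨g, hg, hg'.trans (ENNReal.ofReal_le_ofReal ?_)⟩
      apply mul_le_mul_of_nonneg_left _ hl.le
      have h1 : 2 / (n:ℝ) ≤ 2 * τ ^ al / Real.sqrt n := by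
        have h2 : Real.sqrt n ≤ n := by
          rw [Real.sqrt_le_left hn0.le]
          nlinarith
        calc 2 / (n:ℝ) ≤ 2 / Real.sqrt n := div_le_div_of_nonneg_left (by norm_num) hsq0 h2
          _ ≤ _ := by
            apply div_le_div_of_nonneg_right _ hsq0.le
            linarith
      have h3 : 0 ≤ (2 * C2 + 2 * κ + 8) * τ ^ al / Real.sqrt n := by positivity
      calc 2 / (n:ℝ) + 2 * (C1 * τ ^ al / Real.sqrt n) ≤
          2 * τ ^ al / Real.sqrt n + 2 * (C1 * τ ^ al / Real.sqrt n) +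
            (2 * C2 + 2 * κ + 8) * τ ^ al / Real.sqrt n := by linarith
        _ = _ := by ring
  · intro j
    obtain ⟨F, _, hFc, hF⟩ := H2 n j hn
    have hn1 : (1:ℝ) ≤ n := by exact_mod_cast hn
    have hn0 : (0:ℝ) < n := by linarith
    have hsq0 : 0 < Real.sqrt n := Real.sqrt_pos.2 hn0
    have hT : 1 ≤ (2:ℝ)^(κ * j) := Real.one_le_rpow (by norm_num) (by positivity)
    have hT0 : 0 < (2:ℝ)^(κ * j) := by linarith
    set q : ℕ := ⌈(2:ℝ)^(κ * j)⌉₊ with hq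
    have hq1 : (2:ℝ)^(κ * j) ≤ q := Nat.le_ceil _
    have hq2 : (q:ℝ) ≤ 2 * (2:ℝ)^(κ * j) := by
      have := Nat.ceil_lt_add_one hT0.le
      linarith
    have hq3 : 1 ≤ q := by
      have : (1:ℝ) ≤ q := hT.trans hq1
      exact_mod_cast this
    obtain ⟨G, hG1, hG2, hG3⟩ := crs_cov_one d n (by omega) p hp F
      (C2 * (2:ℝ)^(-(κ * j)) / Real.sqrt n) (by positivity) hF (n * q) (Nat.mul_pos hn hq3)
    refine ⟨G, hG1, ?_, ?_⟩
    · have hX : 1 ≤ 2^n * (n:ℝ)^(d-1) := by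
        have h1 : (1:ℝ) ≤ 2^n := one_le_pow₀ (by norm_num)
        have h2 : (1:ℝ) ≤ (n:ℝ)^(d-1) := one_le_pow₀ hn1
        nlinarith
      have hX2 : (n:ℝ) ≤ 2^n * (n:ℝ)^(d-1) := by
        have h1 : (n:ℝ) ≤ 2^n := by exact_mod_cast Nat.lt_two_pow_self.le
        have h2 : (1:ℝ) ≤ (n:ℝ)^(d-1) := one_le_pow₀ hn1
        have h3 : (0:ℝ) < 2^n := by positivity
        nlinarith
      have hTe : (2:ℝ)^(κ * j) ≤ Real.exp (κ * j) := by
        rw [Real.rpow_def_of_pos (by norm_num)]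
        apply Real.exp_le_exp.2
        have h1 : Real.log 2 ≤ 1 := by
          have := Real.log_two_lt_d9
          linarith
        have h2 : 0 ≤ κ * j := by positivity
        nlinarith
      calc (G.card : ℝ) ≤ 9 * ((n * q : ℕ):ℝ)^2 * F.card := hG2
        _ ≤ (Real.exp 3 * (Real.exp n * (2 * Real.exp (κ * j))) ^ 2) *
            Real.exp (C2 * 2^n * (n:ℝ)^(d-1) * (j + 1)) := by
            have := crs_cov_exp n
            have := crs_cov_nine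
            have h5 : (q:ℝ) ≤ 2 * Real.exp (κ * j) := by linarith
            push_cast
            gcongr
        _ = 4 * Real.exp (3 + 2 * n + 2 * (κ * j) + (C2 * 2^n * (n:ℝ)^(d-1) * (j + 1))) :=
            crs_cov_e' _ _ _
        _ ≤ Real.exp 3 * Real.exp (3 + 2 * n + 2 * (κ * j) + (C2 * 2^n * (n:ℝ)^(d-1) * (j + 1))) := by
            apply mul_le_mul_of_nonneg_right _ (Real.exp_pos _).le
            linarith [crs_cov_nine]
        _ = Real.exp (3 + (3 + 2 * n + 2 * (κ * j) + (C2 * 2^n * (n:ℝ)^(d-1) * (j + 1)))) := by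
            rw [← Real.exp_add]
        _ ≤ _ := by
            apply Real.exp_le_exp.2
            have e1 : C2 * 2^n * (n:ℝ)^(d-1) * (j + 1) = C2 * ((2^n * (n:ℝ)^(d-1)) * (j + 1)) := by ring
            have e2 : (2 * C1 + 2 * C2 + 2 * κ + 10) * 2^n * (n:ℝ)^(d-1) * (j + 1) =
              (2 * C1 + 2 * C2 + 2 * κ + 10) * ((2^n * (n:ℝ)^(d-1)) * (j + 1)) := by ring
            rw [e1, e2]
            generalize 2^n * (n:ℝ)^(d-1) = X at hX hX2
            have hj : (0:ℝ) ≤ j := Nat.cast_nonneg j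
            have f1 : X ≤ X * (j + 1) := by nlinarith
            have f2 : (j:ℝ) ≤ X * (j + 1) := by nlinarith
            have f3 : 0 ≤ (2 * C1 + C2) * (X * (j + 1)) := by positivity
            have f4 : κ * j ≤ κ * (X * (j + 1)) := mul_le_mul_of_nonneg_left f2 hκ.le
            nlinarith
    · intro l hl t ht htl
      obtain ⟨g, hg, hg'⟩ := hG3 l hl t ht htl
      refine ⟨g, hg, hg'.trans (ENNReal.ofReal_le_ofReal ?_)⟩
      apply mul_le_mul_of_nonneg_left _ hl.le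
      have hneg : (2:ℝ)^(-(κ * j)) = ((2:ℝ)^(κ * j))⁻¹ := Real.rpow_neg (by norm_num) _
      have h1 : 2 / ((n * q : ℕ):ℝ) ≤ 2 * (2:ℝ)^(-(κ * j)) / Real.sqrt n := by
        have h2 : Real.sqrt n ≤ n := by
          rw [Real.sqrt_le_left hn0.le]
          nlinarith
        have h3 : Real.sqrt n * (2:ℝ)^(κ * j) ≤ ((n * q : ℕ):ℝ) := by
          push_cast
          exact mul_le_mul h2 hq1 hT0.le hn0.le
        calc 2 / ((n * q : ℕ):ℝ) ≤ 2 / (Real.sqrt n * (2:ℝ)^(κ * j)) :=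
              div_le_div_of_nonneg_left (by norm_num) (by positivity) h3
          _ = _ := by
            rw [hneg]
            field_simp
      have h3 : 0 ≤ (2 * C1 + 2 * κ + 8) * (2:ℝ)^(-(κ * j)) / Real.sqrt n := by positivity
      calc 2 / ((n * q : ℕ):ℝ) + 2 * (C2 * (2:ℝ)^(-(κ * j)) / Real.sqrt n) ≤
          2 * (2:ℝ)^(-(κ * j)) / Real.sqrt n + 2 * (C2 * (2:ℝ)^(-(κ * j)) / Real.sqrt n) +
            (2 * C1 + 2 * κ + 8) * (2:ℝ)^(-(κ * j)) / Real.sqrt n := by linarith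
        _ = _ := by ring

end Sol_crs_cov

alias crs_cov := Sol_crs_cov.crs_cov

end MWidth
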