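import Pool.Agent.HypVol.Defs
import Pool.Agent.MWidth.Defs
import Pool.Agent.MWidth.Defs2
import Pool.Agent.HypVol.L_TP_prob
import Pool.Agent.MWidth.L_crs_cov
import Pool.Agent.MWidth.L_num_sums
import Pool.Agent.MWidth.L_TQ_dec
open MeasureTheory Real ProbabilityTheory
open scoped ENNReal BigOperators

namespace MWidth
open HypVol
namespace Sol_cover_bar











theorem wt_lam_nonneg705 (d : ℕ) (a b : ℝ) (n : ℕ) : 0 ≤ lam d a b n := by
  unfold lam; positivity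

theorem wt_lam_summable705 (d : ℕ) (a b : ℝ) (ha : 0 < a) : Summable (lam d a b) := by
  obtain ⟨K, hK⟩ := exists_nat_ge (((d:ℝ) - 1) * b)
  obtain ⟨r, hr⟩ : ∃ r : ℝ, r = (2:ℝ)^(-a) := ⟨_, rfl⟩
  have hr0 : 0 < r := by rw [hr]; positivity
  have hr1 : r < 1 := by
    rw [hr]; exact Real.rpow_lt_one_of_one_lt_of_neg (by norm_num) (by linarith)
  have h1 : Summable (fun n : ℕ => (n:ℝ)^K * r^n) :=
    summable_pow_mul_geometric_of_norm_lt_one K (by rw [Real.norm_of_nonneg hr0.le]; exact hr1)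
  have h2 : Summable (fun n : ℕ => r^n) := summable_geometric_of_lt_one hr0.le hr1
  refine Summable.of_nonneg_of_le (fun n => wt_lam_nonneg705 d a b n) (fun n => ?_) (h1.add h2)
  unfold lam
  have e1 : (2:ℝ)^(-(a * n)) = r^n := by
    rw [hr, ← Real.rpow_natCast, ← Real.rpow_mul (by norm_num)]
    congr 1; ring
  have e2 : (max (n:ℝ) 1)^(((d:ℝ)-1)*b) ≤ (n:ℝ)^K + 1 := by
    calc (max (n:ℝ) 1)^(((d:ℝ)-1)*b) ≤ (max (n:ℝ) 1)^(K:ℝ) :=
          Real.rpow_le_rpow_of_exponent_le (le_max_right _ _) hK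
      _ = (max (n:ℝ) 1)^K := Real.rpow_natCast _ _
      _ ≤ (n:ℝ)^K + 1 := by
        rcases le_total (n:ℝ) 1 with h | h
        · rw [max_eq_right h, one_pow]
          have : 0 ≤ (n:ℝ)^K := by positivity
          linarith
        · rw [max_eq_left h]; linarith
  rw [e1]
  have hrn : 0 ≤ r ^ n := by positivity
  nlinarith [mul_le_mul_of_nonneg_left e2 hrn]

theorem mw_lam_pos705 (d : ℕ) (a b : ℝ) (n : ℕ) : 0 < lam d a b n := by
  unfold lam
  have : (0:ℝ) < max (n:ℝ) 1 := lt_of_lt_of_le one_pos (le_max_right _ _)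
  positivity

theorem TQ_cont705 (d n : ℕ) (t : (Fin d → ℝ) → ℂ) (ht : t ∈ TQ d n) : Continuous t := by
  obtain ⟨c, rfl⟩ := ht
  fun_prop


theorem cover_bar (d : ℕ) (hd : 3 ≤ d) (p : ℝ) (hp : 1 ≤ p) (a b : ℝ) (ha : 1 / 2 < a) (ha2 : 1 - 1 / p < a) : ∃ C : ℝ, 0 < C ∧
    ∀ m : ℕ, 1 ≤ m → ∃ G : Finset ((Fin d → ℝ) → ℂ),
      (∀ g ∈ G, MemLp g (ENNReal.ofReal p) (TP d)) ∧
      (G.card : ℝ) ≤ Real.exp (C * 2^m * (m:ℝ)^(d-1)) ∧
      ∀ f ∈ Wbar d a b, ∃ g ∈ G, eLpNorm (fun x => f x - g x) (ENNReal.ofReal p) (TP d)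
        ≤ ENNReal.ofReal (C * (2:ℝ)^(-(a * m)) * (m:ℝ)^(((d:ℝ)-1) * b - 1/2)) := by
  classical
  have hP := TP_prob d
  have hp1 : (1 : ℝ≥0∞) ≤ ENNReal.ofReal p := by
    rw [← ENNReal.ofReal_one]; exact ENNReal.ofReal_le_ofReal hp
  obtain ⟨al, hal1, haa⟩ : ∃ al : ℝ, max (1/2) (1 - 1/p) < al ∧ al < a := exists_between (max_lt ha ha2)
  have hal12 : 1 / 2 ≤ al := (le_max_left _ _).trans hal1.le
  have halp : 2 < p → 1 - 1 / p < al := fun _ => lt_of_le_of_lt (le_max_right _ _) hal1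
  have hal : 0 < al := by linarith
  have ha0 : 0 < a := hal.trans haa
  obtain ⟨μ, C0, hμ, hC0, hnum⟩ := num_sums (d - 1) a (((d:ℝ)-1) * b) al haa hal
  obtain ⟨C1, hC1, hcrs⟩ := crs_cov d hd p al (a + 1) hp hal12 halp (by linarith)
  refine ⟨C0 * (1 + 2 * C1) + 2 * C1, by positivity, ?_⟩
  intro m hm
  have hm0 : (0:ℝ) < m := by exact_mod_cast hm
  have hm1 : (1:ℝ) ≤ m := by exact_mod_cast hm
  obtain ⟨i1, i2, i3, i4, i5⟩ := hnum m hm
  set τ : ℕ → ℝ := fun n => (2:ℝ)^((1 + μ) * ((n:ℝ) - m)) * ((n:ℝ) / m)^(d-1) with hτ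
  set cN : ℕ → ℝ := fun n => if n ≤ m then C1 * 2^n * (max (n:ℝ) 1)^(d-1) * (((m - n : ℕ) : ℝ) + 1)
    else C1 * 2^n * (n:ℝ)^(d-1) / τ n + C1 * n with hcN
  set eps : ℕ → ℝ := fun n => if n ≤ m then C1 * (2:ℝ)^(-((a+1) * ((m - n : ℕ) : ℝ))) / Real.sqrt (max (n:ℝ) 1)
    else C1 * (τ n) ^ al / Real.sqrt n with heps
  have hτ1 : ∀ n, m < n → 1 ≤ τ n := by
    intro n hn
    have h1 : (1:ℝ) ≤ (2:ℝ)^((1 + μ) * ((n:ℝ) - m)) := by
      apply Real.one_le_rpow (by norm_num)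
      have : (0:ℝ) ≤ (n:ℝ) - m := by
        have : (m:ℝ) ≤ n := by exact_mod_cast hn.le
        linarith
      positivity
    have h2 : (1:ℝ) ≤ ((n:ℝ) / m)^(d-1) := by
      apply one_le_pow₀
      rw [le_div_iff₀ hm0, one_mul]
      exact_mod_cast hn.le
    calc (1:ℝ) = 1 * 1 := by ring
      _ ≤ _ := mul_le_mul h1 h2 (by norm_num) (by positivity)
  have hcN0 : ∀ n, 0 ≤ cN n := by
    intro n
    simp only [hcN]
    by_cases hn : n ≤ m
    · rw [if_pos hn]; positivity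
    · rw [if_neg hn]
      have := hτ1 n (not_le.1 hn)
      have : 0 ≤ τ n := by linarith
      positivity
  have hex : ∀ n : ℕ, ∃ G : Finset ((Fin d → ℝ) → ℂ),
      (∀ g ∈ G, MemLp g (ENNReal.ofReal p) (TP d)) ∧ (G.card : ℝ) ≤ Real.exp (cN n) ∧
      (1 ≤ n → ∀ l : ℝ, 0 < l → ∀ t ∈ TQ d n, eLpNorm t ⊤ (TP d) ≤ ENNReal.ofReal l → ∃ g ∈ G,
        eLpNorm (fun x => t x - (l : ℂ) * g x) (ENNReal.ofReal p) (TP d)
          ≤ ENNReal.ofReal (l * eps n)) := by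
    intro n
    rcases Nat.eq_zero_or_pos n with h0 | h0
    · refine ⟨∅, fun g hg => absurd hg (Finset.notMem_empty g), ?_, fun h => ?_⟩
      · rw [Finset.card_empty, Nat.cast_zero]
        exact (Real.exp_pos _).le
      · omega
    · have hmax : max (n:ℝ) 1 = n := max_eq_left (by exact_mod_cast h0)
      by_cases hn : n ≤ m
      · obtain ⟨F, h1, h2, h3⟩ := (hcrs n h0).2 (m - n)
        refine ⟨F, h1, ?_, fun _ => ?_⟩
        · simp only [hcN, if_pos hn, hmax]; exact h2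
        · simp only [heps, if_pos hn, hmax]; exact h3
      · have hn' : m < n := not_le.1 hn
        obtain ⟨F, h1, h2, h3⟩ := (hcrs n h0).1 (τ n) (hτ1 n hn')
        refine ⟨F, h1, ?_, fun _ => ?_⟩
        · simp only [hcN, if_neg hn]; exact h2
        · simp only [heps, if_neg hn]; exact h3
  choose F hFm hFc hFe using hex
  have heps0 : ∀ n, 0 ≤ eps n := by
    intro n
    simp only [heps]
    by_cases hn : n ≤ m
    · rw [if_pos hn]; positivity
    · rw [if_neg hn]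
      have := hτ1 n (not_le.1 hn)
      have : 0 ≤ τ n := by linarith
      positivity
  have hsplit : ∀ h : ℕ → ℝ, ∑ n ∈ Finset.range (2 * m + 1), h n
      = ∑ n ∈ Finset.range (m + 1), h n + ∑ n ∈ Finset.Ioc m (2 * m), h n := by
    intro h
    rw [← Finset.sum_union]
    · congr 1
      ext n
      simp only [Finset.mem_range, Finset.mem_union, Finset.mem_Ioc]
      omega
    · rw [Finset.disjoint_left]
      intro n h1 h2
      simp only [Finset.mem_range, Finset.mem_Ioc] at h1 h2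
      omega
  have hshift : ∀ h : ℕ → ℝ, 0 ≤ h 0 → ∑ i : Fin (2 * m), h ((i : ℕ) + 1)
      ≤ ∑ n ∈ Finset.range (2 * m + 1), h n := by
    intro h h0
    rw [Finset.sum_range_succ', Fin.sum_univ_eq_sum_range (fun i => h (i + 1)) (2 * m)]
    linarith
  refine ⟨(Fintype.piFinset (fun i : Fin (2 * m) => F ((i : ℕ) + 1))).image
    (fun y => fun x => ∑ i : Fin (2 * m), (lam d a b ((i : ℕ) + 1) : ℂ) * y i x), ?_, ?_, ?_⟩
  · intro g hg
    obtain ⟨y, hy, rfl⟩ := Finset.mem_image.1 hg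
    rw [Fintype.mem_piFinset] at hy
    refine memLp_finsetSum _ fun i _ => ?_
    exact (hFm _ _ (hy i)).const_mul _
  · refine (Nat.cast_le.2 Finset.card_image_le).trans ?_
    rw [Fintype.card_piFinset, Nat.cast_prod]
    refine le_trans (b := ∏ i : Fin (2 * m), Real.exp (cN ((i : ℕ) + 1))) ?_ ?_
    · exact Finset.prod_le_prod (fun i _ => Nat.cast_nonneg _) (fun i _ => hFc ((i : ℕ) + 1))
    rw [← Real.exp_sum]
    apply Real.exp_le_exp.2
    refine (hshift cN (hcN0 0)).trans ?_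
    rw [hsplit]
    have e1 : ∑ n ∈ Finset.range (m + 1), cN n ≤ C1 * (C0 * 2^m * (m:ℝ)^(d-1)) := by
      refine le_trans (le_of_eq ?_) (mul_le_mul_of_nonneg_left i4 hC1.le)
      rw [Finset.mul_sum]
      refine Finset.sum_congr rfl fun n hn => ?_
      have hn' : n ≤ m := by simp only [Finset.mem_range] at hn; omega
      simp only [hcN, if_pos hn']
      ring
    have e2' : ∑ n ∈ Finset.Ioc m (2 * m), C1 * (n:ℝ) ≤ 2 * C1 * (2^m * (m:ℝ)^(d-1)) := by
      have h1 : ∀ n ∈ Finset.Ioc m (2 * m), C1 * (n:ℝ) ≤ C1 * (2 * m) := by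
        intro n hn
        have : (n:ℝ) ≤ 2 * m := by exact_mod_cast (Finset.mem_Ioc.1 hn).2
        exact mul_le_mul_of_nonneg_left this hC1.le
      have h2 := Finset.sum_le_sum h1
      rw [Finset.sum_const, Nat.card_Ioc, nsmul_eq_mul] at h2
      have h3 : ((2 * m - m : ℕ) : ℝ) = m := by
        have : 2 * m - m = m := by omega
        rw [this]
      rw [h3] at h2
      have h4 : (m:ℝ)^2 ≤ (m:ℝ)^(d-1) := pow_le_pow_right₀ hm1 (by omega)
      have h5 : (1:ℝ) ≤ 2^m := one_le_pow₀ (by norm_num)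
      have h6 : (m:ℝ)^2 ≤ 2^m * (m:ℝ)^(d-1) := by
        calc (m:ℝ)^2 = 1 * (m:ℝ)^2 := by ring
          _ ≤ _ := mul_le_mul h5 h4 (by positivity) (by positivity)
      have h7 := mul_le_mul_of_nonneg_left h6 (by positivity : 0 ≤ 2 * C1)
      calc _ ≤ (m:ℝ) * (C1 * (2 * m)) := h2
        _ = 2 * C1 * (m:ℝ)^2 := by ring
        _ ≤ _ := h7
    have e2 : ∑ n ∈ Finset.Ioc m (2 * m), cN n ≤ C1 * (C0 * 2^m * (m:ℝ)^(d-1)) +
        2 * C1 * (2^m * (m:ℝ)^(d-1)) := by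
      refine le_trans ?_ (add_le_add (mul_le_mul_of_nonneg_left i5 hC1.le) e2')
      rw [Finset.mul_sum, ← Finset.sum_add_distrib]
      refine Finset.sum_le_sum fun n hn => ?_
      have hn' : m < n := (Finset.mem_Ioc.1 hn).1
      simp only [hcN, if_neg (not_le.2 hn')]
      have : C1 * 2^n * (n:ℝ)^(d-1) / τ n = C1 * ((2:ℝ)^n * (n:ℝ)^(d-1) / τ n) := by ring
      rw [this]
      simp only [hτ]
      nlinarith
    have e3 : C1 * (C0 * 2^m * (m:ℝ)^(d-1)) + (C1 * (C0 * 2^m * (m:ℝ)^(d-1)) +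
        2 * C1 * (2^m * (m:ℝ)^(d-1))) = (C0 * (2 * C1) + 2 * C1) * 2^m * (m:ℝ)^(d-1) := by ring
    have e4 : (C0 * (2 * C1) + 2 * C1) * 2^m * (m:ℝ)^(d-1) ≤
        (C0 * (1 + 2 * C1) + 2 * C1) * 2^m * (m:ℝ)^(d-1) := by
      have : 0 ≤ C0 * (2^m * (m:ℝ)^(d-1)) := by positivity
      nlinarith
    linarith
  · intro f hf
    obtain ⟨t, ht, rfl⟩ := hf
    have hyex : ∀ i : Fin (2 * m), ∃ g ∈ F ((i : ℕ) + 1),
        eLpNorm (fun x => t ((i : ℕ) + 1) x - (lam d a b ((i : ℕ) + 1) : ℂ) * g x)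
          (ENNReal.ofReal p) (TP d) ≤
          ENNReal.ofReal (lam d a b ((i : ℕ) + 1) * eps ((i : ℕ) + 1)) := by
      intro i
      have h1 := ht ((i : ℕ) + 1) (by omega)
      exact hFe ((i : ℕ) + 1) (by omega) _ (mw_lam_pos705 d a b _) _ h1.1 h1.2
    choose y hyF hyE using hyex
    refine ⟨_, Finset.mem_image_of_mem _ (Fintype.mem_piFinset.2 hyF), ?_⟩
    have hb : ∀ n, ∀ x, ‖t (n + 1) x‖ ≤ lam d a b (n + 1) := by
      intro n x
      have h1 := ht (n + 1) (by omega)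
      exact (TQ_dec d (n + 1) (by omega) (t (n + 1)) h1.1 _ (mw_lam_pos705 d a b _) h1.2).1 x
    have hcont : ∀ n, Continuous (t (n + 1)) := fun n =>
      TQ_cont705 d (n + 1) _ (ht (n + 1) (by omega)).1
    have hls : Summable (fun n : ℕ => lam d a b (n + (2 * m + 1))) :=
      (summable_nat_add_iff (2 * m + 1)).2 (wt_lam_summable705 d a b ha0)
    have hsum : ∀ x, Summable (fun n => t (n + 1) x) := fun x =>
      Summable.of_norm_bounded ((summable_nat_add_iff 1).2 (wt_lam_summable705 d a b ha0))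
        (fun n => hb n x)
    have hbR : ∀ n x, ‖t (n + 2 * m + 1) x‖ ≤ lam d a b (n + (2 * m + 1)) := fun n x =>
      hb (n + 2 * m) x
    have hRc : Continuous (fun x => ∑' n : ℕ, t (n + 2 * m + 1) x) :=
      continuous_tsum (fun n => hcont (n + 2 * m)) hls hbR
    have hRb : ∀ x, ‖∑' n : ℕ, t (n + 2 * m + 1) x‖ ≤ ∑' n : ℕ, lam d a b (n + (2 * m + 1)) :=
      fun x => tsum_of_norm_bounded hls.hasSum (fun n => hbR n x)
    have hRn : eLpNorm (fun x => ∑' n : ℕ, t (n + 2 * m + 1) x) (ENNReal.ofReal p) (TP d) ≤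
        ENNReal.ofReal (∑' n : ℕ, lam d a b (n + (2 * m + 1))) := by
      refine (eLpNorm_le_of_ae_bound (Filter.Eventually.of_forall hRb)).trans ?_
      rw [measure_univ, ENNReal.one_rpow, one_mul]
    have hmeas2 : ∀ i : Fin (2 * m), AEStronglyMeasurable
        (fun x => t ((i : ℕ) + 1) x - (lam d a b ((i : ℕ) + 1) : ℂ) * y i x) (TP d) := by
      intro i
      exact (hcont i).aestronglyMeasurable.sub ((hFm _ _ (hyF i)).1.const_mul _)
    have hdec : (fun x => (∑' n : ℕ, t (n + 1) x) -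
        ∑ i : Fin (2 * m), (lam d a b ((i : ℕ) + 1) : ℂ) * y i x) =
        (fun x => ∑' n : ℕ, t (n + 2 * m + 1) x) +
          ∑ i : Fin (2 * m), (fun x => t ((i : ℕ) + 1) x - (lam d a b ((i : ℕ) + 1) : ℂ) * y i x) := by
      funext x
      simp only [Pi.add_apply, Finset.sum_apply, Finset.sum_sub_distrib]
      have h1 := (hsum x).sum_add_tsum_nat_add (2 * m)
      rw [Fin.sum_univ_eq_sum_range (fun i => t (i + 1) x) (2 * m), ← h1]
      ring
    show eLpNorm (fun x => (∑' n : ℕ, t (n + 1) x) -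
        ∑ i : Fin (2 * m), (lam d a b ((i : ℕ) + 1) : ℂ) * y i x) _ _ ≤ _
    rw [hdec]
    refine (eLpNorm_add_le hRc.aestronglyMeasurable
      (Finset.aestronglyMeasurable_sum _ fun i _ => hmeas2 i) hp1).trans ?_
    have hS : eLpNorm (∑ i : Fin (2 * m), (fun x => t ((i : ℕ) + 1) x -
        (lam d a b ((i : ℕ) + 1) : ℂ) * y i x)) (ENNReal.ofReal p) (TP d) ≤
        ENNReal.ofReal (∑ n ∈ Finset.range (2 * m + 1), lam d a b n * eps n) := by
      refine (eLpNorm_sum_le (fun i _ => hmeas2 i) hp1).trans ?_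
      refine (Finset.sum_le_sum fun i _ => hyE i).trans ?_
      rw [← ENNReal.ofReal_sum_of_nonneg
        (fun i _ => mul_nonneg (mw_lam_pos705 d a b _).le (heps0 _))]
      apply ENNReal.ofReal_le_ofReal
      exact hshift (fun n => lam d a b n * eps n) (mul_nonneg (mw_lam_pos705 d a b _).le (heps0 _))
    refine (add_le_add hRn hS).trans ?_
    have e0 : ∑' n : ℕ, lam d a b (n + (2 * m + 1)) ≤ C0 * (2:ℝ)^(-(a * m)) * (m:ℝ)^(((d:ℝ)-1) * b - 1/2) := i3
    have e1 : ∑ n ∈ Finset.range (m + 1), lam d a b n * eps n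
        ≤ C1 * (C0 * (2:ℝ)^(-(a * m)) * (m:ℝ)^(((d:ℝ)-1) * b - 1/2)) := by
      refine le_trans (le_of_eq ?_) (mul_le_mul_of_nonneg_left i1 hC1.le)
      rw [Finset.mul_sum]
      refine Finset.sum_congr rfl fun n hn => ?_
      have hn' : n ≤ m := by simp only [Finset.mem_range] at hn; omega
      simp only [heps, lam, if_pos hn']
      ring
    have e2 : ∑ n ∈ Finset.Ioc m (2 * m), lam d a b n * eps n
        ≤ C1 * (C0 * (2:ℝ)^(-(a * m)) * (m:ℝ)^(((d:ℝ)-1) * b - 1/2)) := by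
      refine le_trans (le_of_eq ?_) (mul_le_mul_of_nonneg_left i2 hC1.le)
      rw [Finset.mul_sum]
      refine Finset.sum_congr rfl fun n hn => ?_
      have hn' : m < n := (Finset.mem_Ioc.1 hn).1
      simp only [heps, lam, if_neg (not_le.2 hn'), hτ]
      ring
    have hs0 : 0 ≤ ∑' n : ℕ, lam d a b (n + (2 * m + 1)) :=
      tsum_nonneg fun n => (mw_lam_pos705 d a b _).le
    have hs1 : 0 ≤ ∑ n ∈ Finset.range (2 * m + 1), lam d a b n * eps n :=
      Finset.sum_nonneg fun n _ => mul_nonneg (mw_lam_pos705 d a b n).le (heps0 n)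
    rw [← ENNReal.ofReal_add hs0 hs1]
    apply ENNReal.ofReal_le_ofReal
    rw [hsplit]
    have e3 : C0 * (2:ℝ)^(-(a * m)) * (m:ℝ)^(((d:ℝ)-1) * b - 1/2)
        + (C1 * (C0 * (2:ℝ)^(-(a * m)) * (m:ℝ)^(((d:ℝ)-1) * b - 1/2))
        + C1 * (C0 * (2:ℝ)^(-(a * m)) * (m:ℝ)^(((d:ℝ)-1) * b - 1/2)))
        = C0 * (1 + 2 * C1) * (2:ℝ)^(-(a * m)) * (m:ℝ)^(((d:ℝ)-1) * b - 1/2) := by ring
    have e4 : C0 * (1 + 2 * C1) * (2:ℝ)^(-(a * m)) * (m:ℝ)^(((d:ℝ)-1) * b - 1/2)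
        ≤ (C0 * (1 + 2 * C1) + 2 * C1) * (2:ℝ)^(-(a * m)) * (m:ℝ)^(((d:ℝ)-1) * b - 1/2) := by
      have : 0 ≤ C1 * ((2:ℝ)^(-(a * m)) * (m:ℝ)^(((d:ℝ)-1) * b - 1/2)) := by positivity
      nlinarith
    linarith

end Sol_cover_bar

alias cover_bar := Sol_cover_bar.cover_bar

end MWidth
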