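import Pool.Agent.HypVol.Defs
import Pool.Agent.MWidth.Defs
open MeasureTheory Real ProbabilityTheory
open scoped ENNReal BigOperators

namespace MWidth
open HypVol
namespace Sol_k_num



theorem k_num (D : ℕ) (a β C0 : ℝ) (ha : 0 < a) (hC0 : 0 < C0) : ∃ C : ℝ, 0 < C ∧ ∀ k : ℕ, 2 ≤ k →
    (∃ m : ℕ, 1 ≤ m ∧ Real.exp (C0 * 2^m * (m:ℝ)^D) ≤ (2:ℝ)^k ∧
      C0 * (2:ℝ)^(-(a * m)) * (m:ℝ)^(β - 1/2) ≤ C * (k:ℝ)^(-a) * (Real.log k)^((D:ℝ) * a + β - 1/2)) ∨
    (C0 * 2^1 * (1:ℝ)^D > k * Real.log 2 ∧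
      1 ≤ C * (k:ℝ)^(-a) * (Real.log k)^((D:ℝ) * a + β - 1/2)) := by
  classical
  set L : ℝ := Real.log 2 with hL
  have hL0 : 0 < L := Real.log_pos (by norm_num)
  set γ : ℝ := (D:ℝ) * a + β - 1/2 with hγ
  set K1 : ℝ := C0 * 2^(1+D) / L with hK1d
  have hK1 : 0 < K1 := by positivity
  set c2 : ℝ := (1 + |Real.log (L/C0)| / L) / L with hc2d
  have hc2 : 0 < c2 := by positivity
  set c3 : ℝ := |Real.log K1| + ((D:ℝ)+1) * L with hc3d
  have hc3 : 0 < c3 := by positivity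
  set K : ℕ := ⌈2*C0/L⌉₊ + 1 with hK
  have hterm : ∀ k : ℕ, 0 ≤ (k:ℝ)^a / (Real.log k)^γ := by
    intro k
    have h1 : 0 ≤ Real.log (k:ℝ) := Real.log_natCast_nonneg k
    positivity
  set S : ℝ := ∑ k ∈ Finset.range K, (k:ℝ)^a / (Real.log k)^γ with hS
  have hS0 : 0 ≤ S := Finset.sum_nonneg fun k _ => hterm k
  have hA0 : 0 < C0 * K1^a * (c2^γ + (1/c3)^γ) := by positivity
  refine ⟨C0 * K1^a * (c2^γ + (1/c3)^γ) + S, by linarith, ?_⟩
  intro k hk
  have hk2 : (2:ℝ) ≤ k := by exact_mod_cast hk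
  have hkpos : (0:ℝ) < k := by linarith
  have hlogk : L ≤ Real.log k := Real.log_le_log (by norm_num) hk2
  have hlk0 : 0 < Real.log k := lt_of_lt_of_le hL0 hlogk
  have hka : 0 < (k:ℝ)^a := Real.rpow_pos_of_pos hkpos a
  have hlg : 0 < (Real.log k)^γ := Real.rpow_pos_of_pos hlk0 γ
  by_cases hB : (k:ℝ) * L < 2 * C0
  · right
    constructor
    · simp only [one_pow, pow_one, mul_one]
      linarith
    · have hkK : k ∈ Finset.range K := by
        rw [Finset.mem_range, hK]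
        have h1 : (k:ℝ) < 2*C0/L := by rw [lt_div_iff₀ hL0]; exact hB
        have h2 : (k:ℝ) < (⌈2*C0/L⌉₊ : ℝ) := lt_of_lt_of_le h1 (Nat.le_ceil _)
        have h3 : k < ⌈2*C0/L⌉₊ := by exact_mod_cast h2
        omega
      have h4 : (k:ℝ)^a / (Real.log k)^γ ≤ C0 * K1^a * (c2^γ + (1/c3)^γ) + S := by
        have h5 : (k:ℝ)^a / (Real.log k)^γ ≤ S :=
          Finset.single_le_sum (f := fun k : ℕ => (k:ℝ)^a / (Real.log k)^γ)
            (fun i _ => hterm i) hkK
        linarith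
      have h6 : (1:ℝ) = ((k:ℝ)^a / (Real.log k)^γ) * (k:ℝ)^(-a) * (Real.log k)^γ := by
        rw [Real.rpow_neg hkpos.le]
        field_simp
      calc (1:ℝ) = ((k:ℝ)^a / (Real.log k)^γ) * (k:ℝ)^(-a) * (Real.log k)^γ := h6
        _ ≤ (C0 * K1^a * (c2^γ + (1/c3)^γ) + S) * (k:ℝ)^(-a) * (Real.log k)^γ := by gcongr
  · left
    push Not at hB
    have hex : ∃ n : ℕ, ¬ (C0 * 2^(n+1) * (((n+1 : ℕ)) : ℝ)^D ≤ k * L) := by
      refine ⟨⌈(k:ℝ) * L / C0⌉₊, ?_⟩
      set n := ⌈(k:ℝ) * L / C0⌉₊ with hn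
      have h1 : (k:ℝ) * L / C0 ≤ n := Nat.le_ceil _
      have h2 : (k:ℝ) * L ≤ n * C0 := by rwa [div_le_iff₀ hC0] at h1
      have h3 : ((n+1 : ℕ) : ℝ) < 2^(n+1) := by exact_mod_cast Nat.lt_two_pow_self
      have h4 : (1:ℝ) ≤ (((n+1 : ℕ)) : ℝ)^D := one_le_pow₀ (by push_cast; linarith [Nat.cast_nonneg (α := ℝ) n])
      rw [not_le]
      calc (k:ℝ) * L ≤ n * C0 := h2
        _ < C0 * 2^(n+1) := by
          push_cast at h3
          nlinarith
        _ = C0 * 2^(n+1) * 1 := by ring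
        _ ≤ C0 * 2^(n+1) * (((n+1 : ℕ)) : ℝ)^D := by gcongr
    obtain ⟨m, hm1, hpm, hnp⟩ : ∃ m : ℕ, 1 ≤ m ∧ C0 * 2^m * (m:ℝ)^D ≤ k * L ∧
        (k:ℝ) * L < C0 * 2^(m+1) * (((m+1 : ℕ)) : ℝ)^D := by
      refine ⟨Nat.find hex, ?_, ?_, not_le.mp (Nat.find_spec hex)⟩
      · by_contra h0
        have h1 : Nat.find hex = 0 := by omega
        have h2 := Nat.find_spec hex
        rw [h1] at h2
        apply h2
        simp only [zero_add, pow_one, Nat.cast_one, one_pow, mul_one]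
        linarith
      · have h0 : 1 ≤ Nat.find hex := by
          by_contra h0
          have h1 : Nat.find hex = 0 := by omega
          have h2 := Nat.find_spec hex
          rw [h1] at h2
          apply h2
          simp only [zero_add, pow_one, Nat.cast_one, one_pow, mul_one]
          linarith
        have h3 := Nat.find_min hex (m := Nat.find hex - 1) (by omega)
        rw [not_not] at h3
        have h4 : Nat.find hex - 1 + 1 = Nat.find hex := by omega
        rw [h4] at h3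
        exact h3
    have hm1' : (1:ℝ) ≤ m := by exact_mod_cast hm1
    have hmp : (0:ℝ) < m := by linarith
    refine ⟨m, hm1, ?_, ?_⟩
    · calc Real.exp (C0 * 2^m * (m:ℝ)^D) ≤ Real.exp (k * L) := Real.exp_le_exp.mpr hpm
        _ = (2:ℝ)^k := by rw [hL, Real.exp_nat_mul, Real.exp_log (by norm_num)]
    · have h1 : (k:ℝ) ≤ K1 * 2^m * (m:ℝ)^D := by
        have h2 : (((m+1 : ℕ)) : ℝ)^D ≤ (2 * (m:ℝ))^D := by
          apply pow_le_pow_left₀ (by positivity)
          push_cast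
          linarith
        have h3 : (k:ℝ) * L ≤ C0 * 2^(1+D) * 2^m * (m:ℝ)^D := by
          calc (k:ℝ) * L ≤ C0 * 2^(m+1) * (((m+1 : ℕ)) : ℝ)^D := hnp.le
            _ ≤ C0 * 2^(m+1) * (2 * (m:ℝ))^D := by gcongr
            _ = C0 * 2^(1+D) * 2^m * (m:ℝ)^D := by rw [mul_pow]; ring
        have h4 : (k:ℝ) ≤ (C0 * 2^(1+D) * 2^m * (m:ℝ)^D) / L := by
          rw [le_div_iff₀ hL0]; exact h3
        calc (k:ℝ) ≤ (C0 * 2^(1+D) * 2^m * (m:ℝ)^D) / L := h4
          _ = K1 * 2^m * (m:ℝ)^D := by rw [hK1d]; ring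
      have h2 : (2:ℝ)^(-(a * m)) ≤ K1^a * (m:ℝ)^((D:ℝ) * a) * (k:ℝ)^(-a) := by
        have h3 : (k:ℝ)^a ≤ K1^a * (2:ℝ)^(a * m) * (m:ℝ)^((D:ℝ) * a) := by
          calc (k:ℝ)^a ≤ (K1 * 2^m * (m:ℝ)^D)^a := Real.rpow_le_rpow hkpos.le h1 ha.le
            _ = K1^a * (2:ℝ)^(a * m) * (m:ℝ)^((D:ℝ) * a) := by
              rw [Real.mul_rpow (by positivity) (by positivity),
                Real.mul_rpow hK1.le (by positivity), ← Real.rpow_natCast (2:ℝ) m,
                ← Real.rpow_mul (by norm_num), ← Real.rpow_natCast (m:ℝ) D,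
                ← Real.rpow_mul hmp.le, mul_comm (m:ℝ) a]
        rw [Real.rpow_neg (by norm_num), Real.rpow_neg hkpos.le]
        have h5 : 0 < (2:ℝ)^(a * m) := by positivity
        rw [inv_eq_one_div, div_le_iff₀ h5]
        have h6 : K1^a * (m:ℝ)^((D:ℝ) * a) * ((k:ℝ)^a)⁻¹ * (2:ℝ)^(a * m) =
            (K1^a * (2:ℝ)^(a * m) * (m:ℝ)^((D:ℝ) * a)) / (k:ℝ)^a := by
          rw [div_eq_mul_inv]; ring
        rw [h6, le_div_iff₀ hka, one_mul]
        exact h3
      have hup : (m:ℝ) ≤ c2 * Real.log k := by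
        have h3 : C0 * 2^m ≤ k * L := by
          have h4 : (1:ℝ) ≤ (m:ℝ)^D := one_le_pow₀ hm1'
          calc C0 * 2^m = C0 * 2^m * 1 := by ring
            _ ≤ C0 * 2^m * (m:ℝ)^D := by gcongr
            _ ≤ k * L := hpm
        have h5 : (2:ℝ)^m ≤ k * (L / C0) := by
          rw [← mul_div_assoc, le_div_iff₀ hC0]
          linarith
        have h6 : (m:ℝ) * L ≤ Real.log k + Real.log (L/C0) := by
          have h7 := Real.log_le_log (by positivity) h5
          rw [Real.log_pow, Real.log_mul (by positivity) (by positivity)] at h7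
          exact h7
        have h8 : Real.log (L/C0) ≤ |Real.log (L/C0)| / L * Real.log k := by
          calc Real.log (L/C0) ≤ |Real.log (L/C0)| := le_abs_self _
            _ = |Real.log (L/C0)| / L * L := by field_simp
            _ ≤ |Real.log (L/C0)| / L * Real.log k := by gcongr
        have h9 : (m:ℝ) * L ≤ (1 + |Real.log (L/C0)| / L) * Real.log k := by
          linarith
        calc (m:ℝ) ≤ ((1 + |Real.log (L/C0)| / L) * Real.log k) / L := by
              rw [le_div_iff₀ hL0]; exact h9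
          _ = c2 * Real.log k := by rw [hc2d]; ring
      have hlo : 1/c3 * Real.log k ≤ (m:ℝ) := by
        have h3 : (k:ℝ) ≤ K1 * 2^(m*(D+1)) := by
          have h4 : (m:ℝ)^D ≤ (2^m)^D := by
            apply pow_le_pow_left₀ hmp.le
            exact_mod_cast Nat.lt_two_pow_self.le
          calc (k:ℝ) ≤ K1 * 2^m * (m:ℝ)^D := h1
            _ ≤ K1 * 2^m * (2^m)^D := by gcongr
            _ = K1 * 2^(m*(D+1)) := by rw [← pow_mul]; ring
        have h5 := Real.log_le_log hkpos h3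
        rw [Real.log_mul hK1.ne' (by positivity), Real.log_pow] at h5
        push_cast at h5
        have h6 : Real.log K1 ≤ |Real.log K1| * m := by
          calc Real.log K1 ≤ |Real.log K1| := le_abs_self _
            _ = |Real.log K1| * 1 := by ring
            _ ≤ |Real.log K1| * m := by gcongr
        have h7 : Real.log k ≤ c3 * m := by
          rw [hc3d]
          nlinarith
        rw [one_div, inv_mul_le_iff₀ hc3]
        exact h7
      have h3 : (m:ℝ)^γ ≤ (c2^γ + (1/c3)^γ) * (Real.log k)^γ := by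
        rcases le_or_gt 0 γ with hg | hg
        · calc (m:ℝ)^γ ≤ (c2 * Real.log k)^γ := Real.rpow_le_rpow hmp.le hup hg
            _ = c2^γ * (Real.log k)^γ := Real.mul_rpow hc2.le hlk0.le
            _ ≤ (c2^γ + (1/c3)^γ) * (Real.log k)^γ := by
              have : 0 < (1/c3)^γ := by positivity
              gcongr
              linarith
        · calc (m:ℝ)^γ ≤ (1/c3 * Real.log k)^γ :=
                Real.rpow_le_rpow_of_nonpos (by positivity) hlo hg.le
            _ = (1/c3)^γ * (Real.log k)^γ := Real.mul_rpow (by positivity) hlk0.le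
            _ ≤ (c2^γ + (1/c3)^γ) * (Real.log k)^γ := by
              have : 0 < c2^γ := by positivity
              gcongr
              linarith
      have hsplit : (m:ℝ)^((D:ℝ) * a) * (m:ℝ)^(β - 1/2) = (m:ℝ)^γ := by
        rw [← Real.rpow_add hmp, hγ]
        congr 1
        ring
      calc C0 * (2:ℝ)^(-(a * m)) * (m:ℝ)^(β - 1/2)
          ≤ C0 * (K1^a * (m:ℝ)^((D:ℝ) * a) * (k:ℝ)^(-a)) * (m:ℝ)^(β - 1/2) := by gcongr
        _ = C0 * K1^a * (k:ℝ)^(-a) * ((m:ℝ)^((D:ℝ) * a) * (m:ℝ)^(β - 1/2)) := by ring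
        _ = C0 * K1^a * (k:ℝ)^(-a) * (m:ℝ)^γ := by rw [hsplit]
        _ ≤ C0 * K1^a * (k:ℝ)^(-a) * ((c2^γ + (1/c3)^γ) * (Real.log k)^γ) := by gcongr
        _ = (C0 * K1^a * (c2^γ + (1/c3)^γ)) * (k:ℝ)^(-a) * (Real.log k)^γ := by ring
        _ ≤ (C0 * K1^a * (c2^γ + (1/c3)^γ) + S) * (k:ℝ)^(-a) * (Real.log k)^γ := by
          gcongr
          linarith

end Sol_k_num

alias k_num := Sol_k_num.k_num

end MWidth
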