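import Pool.Agent.HypVol.Defs
import Pool.Agent.MWidth.Defs
import Pool.Agent.HypVol.L_card_layer
import Pool.Agent.HypVol.L_shp_lower
import Pool.Agent.HypVol.L_shp_upper
open MeasureTheory Real ProbabilityTheory
open scoped ENNReal BigOperators

namespace MWidth
open HypVol
namespace Sol_k_num_low1



theorem k_num_low1 (d : ℕ) (hd : 1 ≤ d) (a β c0 : ℝ) (ha : 0 < a) (hc0 : 0 < c0) : ∃ c : ℝ, 0 < c ∧ ∀ k : ℕ, 2 ≤ k →
    ∃ n : ℕ, 1 ≤ n ∧ (k : ℝ) ≤ 2 * (layer d n).card ∧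
      c * (k:ℝ)^(-a) * (Real.log k)^(((d:ℝ)-1) * a + β - 1/2) ≤
      c0 * (2:ℝ)^(-(a * n)) * (n:ℝ)^(β - 1/2) := by
  obtain ⟨c1, hc1, h1⟩ := shp_lower d hd
  obtain ⟨E, hE⟩ : ∃ E : ℝ, E = ((d:ℝ)-1) * a + β - 1/2 := ⟨_, rfl⟩
  rw [← hE]
  have hd1 : (1:ℝ) ≤ d := by exact_mod_cast hd
  obtain ⟨M, hM⟩ : ∃ M : ℝ, M = max (2^d / (2 * c1)) 1 := ⟨_, rfl⟩
  have hM1 : 1 ≤ M := by rw [hM]; exact le_max_right _ _
  have hMd : 2^d / (2 * c1) ≤ M := by rw [hM]; exact le_max_left _ _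
  obtain ⟨M2, hM2⟩ : ∃ M2 : ℝ, M2 = max (2 * c1) 1 := ⟨_, rfl⟩
  have hM21 : 1 ≤ M2 := by rw [hM2]; exact le_max_right _ _
  have hM2c : 2 * c1 ≤ M2 := by rw [hM2]; exact le_max_left _ _
  have hM0 : 0 < M := by linarith
  have hM20 : 0 < M2 := by linarith
  have hl2 : 0 < Real.log 2 := Real.log_pos (by norm_num)
  have hl21 : Real.log 2 ≤ 1 := by
    have := Real.log_le_sub_one_of_pos (show (0:ℝ) < 2 by norm_num)
    linarith
  have hlM : 0 ≤ Real.log M := Real.log_nonneg hM1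
  have hlM2 : 0 ≤ Real.log M2 := Real.log_nonneg hM21
  obtain ⟨D1, hD1⟩ : ∃ D1 : ℝ, D1 = Real.log M2 + d := ⟨_, rfl⟩
  have hD10 : 0 < D1 := by rw [hD1]; linarith
  obtain ⟨D2, hD2⟩ : ∃ D2 : ℝ, D2 = (Real.log M / Real.log 2 + 1) / Real.log 2 := ⟨_, rfl⟩
  have hD20 : 0 < D2 := by rw [hD2]; positivity
  obtain ⟨K, hK⟩ : ∃ K : ℝ, K = D1^E + D2^(-E) := ⟨_, rfl⟩
  have hK0 : 0 < K := by rw [hK]; positivity
  refine ⟨c0 * M^(-a) / K, by positivity, ?_⟩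
  intro k hk
  have hk0 : (0:ℝ) < k := by
    have : 0 < k := by omega
    exact_mod_cast this
  have hk2 : (2:ℝ) ≤ k := by exact_mod_cast hk
  have hlog : 0 < Real.log k := Real.log_pos (by linarith)
  have hlogk2 : Real.log 2 ≤ Real.log k := Real.log_le_log (by norm_num) hk2
  have hex : ∃ n : ℕ, 1 ≤ n ∧ (k:ℝ) ≤ 2 * c1 * (2^n * (n:ℝ)^(d-1)) := by
    obtain ⟨n0, hn0⟩ := exists_nat_gt ((k:ℝ) / (2 * c1))
    refine ⟨n0 + 1, by omega, ?_⟩
    rw [div_lt_iff₀ (by positivity)] at hn0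
    have h2 : (n0:ℝ) ≤ 2^(n0+1) := by
      have h3 : n0 ≤ 2^(n0+1) := (Nat.lt_two_pow_self.le).trans
        (Nat.pow_le_pow_right (by norm_num) (by omega))
      exact_mod_cast h3
    have h4 : (1:ℝ) ≤ ((n0 + 1 : ℕ):ℝ)^(d-1) := by
      apply one_le_pow₀
      push_cast
      have : (0:ℝ) ≤ n0 := Nat.cast_nonneg _
      linarith
    calc (k:ℝ) ≤ n0 * (2 * c1) := hn0.le
      _ ≤ 2^(n0+1) * (2 * c1) := by gcongr
      _ = 2 * c1 * (2^(n0+1) * 1) := by ring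
      _ ≤ 2 * c1 * (2^(n0+1) * ((n0 + 1 : ℕ):ℝ)^(d-1)) := by gcongr
  classical
  obtain ⟨hn1, hnk⟩ := Nat.find_spec hex
  have hmin : ∀ m, m < Nat.find hex → ¬ (1 ≤ m ∧ (k:ℝ) ≤ 2 * c1 * (2^m * (m:ℝ)^(d-1))) :=
    fun m hm => Nat.find_min hex hm
  obtain ⟨n, hn⟩ : ∃ n, n = Nat.find hex := ⟨_, rfl⟩
  rw [← hn] at hn1 hnk hmin
  have hn0 : (0:ℝ) < n := by exact_mod_cast hn1
  have hn1r : (1:ℝ) ≤ n := by exact_mod_cast hn1
  have hup : 2^n * (n:ℝ)^(d-1) ≤ M * k := by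
    rcases Nat.lt_or_ge 1 n with h2 | h2
    · obtain ⟨m, hm⟩ : ∃ m, n = m + 1 := ⟨n - 1, by omega⟩
      have h3 := hmin m (by omega)
      have h4 : 2 * c1 * (2^m * (m:ℝ)^(d-1)) < k := by
        by_contra h5
        exact h3 ⟨by omega, not_lt.1 h5⟩
      have hm1 : (1:ℝ) ≤ m := by
        have : 1 ≤ m := by omega
        exact_mod_cast this
      have h6 : ((m + 1 : ℕ):ℝ)^(d-1) ≤ (2*(m:ℝ))^(d-1) := by
        apply pow_le_pow_left₀ (by positivity)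
        push_cast; linarith
      have h7 : (2:ℝ)^d = 2 * 2^(d-1) := by
        rw [← pow_succ']; congr 1; omega
      rw [hm]
      calc (2:ℝ)^(m+1) * ((m + 1 : ℕ):ℝ)^(d-1) ≤ 2^(m+1) * (2*(m:ℝ))^(d-1) := by gcongr
        _ = 2^d / (2 * c1) * (2 * c1 * (2^m * (m:ℝ)^(d-1))) := by
          rw [h7, mul_pow, pow_succ]; field_simp
        _ ≤ 2^d / (2 * c1) * k := by gcongr
        _ ≤ M * k := by gcongr
    · have h3 : n = 1 := by omega
      rw [h3]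
      simp only [pow_one, Nat.cast_one, one_pow, mul_one]
      nlinarith
  refine ⟨n, hn1, ?_, ?_⟩
  · rw [card_layer]
    push_cast
    have hs := h1 n hn1
    calc (k:ℝ) ≤ 2 * c1 * (2^n * (n:ℝ)^(d-1)) := hnk
      _ = 2 * (2^n * (c1 * (n:ℝ)^(d-1))) := by ring
      _ ≤ 2 * (2^n * (shp d n : ℝ)) := by gcongr
  · -- bounds for n
    have hpos : 0 < 2^n * (n:ℝ)^(d-1) := by positivity
    have hC1 : Real.log k ≤ D1 * n := by
      have h2 : (k:ℝ) ≤ M2 * (2^n * (n:ℝ)^(d-1)) := hnk.trans (by gcongr)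
      have h3 := Real.log_le_log hk0 h2
      rw [Real.log_mul hM20.ne' hpos.ne', Real.log_mul (by positivity) (by positivity),
        Real.log_pow, Real.log_pow] at h3
      have h4 : Real.log n ≤ n := by
        have := Real.log_le_sub_one_of_pos hn0
        linarith
      have h5 : ((d - 1 : ℕ):ℝ) * Real.log n ≤ ((d - 1 : ℕ):ℝ) * n := by gcongr
      have h6 : ((d - 1 : ℕ):ℝ) = (d:ℝ) - 1 := by
        rw [Nat.cast_sub hd, Nat.cast_one]
      have h7 : (n:ℝ) * Real.log 2 ≤ n * 1 := by gcongr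
      have h8 : Real.log M2 * 1 ≤ Real.log M2 * n := by gcongr
      rw [h6] at h5 h3
      rw [hD1]
      nlinarith
    have hC2 : (n:ℝ) / D2 ≤ Real.log k := by
      have h2 : (2:ℝ)^n ≤ M * k := by
        refine le_trans ?_ hup
        have : (1:ℝ) ≤ (n:ℝ)^(d-1) := one_le_pow₀ hn1r
        have h3 : (2:ℝ)^n * 1 ≤ 2^n * (n:ℝ)^(d-1) := by gcongr
        linarith
      have h3 := Real.log_le_log (by positivity) h2
      rw [Real.log_pow, Real.log_mul hM0.ne' hk0.ne'] at h3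
      have h4 : Real.log M ≤ Real.log M / Real.log 2 * Real.log k := by
        rw [div_mul_eq_mul_div, le_div_iff₀ hl2]
        gcongr
      rw [div_le_iff₀ hD20, hD2]
      have h5 : (n:ℝ) * Real.log 2 ≤ (Real.log M / Real.log 2 + 1) * Real.log k := by linarith
      rw [mul_comm, div_mul_eq_mul_div, le_div_iff₀ hl2]
      exact h5
    have hKn : (Real.log k)^E ≤ K * (n:ℝ)^E := by
      have hnE : 0 < (n:ℝ)^E := by positivity
      have hA : 0 < D1^E := by positivity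
      have hB : 0 < D2^(-E) := by positivity
      rcases le_total 0 E with h0 | h0
      · have h2 := Real.rpow_le_rpow hlog.le hC1 h0
        rw [Real.mul_rpow hD10.le hn0.le] at h2
        rw [hK]
        nlinarith
      · have h2 : (Real.log k)^E ≤ ((n:ℝ)/D2)^E :=
          Real.rpow_le_rpow_of_nonpos (by positivity) hC2 h0
        rw [Real.div_rpow hn0.le hD20.le] at h2
        rw [hK, Real.rpow_neg hD20.le]
        have h3 : (n:ℝ)^E / D2^E = (D2^E)⁻¹ * (n:ℝ)^E := by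
          rw [div_eq_mul_inv, mul_comm]
        rw [h3] at h2
        nlinarith
    have hB1 : (n:ℝ)^(d-1) / (M * (k:ℝ)) ≤ (2:ℝ)^(-(n:ℝ)) := by
      rw [Real.rpow_neg (by norm_num), Real.rpow_natCast, div_le_iff₀ (by positivity),
        inv_mul_eq_div, le_div_iff₀ (by positivity)]
      linarith
    have hB : ((n:ℝ)^(d-1) / (M * (k:ℝ)))^a ≤ (2:ℝ)^(-(a * n)) := by
      have h2 := Real.rpow_le_rpow (by positivity) hB1 ha.le
      rw [← Real.rpow_mul (by norm_num)] at h2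
      have h3 : -(n:ℝ) * a = -(a * n) := by ring
      rw [h3] at h2
      exact h2
    have hB2 : ((n:ℝ)^(d-1) / (M * (k:ℝ)))^a =
        (n:ℝ)^(((d:ℝ)-1)*a) * (M^(-a) * (k:ℝ)^(-a)) := by
      rw [Real.div_rpow (by positivity) (by positivity), Real.mul_rpow hM0.le hk0.le,
        ← Real.rpow_natCast (n:ℝ) (d-1), ← Real.rpow_mul hn0.le,
        Real.rpow_neg hM0.le, Real.rpow_neg hk0.le,
        Nat.cast_sub hd, Nat.cast_one, div_eq_mul_inv, mul_inv]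
    have hne : (n:ℝ)^E = (n:ℝ)^(((d:ℝ)-1)*a) * (n:ℝ)^(β - 1/2) := by
      rw [← Real.rpow_add hn0, hE]; congr 1; ring
    calc c0 * M^(-a) / K * (k:ℝ)^(-a) * (Real.log k)^E
        ≤ c0 * M^(-a) / K * (k:ℝ)^(-a) * (K * (n:ℝ)^E) := by gcongr
      _ = c0 * (M^(-a) * (k:ℝ)^(-a)) * (n:ℝ)^E := by field_simp
      _ = c0 * ((n:ℝ)^(((d:ℝ)-1)*a) * (M^(-a) * (k:ℝ)^(-a))) * (n:ℝ)^(β - 1/2) := by
          rw [hne]; ring
      _ = c0 * ((n:ℝ)^(d-1) / (M * (k:ℝ)))^a * (n:ℝ)^(β - 1/2) := by rw [hB2]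
      _ ≤ c0 * (2:ℝ)^(-(a * n)) * (n:ℝ)^(β - 1/2) := by gcongr

end Sol_k_num_low1

alias k_num_low1 := Sol_k_num_low1.k_num_low1

end MWidth
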