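import Pool.Agent.HypVol.Defs
import Pool.Agent.MWidth.Defs
open MeasureTheory Real ProbabilityTheory
open scoped ENNReal BigOperators

namespace MWidth
open HypVol
namespace Sol_lower_vol



theorem lower_vol {ι : Type} [Fintype ι] (c : ι → ℝ) (ρ : ℝ) (hρ : 0 < ρ) (hι : 0 < Fintype.card ι) :
    volume {x : ι → ℝ | ∑ i, (x i - c i)^2 ≤ ρ^2} ≤
      ENNReal.ofReal ((Real.sqrt (2 * π * Real.exp 1 / Fintype.card ι) * ρ)^(Fintype.card ι)) := by
  obtain ⟨N, hNdef⟩ : ∃ N, N = Fintype.card ι := ⟨_, rfl⟩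
  rw [← hNdef]
  have hN : (0:ℝ) < N := by
    rw [hNdef]
    exact_mod_cast hι
  obtain ⟨b, hb⟩ : ∃ b : ℝ, b = N / (2 * ρ ^ 2) := ⟨_, rfl⟩
  have hb0 : 0 < b := by rw [hb]; positivity
  have hf_int : Integrable (fun x : ι → ℝ => ∏ i, Real.exp (-b * (x i - c i) ^ 2)) :=
    Integrable.fintype_prod (f := fun i t => Real.exp (-b * (t - c i) ^ 2))
      (fun i => (integrable_exp_neg_mul_sq hb0).comp_sub_right (c i))
  have hfI : ∫ x : ι → ℝ, ∏ i, Real.exp (-b * (x i - c i) ^ 2) = (Real.sqrt (π / b)) ^ N := by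
    have h1 := integral_fintype_prod_volume_eq_prod (𝕜 := ℝ) (ι := ι)
      (f := fun (i : ι) (t : ℝ) => Real.exp (-b * (t - c i) ^ 2))
    rw [h1]
    have h2 : ∀ i : ι, ∫ t : ℝ, Real.exp (-b * (t - c i) ^ 2) = Real.sqrt (π / b) := by
      intro i
      rw [integral_sub_right_eq_self (fun t : ℝ => Real.exp (-b * t ^ 2)) (c i),
        integral_gaussian]
    rw [Finset.prod_congr rfl fun i _ => h2 i, Finset.prod_const, Finset.card_univ, hNdef]
  have hbr : b * ρ ^ 2 = N / 2 := by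
    rw [hb]
    field_simp
  have hsub : {x : ι → ℝ | ∑ i, (x i - c i) ^ 2 ≤ ρ ^ 2} ⊆
      {x : ι → ℝ | ENNReal.ofReal (Real.exp (-((N:ℝ) / 2))) ≤
        ENNReal.ofReal (∏ i, Real.exp (-b * (x i - c i) ^ 2))} := by
    intro x hx
    have hx' : ∑ i, (x i - c i) ^ 2 ≤ ρ ^ 2 := hx
    refine ENNReal.ofReal_le_ofReal ?_
    rw [← Real.exp_sum, ← Finset.mul_sum]
    refine Real.exp_le_exp.mpr ?_
    have h3 : b * ∑ i, (x i - c i) ^ 2 ≤ b * ρ ^ 2 := mul_le_mul_of_nonneg_left hx' hb0.le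
    rw [hbr] at h3
    linarith
  have hM := mul_meas_ge_le_lintegral₀ (μ := (volume : Measure (ι → ℝ)))
    (hf_int.aestronglyMeasurable.aemeasurable.ennreal_ofReal)
    (ENNReal.ofReal (Real.exp (-((N:ℝ) / 2))))
  rw [← ofReal_integral_eq_lintegral_ofReal hf_int
    (Filter.Eventually.of_forall fun x => Finset.prod_nonneg fun i _ => (Real.exp_pos _).le),
    hfI] at hM
  have hone : ENNReal.ofReal (Real.exp ((N:ℝ) / 2)) * ENNReal.ofReal (Real.exp (-((N:ℝ) / 2)))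
      = 1 := by
    rw [← ENNReal.ofReal_mul (Real.exp_pos _).le, ← Real.exp_add, add_neg_cancel, Real.exp_zero,
      ENNReal.ofReal_one]
  have h1 : Real.sqrt (2 * π * Real.exp 1 / N) * ρ = Real.exp (1 / 2) * Real.sqrt (π / b) := by
    have e1 : π / b = (2 * π / N) * ρ ^ 2 := by
      rw [hb]
      field_simp
    have e2 : 2 * π * Real.exp 1 / N = (2 * π / N) * Real.exp 1 := by ring
    rw [e1, e2, Real.sqrt_mul (by positivity), Real.sqrt_mul (by positivity),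
      Real.sqrt_sq hρ.le, ← Real.exp_half]
    ring
  calc volume {x : ι → ℝ | ∑ i, (x i - c i) ^ 2 ≤ ρ ^ 2}
      ≤ volume {x : ι → ℝ | ENNReal.ofReal (Real.exp (-((N:ℝ) / 2))) ≤
        ENNReal.ofReal (∏ i, Real.exp (-b * (x i - c i) ^ 2))} := measure_mono hsub
    _ = ENNReal.ofReal (Real.exp ((N:ℝ) / 2)) * (ENNReal.ofReal (Real.exp (-((N:ℝ) / 2))) *
        volume {x : ι → ℝ | ENNReal.ofReal (Real.exp (-((N:ℝ) / 2))) ≤
        ENNReal.ofReal (∏ i, Real.exp (-b * (x i - c i) ^ 2))}) := by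
        rw [← mul_assoc, hone, one_mul]
    _ ≤ ENNReal.ofReal (Real.exp ((N:ℝ) / 2)) * ENNReal.ofReal ((Real.sqrt (π / b)) ^ N) := by
        gcongr
    _ = ENNReal.ofReal ((Real.sqrt (2 * π * Real.exp 1 / N) * ρ) ^ N) := by
        rw [← ENNReal.ofReal_mul (Real.exp_pos _).le, h1, mul_pow, ← Real.exp_nat_mul]
        congr 3
        ring

end Sol_lower_vol

alias lower_vol := Sol_lower_vol.lower_vol

end MWidth
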