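import Pool.Agent.HypVol.Defs
import Pool.Agent.MWidth.Defs
import Pool.Agent.HypVol.L_card_layer
import Pool.Agent.HypVol.L_shp_lower
import Pool.Agent.HypVol.L_shp_upper
import Pool.Agent.HypVol.L_TP_prob
open MeasureTheory Real ProbabilityTheory
open scoped ENNReal BigOperators

namespace MWidth
open HypVol
namespace Sol_vol_lower4


/-- uniform law on `[-1,1]` -/
noncomputable def rvNu : Measure ℝ := (2:ℝ≥0∞)⁻¹ • (volume.restrict (Set.Icc (-1:ℝ) 1))

instance rvNu_prob : IsProbabilityMeasure rvNu := by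
  constructor
  unfold rvNu
  rw [Measure.smul_apply, Measure.restrict_apply_univ, Real.volume_Icc, smul_eq_mul]
  have : ENNReal.ofReal (1 - (-1)) = 2 := by
    norm_num
  rw [this]
  exact ENNReal.inv_mul_cancel (by norm_num) (by norm_num)

theorem rv_ae : ∀ᵐ t ∂rvNu, t ∈ Set.Icc (-1:ℝ) 1 := by
  unfold rvNu
  apply Measure.ae_smul_measure
  exact ae_restrict_mem measurableSet_Icc

theorem rv_int : ∫ t, t ∂rvNu = 0 := by
  unfold rvNu
  rw [integral_smul_measure, integral_Icc_eq_integral_Ioc,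
    ← intervalIntegral.integral_of_le (by norm_num : (-1:ℝ) ≤ 1), integral_id]
  norm_num

theorem rv_sub : HasSubgaussianMGF (fun t : ℝ => t) 1 rvNu := by
  have h := hasSubgaussianMGF_of_mem_Icc_of_integral_eq_zero (μ := rvNu) (X := fun t : ℝ => t)
    (a := -1) (b := 1) (by fun_prop) rv_ae rv_int
  convert h using 1
  have : ‖(1:ℝ) - (-1)‖₊ = 2 := by
    rw [← NNReal.coe_inj]
    norm_num
  rw [this]
  norm_num

theorem rv_mono {Ω : Type} [MeasurableSpace Ω] {μ : Measure Ω} {Y : Ω → ℝ} {c c' : NNReal}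
    (h : HasSubgaussianMGF Y c μ) (hc : c ≤ c') : HasSubgaussianMGF Y c' μ where
  integrable_exp_mul := h.integrable_exp_mul
  mgf_le t := by
    refine (h.mgf_le t).trans (Real.exp_le_exp.mpr ?_)
    have h1 : (c : ℝ) ≤ c' := by exact_mod_cast hc
    have h2 : (c : ℝ) * t ^ 2 ≤ c' * t ^ 2 := mul_le_mul_of_nonneg_right h1 (sq_nonneg t)
    linarith

theorem rv_scale (w : ℝ) : HasSubgaussianMGF (fun t : ℝ => w * t) (Real.toNNReal (w ^ 2)) rvNu where
  integrable_exp_mul t := by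
    have h := rv_sub.integrable_exp_mul (t * w)
    simpa [mul_assoc] using h
  mgf_le t := by
    have h := rv_sub.mgf_le (t * w)
    unfold mgf at h ⊢
    have e : (fun x : ℝ => Real.exp (t * (w * x))) = fun x : ℝ => Real.exp (t * w * x) := by
      funext x
      rw [mul_assoc]
    rw [e, Real.coe_toNNReal _ (sq_nonneg _)]
    refine h.trans (le_of_eq ?_)
    congr 1
    rw [NNReal.coe_one]
    ring

theorem rv_sum {ι : Type} [Fintype ι] (w : ι → ℝ) (M : ℝ) (hM : 0 < M) (h : ∑ i, w i ^ 2 ≤ M) :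
    HasSubgaussianMGF (fun a : ι → ℝ => ∑ i, w i * a i) (Real.toNNReal M)
      (Measure.pi (fun _ : ι => rvNu)) := by
  have hind : iIndepFun (fun (i : ι) (a : ι → ℝ) => w i * a i) (Measure.pi (fun _ : ι => rvNu)) :=
    iIndepFun_pi (μ := fun _ : ι => rvNu) (X := fun i (t : ℝ) => w i * t)
      (fun i => by fun_prop)
  have hsub : ∀ i ∈ Finset.univ, HasSubgaussianMGF (fun a : ι → ℝ => w i * a i)
      (Real.toNNReal (w i ^ 2)) (Measure.pi (fun _ : ι => rvNu)) := by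
    intro i _
    have h1 := rv_scale (w i)
    have h3 : (Measure.pi (fun _ : ι => rvNu)).map (fun a : ι → ℝ => a i) = rvNu :=
      (measurePreserving_eval (fun _ : ι => rvNu) i).map_eq
    rw [← h3] at h1
    exact HasSubgaussianMGF.of_map (Y := fun a : ι → ℝ => a i)
      (measurable_pi_apply i).aemeasurable h1
  refine rv_mono (HasSubgaussianMGF.sum_of_iIndepFun hind hsub) ?_
  rw [← Real.toNNReal_sum_of_nonneg (fun i _ => sq_nonneg (w i))]
  exact Real.toNNReal_le_toNNReal h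

theorem rv_pi {ι : Type} [Fintype ι] :
    (volume : Measure (ι → ℝ)).restrict (Set.univ.pi fun _ => Set.Icc (-1:ℝ) 1) =
      (2:ℝ≥0∞) ^ (Fintype.card ι) • Measure.pi (fun _ : ι => rvNu) := by
  rw [volume_pi, Measure.restrict_pi_pi]
  refine Measure.pi_eq fun s hs => ?_
  rw [Measure.smul_apply, Measure.pi_pi, smul_eq_mul]
  have h1 : ∀ i : ι, rvNu (s i) = (2:ℝ≥0∞)⁻¹ * (volume.restrict (Set.Icc (-1:ℝ) 1)) (s i) := by
    intro i
    unfold rvNu
    rw [Measure.smul_apply, smul_eq_mul]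
  simp_rw [h1]
  rw [Finset.prod_mul_distrib, Finset.prod_const, Finset.card_univ, ← mul_assoc, ← mul_pow,
    ENNReal.mul_inv_cancel (by norm_num) (by norm_num), one_pow, one_mul]


theorem rand_vol34 {X ι : Type} [Fintype X] [Nonempty X] [Fintype ι] (b : ι → X → ℝ) (M : ℝ) (hM : 0 < M)
    (h : ∀ x, ∑ i, b i x ^ 2 ≤ M) :
    ENNReal.ofReal (2^(Fintype.card ι) * (3 / 4)) ≤
      volume {a : ι → ℝ | (∀ i, |a i| ≤ 1) ∧
        ∀ x, |∑ i, a i * b i x| ≤ Real.sqrt (2 * M * Real.log (8 * Fintype.card X))} := by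
  obtain ⟨l, hl⟩ : ∃ l, l = Real.sqrt (2 * M * Real.log (8 * Fintype.card X)) := ⟨_, rfl⟩
  have hcard : (1:ℝ) ≤ Fintype.card X := by exact_mod_cast Fintype.card_pos
  have hlog : 0 ≤ Real.log (8 * Fintype.card X) := Real.log_nonneg (by linarith)
  have hl0 : 0 ≤ l := by rw [hl]; exact Real.sqrt_nonneg _
  have hl2 : l ^ 2 = 2 * M * Real.log (8 * Fintype.card X) := by
    rw [hl]; exact Real.sq_sqrt (by positivity)
  rw [← hl]
  obtain ⟨P, hP⟩ : ∃ P, P = Measure.pi (fun _ : ι => rvNu) := ⟨_, rfl⟩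
  have hPprob : IsProbabilityMeasure P := by rw [hP]; infer_instance
  have hexp : Real.exp (-l ^ 2 / (2 * ((Real.toNNReal M : NNReal) : ℝ))) =
      1 / (8 * Fintype.card X) := by
    rw [Real.coe_toNNReal _ hM.le, hl2]
    have : -(2 * M * Real.log (8 * Fintype.card X)) / (2 * M) =
        -Real.log (8 * Fintype.card X) := by
      field_simp
    rw [this, Real.exp_neg, Real.exp_log (by linarith), one_div]
  have hS : ∀ x, HasSubgaussianMGF (fun a : ι → ℝ => ∑ i, a i * b i x) (Real.toNNReal M) P := by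
    intro x
    have h1 := rv_sum (fun i => b i x) M hM (h x)
    rw [← hP] at h1
    have h2 : (fun a : ι → ℝ => ∑ i, a i * b i x) = fun a : ι → ℝ => ∑ i, b i x * a i := by
      funext a
      exact Finset.sum_congr rfl fun i _ => mul_comm _ _
    rw [h2]
    exact h1
  have hx : ∀ x, P.real {a : ι → ℝ | l < |∑ i, a i * b i x|} ≤ 1 / (4 * Fintype.card X) := by
    intro x
    have h1 := (hS x).measure_ge_le hl0
    have h2 := (hS x).neg.measure_ge_le hl0
    rw [hexp] at h1 h2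
    have h3 : {a : ι → ℝ | l < |∑ i, a i * b i x|} ⊆
        {a : ι → ℝ | l ≤ ∑ i, a i * b i x} ∪ {a : ι → ℝ | l ≤ (-fun a : ι → ℝ => ∑ i, a i * b i x) a} := by
      intro a ha
      have ha' : l < |∑ i, a i * b i x| := ha
      rcases lt_abs.mp ha' with h | h
      · exact Or.inl h.le
      · exact Or.inr h.le
    have h4 := (measureReal_mono (μ := P) h3).trans (measureReal_union_le _ _)
    have h5 : 1 / (8 * (Fintype.card X : ℝ)) + 1 / (8 * (Fintype.card X : ℝ)) =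
        1 / (4 * Fintype.card X) := by
      field_simp
      norm_num
    linarith
  have hbad : P.real (⋃ x : X, {a : ι → ℝ | l < |∑ i, a i * b i x|}) ≤ 1 / 4 := by
    refine (measureReal_iUnion_fintype_le _).trans ?_
    calc ∑ x : X, P.real {a : ι → ℝ | l < |∑ i, a i * b i x|}
        ≤ ∑ _x : X, 1 / (4 * (Fintype.card X : ℝ)) := Finset.sum_le_sum fun x _ => hx x
      _ = 1 / 4 := by
        rw [Finset.sum_const, Finset.card_univ, nsmul_eq_mul]
        field_simp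
  have hmeas : MeasurableSet (⋃ x : X, {a : ι → ℝ | l < |∑ i, a i * b i x|}) := by
    refine MeasurableSet.iUnion fun x => ?_
    exact measurableSet_lt measurable_const (by fun_prop)
  have hgood : ENNReal.ofReal (3 / 4) ≤ P (⋃ x : X, {a : ι → ℝ | l < |∑ i, a i * b i x|})ᶜ := by
    have h1 := probReal_compl_eq_one_sub (μ := P) hmeas
    have h2 : (3:ℝ) / 4 ≤ P.real (⋃ x : X, {a : ι → ℝ | l < |∑ i, a i * b i x|})ᶜ := by
      rw [h1]; linarith
    exact (ENNReal.ofReal_le_iff_le_toReal (measure_ne_top _ _)).mpr h2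
  have hset : {a : ι → ℝ | (∀ i, |a i| ≤ 1) ∧ ∀ x, |∑ i, a i * b i x| ≤ l} =
      (⋃ x : X, {a : ι → ℝ | l < |∑ i, a i * b i x|})ᶜ ∩
        (Set.univ.pi fun _ => Set.Icc (-1:ℝ) 1) := by
    ext a
    simp only [Set.mem_inter_iff, Set.mem_compl_iff, Set.mem_iUnion, not_exists, Set.mem_univ_pi,
      Set.mem_Icc]
    constructor
    · rintro ⟨h1, h2⟩
      exact ⟨fun x hx' => absurd (h2 x) (not_le.mpr hx'), fun i => abs_le.mp (h1 i)⟩
    · rintro ⟨h1, h2⟩
      exact ⟨fun i => abs_le.mpr (h2 i), fun x => not_lt.mp (h1 x)⟩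
  rw [hset, ← Measure.restrict_apply hmeas.compl, rv_pi, ← hP, Measure.smul_apply, smul_eq_mul]
  have h6 : ENNReal.ofReal (2 ^ (Fintype.card ι) * (3 / 4)) =
      (2:ℝ≥0∞) ^ (Fintype.card ι) * ENNReal.ofReal (3 / 4) := by
    rw [ENNReal.ofReal_mul (by positivity), ENNReal.ofReal_pow (by norm_num)]
    congr 2
    norm_num
  rw [h6]
  gcongr



/-- the real system on a grid -/
noncomputable def vl_b {d n : ℕ} {Y : Type} (g : Y → Fin d → ℝ) (β : (layer d n) × Fin 2)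
    (x : Y × Fin 2) : ℝ :=
  if x.2 = 0 then (if β.2 = 0 then Real.cos (∑ j, (β.1.1 j : ℝ) * g x.1 j)
    else -Real.sin (∑ j, (β.1.1 j : ℝ) * g x.1 j))
  else (if β.2 = 0 then Real.sin (∑ j, (β.1.1 j : ℝ) * g x.1 j)
    else Real.cos (∑ j, (β.1.1 j : ℝ) * g x.1 j))

theorem vl_b_sq {d n : ℕ} {Y : Type} (g : Y → Fin d → ℝ) (x : Y × Fin 2) :
    ∑ β : (layer d n) × Fin 2, vl_b g β x ^ 2 ≤ ((layer d n).card : ℝ) := by
  rw [Fintype.sum_prod_type]
  have h : ∀ k : layer d n, ∑ e : Fin 2, vl_b g (k, e) x ^ 2 = 1 := by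
    intro k
    rw [Fin.sum_univ_two]
    unfold vl_b
    by_cases hx : x.2 = 0
    · simp [hx]
    · simp [hx]
  rw [Finset.sum_congr rfl (fun k _ => h k), Finset.sum_const, Finset.card_univ, Fintype.card_coe,
    nsmul_eq_mul, mul_one]

theorem vl_exp (t : ℝ) : Complex.exp (Complex.I * (t : ℂ)) =
    (Real.cos t : ℂ) + (Real.sin t : ℂ) * Complex.I := by
  rw [mul_comm, Complex.exp_mul_I, Complex.ofReal_cos, Complex.ofReal_sin]

theorem vl_term_re (a0 a1 A B : ℝ) :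
    (((a0 : ℂ) + (a1 : ℂ) * Complex.I) * ((A : ℂ) + (B : ℂ) * Complex.I)).re = a0 * A - a1 * B := by
  simp

theorem vl_term_im (a0 a1 A B : ℝ) :
    (((a0 : ℂ) + (a1 : ℂ) * Complex.I) * ((A : ℂ) + (B : ℂ) * Complex.I)).im = a0 * B + a1 * A := by
  simp

theorem vl_re {d n : ℕ} {Y : Type} (g : Y → Fin d → ℝ) (a : (layer d n) × Fin 2 → ℝ) (y : Y) :
    (poly a (g y)).re = ∑ β, a β * vl_b g β (y, 0) := by
  rw [Fintype.sum_prod_type]
  unfold poly
  rw [Complex.re_sum]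
  refine Finset.sum_congr rfl fun k _ => ?_
  rw [Fin.sum_univ_two, vl_exp, vl_term_re]
  simp [vl_b]
  ring

theorem vl_im {d n : ℕ} {Y : Type} (g : Y → Fin d → ℝ) (a : (layer d n) × Fin 2 → ℝ) (y : Y) :
    (poly a (g y)).im = ∑ β, a β * vl_b g β (y, 1) := by
  rw [Fintype.sum_prod_type]
  unfold poly
  rw [Complex.im_sum]
  refine Finset.sum_congr rfl fun k _ => ?_
  rw [Fin.sum_univ_two, vl_exp, vl_term_im]
  simp [vl_b]

theorem vl_coord (Q : ℕ) (hQ : 0 < Q) (t : ℝ) : ∃ (q : Fin Q) (z : ℤ) (δ : ℝ),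
    t = 2 * π * ((q : ℕ) : ℝ) / Q + 2 * π * z + δ ∧ |δ| ≤ 2 * π / Q := by
  have hpi : (0 : ℝ) < 2 * π := by positivity
  have hQ' : (0 : ℝ) < Q := by exact_mod_cast hQ
  obtain ⟨f, hf⟩ : ∃ f, f = Int.fract (t / (2 * π)) := ⟨_, rfl⟩
  have hf0 : 0 ≤ f := by rw [hf]; exact Int.fract_nonneg _
  have hf1 : f < 1 := by rw [hf]; exact Int.fract_lt_one _
  have hfl : (⌊t / (2 * π)⌋ : ℝ) + f = t / (2 * π) := by rw [hf]; exact Int.floor_add_fract _
  have ht : t = 2 * π * ⌊t / (2 * π)⌋ + 2 * π * f := by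
    have h1 : t = 2 * π * (t / (2 * π)) := by field_simp
    calc t = 2 * π * (t / (2 * π)) := h1
      _ = 2 * π * ((⌊t / (2 * π)⌋ : ℝ) + f) := by rw [hfl]
      _ = _ := by ring
  have hq : ⌊(Q : ℝ) * f⌋₊ < Q := by
    rw [Nat.floor_lt (by positivity)]
    nlinarith
  have h1 : ((⌊(Q : ℝ) * f⌋₊ : ℕ) : ℝ) ≤ Q * f := Nat.floor_le (by positivity)
  have h2 : (Q : ℝ) * f < ((⌊(Q : ℝ) * f⌋₊ : ℕ) : ℝ) + 1 := Nat.lt_floor_add_one _
  refine ⟨⟨⌊(Q : ℝ) * f⌋₊, hq⟩, ⌊t / (2 * π)⌋,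
    2 * π * (((Q : ℝ) * f - ((⌊(Q : ℝ) * f⌋₊ : ℕ) : ℝ)) / Q), ?_, ?_⟩
  · have e : 2 * π * ((⌊(Q : ℝ) * f⌋₊ : ℕ) : ℝ) / Q + 2 * π * (⌊t / (2 * π)⌋ : ℝ) +
        2 * π * (((Q : ℝ) * f - ((⌊(Q : ℝ) * f⌋₊ : ℕ) : ℝ)) / Q) =
        2 * π * ⌊t / (2 * π)⌋ + 2 * π * f := by
      field_simp
      ring
    show t = 2 * π * ((⌊(Q : ℝ) * f⌋₊ : ℕ) : ℝ) / Q + 2 * π * (⌊t / (2 * π)⌋ : ℝ) +
        2 * π * (((Q : ℝ) * f - ((⌊(Q : ℝ) * f⌋₊ : ℕ) : ℝ)) / Q)
    rw [e]
    exact ht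
  · have h3 : (((Q : ℝ) * f - ((⌊(Q : ℝ) * f⌋₊ : ℕ) : ℝ)) / Q) ≤ 1 / Q :=
      div_le_div_of_nonneg_right (by linarith) hQ'.le
    have h4 : 0 ≤ (((Q : ℝ) * f - ((⌊(Q : ℝ) * f⌋₊ : ℕ) : ℝ)) / Q) :=
      div_nonneg (by linarith) hQ'.le
    rw [abs_of_nonneg (by positivity)]
    calc 2 * π * (((Q : ℝ) * f - ((⌊(Q : ℝ) * f⌋₊ : ℕ) : ℝ)) / Q) ≤ 2 * π * (1 / Q) :=
          mul_le_mul_of_nonneg_left h3 hpi.le
      _ = 2 * π / Q := by ring

theorem vl_mem {d n : ℕ} (k : layer d n) (j : Fin d) : |((k.1 j : ℤ) : ℝ)| ≤ 2 ^ n := by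
  have hk := k.2
  simp only [layer, Finset.mem_filter] at hk
  have h1 := hk.1
  have h2 := Finset.mem_Ioo.1 (Fintype.mem_piFinset.1 h1 j)
  have h3 : ((-(2:ℤ)^n : ℤ) : ℝ) < ((k.1 j : ℤ) : ℝ) := by exact_mod_cast h2.1
  have h4 : ((k.1 j : ℤ) : ℝ) < (((2:ℤ)^n : ℤ) : ℝ) := by exact_mod_cast h2.2
  push_cast at h3 h4
  rw [abs_le]
  exact ⟨h3.le, h4.le⟩

theorem vl_close {d n : ℕ} (Q : ℕ) (hQ : 0 < Q) (a : (layer d n) × Fin 2 → ℝ)
    (ha : ∀ i, |a i| ≤ 1)
    (hsm : ((layer d n).card : ℝ) * (2 * ((d : ℝ) * (2 ^ n * (2 * π / Q)))) ≤ 1)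
    (y : Fin d → ℝ) :
    ∃ x : Fin d → Fin Q, ‖poly a y‖ ≤
      ‖poly a (fun j => 2 * π * ((x j : ℕ) : ℝ) / Q)‖ + 1 := by
  choose q z δ h1 h2 using fun j => vl_coord Q hQ (y j)
  refine ⟨q, ?_⟩
  have key : ‖poly a y - poly a (fun j => 2 * π * ((q j : ℕ) : ℝ) / Q)‖ ≤ 1 := by
    unfold poly
    rw [← Finset.sum_sub_distrib]
    refine (norm_sum_le _ _).trans ?_
    refine le_trans ?_ hsm
    have hterm : ∀ k ∈ (Finset.univ : Finset (layer d n)),
        ‖((a (k, 0) : ℂ) + (a (k, 1) : ℂ) * Complex.I) *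
          Complex.exp (Complex.I * ((∑ j, (k.1 j : ℝ) * y j : ℝ) : ℂ)) -
        ((a (k, 0) : ℂ) + (a (k, 1) : ℂ) * Complex.I) *
          Complex.exp (Complex.I * ((∑ j, (k.1 j : ℝ) * (2 * π * ((q j : ℕ) : ℝ) / Q) : ℝ) : ℂ))‖ ≤
        2 * ((d : ℝ) * (2 ^ n * (2 * π / Q))) := by
      intro k _
      rw [← mul_sub, norm_mul]
      have e1 : ‖(a (k, 0) : ℂ) + (a (k, 1) : ℂ) * Complex.I‖ ≤ 2 := by
        refine (norm_add_le _ _).trans ?_
        rw [norm_mul, Complex.norm_I, mul_one, Complex.norm_real, Complex.norm_real,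
          Real.norm_eq_abs, Real.norm_eq_abs]
        linarith [ha (k, 0), ha (k, 1)]
      have e2 : (∑ j, (k.1 j : ℝ) * y j : ℝ) =
          (∑ j, (k.1 j : ℝ) * (2 * π * ((q j : ℕ) : ℝ) / Q)) +
          ((∑ j, k.1 j * z j : ℤ) : ℝ) * (2 * π) + ∑ j, (k.1 j : ℝ) * δ j := by
        push_cast
        rw [Finset.sum_mul, ← Finset.sum_add_distrib, ← Finset.sum_add_distrib]
        refine Finset.sum_congr rfl fun j _ => ?_
        conv_lhs => rw [h1 j]
        ring
      have e3 : Complex.exp (Complex.I * ((∑ j, (k.1 j : ℝ) * y j : ℝ) : ℂ)) =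
          Complex.exp (Complex.I * ((∑ j, (k.1 j : ℝ) * (2 * π * ((q j : ℕ) : ℝ) / Q) : ℝ) : ℂ)) *
          Complex.exp (Complex.I * ((∑ j, (k.1 j : ℝ) * δ j : ℝ) : ℂ)) := by
        rw [e2, Complex.ofReal_add, Complex.ofReal_add, mul_add, mul_add, Complex.exp_add,
          Complex.exp_add]
        have e4 : Complex.exp (Complex.I * ((((∑ j, k.1 j * z j : ℤ) : ℝ) * (2 * π) : ℝ) : ℂ)) = 1 := by
          rw [← Complex.exp_int_mul_two_pi_mul_I (∑ j, k.1 j * z j)]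
          congr 1
          push_cast
          ring
        rw [e4, mul_one]
      have e5 : ‖Complex.exp (Complex.I * ((∑ j, (k.1 j : ℝ) * y j : ℝ) : ℂ)) -
          Complex.exp (Complex.I * ((∑ j, (k.1 j : ℝ) * (2 * π * ((q j : ℕ) : ℝ) / Q) : ℝ) : ℂ))‖ ≤
          (d : ℝ) * (2 ^ n * (2 * π / Q)) := by
        rw [e3]
        have e6 : ∀ A B : ℂ, A * B - A = A * (B - 1) := fun A B => by ring
        rw [e6, norm_mul]
        have e7 : ‖Complex.exp (Complex.I *
            ((∑ j, (k.1 j : ℝ) * (2 * π * ((q j : ℕ) : ℝ) / Q) : ℝ) : ℂ))‖ = 1 := by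
          rw [mul_comm]
          exact Complex.norm_exp_ofReal_mul_I _
        rw [e7, one_mul]
        refine (Real.norm_exp_I_mul_ofReal_sub_one_le).trans ?_
        rw [Real.norm_eq_abs]
        refine (Finset.abs_sum_le_sum_abs _ _).trans ?_
        have e8 : ∀ j ∈ (Finset.univ : Finset (Fin d)), |(k.1 j : ℝ) * δ j| ≤
            2 ^ n * (2 * π / Q) := by
          intro j _
          rw [abs_mul]
          exact mul_le_mul (vl_mem k j) (h2 j) (abs_nonneg _) (by positivity)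
        refine (Finset.sum_le_sum e8).trans ?_
        rw [Finset.sum_const, Finset.card_univ, Fintype.card_fin, nsmul_eq_mul]
      exact mul_le_mul e1 e5 (norm_nonneg _) (by norm_num)
    refine (Finset.sum_le_sum hterm).trans ?_
    rw [Finset.sum_const, Finset.card_univ, Fintype.card_coe, nsmul_eq_mul]
  have := norm_sub_norm_le (poly a y) (poly a (fun j => 2 * π * ((q j : ℕ) : ℝ) / Q))
  linarith

theorem vl_card (d n : ℕ) : ((layer d n).card : ℝ) ≤ 2 ^ ((n + 1) * d) := by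
  classical
  have h1 : (layer d n).card ≤ (2 ^ (n + 1)) ^ d := by
    unfold layer
    refine (Finset.card_filter_le _ _).trans ?_
    rw [Fintype.card_piFinset, Finset.prod_const, Finset.card_univ, Fintype.card_fin, Int.card_Ioo]
    refine Nat.pow_le_pow_left ?_ d
    have h2 : ((2:ℤ)^n - -(2:ℤ)^n - 1) ≤ ((2 ^ (n + 1) : ℕ) : ℤ) := by
      push_cast
      rw [pow_succ]
      linarith
    exact Int.toNat_le.2 h2
  rw [← pow_mul] at h1
  exact_mod_cast h1

theorem vl_small (d n : ℕ) :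
    ((layer d n).card : ℝ) * (2 * ((d : ℝ) * (2 ^ n *
      (2 * π / ((2 ^ ((n + 1) * d + d + n + 4) : ℕ) : ℝ))))) ≤ 1 := by
  have h1 := vl_card d n
  have h2 : (d : ℝ) ≤ 2 ^ d := by exact_mod_cast (Nat.lt_two_pow_self (n := d)).le
  have h3 : 2 * π ≤ 8 := by linarith [Real.pi_le_four]
  have hpi := Real.pi_pos
  have hP : (0 : ℝ) < ((2 ^ ((n + 1) * d + d + n + 4) : ℕ) : ℝ) := by positivity
  have e : ((layer d n).card : ℝ) * (2 * ((d : ℝ) * (2 ^ n *
      (2 * π / ((2 ^ ((n + 1) * d + d + n + 4) : ℕ) : ℝ))))) =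
      ((layer d n).card : ℝ) * (2 * ((d : ℝ) * (2 ^ n * (2 * π)))) /
      ((2 ^ ((n + 1) * d + d + n + 4) : ℕ) : ℝ) := by ring
  rw [e, div_le_one hP]
  calc ((layer d n).card : ℝ) * (2 * ((d : ℝ) * (2 ^ n * (2 * π)))) ≤
      2 ^ ((n + 1) * d) * (2 * (2 ^ d * (2 ^ n * 8))) := by
        refine mul_le_mul h1 ?_ (by positivity) (by positivity)
        refine mul_le_mul_of_nonneg_left ?_ (by norm_num)
        refine mul_le_mul h2 ?_ (by positivity) (by positivity)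
        exact mul_le_mul_of_nonneg_left h3 (by positivity)
    _ = ((2 ^ ((n + 1) * d + d + n + 4) : ℕ) : ℝ) := by
        push_cast
        rw [pow_add, pow_add, pow_add]
        norm_num
        ring

theorem vl_log (d n : ℕ) (hn : 1 ≤ n) :
    Real.log (8 * (Fintype.card ((Fin d → Fin (2 ^ ((n + 1) * d + d + n + 4))) × Fin 2) : ℝ)) ≤
      (n : ℝ) * (3 * (d : ℝ) ^ 2 + 5 * d + 4) := by
  have hc : (8 * (Fintype.card ((Fin d → Fin (2 ^ ((n + 1) * d + d + n + 4))) × Fin 2) : ℝ)) =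
      2 ^ (4 + ((n + 1) * d + d + n + 4) * d) := by
    rw [Fintype.card_prod, Fintype.card_fun, Fintype.card_fin, Fintype.card_fin, Fintype.card_fin]
    push_cast
    rw [← pow_mul, pow_add]
    norm_num
    ring
  rw [hc, Real.log_pow]
  have hlog : Real.log 2 ≤ 1 := by
    have := Real.log_two_lt_d9
    linarith
  have hlog0 : 0 ≤ Real.log 2 := Real.log_nonneg (by norm_num)
  have hn' : (1 : ℝ) ≤ n := by exact_mod_cast hn
  have hd0 : (0 : ℝ) ≤ d := Nat.cast_nonneg d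
  push_cast
  have h1 : (4 + (((n : ℝ) + 1) * d + d + n + 4) * d) ≤ (n : ℝ) * (3 * (d : ℝ) ^ 2 + 5 * d + 4) := by
    nlinarith [mul_nonneg (sub_nonneg.2 hn') hd0, mul_nonneg (sub_nonneg.2 hn') (mul_nonneg hd0 hd0)]
  calc (4 + (((n : ℝ) + 1) * d + d + n + 4) * d) * Real.log 2 ≤
      (4 + (((n : ℝ) + 1) * d + d + n + 4) * d) * 1 :=
        mul_le_mul_of_nonneg_left hlog (by positivity)
    _ ≤ _ := by rw [mul_one]; exact h1

theorem vl_smul {d n : ℕ} (c : ℝ) (a : (layer d n) × Fin 2 → ℝ) (x : Fin d → ℝ) :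
    poly (c • a) x = (c : ℂ) * poly a x := by
  unfold poly
  rw [Finset.mul_sum]
  refine Finset.sum_congr rfl fun k _ => ?_
  simp only [Pi.smul_apply, smul_eq_mul, Complex.ofReal_mul]
  ring


theorem Lq_vol_one (t : ℝ) : ∫ a in Set.Icc (-1:ℝ) 1, Real.exp (t * a) ≤ 2 * Real.exp (t ^ 2 / 2) := by
  have h : ∀ a ∈ Set.Icc (-1:ℝ) 1, Real.exp (t * a) ≤
      (Real.exp t + Real.exp (-t)) / 2 + (Real.exp t - Real.exp (-t)) / 2 * a := by
    intro a ha
    have h1 := convexOn_exp.2 (Set.mem_univ t) (Set.mem_univ (-t))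
      (by linarith [ha.1] : 0 ≤ (1 + a) / 2) (by linarith [ha.2] : 0 ≤ (1 - a) / 2) (by ring)
    simp only [smul_eq_mul] at h1
    have e1 : (1 + a) / 2 * t + (1 - a) / 2 * -t = t * a := by ring
    rw [e1] at h1
    linarith
  have hi : ∫ a in Set.Icc (-1:ℝ) 1, ((Real.exp t + Real.exp (-t)) / 2 +
      (Real.exp t - Real.exp (-t)) / 2 * a) = Real.exp t + Real.exp (-t) := by
    rw [integral_Icc_eq_integral_Ioc, ← intervalIntegral.integral_of_le (by norm_num)]
    rw [intervalIntegral.integral_add (by simp) (by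
      apply Continuous.intervalIntegrable; fun_prop), intervalIntegral.integral_const_mul,
      integral_id, intervalIntegral.integral_const]
    simp only [smul_eq_mul]
    ring
  have h2 : ∫ a in Set.Icc (-1:ℝ) 1, Real.exp (t * a) ≤ Real.exp t + Real.exp (-t) := by
    rw [← hi]
    refine setIntegral_mono_on ?_ ?_ measurableSet_Icc h
    · exact (Continuous.continuousOn (by fun_prop)).integrableOn_Icc
    · exact (Continuous.continuousOn (by fun_prop)).integrableOn_Icc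
  have h3 := Real.cosh_le_exp_half_sq t
  rw [Real.cosh_eq] at h3
  linarith

theorem Lq_vol_prod {ι : Type} [Fintype ι] (τ : ι → ℝ) :
    ∫⁻ a : ι → ℝ, ENNReal.ofReal (Real.exp (∑ i, τ i * a i))
      ∂(Measure.pi (fun _ : ι => (volume : Measure ℝ).restrict (Set.Icc (-1) 1))) ≤
    ENNReal.ofReal (2 ^ Fintype.card ι * Real.exp ((∑ i, τ i ^ 2) / 2)) := by
  have hint : Integrable (fun a : ι → ℝ => ∏ i, Real.exp (τ i * a i))
      (Measure.pi (fun _ : ι => (volume : Measure ℝ).restrict (Set.Icc (-1) 1))) := by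
    refine Integrable.fintype_prod (f := fun i x => Real.exp (τ i * x)) (fun i => ?_)
    exact (Continuous.continuousOn (by fun_prop)).integrableOn_Icc
  have e1 : ∀ a : ι → ℝ, Real.exp (∑ i, τ i * a i) = ∏ i, Real.exp (τ i * a i) := fun a =>
    Real.exp_sum _ _
  simp only [e1]
  rw [← ofReal_integral_eq_lintegral_ofReal hint
    (Filter.Eventually.of_forall fun a => Finset.prod_nonneg fun i _ => (Real.exp_pos _).le)]
  refine ENNReal.ofReal_le_ofReal ?_
  rw [integral_fintype_prod_eq_prod (f := fun i x => Real.exp (τ i * x))]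
  have e2 : (2:ℝ) ^ Fintype.card ι * Real.exp ((∑ i, τ i ^ 2) / 2) =
      ∏ i : ι, (2 * Real.exp (τ i ^ 2 / 2)) := by
    rw [Finset.prod_mul_distrib, Finset.prod_const, Finset.card_univ, ← Real.exp_sum,
      Finset.sum_div]
  rw [e2]
  exact Finset.prod_le_prod (fun i _ => integral_nonneg fun x => (Real.exp_pos _).le)
    (fun i _ => Lq_vol_one (τ i))

/-- the coordinates of the real part -/
noncomputable def Lq_vol_R {d n : ℕ} (x : Fin d → ℝ) (i : (layer d n) × Fin 2) : ℝ :=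
  if i.2 = 0 then Real.cos (∑ j, (i.1.1 j : ℝ) * x j) else -Real.sin (∑ j, (i.1.1 j : ℝ) * x j)

/-- the coordinates of the imaginary part -/
noncomputable def Lq_vol_I {d n : ℕ} (x : Fin d → ℝ) (i : (layer d n) × Fin 2) : ℝ :=
  if i.2 = 0 then Real.sin (∑ j, (i.1.1 j : ℝ) * x j) else Real.cos (∑ j, (i.1.1 j : ℝ) * x j)

theorem Lq_vol_term (u v θ : ℝ) : ((u : ℂ) + (v : ℂ) * Complex.I) *
    Complex.exp (Complex.I * ((θ : ℝ) : ℂ)) =
    ((Real.cos θ * u + -Real.sin θ * v : ℝ) : ℂ) +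
      ((Real.sin θ * u + Real.cos θ * v : ℝ) : ℂ) * Complex.I := by
  rw [mul_comm Complex.I, Complex.exp_mul_I, ← Complex.ofReal_cos, ← Complex.ofReal_sin]
  push_cast
  linear_combination ((v:ℂ) * Complex.sin θ) * Complex.I_sq

theorem Lq_vol_poly {d n : ℕ} (a : (layer d n) × Fin 2 → ℝ) (x : Fin d → ℝ) :
    poly a x = ((∑ i, Lq_vol_R x i * a i : ℝ) : ℂ) + ((∑ i, Lq_vol_I x i * a i : ℝ) : ℂ) * Complex.I := by
  unfold poly
  rw [Fintype.sum_prod_type, Fintype.sum_prod_type]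
  simp only [Fin.sum_univ_two, Lq_vol_R, Lq_vol_I, if_true, Fin.isValue, one_ne_zero, if_false]
  rw [Complex.ofReal_sum, Complex.ofReal_sum, Finset.sum_mul, ← Finset.sum_add_distrib]
  refine Finset.sum_congr rfl fun k _ => ?_
  exact Lq_vol_term _ _ _

theorem Lq_vol_sqR {d n : ℕ} (x : Fin d → ℝ) :
    ∑ i : (layer d n) × Fin 2, Lq_vol_R x i ^ 2 = (layer d n).card := by
  rw [Fintype.sum_prod_type]
  simp only [Fin.sum_univ_two, Lq_vol_R, if_true, Fin.isValue, one_ne_zero, if_false, neg_sq,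
    Real.cos_sq_add_sin_sq]
  simp

theorem Lq_vol_sqI {d n : ℕ} (x : Fin d → ℝ) :
    ∑ i : (layer d n) × Fin 2, Lq_vol_I x i ^ 2 = (layer d n).card := by
  rw [Fintype.sum_prod_type]
  simp only [Fin.sum_univ_two, Lq_vol_I, if_true, Fin.isValue, one_ne_zero, if_false,
    Real.sin_sq_add_cos_sq]
  simp

theorem Lq_vol_pw (q : ℝ) (hq : 1 ≤ q) (t : ℝ) (ht : 0 ≤ t) :
    t ^ q ≤ (Nat.factorial ⌈q⌉₊ : ℝ) * Real.exp t := by
  have hf : (1:ℝ) ≤ (Nat.factorial ⌈q⌉₊ : ℝ) := by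
    exact_mod_cast Nat.one_le_iff_ne_zero.2 (Nat.factorial_ne_zero _)
  by_cases h1 : t ≤ 1
  · have h2 : t ^ q ≤ 1 := Real.rpow_le_one ht h1 (by linarith)
    have h3 : 1 ≤ Real.exp t := Real.one_le_exp ht
    nlinarith
  · push Not at h1
    have h2 : t ^ q ≤ t ^ (⌈q⌉₊ : ℝ) := Real.rpow_le_rpow_of_exponent_le h1.le (Nat.le_ceil q)
    rw [Real.rpow_natCast] at h2
    have h3 := Real.pow_div_factorial_le_exp t ht ⌈q⌉₊
    rw [div_le_iff₀ (by linarith)] at h3
    linarith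

theorem Lq_vol_point {d n : ℕ} (q : ℝ) (hq : 1 ≤ q) (hM : 0 < (layer d n).card)
    (a : (layer d n) × Fin 2 → ℝ) (x : Fin d → ℝ) :
    ‖poly a x‖ ^ q ≤ Real.sqrt ((layer d n).card) ^ q * (Nat.factorial ⌈q⌉₊ : ℝ) / 2 *
      (Real.exp (∑ i, (2 / Real.sqrt ((layer d n).card) * Lq_vol_R x i) * a i) +
       Real.exp (∑ i, (-2 / Real.sqrt ((layer d n).card) * Lq_vol_R x i) * a i) +
       Real.exp (∑ i, (2 / Real.sqrt ((layer d n).card) * Lq_vol_I x i) * a i) +
       Real.exp (∑ i, (-2 / Real.sqrt ((layer d n).card) * Lq_vol_I x i) * a i)) := by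
  set S := Real.sqrt ((layer d n).card) with hS
  have hSpos : 0 < S := Real.sqrt_pos.2 (by exact_mod_cast hM)
  set u := ∑ i, Lq_vol_R x i * a i with hu
  set v := ∑ i, Lq_vol_I x i * a i with hv
  have hn : ‖poly a x‖ ≤ |u| + |v| := by
    rw [Lq_vol_poly]
    refine (norm_add_le _ _).trans ?_
    rw [norm_mul, Complex.norm_I, mul_one, Complex.norm_real, Complex.norm_real,
      Real.norm_eq_abs, Real.norm_eq_abs]
  have e1 : ∀ (c : ℝ) (g : (layer d n) × Fin 2 → ℝ), ∑ i, (c * g i) * a i = c * ∑ i, g i * a i := by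
    intro c g
    rw [Finset.mul_sum]
    exact Finset.sum_congr rfl fun i _ => by ring
  rw [e1, e1, e1, e1, ← hu, ← hv]
  have h1 : ‖poly a x‖ ^ q = S ^ q * (‖poly a x‖ / S) ^ q := by
    rw [← Real.mul_rpow hSpos.le (by positivity), mul_div_cancel₀ _ hSpos.ne']
  have h2 := Lq_vol_pw q hq (‖poly a x‖ / S) (by positivity)
  have h3 : Real.exp (‖poly a x‖ / S) ≤ Real.exp (|u| / S + |v| / S) := by
    apply Real.exp_le_exp.2
    rw [← add_div]
    exact div_le_div_of_nonneg_right hn hSpos.le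
  have h4 : Real.exp (|u| / S + |v| / S) ≤
      (Real.exp (2 * (|u| / S)) + Real.exp (2 * (|v| / S))) / 2 := by
    rw [Real.exp_add, two_mul, two_mul, Real.exp_add, Real.exp_add]
    nlinarith [sq_nonneg (Real.exp (|u| / S) - Real.exp (|v| / S))]
  have h5 : ∀ w : ℝ, Real.exp (2 * (|w| / S)) ≤ Real.exp (2 / S * w) + Real.exp (-2 / S * w) := by
    intro w
    rcases abs_cases w with ⟨h, _⟩ | ⟨h, _⟩
    · rw [h]
      have : 2 * (w / S) = 2 / S * w := by ring
      rw [this]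
      linarith [Real.exp_pos (-2 / S * w)]
    · rw [h]
      have : 2 * (-w / S) = -2 / S * w := by ring
      rw [this]
      linarith [Real.exp_pos (2 / S * w)]
  have h6 := h5 u
  have h7 := h5 v
  rw [h1]
  have hSq : 0 ≤ S ^ q := Real.rpow_nonneg hSpos.le _
  have hf : (0:ℝ) ≤ (Nat.factorial ⌈q⌉₊ : ℝ) := Nat.cast_nonneg _
  have h8 : Real.exp (‖poly a x‖ / S) ≤ (Real.exp (2 / S * u) + Real.exp (-2 / S * u) +
      Real.exp (2 / S * v) + Real.exp (-2 / S * v)) / 2 := by linarith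
  calc S ^ q * (‖poly a x‖ / S) ^ q
      ≤ S ^ q * ((Nat.factorial ⌈q⌉₊ : ℝ) * Real.exp (‖poly a x‖ / S)) :=
        mul_le_mul_of_nonneg_left h2 hSq
    _ ≤ S ^ q * ((Nat.factorial ⌈q⌉₊ : ℝ) * ((Real.exp (2 / S * u) + Real.exp (-2 / S * u) +
      Real.exp (2 / S * v) + Real.exp (-2 / S * v)) / 2)) :=
        mul_le_mul_of_nonneg_left (mul_le_mul_of_nonneg_left h8 hf) hSq
    _ = _ := by ring

theorem Lq_vol_lin {α : Type} [MeasurableSpace α] (μ : Measure α) (c : ℝ≥0∞)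
    {f1 f2 f3 f4 : α → ℝ≥0∞} (h1 : Measurable f1) (h2 : Measurable f2) (h3 : Measurable f3)
    (h4 : Measurable f4) : ∫⁻ a, c * (f1 a + f2 a + f3 a + f4 a) ∂μ =
      c * (∫⁻ a, f1 a ∂μ + ∫⁻ a, f2 a ∂μ + ∫⁻ a, f3 a ∂μ + ∫⁻ a, f4 a ∂μ) := by
  have m2 : Measurable fun a => f1 a + f2 a := h1.add h2
  have m3 : Measurable fun a => f1 a + f2 a + f3 a := m2.add h3
  have m4 : Measurable fun a => f1 a + f2 a + f3 a + f4 a := m3.add h4
  rw [lintegral_const_mul c m4, lintegral_add_left m3, lintegral_add_left m2,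
    lintegral_add_left h1]

/-- uniform measure on the cube -/
noncomputable abbrev Lq_vol_nu (d n : ℕ) : Measure ((layer d n) × Fin 2 → ℝ) :=
  Measure.pi (fun _ => (volume : Measure ℝ).restrict (Set.Icc (-1) 1))

theorem Lq_vol_exp {d n : ℕ} (hM : 0 < (layer d n).card) (c : ℝ) (hc : c ^ 2 = 4)
    (g : (layer d n) × Fin 2 → ℝ) (hg : ∑ i, g i ^ 2 = (layer d n).card) :
    ∫⁻ a, ENNReal.ofReal (Real.exp (∑ i, (c / Real.sqrt ((layer d n).card) * g i) * a i))
      ∂(Lq_vol_nu d n) ≤ ENNReal.ofReal (2 ^ (2 * (layer d n).card) * Real.exp 2) := by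
  refine (Lq_vol_prod _).trans (le_of_eq ?_)
  have hM' : (0:ℝ) < (layer d n).card := by exact_mod_cast hM
  have e1 : ∑ i, (c / Real.sqrt ((layer d n).card) * g i) ^ 2 = 4 := by
    have : ∀ i, (c / Real.sqrt ((layer d n).card) * g i) ^ 2 = 4 / (layer d n).card * g i ^ 2 := by
      intro i
      rw [mul_pow, div_pow, Real.sq_sqrt hM'.le, hc]
    simp only [this]
    rw [← Finset.mul_sum, hg]
    field_simp
  rw [e1]
  congr 2
  · simp [mul_comm]
  · norm_num

theorem Lq_vol_mom {d n : ℕ} (q : ℝ) (hq : 1 ≤ q) (hM : 0 < (layer d n).card) (x : Fin d → ℝ) :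
    ∫⁻ a, ENNReal.ofReal (‖poly a x‖ ^ q) ∂(Lq_vol_nu d n) ≤
      ENNReal.ofReal (2 * Real.exp 2 * (Nat.factorial ⌈q⌉₊ : ℝ) *
        Real.sqrt ((layer d n).card) ^ q * 2 ^ (2 * (layer d n).card)) := by
  set S := Real.sqrt ((layer d n).card) with hS
  have hSpos : 0 < S := Real.sqrt_pos.2 (by exact_mod_cast hM)
  have hSq : 0 ≤ S ^ q := Real.rpow_nonneg hSpos.le _
  have hK : (0:ℝ) ≤ S ^ q * (Nat.factorial ⌈q⌉₊ : ℝ) / 2 := by positivity
  have hm : ∀ g : (layer d n) × Fin 2 → ℝ, Measurable fun a : (layer d n) × Fin 2 → ℝ =>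
      ENNReal.ofReal (Real.exp (∑ i, g i * a i)) := by
    intro g
    fun_prop
  calc ∫⁻ a, ENNReal.ofReal (‖poly a x‖ ^ q) ∂(Lq_vol_nu d n)
      ≤ ∫⁻ a, ENNReal.ofReal (S ^ q * (Nat.factorial ⌈q⌉₊ : ℝ) / 2) *
      (ENNReal.ofReal (Real.exp (∑ i, (2 / S * Lq_vol_R x i) * a i)) +
       ENNReal.ofReal (Real.exp (∑ i, (-2 / S * Lq_vol_R x i) * a i)) +
       ENNReal.ofReal (Real.exp (∑ i, (2 / S * Lq_vol_I x i) * a i)) +
       ENNReal.ofReal (Real.exp (∑ i, (-2 / S * Lq_vol_I x i) * a i))) ∂(Lq_vol_nu d n) := by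
        refine lintegral_mono fun a => ?_
        rw [← ENNReal.ofReal_add (Real.exp_pos _).le (Real.exp_pos _).le,
          ← ENNReal.ofReal_add (by positivity) (Real.exp_pos _).le,
          ← ENNReal.ofReal_add (by positivity) (Real.exp_pos _).le,
          ← ENNReal.ofReal_mul hK]
        exact ENNReal.ofReal_le_ofReal (Lq_vol_point q hq hM a x)
    _ = ENNReal.ofReal (S ^ q * (Nat.factorial ⌈q⌉₊ : ℝ) / 2) *
      (∫⁻ a, ENNReal.ofReal (Real.exp (∑ i, (2 / S * Lq_vol_R x i) * a i)) ∂(Lq_vol_nu d n) +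
       ∫⁻ a, ENNReal.ofReal (Real.exp (∑ i, (-2 / S * Lq_vol_R x i) * a i)) ∂(Lq_vol_nu d n) +
       ∫⁻ a, ENNReal.ofReal (Real.exp (∑ i, (2 / S * Lq_vol_I x i) * a i)) ∂(Lq_vol_nu d n) +
       ∫⁻ a, ENNReal.ofReal (Real.exp (∑ i, (-2 / S * Lq_vol_I x i) * a i)) ∂(Lq_vol_nu d n)) := by
        exact Lq_vol_lin _ _ (hm _) (hm _) (hm _) (hm _)
    _ ≤ ENNReal.ofReal (S ^ q * (Nat.factorial ⌈q⌉₊ : ℝ) / 2) *
      (ENNReal.ofReal (2 ^ (2 * (layer d n).card) * Real.exp 2) +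
       ENNReal.ofReal (2 ^ (2 * (layer d n).card) * Real.exp 2) +
       ENNReal.ofReal (2 ^ (2 * (layer d n).card) * Real.exp 2) +
       ENNReal.ofReal (2 ^ (2 * (layer d n).card) * Real.exp 2)) := by
        gcongr
        · exact Lq_vol_exp hM 2 (by norm_num) _ (Lq_vol_sqR x)
        · exact Lq_vol_exp hM (-2) (by norm_num) _ (Lq_vol_sqR x)
        · exact Lq_vol_exp hM 2 (by norm_num) _ (Lq_vol_sqI x)
        · exact Lq_vol_exp hM (-2) (by norm_num) _ (Lq_vol_sqI x)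
    _ = _ := by
        rw [← ENNReal.ofReal_add (by positivity) (by positivity),
          ← ENNReal.ofReal_add (by positivity) (by positivity),
          ← ENNReal.ofReal_add (by positivity) (by positivity),
          ← ENNReal.ofReal_mul hK]
        congr 1
        ring

theorem Lq_vol_cont {d n : ℕ} : Continuous (fun p : ((layer d n) × Fin 2 → ℝ) × (Fin d → ℝ) =>
    poly p.1 p.2) := by
  unfold poly
  fun_prop


theorem Lq_vol34 (d : ℕ) (q : ℝ) (hq : 1 ≤ q) : ∃ C : ℝ, 0 < C ∧ ∀ n : ℕ,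
    ENNReal.ofReal (2^(2 * (layer d n).card) * (3 / 4)) ≤
      volume {a : (layer d n) × Fin 2 → ℝ | (∀ i, |a i| ≤ 1) ∧
        eLpNorm (poly a) (ENNReal.ofReal q) (TP d) ≤ ENNReal.ofReal (C * Real.sqrt ((layer d n).card))} := by
  have := TP_prob d
  set c : ℝ := 2 * Real.exp 2 * (Nat.factorial ⌈q⌉₊ : ℝ) with hc
  have hf : (1:ℝ) ≤ (Nat.factorial ⌈q⌉₊ : ℝ) := by
    exact_mod_cast Nat.one_le_iff_ne_zero.2 (Nat.factorial_ne_zero _)
  have he : (1:ℝ) ≤ Real.exp 2 := Real.one_le_exp (by norm_num)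
  have hc1 : 1 ≤ c := by
    rw [hc]
    nlinarith
  have hq0 : ENNReal.ofReal q ≠ 0 := by
    simp only [ne_eq, ENNReal.ofReal_eq_zero, not_le]
    linarith
  refine ⟨4 * c, by linarith, fun n => ?_⟩
  rcases Nat.eq_zero_or_pos (layer d n).card with hM | hM
  · have hempty : IsEmpty ((layer d n) × Fin 2) := by
      have : layer d n = ∅ := Finset.card_eq_zero.1 hM
      refine ⟨fun i => ?_⟩
      exact Finset.ne_empty_of_mem i.1.2 this
    have hset : {a : (layer d n) × Fin 2 → ℝ | (∀ i, |a i| ≤ 1) ∧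
        eLpNorm (poly a) (ENNReal.ofReal q) (TP d) ≤
          ENNReal.ofReal (4 * c * Real.sqrt ((layer d n).card))} = Set.univ := by
      ext a
      simp only [Set.mem_univ, iff_true, Set.mem_ofPred_eq]
      refine ⟨fun i => (hempty.false i).elim, ?_⟩
      have hp : poly a = 0 := by
        funext x
        rw [Lq_vol_poly]
        simp
      rw [hp, eLpNorm_zero]
      exact bot_le
    rw [hset, hM, volume_pi, Measure.pi_univ]
    simp only [mul_zero, pow_zero, Finset.univ_eq_empty, Finset.prod_empty]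
    rw [← ENNReal.ofReal_one]
    exact ENNReal.ofReal_le_ofReal (by norm_num)
  · set S := Real.sqrt ((layer d n).card) with hS
    have hSpos : 0 < S := Real.sqrt_pos.2 (by exact_mod_cast hM)
    have hSq : 0 < S ^ q := Real.rpow_pos_of_pos hSpos _
    have hνeq : Lq_vol_nu d n = volume.restrict (Set.univ.pi fun _ => Set.Icc (-1:ℝ) 1) := by
      rw [volume_pi, Measure.restrict_pi_pi]
    have hGm : Measurable (fun a : (layer d n) × Fin 2 → ℝ =>
        ∫⁻ x, ENNReal.ofReal (‖poly a x‖ ^ q) ∂(TP d)) := by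
      apply Measurable.lintegral_prod_right'
        (f := fun p : ((layer d n) × Fin 2 → ℝ) × (Fin d → ℝ) => ENNReal.ofReal (‖poly p.1 p.2‖ ^ q))
      exact ENNReal.measurable_ofReal.comp
        ((Lq_vol_cont.norm.measurable).pow_const q)
    have hfub : ∫⁻ a, ∫⁻ x, ENNReal.ofReal (‖poly a x‖ ^ q) ∂(TP d) ∂(Lq_vol_nu d n) ≤
        ENNReal.ofReal (c * S ^ q * 2 ^ (2 * (layer d n).card)) := by
      rw [lintegral_lintegral_swap]
      · calc ∫⁻ x, ∫⁻ a, ENNReal.ofReal (‖poly a x‖ ^ q) ∂(Lq_vol_nu d n) ∂(TP d)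
            ≤ ∫⁻ x, ENNReal.ofReal (c * S ^ q * 2 ^ (2 * (layer d n).card)) ∂(TP d) :=
              lintegral_mono fun x => Lq_vol_mom q hq hM x
          _ = _ := by
              rw [lintegral_const, measure_univ, mul_one]
      · exact (ENNReal.measurable_ofReal.comp
          ((Lq_vol_cont.norm.measurable).pow_const q)).aemeasurable
    have hmark := mul_meas_ge_le_lintegral (μ := Lq_vol_nu d n) hGm
      (ENNReal.ofReal (4 * c * S ^ q))
    have hbad : Lq_vol_nu d n {a | ENNReal.ofReal (4 * c * S ^ q) ≤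
        ∫⁻ x, ENNReal.ofReal (‖poly a x‖ ^ q) ∂(TP d)} ≤
        ENNReal.ofReal (2 ^ (2 * (layer d n).card) / 4) := by
      have h1 := hmark.trans hfub
      have e1 : ENNReal.ofReal (c * S ^ q * 2 ^ (2 * (layer d n).card)) =
          ENNReal.ofReal (4 * c * S ^ q) * ENNReal.ofReal (2 ^ (2 * (layer d n).card) / 4) := by
        rw [← ENNReal.ofReal_mul (by positivity)]
        congr 1
        ring
      rw [e1] at h1
      have h2 : ENNReal.ofReal (4 * c * S ^ q) ≠ 0 := by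
        simp only [ne_eq, ENNReal.ofReal_eq_zero, not_le]
        positivity
      exact (ENNReal.mul_le_mul_iff_right h2 ENNReal.ofReal_ne_top).1 h1
    have hcube : (volume : Measure ((layer d n) × Fin 2 → ℝ))
        (Set.univ.pi fun _ => Set.Icc (-1:ℝ) 1) = ENNReal.ofReal (2 ^ (2 * (layer d n).card)) := by
      rw [volume_pi, Measure.pi_pi]
      simp only [Real.volume_Icc, Finset.prod_const, Finset.card_univ]
      rw [← ENNReal.ofReal_pow (by norm_num)]
      congr 1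
      rw [Fintype.card_prod, Fintype.card_coe, Fintype.card_fin, mul_comm]
      norm_num
    have hsub : (Set.univ.pi fun _ => Set.Icc (-1:ℝ) 1 : Set ((layer d n) × Fin 2 → ℝ)) ⊆
        {a : (layer d n) × Fin 2 → ℝ | (∀ i, |a i| ≤ 1) ∧
          eLpNorm (poly a) (ENNReal.ofReal q) (TP d) ≤ ENNReal.ofReal (4 * c * S)} ∪
        ({a | ENNReal.ofReal (4 * c * S ^ q) ≤
          ∫⁻ x, ENNReal.ofReal (‖poly a x‖ ^ q) ∂(TP d)} ∩
          (Set.univ.pi fun _ => Set.Icc (-1:ℝ) 1)) := by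
      intro a ha
      by_cases hn : eLpNorm (poly a) (ENNReal.ofReal q) (TP d) ≤ ENNReal.ofReal (4 * c * S)
      · exact Or.inl ⟨fun i => abs_le.2 (ha i (Set.mem_univ i)), hn⟩
      · refine Or.inr ⟨?_, ha⟩
        push Not at hn
        show ENNReal.ofReal (4 * c * S ^ q) ≤ ∫⁻ x, ENNReal.ofReal (‖poly a x‖ ^ q) ∂(TP d)
        rw [eLpNorm_eq_lintegral_rpow_enorm_toReal hq0 ENNReal.ofReal_ne_top,
          ENNReal.toReal_ofReal (by linarith)] at hn
        have h1 : ENNReal.ofReal (4 * c * S) ^ q ≤ ∫⁻ x, ‖poly a x‖ₑ ^ q ∂(TP d) := by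
          have := ENNReal.rpow_le_rpow hn.le (by linarith : 0 ≤ q)
          rwa [← ENNReal.rpow_mul, one_div, inv_mul_cancel₀ (by linarith), ENNReal.rpow_one] at this
        have h2 : ∀ x, ‖poly a x‖ₑ ^ q = ENNReal.ofReal (‖poly a x‖ ^ q) := by
          intro x
          rw [← ofReal_norm, ENNReal.ofReal_rpow_of_nonneg (norm_nonneg _) (by linarith)]
        simp only [h2] at h1
        refine le_trans ?_ h1
        rw [ENNReal.ofReal_rpow_of_nonneg (by positivity) (by linarith),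
          Real.mul_rpow (by positivity) hSpos.le]
        refine ENNReal.ofReal_le_ofReal (mul_le_mul_of_nonneg_right ?_ hSq.le)
        calc 4 * c = (4 * c) ^ (1:ℝ) := (Real.rpow_one _).symm
          _ ≤ (4 * c) ^ q := Real.rpow_le_rpow_of_exponent_le (by linarith) hq
    have hle := (measure_mono hsub).trans (measure_union_le (μ := volume) _ _)
    have hbad' : (volume : Measure ((layer d n) × Fin 2 → ℝ)) ({a | ENNReal.ofReal (4 * c * S ^ q) ≤
          ∫⁻ x, ENNReal.ofReal (‖poly a x‖ ^ q) ∂(TP d)} ∩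
          (Set.univ.pi fun _ => Set.Icc (-1:ℝ) 1)) ≤
        ENNReal.ofReal (2 ^ (2 * (layer d n).card) / 4) := by
      rw [hνeq, Measure.restrict_apply (measurableSet_le measurable_const hGm)] at hbad
      exact hbad
    rw [hcube] at hle
    have h2 := hle.trans (add_le_add_right hbad' _)
    have e2 : ENNReal.ofReal (2 ^ (2 * (layer d n).card)) =
        ENNReal.ofReal (2 ^ (2 * (layer d n).card) * (3 / 4)) +
          ENNReal.ofReal (2 ^ (2 * (layer d n).card) / 4) := by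
      rw [← ENNReal.ofReal_add (by positivity) (by positivity)]
      congr 1
      ring
    rw [e2] at h2
    exact (ENNReal.add_le_add_iff_right ENNReal.ofReal_ne_top).1 h2



open scoped Pointwise in
theorem vol_lower4 (d : ℕ) (hd : 1 ≤ d) : ∃ c C : ℝ, 0 < c ∧ 0 < C ∧ ∀ n : ℕ, 1 ≤ n →
    ENNReal.ofReal ((c * (Real.sqrt (2^n * (n:ℝ)^d))⁻¹)^(2 * (layer d n).card)) ≤
      volume {a : (layer d n) × Fin 2 → ℝ | a ∈ ball d n ∧
        eLpNorm (poly a) 4 (TP d) ≤ ENNReal.ofReal (C / Real.sqrt n)} := by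
  obtain ⟨C, hC, hup⟩ := shp_upper d hd
  obtain ⟨c', hc', hlow⟩ := shp_lower d hd
  obtain ⟨D, hD, hLq⟩ := Lq_vol34 d 4 (by norm_num)
  obtain ⟨K, hK⟩ : ∃ K : ℝ, K = 3 * (d : ℝ) ^ 2 + 5 * d + 4 := ⟨_, rfl⟩
  have hK0 : 0 < K := by rw [hK]; positivity
  obtain ⟨L, hL⟩ : ∃ L : ℝ, L = 2 * Real.sqrt (2 * C * K) + 1 := ⟨_, rfl⟩
  have hL0 : 0 < L := by rw [hL]; positivity
  have hL1 : 1 ≤ L := by rw [hL]; linarith [Real.sqrt_nonneg (2 * C * K)]
  refine ⟨L⁻¹, D * Real.sqrt C, inv_pos.2 hL0, by positivity, fun n hn => ?_⟩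
  have hn' : (1 : ℝ) ≤ n := by exact_mod_cast hn
  obtain ⟨S, hS⟩ : ∃ S : ℝ, S = Real.sqrt (2^n * (n:ℝ)^d) := ⟨_, rfl⟩
  have hS1 : 1 ≤ S := by
    rw [hS]
    refine Real.one_le_sqrt.2 ?_
    exact one_le_mul_of_one_le_of_one_le (one_le_pow₀ (by norm_num)) (one_le_pow₀ hn')
  rw [← hS]
  obtain ⟨m, hm⟩ : ∃ m : ℕ, m = (n + 1) * d + d + n + 4 := ⟨_, rfl⟩
  have hQ : 0 < 2 ^ m := by positivity
  let g : (Fin d → Fin (2 ^ m)) → Fin d → ℝ := fun x j => 2 * π * ((x j : ℕ) : ℝ) / ((2 ^ m : ℕ) : ℝ)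
  have hshp : 0 < (shp d n : ℝ) := lt_of_lt_of_le (by positivity) (hlow n hn)
  have hM : 0 < ((layer d n).card : ℝ) := by
    rw [card_layer]
    push_cast
    positivity
  have hMpos : 0 < (layer d n).card := by exact_mod_cast hM
  have : NeZero (2 ^ m) := ⟨hQ.ne'⟩
  have hvol := rand_vol34 (vl_b g) ((layer d n).card : ℝ) hM (vl_b_sq (n := n) g)
  obtain ⟨R, hR⟩ : ∃ R : ℝ, R = Real.sqrt (2 * ((layer d n).card : ℝ) *
      Real.log (8 * (Fintype.card ((Fin d → Fin (2 ^ m)) × Fin 2) : ℝ))) := ⟨_, rfl⟩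
  rw [← hR] at hvol
  have h5 : (n : ℝ) ^ d = (n : ℝ) ^ (d - 1) * n := by
    rw [← pow_succ]
    congr 1
    omega
  have hcl : ((layer d n).card : ℝ) ≤ 2 ^ n * (C * (n : ℝ) ^ (d - 1)) := by
    rw [card_layer]
    push_cast
    exact mul_le_mul_of_nonneg_left (hup n hn) (by positivity)
  have hRle : R ≤ Real.sqrt (2 * C * K) * S := by
    rw [hR, hS, ← Real.sqrt_mul (by positivity)]
    refine Real.sqrt_le_sqrt ?_
    have h2 : Real.log (8 * (Fintype.card ((Fin d → Fin (2 ^ m)) × Fin 2) : ℝ)) ≤ (n : ℝ) * K := by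
      rw [hm, hK]
      exact vl_log d n hn
    have h3 : 0 ≤ Real.log (8 * (Fintype.card ((Fin d → Fin (2 ^ m)) × Fin 2) : ℝ)) := by
      refine Real.log_nonneg ?_
      have h4 : (1 : ℝ) ≤ (Fintype.card ((Fin d → Fin (2 ^ m)) × Fin 2) : ℝ) := by
        exact_mod_cast Fintype.card_pos
      linarith
    calc 2 * ((layer d n).card : ℝ) * Real.log (8 *
          (Fintype.card ((Fin d → Fin (2 ^ m)) × Fin 2) : ℝ)) ≤
          2 * (2 ^ n * (C * (n : ℝ) ^ (d - 1))) * ((n : ℝ) * K) :=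
          mul_le_mul (mul_le_mul_of_nonneg_left hcl (by norm_num)) h2 h3 (by positivity)
      _ = 2 * C * K * (2 ^ n * (n : ℝ) ^ d) := by rw [h5]; ring
  -- bound for the L_4 norm
  have hsq : Real.sqrt ((layer d n).card : ℝ) ≤ S * (Real.sqrt C / Real.sqrt n) := by
    rw [← Real.sqrt_div' _ (by linarith), hS, ← Real.sqrt_mul (by positivity)]
    refine Real.sqrt_le_sqrt (hcl.trans (le_of_eq ?_))
    rw [h5]
    field_simp
  obtain ⟨A, hA⟩ : ∃ A : Set ((layer d n) × Fin 2 → ℝ), A = {a : (layer d n) × Fin 2 → ℝ |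
      (∀ i, |a i| ≤ 1) ∧ ∀ x, |∑ i, a i * vl_b g i x| ≤ R} := ⟨_, rfl⟩
  obtain ⟨B, hB⟩ : ∃ B : Set ((layer d n) × Fin 2 → ℝ), B = {a : (layer d n) × Fin 2 → ℝ |
      (∀ i, |a i| ≤ 1) ∧ eLpNorm (poly a) (ENNReal.ofReal 4) (TP d) ≤
        ENNReal.ofReal (D * Real.sqrt ((layer d n).card))} := ⟨_, rfl⟩
  have hvB := hLq n
  rw [← hA] at hvol
  rw [← hB] at hvB
  have hN2 : Fintype.card ((layer d n) × Fin 2) = 2 * (layer d n).card := by
    rw [Fintype.card_prod, Fintype.card_fin, Fintype.card_coe]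
    ring
  have hAm : MeasurableSet A := by
    have e : A = (⋂ i, {a : (layer d n) × Fin 2 → ℝ | |a i| ≤ 1}) ∩
        ⋂ x, {a : (layer d n) × Fin 2 → ℝ | |∑ i, a i * vl_b g i x| ≤ R} := by
      rw [hA]
      ext a
      simp only [Set.mem_ofPred_eq, Set.mem_inter_iff, Set.mem_iInter]
    rw [e]
    refine MeasurableSet.inter (MeasurableSet.iInter fun i => ?_) (MeasurableSet.iInter fun x => ?_)
    · exact measurableSet_le (by fun_prop) measurable_const
    · exact measurableSet_le (by fun_prop) measurable_const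
  have hcube : volume (A ∪ B) ≤ ENNReal.ofReal (2 ^ (2 * (layer d n).card)) := by
    have hs : A ∪ B ⊆ (Set.univ.pi fun _ => Set.Icc (-1:ℝ) 1) := by
      intro a ha i _
      rcases ha with ha | ha
      · rw [hA] at ha
        exact abs_le.1 (ha.1 i)
      · rw [hB] at ha
        exact abs_le.1 (ha.1 i)
    refine (measure_mono hs).trans (le_of_eq ?_)
    rw [volume_pi, Measure.pi_pi]
    simp only [Real.volume_Icc, Finset.prod_const, Finset.card_univ]
    rw [← ENNReal.ofReal_pow (by norm_num)]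
    congr 1
    rw [hN2]
    norm_num
  have hAB : ENNReal.ofReal (2 ^ (2 * (layer d n).card) / 2) ≤ volume (B ∩ A) := by
    have h1 := measure_union_add_inter (μ := volume) B hAm
    rw [Set.union_comm] at hcube
    have h2 : ENNReal.ofReal (2 ^ (2 * (layer d n).card)) +
        ENNReal.ofReal (2 ^ (2 * (layer d n).card) / 2) ≤
        ENNReal.ofReal (2 ^ (2 * (layer d n).card)) + volume (B ∩ A) := by
      calc ENNReal.ofReal (2 ^ (2 * (layer d n).card)) +
          ENNReal.ofReal (2 ^ (2 * (layer d n).card) / 2)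
          = ENNReal.ofReal (2 ^ (2 * (layer d n).card) * (3 / 4)) +
            ENNReal.ofReal (2 ^ (2 * (layer d n).card) * (3 / 4)) := by
            rw [← ENNReal.ofReal_add (by positivity) (by positivity),
              ← ENNReal.ofReal_add (by positivity) (by positivity)]
            congr 1
            ring
        _ ≤ volume B + volume A := by
            rw [hN2] at hvol
            exact add_le_add hvB hvol
        _ = volume (B ∪ A) + volume (B ∩ A) := h1.symm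
        _ ≤ _ := by gcongr
    exact (ENNReal.add_le_add_iff_left ENNReal.ofReal_ne_top).1 h2
  have hsub : B ∩ A ⊆ (L * S) • {a : (layer d n) × Fin 2 → ℝ | a ∈ ball d n ∧
        eLpNorm (poly a) 4 (TP d) ≤ ENNReal.ofReal (D * Real.sqrt C / Real.sqrt n)} := by
    rintro a ⟨hab, haa⟩
    rw [hA] at haa
    rw [hB] at hab
    obtain ⟨ha1, ha2⟩ := haa
    have hLS : L * S ≠ 0 := by positivity
    rw [Set.mem_smul_set_iff_inv_smul_mem₀ hLS]
    refine ⟨?_, ?_⟩
    · intro y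
      rw [vl_smul, norm_mul, Complex.norm_real, Real.norm_eq_abs, abs_of_pos (by positivity)]
      have hsm := vl_small d n
      rw [← hm] at hsm
      obtain ⟨x, hx⟩ := vl_close (2 ^ m) hQ a ha1 hsm y
      have h1 : ‖poly a (g x)‖ ≤ 2 * R := by
        refine (Complex.norm_le_abs_re_add_abs_im _).trans ?_
        rw [vl_re g a x, vl_im g a x]
        linarith [ha2 (x, 0), ha2 (x, 1)]
      have h2 : ‖poly a y‖ ≤ L * S := by
        have h3 : ‖poly a y‖ ≤ ‖poly a (g x)‖ + 1 := hx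
        rw [hL]
        nlinarith
      rw [inv_mul_le_one₀ (by positivity)]
      exact h2
    · have e1 : poly ((L * S)⁻¹ • a) = (((L * S)⁻¹ : ℝ) : ℂ) • poly a := by
        funext y
        rw [vl_smul]
        rfl
      have e4 : (4:ℝ≥0∞) = ENNReal.ofReal 4 := by simp
      have h1 := hab.2
      rw [e1, eLpNorm_const_smul, e4]
      have e2 : ‖(((L * S)⁻¹ : ℝ) : ℂ)‖ₑ = ENNReal.ofReal ((L * S)⁻¹) := by
        rw [← ofReal_norm, Complex.norm_real, Real.norm_eq_abs, abs_of_pos (by positivity)]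
      rw [e2]
      refine (mul_le_mul_right h1 _).trans ?_
      rw [← ENNReal.ofReal_mul (by positivity)]
      refine ENNReal.ofReal_le_ofReal ?_
      rw [inv_mul_le_iff₀ (by positivity)]
      calc D * Real.sqrt ((layer d n).card : ℝ) ≤ D * (S * (Real.sqrt C / Real.sqrt n)) :=
            mul_le_mul_of_nonneg_left hsq hD.le
        _ = 1 * (S * (D * Real.sqrt C / Real.sqrt n)) := by ring
        _ ≤ L * (S * (D * Real.sqrt C / Real.sqrt n)) :=
            mul_le_mul_of_nonneg_right hL1 (by positivity)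
        _ = _ := by ring
  have h1 := hAB.trans (measure_mono hsub)
  rw [Measure.addHaar_smul] at h1
  have hN : Module.finrank ℝ ((layer d n) × Fin 2 → ℝ) = 2 * (layer d n).card := by
    rw [Module.finrank_fintype_fun_eq_card, Fintype.card_prod, Fintype.card_fin, Fintype.card_coe]
    ring
  rw [hN] at h1
  obtain ⟨N, hNN⟩ : ∃ N, N = 2 * (layer d n).card := ⟨_, rfl⟩
  rw [← hNN] at h1 ⊢
  have hN1 : 1 ≤ N := by omega
  have hpow : (1 : ℝ) ≤ 2 ^ N / 2 := by
    rw [le_div_iff₀ (by norm_num)]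
    calc (1 : ℝ) * 2 = 2 ^ 1 := by norm_num
      _ ≤ 2 ^ N := pow_le_pow_right₀ (by norm_num) hN1
  have hLSN : 0 < (L * S) ^ N := by positivity
  rw [abs_of_pos hLSN] at h1
  obtain ⟨V, hV⟩ : ∃ V : ℝ≥0∞, V = volume {a : (layer d n) × Fin 2 → ℝ | a ∈ ball d n ∧
        eLpNorm (poly a) 4 (TP d) ≤ ENNReal.ofReal (D * Real.sqrt C / Real.sqrt n)} := ⟨_, rfl⟩
  rw [← hV] at h1 ⊢
  have h2 : (1 : ℝ≥0∞) ≤ ENNReal.ofReal ((L * S) ^ N) * V := by
    refine le_trans ?_ h1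
    rw [← ENNReal.ofReal_one]
    exact ENNReal.ofReal_le_ofReal hpow
  have h3 : (L⁻¹ * S⁻¹) ^ N = ((L * S) ^ N)⁻¹ := by
    rw [← inv_pow, mul_inv]
  rw [h3, ENNReal.ofReal_inv_of_pos hLSN]
  have hne : ENNReal.ofReal ((L * S) ^ N) ≠ 0 := by
    rw [ne_eq, ENNReal.ofReal_eq_zero, not_le]
    exact hLSN
  calc (ENNReal.ofReal ((L * S) ^ N))⁻¹ = (ENNReal.ofReal ((L * S) ^ N))⁻¹ * 1 := (mul_one _).symm
    _ ≤ (ENNReal.ofReal ((L * S) ^ N))⁻¹ * (ENNReal.ofReal ((L * S) ^ N) * V) := by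
        gcongr
    _ = V := by
        rw [← mul_assoc, ENNReal.inv_mul_cancel hne ENNReal.ofReal_ne_top, one_mul]

end Sol_vol_lower4

alias vol_lower4 := Sol_vol_lower4.vol_lower4

end MWidth
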