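import Pool.Agent.HypVol.Defs
import Pool.Agent.MWidth.Defs
import Pool.Agent.MWidth.L_lower_cover1
import Pool.Agent.MWidth.L_k_num_low1
open MeasureTheory Real ProbabilityTheory
open scoped ENNReal BigOperators

namespace MWidth
open HypVol
namespace Sol_lower_W1









theorem lower_W1 (d : ℕ) (hd : 1 ≤ d) (p : ℝ) (hp : 1 ≤ p) (a b : ℝ) (ha : 0 < a) : ∃ c : ℝ, 0 < c ∧
    ∀ k : ℕ, 2 ≤ k → ENNReal.ofReal (c * (k:ℝ)^(-a) * (Real.log k)^(((d:ℝ)-1) * (a + b) - 1/2))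
      ≤ entP d p k (Wab d a b) := by
  obtain ⟨c0, hc0, h1⟩ := lower_cover1 d hd p hp a b
  obtain ⟨c, hc, h2⟩ := k_num_low1 d hd a (((d:ℝ)-1) * b) c0 ha hc0
  refine ⟨c, hc, fun k hk => ?_⟩
  unfold entP
  refine le_iInf₂ (fun ε hε => ?_)
  by_cases htop : ε = ⊤
  · rw [htop]; exact le_top
  · obtain ⟨n, hn, hkn, hle⟩ := h2 k hk
    obtain ⟨hε0, cc, hcc, hcov⟩ := hε
    have hpos : 0 < ε.toReal := ENNReal.toReal_pos hε0.ne' htop
    have h3 := h1 n k ε.toReal hn hpos hkn ⟨cc, hcc, by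
      rw [ENNReal.ofReal_toReal htop]; exact hcov⟩
    apply ENNReal.ofReal_le_of_le_toReal
    have e : ((d:ℝ)-1) * (a + b) - 1/2 = ((d:ℝ)-1) * a + ((d:ℝ)-1) * b - 1/2 := by ring
    rw [e]
    exact hle.trans h3

end Sol_lower_W1

alias lower_W1 := Sol_lower_W1.lower_W1

end MWidth
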