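import Pool.Agent.HypVol.Defs
import Pool.Agent.MWidth.Defs
import Pool.Agent.MWidth.Defs2
import Pool.Agent.HypVol.L_TP_prob
import Pool.Agent.HypVol.L_fc_poly
import Pool.Agent.HypVol.L_card_layer
import Pool.Agent.HypVol.L_shp_lower
import Pool.Agent.HypVol.L_shp_upper
import Pool.Agent.MWidth.L_lower_vol
import Pool.Agent.MWidth.L_vol_lower4
import Pool.Agent.MWidth.L_k_num_low1
open MeasureTheory Real ProbabilityTheory
open scoped ENNReal BigOperators

namespace MWidth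
open HypVol
namespace Sol_lower_bar











theorem hv_one_753 (m : ℤ) :
    ∫ x : ℝ, Complex.exp (Complex.I * ((((m : ℤ) : ℝ) * x : ℝ) : ℂ))
      ∂(ENNReal.ofReal (2 * π)⁻¹ • (volume : Measure ℝ).restrict (Set.Ico 0 (2 * π))) =
      if m = 0 then 1 else 0 := by
  have hpi : (0 : ℝ) < 2 * π := by positivity
  rw [integral_smul_measure, ENNReal.toReal_ofReal (by positivity),
    integral_Ico_eq_integral_Ioo, ← integral_Ioc_eq_integral_Ioo,
    ← intervalIntegral.integral_of_le hpi.le]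
  by_cases hm : m = 0
  · subst hm
    rw [if_pos rfl]
    have h1 : (fun x : ℝ => Complex.exp (Complex.I * (((((0 : ℤ) : ℤ) : ℝ) * x : ℝ) : ℂ))) =
        fun _ => (1 : ℂ) := by
      funext x
      simp
    rw [h1, intervalIntegral.integral_const, sub_zero, smul_smul, inv_mul_cancel₀ hpi.ne',
      one_smul]
  · rw [if_neg hm]
    have h1 : (fun x : ℝ => Complex.exp (Complex.I * ((((m : ℤ) : ℝ) * x : ℝ) : ℂ))) =
        fun x : ℝ => Complex.exp ((Complex.I * (m : ℂ)) * (x : ℂ)) := by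
      funext x
      congr 1
      push_cast
      ring
    have hc : Complex.I * (m : ℂ) ≠ 0 :=
      mul_ne_zero Complex.I_ne_zero (by exact_mod_cast hm)
    have h2 : Complex.exp (Complex.I * (m : ℂ) * ((2 * π : ℝ) : ℂ)) = 1 := by
      have h3 : Complex.I * (m : ℂ) * ((2 * π : ℝ) : ℂ) =
          (m : ℂ) * (2 * (π : ℂ) * Complex.I) := by
        push_cast
        ring
      rw [h3]
      exact Complex.exp_int_mul_two_pi_mul_I m
    rw [h1, integral_exp_mul_complex hc, h2]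
    simp

theorem hv_orth_753 {d : ℕ} (l k : Fin d → ℤ) :
    ∫ x : Fin d → ℝ, Complex.exp (Complex.I * ((∑ j, (l j : ℝ) * x j : ℝ) : ℂ)) *
      Complex.exp (-(Complex.I * ((∑ j, (k j : ℝ) * x j : ℝ) : ℂ))) ∂(TP d) =
      if l = k then 1 else 0 := by
  have h1 : (fun x : Fin d → ℝ => Complex.exp (Complex.I * ((∑ j, (l j : ℝ) * x j : ℝ) : ℂ)) *
      Complex.exp (-(Complex.I * ((∑ j, (k j : ℝ) * x j : ℝ) : ℂ)))) =
      fun x => ∏ j, Complex.exp (Complex.I * (((((l j - k j : ℤ)) : ℝ) * x j : ℝ) : ℂ)) := by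
    funext x
    rw [← Complex.exp_add, ← Complex.exp_sum]
    congr 1
    push_cast
    rw [Finset.mul_sum, Finset.mul_sum, ← Finset.sum_neg_distrib, ← Finset.sum_add_distrib]
    refine Finset.sum_congr rfl fun j _ => ?_
    ring
  rw [h1]
  haveI : IsFiniteMeasure (ENNReal.ofReal (2 * π)⁻¹ •
      (volume : Measure ℝ).restrict (Set.Ico 0 (2 * π))) := by
    refine ⟨?_⟩
    rw [Measure.smul_apply, smul_eq_mul]
    exact ENNReal.mul_lt_top ENNReal.ofReal_lt_top (by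
      rw [Measure.restrict_apply_univ, Real.volume_Ico]
      exact ENNReal.ofReal_lt_top)
  have h2 := integral_fintype_prod_eq_prod (𝕜 := ℂ) (ι := Fin d) (E := fun _ => ℝ)
    (μ := fun _ => ENNReal.ofReal (2 * π)⁻¹ •
      (volume : Measure ℝ).restrict (Set.Ico 0 (2 * π)))
    (fun j x => Complex.exp (Complex.I * (((((l j - k j : ℤ)) : ℝ) * x : ℝ) : ℂ)))
  rw [TP, h2, Finset.prod_congr rfl fun j _ => hv_one_753 (l j - k j)]
  by_cases h : l = k
  · rw [if_pos h, h]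
    simp
  · rw [if_neg h]
    obtain ⟨j, hj⟩ : ∃ j, l j ≠ k j := by
      by_contra hcon
      push Not at hcon
      exact h (funext hcon)
    exact Finset.prod_eq_zero (Finset.mem_univ j) (if_neg (sub_ne_zero.2 hj))


theorem poly_bd_753 {d n : ℕ} (a : (layer d n) × Fin 2 → ℝ) (x : Fin d → ℝ) :
    ‖poly a x‖ ≤ ∑ k : layer d n, ‖(a (k, 0) : ℂ) + (a (k, 1) : ℂ) * Complex.I‖ := by
  unfold poly
  refine (norm_sum_le _ _).trans (Finset.sum_le_sum fun k _ => ?_)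
  rw [norm_mul, Complex.norm_exp_I_mul_ofReal, mul_one]

theorem poly_cont_753 {d n : ℕ} (a : (layer d n) × Fin 2 → ℝ) : Continuous (poly a) := by
  unfold poly
  fun_prop

theorem poly_int_753 {d n : ℕ} (a : (layer d n) × Fin 2 → ℝ) :
    ∫ x, ‖poly a x‖ ^ 2 ∂(TP d) = ∑ i, a i ^ 2 := by
  haveI := TP_prob d
  have h0 : ((∫ x, ‖poly a x‖ ^ 2 ∂(TP d) : ℝ) : ℂ) =
      ∫ x, poly a x * (starRingEnd ℂ) (poly a x) ∂(TP d) := by
    rw [← integral_complex_ofReal]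
    refine integral_congr_ae (Filter.Eventually.of_forall fun x => ?_)
    simp only
    rw [Complex.mul_conj, Complex.normSq_eq_norm_sq]
  have h1 : ∀ x : Fin d → ℝ, poly a x * (starRingEnd ℂ) (poly a x) =
      ∑ k : layer d n, ∑ l : layer d n,
        (((a (k, 0) : ℂ) + (a (k, 1) : ℂ) * Complex.I) *
          (starRingEnd ℂ) ((a (l, 0) : ℂ) + (a (l, 1) : ℂ) * Complex.I)) *
        (Complex.exp (Complex.I * ((∑ j, (k.1 j : ℝ) * x j : ℝ) : ℂ)) *
          Complex.exp (-(Complex.I * ((∑ j, (l.1 j : ℝ) * x j : ℝ) : ℂ)))) := by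
    intro x
    unfold poly
    rw [map_sum, Finset.sum_mul_sum]
    refine Finset.sum_congr rfl fun k _ => Finset.sum_congr rfl fun l _ => ?_
    rw [map_mul (starRingEnd ℂ), ← Complex.exp_conj, map_mul (starRingEnd ℂ), Complex.conj_I,
      Complex.conj_ofReal, neg_mul]
    ring
  have hI : ∀ k l : layer d n, Integrable (fun x : Fin d → ℝ =>
        (((a (k, 0) : ℂ) + (a (k, 1) : ℂ) * Complex.I) *
          (starRingEnd ℂ) ((a (l, 0) : ℂ) + (a (l, 1) : ℂ) * Complex.I)) *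
        (Complex.exp (Complex.I * ((∑ j, (k.1 j : ℝ) * x j : ℝ) : ℂ)) *
          Complex.exp (-(Complex.I * ((∑ j, (l.1 j : ℝ) * x j : ℝ) : ℂ))))) (TP d) := by
    intro k l
    refine Integrable.const_mul ?_ _
    refine Integrable.of_bound ?_ 1 (Filter.Eventually.of_forall fun x => ?_)
    · refine Continuous.aestronglyMeasurable ?_
      fun_prop
    · rw [norm_mul, Complex.norm_exp_I_mul_ofReal, ← mul_neg, ← Complex.ofReal_neg,
        Complex.norm_exp_I_mul_ofReal, one_mul]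
  have h2 : ∀ k l : layer d n, ∫ x : Fin d → ℝ,
        (((a (k, 0) : ℂ) + (a (k, 1) : ℂ) * Complex.I) *
          (starRingEnd ℂ) ((a (l, 0) : ℂ) + (a (l, 1) : ℂ) * Complex.I)) *
        (Complex.exp (Complex.I * ((∑ j, (k.1 j : ℝ) * x j : ℝ) : ℂ)) *
          Complex.exp (-(Complex.I * ((∑ j, (l.1 j : ℝ) * x j : ℝ) : ℂ)))) ∂(TP d) =
      if k = l then ((a (k, 0) ^ 2 + a (k, 1) ^ 2 : ℝ) : ℂ) else 0 := by
    intro k l
    rw [integral_const_mul, hv_orth_753]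
    by_cases h : k = l
    · subst h
      rw [if_pos rfl, if_pos rfl, mul_one, Complex.mul_conj, Complex.normSq_add_mul_I]
    · rw [if_neg h, if_neg (fun h' => h (Subtype.ext h')), mul_zero]
  have h3 : ∫ x, poly a x * (starRingEnd ℂ) (poly a x) ∂(TP d) =
      ((∑ k : layer d n, (a (k, 0) ^ 2 + a (k, 1) ^ 2) : ℝ) : ℂ) := by
    rw [integral_congr_ae (Filter.Eventually.of_forall h1),
      integral_finsetSum _ fun k _ => integrable_finsetSum _ fun l _ => hI k l]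
    have h4 : ∀ k : layer d n, ∫ x : Fin d → ℝ, ∑ l : layer d n,
        (((a (k, 0) : ℂ) + (a (k, 1) : ℂ) * Complex.I) *
          (starRingEnd ℂ) ((a (l, 0) : ℂ) + (a (l, 1) : ℂ) * Complex.I)) *
        (Complex.exp (Complex.I * ((∑ j, (k.1 j : ℝ) * x j : ℝ) : ℂ)) *
          Complex.exp (-(Complex.I * ((∑ j, (l.1 j : ℝ) * x j : ℝ) : ℂ)))) ∂(TP d) =
        ((a (k, 0) ^ 2 + a (k, 1) ^ 2 : ℝ) : ℂ) := by
      intro k
      rw [integral_finsetSum _ fun l _ => hI k l, Finset.sum_congr rfl fun l _ => h2 k l,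
        Finset.sum_ite_eq Finset.univ k, if_pos (Finset.mem_univ k)]
    rw [Finset.sum_congr rfl fun k _ => h4 k, Complex.ofReal_sum]
  rw [h3] at h0
  have h5 : ∫ x, ‖poly a x‖ ^ 2 ∂(TP d) = ∑ k : layer d n, (a (k, 0) ^ 2 + a (k, 1) ^ 2) := by
    exact_mod_cast h0
  rw [h5, Fintype.sum_prod_type]
  refine Finset.sum_congr rfl fun k _ => ?_
  rw [Fin.sum_univ_two]


theorem poly_sub_753 {d n : ℕ} (a b : (layer d n) × Fin 2 → ℝ) (x : Fin d → ℝ) :
    poly (fun i => a i - b i) x = poly a x - poly b x := by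
  simp only [poly, Complex.ofReal_sub, ← Finset.sum_sub_distrib]
  refine Finset.sum_congr rfl fun k _ => ?_
  ring

theorem rho_unique_753 {s t : ℕ} {k : ℤ} (hs : k ∈ rho s) (ht : k ∈ rho t) : s = t := by
  have key : ∀ s t : ℕ, k ∈ rho s → k ∈ rho t → ¬ s < t := by
    intro s t hs ht hst
    have h1 : |k| < (2 : ℤ) ^ s := hs.2
    have h2 : (2 : ℤ) ^ t / 2 ≤ |k| := ht.1
    obtain ⟨u, rfl⟩ : ∃ u, t = u + 1 := ⟨t - 1, by omega⟩
    have h3 : (2 : ℤ) ^ (u + 1) / 2 = 2 ^ u := by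
      rw [pow_succ]; exact Int.mul_ediv_cancel _ (by norm_num)
    rw [h3] at h2
    have h4 : (2 : ℤ) ^ s ≤ 2 ^ u := pow_le_pow_right₀ (by norm_num) (by omega)
    omega
  rcases lt_trichotomy s t with h | h | h
  · exact absurd h (key s t hs ht)
  · exact h
  · exact absurd h (key t s ht hs)

theorem layer_disj_753 {d n m : ℕ} {k : Fin d → ℤ} (hn : k ∈ layer d n) (hm : k ∈ layer d m) :
    n = m := by
  classical
  unfold layer at hn hm
  obtain ⟨s, hs1, hs2⟩ := (Finset.mem_filter.1 hn).2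
  obtain ⟨t, ht1, ht2⟩ := (Finset.mem_filter.1 hm).2
  have h : s = t := funext fun j => rho_unique_753 (hs2 j) (ht2 j)
  rw [← hs1, ← ht1, h]

theorem fc_poly_out_753 {d n : ℕ} (a : (layer d n) × Fin 2 → ℝ) (k : Fin d → ℤ)
    (hk : k ∉ layer d n) : fc (poly a) k = 0 := by
  haveI := TP_prob d
  unfold fc poly
  have h1 : ∀ x : Fin d → ℝ,
      (∑ l : layer d n, ((a (l, 0) : ℂ) + (a (l, 1) : ℂ) * Complex.I) *
        Complex.exp (Complex.I * ((∑ j, (l.1 j : ℝ) * x j : ℝ) : ℂ))) *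
        Complex.exp (-(Complex.I * ((∑ j, (k j : ℝ) * x j : ℝ) : ℂ))) =
      ∑ l : layer d n, ((a (l, 0) : ℂ) + (a (l, 1) : ℂ) * Complex.I) *
        (Complex.exp (Complex.I * ((∑ j, (l.1 j : ℝ) * x j : ℝ) : ℂ)) *
        Complex.exp (-(Complex.I * ((∑ j, (k j : ℝ) * x j : ℝ) : ℂ)))) := by
    intro x
    rw [Finset.sum_mul]
    exact Finset.sum_congr rfl fun l _ => mul_assoc _ _ _
  rw [integral_congr_ae (Filter.Eventually.of_forall h1)]
  have hI : ∀ l : layer d n, Integrable (fun x : Fin d → ℝ =>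
      ((a (l, 0) : ℂ) + (a (l, 1) : ℂ) * Complex.I) *
        (Complex.exp (Complex.I * ((∑ j, (l.1 j : ℝ) * x j : ℝ) : ℂ)) *
        Complex.exp (-(Complex.I * ((∑ j, (k j : ℝ) * x j : ℝ) : ℂ))))) (TP d) := by
    intro l
    refine Integrable.const_mul ?_ _
    refine Integrable.of_bound ?_ 1 (Filter.Eventually.of_forall fun x => ?_)
    · refine Continuous.aestronglyMeasurable ?_
      fun_prop
    · rw [norm_mul, Complex.norm_exp_I_mul_ofReal, ← mul_neg, ← Complex.ofReal_neg,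
        Complex.norm_exp_I_mul_ofReal, one_mul]
  rw [integral_finsetSum _ fun l _ => hI l]
  refine Finset.sum_eq_zero fun l _ => ?_
  have hne : ¬ ((l : Fin d → ℤ) = k) := fun h => hk (by rw [← h]; exact l.2)
  rw [integral_const_mul, hv_orth_753, if_neg hne, mul_zero]

theorem fc_smul_753 {d n : ℕ} (t : ℝ) (a : (layer d n) × Fin 2 → ℝ) (k : Fin d → ℤ) :
    fc (fun x => (t : ℂ) * poly a x) k = (t : ℂ) * fc (poly a) k := by
  unfold fc
  rw [← integral_const_mul]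
  congr 1
  funext x
  ring

theorem lay_same_753 {d n : ℕ} (t : ℝ) (a : (layer d n) × Fin 2 → ℝ) :
    lay d n (fun x => (t : ℂ) * poly a x) = fun x => (t : ℂ) * poly a x := by
  funext x
  unfold lay
  rw [← Finset.sum_coe_sort]
  have h : ∀ k : layer d n, fc (fun x => (t : ℂ) * poly a x) k.1 *
      Complex.exp (Complex.I * ((∑ j, (k.1 j : ℝ) * x j : ℝ) : ℂ)) =
      (t : ℂ) * (((a (k, 0) : ℂ) + (a (k, 1) : ℂ) * Complex.I) *
        Complex.exp (Complex.I * ((∑ j, (k.1 j : ℝ) * x j : ℝ) : ℂ))) := by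
    intro k
    rw [fc_smul_753, fc_poly]
    ring
  rw [Finset.sum_congr rfl fun k _ => h k, ← Finset.mul_sum]
  rfl

theorem lay_other_753 {d n m : ℕ} (hmn : m ≠ n) (t : ℝ) (a : (layer d n) × Fin 2 → ℝ) :
    lay d m (fun x => (t : ℂ) * poly a x) = fun _ => 0 := by
  funext x
  unfold lay
  refine Finset.sum_eq_zero fun k hk => ?_
  rw [fc_smul_753, fc_poly_out_753 a k (fun h => hmn (layer_disj_753 hk h)), mul_zero, zero_mul]

theorem lam_pos_753 (d : ℕ) (a b : ℝ) (n : ℕ) : 0 < lam d a b n := by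
  unfold lam
  have : (0 : ℝ) < max (n : ℝ) 1 := lt_of_lt_of_le one_pos (le_max_right _ _)
  positivity

theorem mem_Wab_753 {d n : ℕ} (a b : ℝ) (x : (layer d n) × Fin 2 → ℝ) (hx : x ∈ HypVol.ball d n) :
    (fun y => ((lam d a b n : ℝ) : ℂ) * poly x y) ∈ Wab d a b := by
  haveI := TP_prob d
  have hl := lam_pos_753 d a b n
  have hbd : ∀ y, ‖((lam d a b n : ℝ) : ℂ) * poly x y‖ ≤ lam d a b n := by
    intro y
    rw [norm_mul, Complex.norm_real, Real.norm_of_nonneg hl.le]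
    calc lam d a b n * ‖poly x y‖ ≤ lam d a b n * 1 := mul_le_mul_of_nonneg_left (hx y) hl.le
      _ = lam d a b n := mul_one _
  refine ⟨MemLp.of_bound ((continuous_const.mul (poly_cont_753 x)).aestronglyMeasurable)
    (lam d a b n) (Filter.Eventually.of_forall hbd), fun m => ?_⟩
  by_cases hmn : m = n
  · subst hmn
    rw [lay_same_753, eLpNorm_exponent_top]
    exact eLpNormEssSup_le_of_ae_bound (Filter.Eventually.of_forall hbd)
  · rw [lay_other_753 hmn]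
    exact (eLpNorm_zero').le.trans (zero_le)

theorem young_753 (t s : ℝ) (ht : 0 ≤ t) (hs : 0 < s) :
    t ^ 2 ≤ 2 / 3 * s * t + 1 / (3 * s ^ 2) * t ^ 4 := by
  have h : 2 / 3 * s * t + 1 / (3 * s ^ 2) * t ^ 4 - t ^ 2 =
      t / (3 * s ^ 2) * ((t - s) ^ 2 * (t + 2 * s)) := by
    field_simp
    ring
  have h2 : 0 ≤ t / (3 * s ^ 2) * ((t - s) ^ 2 * (t + 2 * s)) := by positivity
  linarith

theorem interp_753 {d n : ℕ} (z : (layer d n) × Fin 2 → ℝ) (A0 B0 s : ℝ) (hA : 0 < A0)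
    (hs : 0 < s) (hsc : s ^ 3 * A0 = B0)
    (h1 : ∫ x, ‖poly z x‖ ∂(TP d) ≤ A0) (h4 : ∫ x, ‖poly z x‖ ^ 4 ∂(TP d) ≤ B0) :
    ∑ i, z i ^ 2 ≤ s * A0 := by
  haveI := TP_prob d
  have hb : ∀ k : ℕ, Integrable (fun x => ‖poly z x‖ ^ k) (TP d) := by
    intro k
    refine Integrable.of_bound (((poly_cont_753 z).norm.pow k).aestronglyMeasurable)
      ((∑ k : layer d n, ‖(z (k, 0) : ℂ) + (z (k, 1) : ℂ) * Complex.I‖) ^ k)
      (Filter.Eventually.of_forall fun x => ?_)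
    rw [norm_pow, norm_norm]
    exact pow_le_pow_left₀ (norm_nonneg _) (poly_bd_753 z x) k
  have hb1 : Integrable (fun x => ‖poly z x‖) (TP d) := by simpa using hb 1
  rw [← poly_int_753]
  have h2 : ∫ x, ‖poly z x‖ ^ 2 ∂(TP d) ≤
      ∫ x, (2 / 3 * s * ‖poly z x‖ + 1 / (3 * s ^ 2) * ‖poly z x‖ ^ 4) ∂(TP d) :=
    integral_mono (hb 2) ((hb1.const_mul _).add ((hb 4).const_mul _))
      (fun x => young_753 _ s (norm_nonneg _) hs)
  rw [integral_add (hb1.const_mul _) ((hb 4).const_mul _), integral_const_mul,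
    integral_const_mul] at h2
  have h5 : 2 / 3 * s * ∫ x, ‖poly z x‖ ∂(TP d) ≤ 2 / 3 * s * A0 :=
    mul_le_mul_of_nonneg_left h1 (by positivity)
  have h6 : 1 / (3 * s ^ 2) * ∫ x, ‖poly z x‖ ^ 4 ∂(TP d) ≤ 1 / (3 * s ^ 2) * B0 :=
    mul_le_mul_of_nonneg_left h4 (by positivity)
  have h7 : 1 / (3 * s ^ 2) * B0 = 1 / 3 * (s * A0) := by
    rw [← hsc]
    field_simp
  rw [h7] at h6
  linarith

theorem int1_753 {d n : ℕ} (z : (layer d n) × Fin 2 → ℝ) (D : ℝ) (hD : 0 ≤ D)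
    (h : eLpNorm (poly z) 1 (TP d) ≤ ENNReal.ofReal D) : ∫ x, ‖poly z x‖ ∂(TP d) ≤ D := by
  haveI := TP_prob d
  have hmem : MemLp (poly z) 1 (TP d) :=
    MemLp.of_bound (poly_cont_753 z).aestronglyMeasurable _
      (Filter.Eventually.of_forall fun x => poly_bd_753 z x)
  rw [hmem.eLpNorm_eq_integral_rpow_norm (by norm_num) (by norm_num)] at h
  simp only [ENNReal.toReal_one, Real.rpow_one, inv_one] at h
  exact (ENNReal.ofReal_le_ofReal_iff hD).1 h

theorem int4_753 {d n : ℕ} (z : (layer d n) × Fin 2 → ℝ) (D : ℝ) (hD : 0 ≤ D)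
    (h : eLpNorm (poly z) 4 (TP d) ≤ ENNReal.ofReal D) :
    ∫ x, ‖poly z x‖ ^ 4 ∂(TP d) ≤ D ^ 4 := by
  haveI := TP_prob d
  have hmem : MemLp (poly z) 4 (TP d) :=
    MemLp.of_bound (poly_cont_753 z).aestronglyMeasurable _
      (Filter.Eventually.of_forall fun x => poly_bd_753 z x)
  rw [hmem.eLpNorm_eq_integral_rpow_norm (by norm_num) (by norm_num)] at h
  have h4 : (4 : ℝ≥0∞).toReal = 4 := by simp
  rw [h4] at h
  have h5 := (ENNReal.ofReal_le_ofReal_iff hD).1 h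
  have h6 : ∫ x, ‖poly z x‖ ^ (4 : ℝ) ∂(TP d) = ∫ x, ‖poly z x‖ ^ 4 ∂(TP d) := by
    refine integral_congr_ae (Filter.Eventually.of_forall fun x => ?_)
    simp only
    exact_mod_cast Real.rpow_natCast (‖poly z x‖) 4
  rw [h6] at h5
  have h7 : (0 : ℝ) ≤ ∫ x, ‖poly z x‖ ^ 4 ∂(TP d) := integral_nonneg fun x => by positivity
  have h8 := pow_le_pow_left₀ (Real.rpow_nonneg h7 _) h5 4
  rw [← Real.rpow_natCast ((∫ x, ‖poly z x‖ ^ 4 ∂(TP d)) ^ (4 : ℝ)⁻¹) 4, ← Real.rpow_mul h7] at h8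
  norm_num at h8
  exact h8

theorem diff_753 {d n : ℕ} (p : ℝ) (hp : 1 ≤ p) (L ε : ℝ) (hL : 0 < L) (hε : 0 < ε)
    (g : (Fin d → ℝ) → ℂ) (hg : MemLp g (ENNReal.ofReal p) (TP d))
    (x y : (layer d n) × Fin 2 → ℝ)
    (hx : eLpNorm (fun t => (L : ℂ) * poly x t - g t) (ENNReal.ofReal p) (TP d) ≤ ENNReal.ofReal ε)
    (hy : eLpNorm (fun t => (L : ℂ) * poly y t - g t) (ENNReal.ofReal p) (TP d) ≤ ENNReal.ofReal ε) :
    eLpNorm (poly (fun i => x i - y i)) 1 (TP d) ≤ ENNReal.ofReal (2 * ε / L) := by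
  haveI := TP_prob d
  have hP1 : (1 : ℝ≥0∞) ≤ ENNReal.ofReal p := by
    rw [← ENNReal.ofReal_one]
    exact ENNReal.ofReal_le_ofReal hp
  have hmx : ∀ w : (layer d n) × Fin 2 → ℝ,
      AEStronglyMeasurable (fun t => (L : ℂ) * poly w t - g t) (TP d) := fun w =>
    ((continuous_const.mul (poly_cont_753 w)).aestronglyMeasurable).sub hg.1
  have h1 := eLpNorm_sub_le (hmx x) (hmx y) hP1
  have h2 : (fun t => (L : ℂ) * poly x t - g t) - (fun t => (L : ℂ) * poly y t - g t) =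
      (L : ℂ) • poly (fun i => x i - y i) := by
    funext t
    simp only [Pi.sub_apply, Pi.smul_apply, smul_eq_mul, poly_sub_753]
    ring
  rw [h2, eLpNorm_const_smul] at h1
  have h3 : ‖(L : ℂ)‖ₑ = ENNReal.ofReal L := by
    rw [← ofReal_norm_eq_enorm, Complex.norm_real, Real.norm_of_nonneg hL.le]
  rw [h3] at h1
  have h4 : eLpNorm (poly (fun i => x i - y i)) 1 (TP d) ≤
      eLpNorm (poly (fun i => x i - y i)) (ENNReal.ofReal p) (TP d) :=
    eLpNorm_le_eLpNorm_of_exponent_le hP1 (poly_cont_753 _).aestronglyMeasurable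
  have h5 : ENNReal.ofReal L * eLpNorm (poly (fun i => x i - y i)) 1 (TP d) ≤
      ENNReal.ofReal (2 * ε) := by
    calc ENNReal.ofReal L * eLpNorm (poly (fun i => x i - y i)) 1 (TP d)
        ≤ ENNReal.ofReal L * eLpNorm (poly (fun i => x i - y i)) (ENNReal.ofReal p) (TP d) :=
          mul_le_mul_right h4 _
      _ ≤ ENNReal.ofReal ε + ENNReal.ofReal ε := h1.trans (add_le_add hx hy)
      _ = ENNReal.ofReal (2 * ε) := by rw [← ENNReal.ofReal_add hε.le hε.le, two_mul]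
  rw [ENNReal.ofReal_div_of_pos hL, ENNReal.le_div_iff_mul_le
    (Or.inl (by simpa using hL)) (Or.inl ENNReal.ofReal_ne_top), mul_comm]
  exact h5

theorem four_753 {d n : ℕ} (D : ℝ) (hD : 0 ≤ D) (x y : (layer d n) × Fin 2 → ℝ)
    (hx : eLpNorm (poly x) 4 (TP d) ≤ ENNReal.ofReal D)
    (hy : eLpNorm (poly y) 4 (TP d) ≤ ENNReal.ofReal D) :
    eLpNorm (poly (fun i => x i - y i)) 4 (TP d) ≤ ENNReal.ofReal (2 * D) := by
  have h2 : poly (fun i => x i - y i) = poly x - poly y := by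
    funext t
    rw [poly_sub_753]; rfl
  rw [h2]
  refine (eLpNorm_sub_le (poly_cont_753 x).aestronglyMeasurable
    (poly_cont_753 y).aestronglyMeasurable (by norm_num)).trans ?_
  refine (add_le_add hx hy).trans (le_of_eq ?_)
  rw [← ENNReal.ofReal_add hD hD, two_mul]

theorem mem_Wbar_753 {d n : ℕ} (hn : 1 ≤ n) (a b : ℝ) (x : (layer d n) × Fin 2 → ℝ)
    (hx : x ∈ HypVol.ball d n) :
    (fun y => ((lam d a b n : ℝ) : ℂ) * poly x y) ∈ Wbar d a b := by
  classical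
  haveI := TP_prob d
  have hl := lam_pos_753 d a b n
  have hbd : ∀ y, ‖((lam d a b n : ℝ) : ℂ) * poly x y‖ ≤ lam d a b n := by
    intro y
    rw [norm_mul, Complex.norm_real, Real.norm_of_nonneg hl.le]
    calc lam d a b n * ‖poly x y‖ ≤ lam d a b n * 1 := mul_le_mul_of_nonneg_left (hx y) hl.le
      _ = lam d a b n := mul_one _
  refine ⟨fun m => if m = n then (fun y => ((lam d a b n : ℝ) : ℂ) * poly x y) else fun _ => 0,
    ?_, ?_⟩
  · intro m hm
    by_cases hmn : m = n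
    · subst hmn
      simp only [if_pos]
      refine ⟨⟨fun k => if h : k ∈ layer d m then ((lam d a b m : ℝ) : ℂ) *
        ((x (⟨k, h⟩, 0) : ℂ) + (x (⟨k, h⟩, 1) : ℂ) * Complex.I) else 0, ?_⟩, ?_⟩
      · funext y
        have hsub : layer d m ⊆ crs d m := by
          unfold crs
          exact Finset.subset_biUnion_of_mem (fun l => layer d l)
            (Finset.mem_range.2 (Nat.lt_succ_self m))
        rw [← Finset.sum_subset hsub]
        · rw [← Finset.sum_coe_sort]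
          unfold poly
          rw [Finset.mul_sum]
          refine Finset.sum_congr rfl fun k _ => ?_
          beta_reduce
          rw [dif_pos k.2]
          ring
        · intro k _ hk
          beta_reduce
          rw [dif_neg hk, zero_mul]
      · rw [eLpNorm_exponent_top]
        exact eLpNormEssSup_le_of_ae_bound (Filter.Eventually.of_forall hbd)
    · simp only [if_neg hmn]
      refine ⟨⟨fun _ => 0, ?_⟩, ?_⟩
      · funext y
        simp
      · exact (eLpNorm_zero').le.trans (zero_le)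
  · funext y
    rw [tsum_eq_single (n - 1)]
    · have h1 : n - 1 + 1 = n := by omega
      beta_reduce
      rw [h1, if_pos rfl]
    · intro m hm
      have h1 : m + 1 ≠ n := by omega
      beta_reduce
      rw [if_neg h1]

theorem lower_cover_bar (d : ℕ) (hd : 1 ≤ d) (p : ℝ) (hp : 1 ≤ p) (a b : ℝ) : ∃ c : ℝ, 0 < c ∧
    ∀ (n k : ℕ) (ε : ℝ), 1 ≤ n → 0 < ε → (k : ℝ) ≤ 2 * (layer d n).card →
      (∃ cc : Fin (2^k) → ((Fin d → ℝ) → ℂ), (∀ j, MemLp (cc j) (ENNReal.ofReal p) (TP d)) ∧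
        ∀ f ∈ Wbar d a b, ∃ j, eLpNorm (fun x => f x - cc j x) (ENNReal.ofReal p) (TP d) ≤ ENNReal.ofReal ε) →
      c * (2:ℝ)^(-(a * n)) * (n:ℝ)^(((d:ℝ)-1) * b - 1/2) ≤ ε := by
  obtain ⟨c0, C, hc0, hC, hvol⟩ := vol_lower4 d hd
  obtain ⟨c1, hc1, hshp⟩ := shp_lower d hd
  refine ⟨Real.sqrt ((c0 ^ 2 * c1 / (4 * π * Real.exp 1)) ^ 3 / (64 * C ^ 4)), by positivity, ?_⟩
  intro n k ε hn hε hk hcov
  obtain ⟨cc, hcc, hcov⟩ := hcov
  have hnr : (1 : ℝ) ≤ n := by exact_mod_cast hn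
  have hn0 : (0 : ℝ) < n := by linarith
  have hL := lam_pos_753 d a b n
  set L := lam d a b n with hLdef
  -- the dimension
  have hshp' := hshp n hn
  have hshpos : (0 : ℝ) < shp d n := lt_of_lt_of_le (by positivity) hshp'
  have hshnat : 0 < shp d n := by exact_mod_cast hshpos
  have hcard := card_layer d n
  have hNcard : Fintype.card ((layer d n) × Fin 2) = 2 * (layer d n).card := by
    rw [Fintype.card_prod, Fintype.card_coe, Fintype.card_fin, mul_comm]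
  have hNpos : 0 < 2 * (layer d n).card := by rw [hcard]; positivity
  -- parameters
  set q := ε / L with hq
  have hq0 : 0 < q := by positivity
  obtain ⟨A0, hA0⟩ : ∃ A0, A0 = 2 * ε / L := ⟨_, rfl⟩
  have hA0pos : 0 < A0 := by rw [hA0]; positivity
  obtain ⟨B0, hB0⟩ : ∃ B0, B0 = (2 * (C / Real.sqrt n)) ^ 4 := ⟨_, rfl⟩
  have hB0pos : 0 < B0 := by rw [hB0]; positivity
  obtain ⟨s, hs⟩ : ∃ s : ℝ, s = (B0 / A0) ^ (1 / 3 : ℝ) := ⟨_, rfl⟩
  have hs0 : 0 < s := by rw [hs]; positivity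
  have hs3 : s ^ 3 * A0 = B0 := by
    rw [hs, ← Real.rpow_natCast, ← Real.rpow_mul (by positivity)]
    norm_num
    field_simp
  obtain ⟨R, hR⟩ : ∃ R : ℝ, R = Real.sqrt (s * A0) := ⟨_, rfl⟩
  have hR0 : 0 < R := by rw [hR]; positivity
  have hR2 : R ^ 2 = s * A0 := by rw [hR]; exact Real.sq_sqrt (by positivity)
  have hR6 : (R ^ 2) ^ 3 = 64 * C ^ 4 * q ^ 2 / (n : ℝ) ^ 2 := by
    have hsq : Real.sqrt n ^ 4 = (n : ℝ) ^ 2 := by
      rw [show (4 : ℕ) = 2 * 2 by norm_num, pow_mul, Real.sq_sqrt hn0.le]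
    rw [hR2, mul_pow]
    have h1 : s ^ 3 * A0 ^ 3 = B0 * A0 ^ 2 := by rw [← hs3]; ring
    rw [h1, hB0, hA0, hq, mul_pow, div_pow, hsq]
    field_simp
    ring
  -- covering
  set V : Set ((layer d n) × Fin 2 → ℝ) := {a | a ∈ HypVol.ball d n ∧
    eLpNorm (poly a) 4 (TP d) ≤ ENNReal.ofReal (C / Real.sqrt n)} with hV
  have hvol1 := hvol n hn
  rw [← hV] at hvol1
  have hsub : V ⊆ ⋃ j : Fin (2 ^ k), {x | x ∈ V ∧
      eLpNorm (fun t => ((L : ℝ) : ℂ) * poly x t - cc j t) (ENNReal.ofReal p) (TP d) ≤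
        ENNReal.ofReal ε} := by
    intro x hx
    obtain ⟨j, hj⟩ := hcov _ (mem_Wbar_753 hn a b x hx.1)
    exact Set.mem_iUnion.2 ⟨j, hx, hj⟩
  have hpiece : ∀ j : Fin (2 ^ k), volume {x | x ∈ V ∧
      eLpNorm (fun t => ((L : ℝ) : ℂ) * poly x t - cc j t) (ENNReal.ofReal p) (TP d) ≤
        ENNReal.ofReal ε} ≤
      ENNReal.ofReal ((Real.sqrt (2 * π * Real.exp 1 / ((2 * (layer d n).card : ℕ) : ℝ)) * R) ^
        (2 * (layer d n).card)) := by
    intro j
    rcases Set.eq_empty_or_nonempty {x | x ∈ V ∧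
      eLpNorm (fun t => ((L : ℝ) : ℂ) * poly x t - cc j t) (ENNReal.ofReal p) (TP d) ≤
        ENNReal.ofReal ε} with h | ⟨y, hy⟩
    · rw [h, measure_empty]; exact zero_le
    · have hlv := lower_vol y R hR0 (by rw [hNcard]; exact hNpos)
      rw [hNcard] at hlv
      refine (measure_mono ?_).trans hlv
      intro x hx
      have e1 := diff_753 p hp L ε hL hε (cc j) (hcc j) x y hx.2 hy.2
      have e2 := four_753 (C / Real.sqrt n) (by positivity) x y hx.1.2 hy.1.2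
      have e3 := int1_753 _ _ (by positivity) e1
      have e4 := int4_753 _ _ (by positivity) e2
      have e5 := interp_753 (fun i => x i - y i) A0 B0 s hA0pos hs0 hs3 (by rw [hA0]; exact e3)
        (by rw [hB0]; exact e4)
      show ∑ i, (x i - y i) ^ 2 ≤ R ^ 2
      rw [hR2]
      exact e5
  have hk' : k ≤ 2 * (layer d n).card := by exact_mod_cast hk
  obtain ⟨N, hN⟩ : ∃ N, N = 2 * (layer d n).card := ⟨_, rfl⟩
  rw [← hN] at hpiece hvol1 hk' hNpos
  have hNr : (0 : ℝ) < N := by exact_mod_cast hNpos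
  have htot : volume V ≤ ENNReal.ofReal ((2 * (Real.sqrt (2 * π * Real.exp 1 / (N : ℝ)) * R)) ^ N) := by
    calc volume V ≤ _ := measure_mono hsub
      _ ≤ ∑ j : Fin (2 ^ k), volume {x | x ∈ V ∧
          eLpNorm (fun t => ((L : ℝ) : ℂ) * poly x t - cc j t) (ENNReal.ofReal p) (TP d) ≤
          ENNReal.ofReal ε} := measure_iUnion_fintype_le _ _
      _ ≤ ∑ j : Fin (2 ^ k), ENNReal.ofReal
          ((Real.sqrt (2 * π * Real.exp 1 / (N : ℝ)) * R) ^ N) :=
          Finset.sum_le_sum fun j _ => hpiece j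
      _ = ENNReal.ofReal ((2 : ℝ) ^ k * (Real.sqrt (2 * π * Real.exp 1 / (N : ℝ)) * R) ^ N) := by
          have hcast : ((2 ^ k : ℕ) : ENNReal) = ENNReal.ofReal ((2 : ℝ) ^ k) := by
            rw [ENNReal.ofReal_pow (by norm_num)]; simp
          rw [Finset.sum_const, Finset.card_univ, Fintype.card_fin, nsmul_eq_mul, hcast,
            ← ENNReal.ofReal_mul (by positivity)]
      _ ≤ ENNReal.ofReal ((2 * (Real.sqrt (2 * π * Real.exp 1 / (N : ℝ)) * R)) ^ N) := by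
          apply ENNReal.ofReal_le_ofReal
          rw [mul_pow 2]
          apply mul_le_mul_of_nonneg_right _ (by positivity)
          exact pow_le_pow_right₀ (by norm_num) hk'
  have hmain := (ENNReal.ofReal_le_ofReal_iff (by positivity)).1 (hvol1.trans htot)
  have hroot : c0 * (Real.sqrt (2 ^ n * (n : ℝ) ^ d))⁻¹ ≤
      2 * (Real.sqrt (2 * π * Real.exp 1 / (N : ℝ)) * R) :=
    le_of_pow_le_pow_left₀ hNpos.ne' (by positivity) hmain
  -- square
  have hsq := pow_le_pow_left₀ (by positivity) hroot 2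
  rw [mul_pow, inv_pow, Real.sq_sqrt (by positivity), mul_pow, mul_pow,
    Real.sq_sqrt (by positivity)] at hsq
  have hNlow : 2 * 2 ^ n * (c1 * (n : ℝ) ^ (d - 1)) ≤ (N : ℝ) := by
    rw [hN, hcard]
    push_cast
    have := mul_le_mul_of_nonneg_left hshp' (by positivity : (0 : ℝ) ≤ 2 * 2 ^ n)
    linarith
  obtain ⟨d', rfl⟩ : ∃ d', d = d' + 1 := ⟨d - 1, by omega⟩
  rw [Nat.add_sub_cancel] at hNlow
  have hR2low : c0 ^ 2 * c1 / (4 * π * Real.exp 1) / n ≤ R ^ 2 := by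
    have h1 : c0 ^ 2 * (2 ^ n * (n : ℝ) ^ (d' + 1))⁻¹ ≤
        2 ^ 2 * (2 * π * Real.exp 1 / (2 * 2 ^ n * (c1 * (n : ℝ) ^ d')) * R ^ 2) := by
      refine hsq.trans ?_
      apply mul_le_mul_of_nonneg_left _ (by norm_num)
      apply mul_le_mul_of_nonneg_right _ (by positivity)
      exact div_le_div_of_nonneg_left (by positivity) (by positivity) hNlow
    have h2 : c0 ^ 2 * (2 ^ n * (n : ℝ) ^ (d' + 1))⁻¹ =
        (c0 ^ 2 * c1 / (4 * π * Real.exp 1) / n) *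
          (4 * π * Real.exp 1 / (c1 * 2 ^ n * (n : ℝ) ^ d')) := by
      field_simp
      ring
    have h3 : 2 ^ 2 * (2 * π * Real.exp 1 / (2 * 2 ^ n * (c1 * (n : ℝ) ^ d')) * R ^ 2) =
        R ^ 2 * (4 * π * Real.exp 1 / (c1 * 2 ^ n * (n : ℝ) ^ d')) := by
      field_simp
      ring
    rw [h2, h3] at h1
    exact le_of_mul_le_mul_right h1 (by positivity)
  have hcube := pow_le_pow_left₀ (by positivity) hR2low 3
  rw [hR6] at hcube
  have hq2 : (c0 ^ 2 * c1 / (4 * π * Real.exp 1)) ^ 3 / (64 * C ^ 4) * (n : ℝ)⁻¹ ≤ q ^ 2 := by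
    have h1 : (c0 ^ 2 * c1 / (4 * π * Real.exp 1) / n) ^ 3 =
        ((c0 ^ 2 * c1 / (4 * π * Real.exp 1)) ^ 3 / (64 * C ^ 4) * (n : ℝ)⁻¹) *
          (64 * C ^ 4 / (n : ℝ) ^ 2) := by
      field_simp
    have h2 : 64 * C ^ 4 * q ^ 2 / (n : ℝ) ^ 2 = q ^ 2 * (64 * C ^ 4 / (n : ℝ) ^ 2) := by
      field_simp
    rw [h1, h2] at hcube
    exact le_of_mul_le_mul_right hcube (by positivity)
  have hq3 : Real.sqrt ((c0 ^ 2 * c1 / (4 * π * Real.exp 1)) ^ 3 / (64 * C ^ 4)) *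
      (n : ℝ) ^ (-(1 / 2) : ℝ) ≤ q := by
    have h1 := Real.sqrt_le_sqrt hq2
    rw [Real.sqrt_sq hq0.le, Real.sqrt_mul (by positivity), Real.sqrt_inv] at h1
    have h2 : (n : ℝ) ^ (-(1 / 2) : ℝ) = (Real.sqrt n)⁻¹ := by
      rw [Real.rpow_neg hn0.le, Real.sqrt_eq_rpow]
    rw [h2]
    exact h1
  have hLval : L = (2 : ℝ) ^ (-(a * n)) * (n : ℝ) ^ ((((d' + 1 : ℕ) : ℝ) - 1) * b) := by
    rw [hLdef]
    unfold lam
    rw [max_eq_left hnr]
  have hfin : q * L = ε := by rw [hq]; field_simp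
  rw [sub_eq_add_neg _ (1 / 2 : ℝ), Real.rpow_add hn0]
  calc Real.sqrt ((c0 ^ 2 * c1 / (4 * π * Real.exp 1)) ^ 3 / (64 * C ^ 4)) *
        (2 : ℝ) ^ (-(a * n)) * ((n : ℝ) ^ ((((d' + 1 : ℕ) : ℝ) - 1) * b) *
          (n : ℝ) ^ (-(1 / 2) : ℝ))
      = (Real.sqrt ((c0 ^ 2 * c1 / (4 * π * Real.exp 1)) ^ 3 / (64 * C ^ 4)) *
          (n : ℝ) ^ (-(1 / 2) : ℝ)) * L := by
        rw [hLval]; ring
    _ ≤ q * L := mul_le_mul_of_nonneg_right hq3 hL.le
    _ = ε := hfin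


theorem lower_bar (d : ℕ) (hd : 1 ≤ d) (p : ℝ) (hp : 1 ≤ p) (a b : ℝ) (ha : 0 < a) : ∃ c : ℝ, 0 < c ∧
    ∀ k : ℕ, 2 ≤ k → ENNReal.ofReal (c * (k:ℝ)^(-a) * (Real.log k)^(((d:ℝ)-1) * (a + b) - 1/2))
      ≤ entP d p k (Wbar d a b) := by
  obtain ⟨c0, hc0, h1⟩ := lower_cover_bar d hd p hp a b
  obtain ⟨c, hc, h2⟩ := k_num_low1 d hd a (((d:ℝ)-1) * b) c0 ha hc0
  refine ⟨c, hc, fun k hk => ?_⟩
  unfold entP
  refine le_iInf₂ (fun ε hε => ?_)
  by_cases htop : ε = ⊤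
  · rw [htop]; exact le_top
  · obtain ⟨n, hn, hkn, hle⟩ := h2 k hk
    obtain ⟨hε0, cc, hcc, hcov⟩ := hε
    have hpos : 0 < ε.toReal := ENNReal.toReal_pos hε0.ne' htop
    have h3 := h1 n k ε.toReal hn hpos hkn ⟨cc, hcc, by
      rw [ENNReal.ofReal_toReal htop]; exact hcov⟩
    apply ENNReal.ofReal_le_of_le_toReal
    have e : ((d:ℝ)-1) * (a + b) - 1/2 = ((d:ℝ)-1) * a + ((d:ℝ)-1) * b - 1/2 := by ring
    rw [e]
    exact hle.trans h3

end Sol_lower_bar

alias lower_bar := Sol_lower_bar.lower_bar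

end MWidth
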