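import Pool.Agent.HypVol.Defs
import Pool.Agent.MWidth.Defs
import Pool.Agent.HypVol.L_TP_prob
import Pool.Agent.MWidth.L_cover_W2
import Pool.Agent.MWidth.L_k_num
import Pool.Agent.MWidth.L_W_tail
open MeasureTheory Real ProbabilityTheory
open scoped ENNReal BigOperators

namespace MWidth
open HypVol
namespace Sol_upper_W2












theorem upper_W2 (d : ℕ) (hd : 3 ≤ d) (p : ℝ) (hp : 1 ≤ p) (a b : ℝ) (ha : 1 / 2 < a) (ha2 : 1 - 1 / p < a) : ∃ C : ℝ, 0 < C ∧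
    ∀ k : ℕ, 2 ≤ k → entP d p k (Wab d a b)
      ≤ ENNReal.ofReal (C * (k:ℝ)^(-a) * (Real.log k)^(((d:ℝ)-1) * (a + b) - 1/2)) := by
  classical
  haveI := TP_prob d
  have ha0 : 0 < a := by linarith
  obtain ⟨C0, hC0, hcov⟩ := cover_W2 d hd p hp a b ha ha2
  obtain ⟨C1, hC1, hk⟩ := k_num (d-1) a (((d:ℝ)-1) * b) C0 ha0 hC0
  have hlam : ∀ n, 0 ≤ lam d a b n := by
    intro n
    unfold lam
    have h1 : (0:ℝ) < max (n:ℝ) 1 := lt_of_lt_of_le one_pos (le_max_right _ _)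
    positivity
  set T : ℝ := ∑' n : ℕ, lam d a b (n + 0) with hT
  have hT0 : 0 ≤ T := tsum_nonneg (fun n => hlam _)
  have hcast : (((d-1 : ℕ)) : ℝ) = (d:ℝ) - 1 := by
    rw [Nat.cast_sub (by omega)]; simp
  have hE : (((d-1 : ℕ)) : ℝ) * a + ((d:ℝ)-1) * b - 1/2 = ((d:ℝ)-1) * (a + b) - 1/2 := by
    rw [hcast]; ring
  rw [hE] at hk
  refine ⟨C1 * (1 + (T + 1)), by positivity, ?_⟩
  intro k hk2
  set R : ℝ := (k:ℝ)^(-a) * (Real.log k)^(((d:ℝ)-1) * (a + b) - 1/2) with hR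
  have hR0 : 0 ≤ R := by
    have h1 : 0 ≤ Real.log k := Real.log_natCast_nonneg k
    positivity
  have hgoal : C1 * (1 + (T + 1)) * (k:ℝ)^(-a) * (Real.log k)^(((d:ℝ)-1) * (a + b) - 1/2)
      = C1 * R + (T + 1) * (C1 * R) := by rw [hR]; ring
  rw [hgoal]
  have hp0 : ENNReal.ofReal p ≤ ⊤ := le_top
  rcases hk k hk2 with ⟨m, hm, hexp, hle⟩ | ⟨-, hone⟩
  · obtain ⟨G, hGm, hGc, hGf⟩ := hcov m hm
    have hcard : G.card ≤ 2^k := by
      have : (G.card : ℝ) ≤ ((2^k : ℕ) : ℝ) := by push_cast; exact hGc.trans hexp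
      exact_mod_cast this
    let c : Fin (2^k) → ((Fin d → ℝ) → ℂ) := fun j =>
      if h : (j : ℕ) < G.card then (G.equivFin.symm ⟨j, h⟩ : (Fin d → ℝ) → ℂ) else 0
    have hcmem : ∀ j, MemLp (c j) (ENNReal.ofReal p) (TP d) := by
      intro j
      by_cases h : (j : ℕ) < G.card
      · simp only [c, dif_pos h]
        exact hGm _ (G.equivFin.symm ⟨j, h⟩).2
      · simp only [c, dif_neg h]
        exact MemLp.zero
    have hcov' : ∀ f ∈ Wab d a b, ∃ j, eLpNorm (fun x => f x - c j x) (ENNReal.ofReal p) (TP d)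
        ≤ ENNReal.ofReal (C0 * (2:ℝ)^(-(a * m)) * (m:ℝ)^(((d:ℝ)-1) * b - 1/2)) := by
      intro f hf
      obtain ⟨g, hg, hgl⟩ := hGf f hf
      let i := G.equivFin ⟨g, hg⟩
      have hi : (i : ℕ) < G.card := i.2
      refine ⟨⟨i, lt_of_lt_of_le hi hcard⟩, ?_⟩
      have hc : c ⟨i, lt_of_lt_of_le hi hcard⟩ = g := by
        simp only [c]
        rw [dif_pos hi]
        simp [i]
      rw [hc]
      exact hgl
    have hpos : (0:ℝ≥0∞) < ENNReal.ofReal (C0 * (2:ℝ)^(-(a * m)) * (m:ℝ)^(((d:ℝ)-1) * b - 1/2)) := by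
      rw [ENNReal.ofReal_pos]
      have hm0 : (0:ℝ) < m := by exact_mod_cast hm
      positivity
    have h1 : entP d p k (Wab d a b) ≤
        ENNReal.ofReal (C0 * (2:ℝ)^(-(a * m)) * (m:ℝ)^(((d:ℝ)-1) * b - 1/2)) := by
      unfold entP
      exact iInf₂_le _ ⟨hpos, c, hcmem, hcov'⟩
    refine h1.trans (ENNReal.ofReal_le_ofReal ?_)
    have h2 : C1 * (k:ℝ)^(-a) * (Real.log k)^(((d:ℝ)-1) * (a + b) - 1/2) = C1 * R := by
      rw [hR]; ring
    rw [h2] at hle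
    have h3 : 0 ≤ (T + 1) * (C1 * R) := by positivity
    linarith
  · have h2 : C1 * (k:ℝ)^(-a) * (Real.log k)^(((d:ℝ)-1) * (a + b) - 1/2) = C1 * R := by
      rw [hR]; ring
    rw [h2] at hone
    have hpos : (0:ℝ≥0∞) < ENNReal.ofReal (T + 1) := by
      rw [ENNReal.ofReal_pos]; linarith
    have hcov' : ∀ f ∈ Wab d a b, ∃ j : Fin (2^k), eLpNorm (fun x => f x - (fun (_ : Fin (2^k)) => (0 : (Fin d → ℝ) → ℂ)) j x)
        (ENNReal.ofReal p) (TP d) ≤ ENNReal.ofReal (T + 1) := by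
      intro f hf
      refine ⟨⟨0, by positivity⟩, ?_⟩
      have e1 : (fun x => f x - (0 : (Fin d → ℝ) → ℂ) x) = f := by
        funext x; simp
      show eLpNorm (fun x => f x - (0 : (Fin d → ℝ) → ℂ) x) (ENNReal.ofReal p) (TP d) ≤ _
      rw [e1]
      have h3 := W_tail d (by omega) a b ha0 f hf 0
      have e2 : (fun x => f x - ∑ n ∈ Finset.range 0, lay d n f x) = f := by
        funext x; simp
      rw [e2] at h3
      have h4 : eLpNorm f (ENNReal.ofReal p) (TP d) ≤ eLpNorm f ⊤ (TP d) :=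
        eLpNorm_le_eLpNorm_of_exponent_le hp0 hf.1.aestronglyMeasurable
      refine h4.trans (h3.trans (ENNReal.ofReal_le_ofReal ?_))
      linarith
    have h1 : entP d p k (Wab d a b) ≤ ENNReal.ofReal (T + 1) := by
      unfold entP
      exact iInf₂_le _ ⟨hpos, fun _ => 0, fun _ => MemLp.zero, hcov'⟩
    refine h1.trans (ENNReal.ofReal_le_ofReal ?_)
    have h5 : (T + 1) * 1 ≤ (T + 1) * (C1 * R) := by
      apply mul_le_mul_of_nonneg_left hone; linarith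
    have h6 : 0 ≤ C1 * R := by positivity
    linarith

end Sol_upper_W2

alias upper_W2 := Sol_upper_W2.upper_W2

end MWidth
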