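import Pool.Agent.HypVol.Defs
import Pool.Agent.MWidth.Defs
import Pool.Agent.MWidth.Defs2
import Pool.Agent.HypVol.L_TP_prob
import Pool.Agent.MWidth.L_cover_bar
import Pool.Agent.MWidth.L_k_num
import Pool.Agent.MWidth.L_TQ_dec
open MeasureTheory Real ProbabilityTheory
open scoped ENNReal BigOperators

namespace MWidth
open HypVol
namespace Sol_upper_bar











theorem wt_lam_nonneg (d : ℕ) (a b : ℝ) (n : ℕ) : 0 ≤ lam d a b n := by
  unfold lam; positivity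

theorem wt_lam_summable (d : ℕ) (a b : ℝ) (ha : 0 < a) : Summable (lam d a b) := by
  obtain ⟨K, hK⟩ := exists_nat_ge (((d:ℝ) - 1) * b)
  obtain ⟨r, hr⟩ : ∃ r : ℝ, r = (2:ℝ)^(-a) := ⟨_, rfl⟩
  have hr0 : 0 < r := by rw [hr]; positivity
  have hr1 : r < 1 := by
    rw [hr]; exact Real.rpow_lt_one_of_one_lt_of_neg (by norm_num) (by linarith)
  have h1 : Summable (fun n : ℕ => (n:ℝ)^K * r^n) :=
    summable_pow_mul_geometric_of_norm_lt_one K (by rw [Real.norm_of_nonneg hr0.le]; exact hr1)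
  have h2 : Summable (fun n : ℕ => r^n) := summable_geometric_of_lt_one hr0.le hr1
  refine Summable.of_nonneg_of_le (fun n => wt_lam_nonneg d a b n) (fun n => ?_) (h1.add h2)
  unfold lam
  have e1 : (2:ℝ)^(-(a * n)) = r^n := by
    rw [hr, ← Real.rpow_natCast, ← Real.rpow_mul (by norm_num)]
    congr 1; ring
  have e2 : (max (n:ℝ) 1)^(((d:ℝ)-1)*b) ≤ (n:ℝ)^K + 1 := by
    calc (max (n:ℝ) 1)^(((d:ℝ)-1)*b) ≤ (max (n:ℝ) 1)^(K:ℝ) :=
          Real.rpow_le_rpow_of_exponent_le (le_max_right _ _) hK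
      _ = (max (n:ℝ) 1)^K := Real.rpow_natCast _ _
      _ ≤ (n:ℝ)^K + 1 := by
        rcases le_total (n:ℝ) 1 with h | h
        · rw [max_eq_right h, one_pow]
          have : 0 ≤ (n:ℝ)^K := by positivity
          linarith
        · rw [max_eq_left h]; linarith
  rw [e1]
  calc r^n * (max (n:ℝ) 1)^(((d:ℝ)-1)*b) ≤ r^n * ((n:ℝ)^K + 1) := by gcongr
    _ = (n:ℝ)^K * r^n + r^n := by ring



theorem upper_bar (d : ℕ) (hd : 3 ≤ d) (p : ℝ) (hp : 1 ≤ p) (a b : ℝ) (ha : 1 / 2 < a) (ha2 : 1 - 1 / p < a) : ∃ C : ℝ, 0 < C ∧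
    ∀ k : ℕ, 2 ≤ k → entP d p k (Wbar d a b)
      ≤ ENNReal.ofReal (C * (k:ℝ)^(-a) * (Real.log k)^(((d:ℝ)-1) * (a + b) - 1/2)) := by
  classical
  haveI := TP_prob d
  have ha0 : 0 < a := by linarith
  obtain ⟨C0, hC0, hcov⟩ := cover_bar d hd p hp a b ha ha2
  obtain ⟨C1, hC1, hk⟩ := k_num (d-1) a (((d:ℝ)-1) * b) C0 ha0 hC0
  have hlam : ∀ n, 0 ≤ lam d a b n := by
    intro n
    unfold lam
    have h1 : (0:ℝ) < max (n:ℝ) 1 := lt_of_lt_of_le one_pos (le_max_right _ _)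
    positivity
  have hsum : Summable (fun n : ℕ => lam d a b (n + 1)) :=
    (summable_nat_add_iff 1).mpr (wt_lam_summable d a b ha0)
  set T : ℝ := ∑' n : ℕ, lam d a b (n + 1) with hT
  have hT0 : 0 ≤ T := tsum_nonneg (fun n => hlam _)
  have hcast : (((d-1 : ℕ)) : ℝ) = (d:ℝ) - 1 := by
    rw [Nat.cast_sub (by omega)]; simp
  have hE : (((d-1 : ℕ)) : ℝ) * a + ((d:ℝ)-1) * b - 1/2 = ((d:ℝ)-1) * (a + b) - 1/2 := by
    rw [hcast]; ring
  rw [hE] at hk
  refine ⟨C1 * (1 + (T + 1)), by positivity, ?_⟩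
  intro k hk2
  set R : ℝ := (k:ℝ)^(-a) * (Real.log k)^(((d:ℝ)-1) * (a + b) - 1/2) with hR
  have hR0 : 0 ≤ R := by
    have h1 : 0 ≤ Real.log k := Real.log_natCast_nonneg k
    positivity
  have hgoal : C1 * (1 + (T + 1)) * (k:ℝ)^(-a) * (Real.log k)^(((d:ℝ)-1) * (a + b) - 1/2)
      = C1 * R + (T + 1) * (C1 * R) := by rw [hR]; ring
  rw [hgoal]
  have hp0 : ENNReal.ofReal p ≤ ⊤ := le_top
  rcases hk k hk2 with ⟨m, hm, hexp, hle⟩ | ⟨-, hone⟩
  · obtain ⟨G, hGm, hGc, hGf⟩ := hcov m hm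
    have hcard : G.card ≤ 2^k := by
      have : (G.card : ℝ) ≤ ((2^k : ℕ) : ℝ) := by push_cast; exact hGc.trans hexp
      exact_mod_cast this
    let c : Fin (2^k) → ((Fin d → ℝ) → ℂ) := fun j =>
      if h : (j : ℕ) < G.card then (G.equivFin.symm ⟨j, h⟩ : (Fin d → ℝ) → ℂ) else 0
    have hcmem : ∀ j, MemLp (c j) (ENNReal.ofReal p) (TP d) := by
      intro j
      by_cases h : (j : ℕ) < G.card
      · simp only [c, dif_pos h]
        exact hGm _ (G.equivFin.symm ⟨j, h⟩).2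
      · simp only [c, dif_neg h]
        exact MemLp.zero
    have hcov' : ∀ f ∈ Wbar d a b, ∃ j, eLpNorm (fun x => f x - c j x) (ENNReal.ofReal p) (TP d)
        ≤ ENNReal.ofReal (C0 * (2:ℝ)^(-(a * m)) * (m:ℝ)^(((d:ℝ)-1) * b - 1/2)) := by
      intro f hf
      obtain ⟨g, hg, hgl⟩ := hGf f hf
      let i := G.equivFin ⟨g, hg⟩
      have hi : (i : ℕ) < G.card := i.2
      refine ⟨⟨i, lt_of_lt_of_le hi hcard⟩, ?_⟩
      have hc : c ⟨i, lt_of_lt_of_le hi hcard⟩ = g := by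
        simp only [c]
        rw [dif_pos hi]
        simp [i]
      rw [hc]
      exact hgl
    have hpos : (0:ℝ≥0∞) < ENNReal.ofReal (C0 * (2:ℝ)^(-(a * m)) * (m:ℝ)^(((d:ℝ)-1) * b - 1/2)) := by
      rw [ENNReal.ofReal_pos]
      have hm0 : (0:ℝ) < m := by exact_mod_cast hm
      positivity
    have h1 : entP d p k (Wbar d a b) ≤
        ENNReal.ofReal (C0 * (2:ℝ)^(-(a * m)) * (m:ℝ)^(((d:ℝ)-1) * b - 1/2)) := by
      unfold entP
      exact iInf₂_le _ ⟨hpos, c, hcmem, hcov'⟩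
    refine h1.trans (ENNReal.ofReal_le_ofReal ?_)
    have h2 : C1 * (k:ℝ)^(-a) * (Real.log k)^(((d:ℝ)-1) * (a + b) - 1/2) = C1 * R := by
      rw [hR]; ring
    rw [h2] at hle
    have h3 : 0 ≤ (T + 1) * (C1 * R) := by positivity
    linarith
  · have h2 : C1 * (k:ℝ)^(-a) * (Real.log k)^(((d:ℝ)-1) * (a + b) - 1/2) = C1 * R := by
      rw [hR]; ring
    rw [h2] at hone
    have hpos : (0:ℝ≥0∞) < ENNReal.ofReal (T + 1) := by
      rw [ENNReal.ofReal_pos]; linarith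
    have hcov' : ∀ f ∈ Wbar d a b, ∃ j : Fin (2^k), eLpNorm (fun x => f x - (fun (_ : Fin (2^k)) => (0 : (Fin d → ℝ) → ℂ)) j x)
        (ENNReal.ofReal p) (TP d) ≤ ENNReal.ofReal (T + 1) := by
      intro f hf
      refine ⟨⟨0, by positivity⟩, ?_⟩
      have e1 : (fun x => f x - (0 : (Fin d → ℝ) → ℂ) x) = f := by
        funext x; simp
      show eLpNorm (fun x => f x - (0 : (Fin d → ℝ) → ℂ) x) (ENNReal.ofReal p) (TP d) ≤ _
      rw [e1]
      obtain ⟨t, ht, rfl⟩ := hf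
      have hb : ∀ x, ∀ n : ℕ, ‖t (n + 1) x‖ ≤ lam d a b (n + 1) := by
        intro x n
        obtain ⟨h1, h2⟩ := ht (n + 1) (by omega)
        have hl : 0 < lam d a b (n + 1) := by
          unfold lam; positivity
        exact (TQ_dec d (n + 1) (by omega) (t (n + 1)) h1 _ hl h2).1 x
      have hbd : ∀ x, ‖∑' n : ℕ, t (n + 1) x‖ ≤ T := by
        intro x
        have hsn : Summable (fun n : ℕ => ‖t (n + 1) x‖) :=
          Summable.of_nonneg_of_le (fun n => norm_nonneg _) (hb x) hsum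
        exact (norm_tsum_le_tsum_norm hsn).trans (hsn.tsum_le_tsum (hb x) hsum)
      have h4 := eLpNorm_le_of_ae_bound (p := ENNReal.ofReal p) (μ := TP d)
        (Filter.Eventually.of_forall hbd)
      rw [measure_univ, ENNReal.one_rpow, one_mul] at h4
      refine h4.trans (ENNReal.ofReal_le_ofReal ?_)
      linarith
    have h1 : entP d p k (Wbar d a b) ≤ ENNReal.ofReal (T + 1) := by
      unfold entP
      exact iInf₂_le _ ⟨hpos, fun _ => 0, fun _ => MemLp.zero, hcov'⟩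
    refine h1.trans (ENNReal.ofReal_le_ofReal ?_)
    have h5 : (T + 1) * 1 ≤ (T + 1) * (C1 * R) := by
      apply mul_le_mul_of_nonneg_left hone; linarith
    have h6 : 0 ≤ C1 * R := by positivity
    linarith

end Sol_upper_bar

alias upper_bar := Sol_upper_bar.upper_bar

end MWidth
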